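import Pool.Agent.Lib.MP_63e749_al.Join

/-!
# JOB PERF: the complement of the cone points is path connected with perfect fundamental group

Cover `CC` by the open stars `O_d = {x | x (inl d) ≠ 0}`, `d : W`. Each `O_d` is star shaped:
`(x, τ) ↦ (1 - τ) x + τ d` is a homotopy inside `O_d` (it stays in the closed simplex carrying `x`).
Let `φ : π_1(CC, c) → B` be a homomorphism to an abelian group. Choose paths `β_x` from `c` to `x`
for every `x ∈ CC` and put `F(p) = φ [β_x p β_y⁻¹]` for a path `p : x → y` in `CC`; `F` is additive and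
homotopy invariant. On straight edges between vertices it is a cocycle for `S`, hence a coboundary by
`H1Zero`. Subdivide a loop such that every piece lies in some `O_d`
(`exists_monotone_Icc_subset_open_cover_unitInterval`); the piece from `x` to `y` in `O_d` is
homotopic to the straight path `x → d` followed by `d → y`, and for `x ∈ O_d ∩ O_{d'}` the path
`d → x → d'` is homotopic to the straight edge. So `F` of the loop is a telescoping sum.
-/

set_option autoImplicit false

open Topology Set
open scoped Topology unitInterval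

namespace Pool.Agent.GCW

noncomputable section

/-- Vanishing of the first cohomology of the flag complex of `S`, with all abelian coefficient
groups. -/
def H1Zero {W : Type} (S : W → W → Prop) : Prop :=
  ∀ (B : Type) [CommGroup B] (c : W → W → B),
    (∀ u v w, S u v → S v w → S u w → c u v * c v w = c u w) →
    ∃ ψ : W → B, ∀ u v, S u v → c u v = (ψ u)⁻¹ * ψ v

/-! ### Additive functions of paths -/

section Abstract

variable {X : Type} [TopologicalSpace X] {B : Type} [CommGroup B] {c : X}

/-- The value of `φ` on a path, closed up with the base paths `β`. -/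
private def jpF (φ : FundamentalGroup X c →* B) (β : ∀ x : X, Path c x) {x y : X} (p : Path x y) :
    B :=
  φ (FundamentalGroup.fromPath (Path.Homotopic.Quotient.mk ((β x).trans (p.trans (β y).symm))))

variable (φ : FundamentalGroup X c →* B) (β : ∀ x : X, Path c x)

private theorem jpF_homotopic {x y : X} {p q : Path x y} (h : p.Homotopic q) :
    jpF φ β p = jpF φ β q := by
  unfold jpF
  have : Path.Homotopic.Quotient.mk p = Path.Homotopic.Quotient.mk q :=
    Path.Homotopic.Quotient.eq.mpr h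
  simp only [Path.Homotopic.Quotient.mk_trans, this]

private theorem jpF_trans {x y z : X} (p : Path x y) (q : Path y z) :
    jpF φ β (p.trans q) = jpF φ β p * jpF φ β q := by
  unfold jpF
  rw [mul_comm, ← map_mul, FundamentalGroup.mul_def]
  congr 1
  simp only [Path.Homotopic.Quotient.mk_trans, Path.Homotopic.Quotient.mk_symm]
  simp only [Path.Homotopic.Quotient.trans_assoc]
  congr 2
  rw [← Path.Homotopic.Quotient.trans_assoc (Path.Homotopic.Quotient.mk (β y)).symm,
    Path.Homotopic.Quotient.symm_trans, Path.Homotopic.Quotient.refl_trans]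

private theorem jpF_loop (p : Path c c) :
    jpF φ β p = φ (FundamentalGroup.fromPath (Path.Homotopic.Quotient.mk p)) := by
  have h1 : ∀ a b : FundamentalGroup X c, φ (a * b * a⁻¹) = φ b := by
    intro a b
    rw [map_mul, map_mul, map_inv, mul_comm (φ a), mul_inv_cancel_right]
  rw [← h1 (FundamentalGroup.fromPath (Path.Homotopic.Quotient.mk (β c)).symm)]
  unfold jpF
  rw [FundamentalGroup.mul_def, FundamentalGroup.mul_def, FundamentalGroup.inv_def]
  have h2 : (Path.Homotopic.Quotient.mk (β c)).symm.symm = Path.Homotopic.Quotient.mk (β c) := by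
    rw [← Path.Homotopic.Quotient.mk_symm, ← Path.Homotopic.Quotient.mk_symm, Path.symm_symm]
  congr 1
  show _ = Path.Homotopic.Quotient.trans (Path.Homotopic.Quotient.mk (β c)).symm.symm
    ((Path.Homotopic.Quotient.mk p).trans (Path.Homotopic.Quotient.mk (β c)).symm)
  rw [h2]
  rfl

private theorem jpF_cast {x y x' y' : X} (p : Path x y) (hx : x' = x) (hy : y' = y) :
    jpF φ β (p.cast hx hy) = jpF φ β p := by
  subst hx
  subst hy
  rfl

/-- If `F` is given on short paths by a potential, then on all paths. -/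
private theorem jpF_potential {ι : Type} (O : ι → Set X) (hO : ∀ i, IsOpen (O i))
    (hcov : ∀ x, ∃ i, x ∈ O i) (G : X → B)
    (hG : ∀ (i : ι) (x y : X) (p : Path x y), (∀ t, p t ∈ O i) →
      jpF φ β p = G x * (G y)⁻¹) {x y : X} (p : Path x y) :
    jpF φ β p = G x * (G y)⁻¹ := by
  obtain ⟨t, ht0, hmono, ⟨n, hn⟩, hsub⟩ :=
    exists_monotone_Icc_subset_open_cover_unitInterval (ι := ι) (c := fun i => p ⁻¹' (O i))
      (fun i => (hO i).preimage p.continuous) (by
        intro s _
        obtain ⟨i, hi⟩ := hcov (p s)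
        exact mem_iUnion.mpr ⟨i, hi⟩)
  have key : ∀ n : ℕ, jpF φ β (p.subpath 0 (t n)) = G (p 0) * (G (p (t n)))⁻¹ := by
    intro n
    induction n with
    | zero =>
      obtain ⟨i, hi⟩ := hcov (p 0)
      apply hG i
      intro s
      have : p.subpath 0 (t 0) s ∈ range (p.subpath 0 (t 0)) := mem_range_self s
      rw [Path.range_subpath] at this
      obtain ⟨r, hr, hr'⟩ := this
      rw [ht0, uIcc_self, mem_singleton_iff] at hr
      rw [← hr', hr]
      exact hi
    | succ n ih =>
      rw [← jpF_homotopic φ β ⟨Path.Homotopy.subpathTransSubpath p 0 (t n) (t (n + 1))⟩,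
        jpF_trans, ih]
      obtain ⟨i, hi⟩ := hsub n
      rw [hG i _ _ (p.subpath (t n) (t (n + 1))) ?_]
      · group
      · intro s
        have : p.subpath (t n) (t (n + 1)) s ∈ range (p.subpath (t n) (t (n + 1))) :=
          mem_range_self s
        rw [Path.range_subpath_of_le _ _ _ (hmono (Nat.le_succ n))] at this
        obtain ⟨r, hr, hr'⟩ := this
        rw [← hr']
        exact hi hr
  have h1 := key n
  rw [hn n le_rfl, Path.subpath_zero_one, jpF_cast] at h1
  rw [h1, p.source, p.target]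

/-- Paths in a simply connected subset are homotopic. -/
private theorem jp_homotopic_of_mem {A : Set X} (hA : SimplyConnectedSpace A) {x y : X}
    (p q : Path x y) (hp : ∀ t, p t ∈ A) (hq : ∀ t, q t ∈ A) : p.Homotopic q := by
  have hx : x ∈ A := by simpa using hp 0
  have hy : y ∈ A := by simpa using hp 1
  let p' : Path (⟨x, hx⟩ : A) ⟨y, hy⟩ :=
    { toFun := fun t => ⟨p t, hp t⟩
      continuous_toFun := p.continuous.subtype_mk _
      source' := Subtype.ext p.source
      target' := Subtype.ext p.target }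
  let q' : Path (⟨x, hx⟩ : A) ⟨y, hy⟩ :=
    { toFun := fun t => ⟨q t, hq t⟩
      continuous_toFun := q.continuous.subtype_mk _
      source' := Subtype.ext q.source
      target' := Subtype.ext q.target }
  have h : p'.Homotopic q' := SimplyConnectedSpace.paths_homotopic p' q'
  exact h.map (⟨Subtype.val, continuous_subtype_val⟩ : C(A, X))

end Abstract

/-! ### Segments to a vertex -/

section Geometric

variable {W : Type} {S : W → W → Prop} {T : Type}

/-- The segment from `x` to the vertex `d` lies in a closed simplex. -/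
private def jpJ (d : W) (x : FReal (JR S T)) : Prop :=
  ∃ s : Face (JR S T), Sum.inl d ∈ s.1 ∧ ∀ v, v ∉ s.1 → x.1 v = 0

open Classical in
private theorem jpPt_aux (d : W) (x : FReal (JR S T)) (τ : I) (h : jpJ d x) :
    (∀ v, 0 ≤ (1 - (τ : ℝ)) * x.1 v + (if v = Sum.inl d then (τ : ℝ) else 0)) ∧
    ∃ s : Face (JR S T),
      (∀ v, v ∉ s.1 → (1 - (τ : ℝ)) * x.1 v + (if v = Sum.inl d then (τ : ℝ) else 0) = 0) ∧
      ∑ v ∈ s.1, ((1 - (τ : ℝ)) * x.1 v + (if v = Sum.inl d then (τ : ℝ) else 0)) = 1 := by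
  obtain ⟨s, hd, hs⟩ := h
  refine ⟨fun v => ?_, s, fun v hv => ?_, ?_⟩
  · have h1 := x.2.1 v
    have h2 := τ.2.1
    have h3 : 0 ≤ 1 - (τ : ℝ) := sub_nonneg.mpr τ.2.2
    apply add_nonneg (mul_nonneg h3 h1)
    split_ifs
    · exact h2
    · exact le_rfl
  · have hne : v ≠ Sum.inl d := by
      rintro rfl
      exact hv hd
    simp [hs v hv, hne]
  · rw [Finset.sum_add_distrib, ← Finset.mul_sum, sum_eq_one hs, Finset.sum_ite_eq',
      if_pos hd]
    ring

open Classical in
/-- The point `(1 - τ) x + τ d`. -/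
private def jpPt (d : W) (x : FReal (JR S T)) (τ : I) (h : jpJ d x) : FReal (JR S T) :=
  ⟨fun v => (1 - (τ : ℝ)) * x.1 v + (if v = Sum.inl d then (τ : ℝ) else 0), jpPt_aux d x τ h⟩

open Classical in
/-- The point `(1 - τ) x + τ d`, or `x` itself. -/
private def jpMv (d : W) (x : FReal (JR S T)) (τ : I) : FReal (JR S T) :=
  if h : jpJ d x then jpPt d x τ h else x

open Classical in
private theorem jpMv_coord {d : W} {x : FReal (JR S T)} (h : jpJ d x) (τ : I) (v : W ⊕ T) :
    (jpMv d x τ).1 v = (1 - (τ : ℝ)) * x.1 v + (if v = Sum.inl d then (τ : ℝ) else 0) := by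
  have h1 : jpMv d x τ = jpPt d x τ h := dif_pos h
  rw [h1]
  rfl

private theorem jpMv_self {d : W} {x : FReal (JR S T)} (h : jpJ d x) (τ : I) :
    (jpMv d x τ).1 (Sum.inl d) = (1 - (τ : ℝ)) * x.1 (Sum.inl d) + τ := by
  rw [jpMv_coord h, if_pos rfl]

private theorem jpMv_zero {d : W} {x : FReal (JR S T)} (h : jpJ d x) : jpMv d x 0 = x := by
  ext v
  rw [jpMv_coord h]
  simp

private theorem jpMv_pos {d : W} {x : FReal (JR S T)} (h : jpJ d x) (τ : I)
    (hτ : x.1 (Sum.inl d) ≠ 0 ∨ τ ≠ 0) : (jpMv d x τ).1 (Sum.inl d) ≠ 0 := by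
  rw [jpMv_self h]
  have h1 := x.2.1 (Sum.inl d)
  have h2 := τ.2.1
  have h3 : 0 ≤ 1 - (τ : ℝ) := sub_nonneg.mpr τ.2.2
  have h4 := mul_nonneg h3 h1
  by_cases h5 : τ = 0
  · rcases hτ with h6 | h6
    · rw [h5]
      simpa using h6
    · exact absurd h5 h6
  · have h6 : (τ : ℝ) ≠ 0 := fun h => h5 (Subtype.ext h)
    have h7 : 0 < (τ : ℝ) := lt_of_le_of_ne h2 (Ne.symm h6)
    have h8 : 0 < (1 - (τ : ℝ)) * x.1 (Sum.inl d) + τ := by linarith
    exact h8.ne'

private theorem jpMv_mem {d : W} {x : FReal (JR S T)} (hx : x ∈ CC S T) (τ : I) :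
    jpMv d x τ ∈ CC S T := by
  by_cases h : jpJ d x
  · by_cases h5 : τ = 0
    · rw [h5, jpMv_zero h]
      exact hx
    · exact ⟨d, jpMv_pos h τ (Or.inr h5)⟩
  · have h1 : jpMv d x τ = x := dif_neg h
    rw [h1]
    exact hx

private theorem jpMv_supp {d : W} {x : FReal (JR S T)} (s : Face (JR S T)) (hd : Sum.inl d ∈ s.1)
    (hs : ∀ v, v ∉ s.1 → x.1 v = 0) (τ : I) (v : W ⊕ T) (hv : v ∉ s.1) :
    (jpMv d x τ).1 v = 0 := by
  have hne : v ≠ Sum.inl d := by
    rintro rfl
    exact hv hd
  rw [jpMv_coord ⟨s, hd, hs⟩, hs v hv, if_neg hne]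
  ring

private theorem jpMv_cont_simplex (d : W) (s : Face (JR S T)) (hd : Sum.inl d ∈ s.1) :
    ContinuousOn (fun p : FReal (JR S T) × I => jpMv d p.1 p.2)
      ({x | ∀ v, v ∉ s.1 → x.1 v = 0} ×ˢ univ) := by
  classical
  apply continuousOn_of_simplex s
  · rintro ⟨x, τ⟩ ⟨hx, -⟩ v hv
    exact jpMv_supp s hd hx τ v hv
  · intro v _
    have h1 : ContinuousOn (fun p : FReal (JR S T) × I =>
        (1 - (p.2 : ℝ)) * p.1.1 v + (if v = Sum.inl d then (p.2 : ℝ) else 0))
        ({x | ∀ v, v ∉ s.1 → x.1 v = 0} ×ˢ univ) := by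
      apply Continuous.continuousOn
      have h2 : Continuous fun p : FReal (JR S T) × I => p.1.1 v :=
        (continuous_coord v).comp continuous_fst
      have h3 : Continuous fun p : FReal (JR S T) × I => (p.2 : ℝ) := by fun_prop
      refine ((continuous_const.sub h3).mul h2).add ?_
      split_ifs
      · exact h3
      · exact continuous_const
    refine h1.congr ?_
    rintro ⟨x, τ⟩ ⟨hx, -⟩
    exact jpMv_coord ⟨s, hd, hx⟩ τ v

private theorem jpMv_cont_star (d : W) :
    ContinuousOn (fun p : FReal (JR S T) × I => jpMv d p.1 p.2)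
      ({x | x.1 (Sum.inl d) ≠ 0} ×ˢ univ) := by
  apply freal_continuousOn_prod
  · exact isOpen_ne.preimage (continuous_coord (Sum.inl d))
  · intro s
    by_cases hd : Sum.inl d ∈ s.1
    · have h1 := jpMv_cont_simplex d s hd
      refine h1.comp (f := fun p : stdSimplex ℝ s.1 × I => (incl s p.1, p.2)) ?_ ?_
      · apply Continuous.continuousOn
        exact ((continuous_incl s).comp continuous_fst).prodMk continuous_snd
      · intro p _
        exact ⟨fun v hv => incl_apply_notMem _ hv, trivial⟩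
    · have : {p : stdSimplex ℝ s.1 × I | incl s p.1 ∈
          {x : FReal (JR S T) | x.1 (Sum.inl d) ≠ 0}} = ∅ := by
        rw [eq_empty_iff_forall_notMem]
        intro p hp
        exact hp (incl_apply_notMem _ hd)
      rw [this]
      exact continuousOn_empty _

private theorem jpMv_cont_path {d : W} {x : FReal (JR S T)} (h : jpJ d x) :
    Continuous fun τ : I => jpMv d x τ := by
  obtain ⟨s, hd, hs⟩ := h
  exact (jpMv_cont_simplex d s hd).comp_continuous
    (f := fun τ : I => (x, τ)) (by fun_prop) fun τ => ⟨hs, trivial⟩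

variable (S T) in
open Classical in
/-- The vertex `d`. -/
private def jpV (hrefl : ∀ u, S u u) (d : W) : CC S T :=
  ⟨⟨fun v => if v = Sum.inl d then 1 else 0, by
    refine ⟨fun v => ?_, ⟨{Sum.inl d}, ⟨Sum.inl d, by simp⟩, ?_⟩, ?_, ?_⟩
    · show (0 : ℝ) ≤ if v = Sum.inl d then 1 else 0
      split_ifs <;> norm_num
    · intro u hu v hv
      rw [Finset.mem_singleton] at hu hv
      subst hu
      subst hv
      exact hrefl d
    · intro v hv
      rw [Finset.mem_singleton] at hv
      exact if_neg hv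
    · simp⟩, ⟨d, by
      show (if (Sum.inl d : W ⊕ T) = Sum.inl d then (1 : ℝ) else 0) ≠ 0
      rw [if_pos rfl]
      norm_num⟩⟩

variable (hrefl : ∀ u, S u u)

open Classical in
private theorem jpV_coord (d : W) (v : W ⊕ T) :
    (jpV S T hrefl d).1.1 v = if v = Sum.inl d then 1 else 0 := rfl

private theorem jpMv_one {d : W} {x : FReal (JR S T)} (h : jpJ d x) :
    jpMv d x 1 = (jpV S T hrefl d).1 := by
  classical
  ext v
  rw [jpMv_coord h, jpV_coord]
  simp

/-- The straight path from `x` to the vertex `d`. -/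
private def jpSeg (d : W) (x : CC S T) (h : jpJ d x.1) : Path x (jpV S T hrefl d) where
  toFun τ := ⟨jpMv d x.1 τ, jpMv_mem x.2 τ⟩
  continuous_toFun := (jpMv_cont_path h).subtype_mk _
  source' := Subtype.ext (jpMv_zero h)
  target' := Subtype.ext (jpMv_one hrefl h)

private theorem jp_contr (d : W) (A : Set (CC S T)) (hA : ∀ x ∈ A, jpJ d x.1)
    (hst : ∀ x ∈ A, ∀ τ : I, (⟨jpMv d x.1 τ, jpMv_mem x.2 τ⟩ : CC S T) ∈ A)
    (hv : jpV S T hrefl d ∈ A)
    (hc : ContinuousOn (fun p : FReal (JR S T) × I => jpMv d p.1 p.2)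
      ((Subtype.val '' A) ×ˢ univ)) : ContractibleSpace A := by
  rw [contractible_iff_id_nullhomotopic]
  refine ⟨⟨jpV S T hrefl d, hv⟩, ⟨?_⟩⟩
  refine
    { toFun := fun p => ⟨⟨jpMv d p.2.1.1 p.1, jpMv_mem p.2.1.2 p.1⟩, hst p.2.1 p.2.2 p.1⟩
      continuous_toFun := ?_
      map_zero_left := ?_
      map_one_left := ?_ }
  · apply Continuous.subtype_mk
    apply Continuous.subtype_mk
    exact hc.comp_continuous (f := fun p : I × A => ((p.2.1.1 : FReal (JR S T)), p.1))
      (by fun_prop) fun p => ⟨⟨p.2.1, p.2.2, rfl⟩, trivial⟩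
  · intro x
    exact Subtype.ext (Subtype.ext (jpMv_zero (hA x.1 x.2)))
  · intro x
    exact Subtype.ext (Subtype.ext (jpMv_one hrefl (hA x.1 x.2)))

/-- The open star of `d`. -/
private def jpO (d : W) : Set (CC S T) := {x | x.1.1 (Sum.inl d) ≠ 0}

/-- A closed simplex, minus the cone points. -/
private def jpK (s : Face (JR S T)) : Set (CC S T) := {x | ∀ v, v ∉ s.1 → x.1.1 v = 0}

private theorem jpJ_of_mem {d : W} {x : CC S T} (hx : x ∈ jpO (S := S) (T := T) d) :
    jpJ d x.1 := by
  obtain ⟨s, hs⟩ := exists_supp x.1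
  refine ⟨s, (hs _).mpr hx, fun v hv => ?_⟩
  by_contra h
  exact hv ((hs v).mpr h)

private theorem jpV_self (d : W) : jpV S T hrefl d ∈ jpO (S := S) (T := T) d := by
  show (jpV S T hrefl d).1.1 (Sum.inl d) ≠ 0
  classical
  rw [jpV_coord, if_pos rfl]
  norm_num

private theorem jpV_mem_K (s : Face (JR S T)) {d : W} (hd : Sum.inl d ∈ s.1) :
    jpV S T hrefl d ∈ jpK s := by
  classical
  intro v hv
  rw [jpV_coord, if_neg]
  rintro rfl
  exact hv hd

include hrefl in
private theorem jpO_simply (d : W) : SimplyConnectedSpace (jpO (S := S) (T := T) d) := by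
  have := jp_contr hrefl d (jpO (S := S) (T := T) d) (fun x hx => jpJ_of_mem hx)
    (fun x hx τ => jpMv_pos (jpJ_of_mem hx) τ (Or.inl hx)) (jpV_self hrefl d)
    ((jpMv_cont_star d).mono (by
      rintro ⟨x, τ⟩ ⟨⟨y, hy, rfl⟩, -⟩
      exact ⟨hy, trivial⟩))
  infer_instance

include hrefl in
private theorem jpK_simply (s : Face (JR S T)) {d : W} (hd : Sum.inl d ∈ s.1) :
    SimplyConnectedSpace (jpK s) := by
  have := jp_contr hrefl d (jpK s) (fun x hx => ⟨s, hd, hx⟩)
    (fun x hx τ => fun v hv => jpMv_supp s hd hx τ v hv) (jpV_mem_K hrefl s hd)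
    ((jpMv_cont_simplex d s hd).mono (by
      rintro ⟨x, τ⟩ ⟨⟨y, hy, rfl⟩, -⟩
      exact ⟨hy, trivial⟩))
  infer_instance

private theorem jpO_open (d : W) : IsOpen (jpO (S := S) (T := T) d) :=
  isOpen_ne.preimage ((continuous_coord (Sum.inl d)).comp continuous_subtype_val)

private theorem jpO_cover (x : CC S T) : ∃ d, x ∈ jpO (S := S) (T := T) d := x.2

/-- Faces on one, two, three vertices. -/
private theorem jp_face (l : Finset W) (hl : l.Nonempty) (h : ∀ u ∈ l, ∀ v ∈ l, S u v) :
    ∃ s : Face (JR S T), ∀ u ∈ l, Sum.inl u ∈ s.1 := by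
  classical
  refine ⟨⟨l.image Sum.inl, hl.image _, ?_⟩, fun u hu => Finset.mem_image_of_mem _ hu⟩
  intro u hu v hv
  obtain ⟨u', hu', rfl⟩ := Finset.mem_image.mp hu
  obtain ⟨v', hv', rfl⟩ := Finset.mem_image.mp hv
  exact h u' hu' v' hv'

private theorem jpJ_V (hsymm : ∀ u v, S u v → S v u) {u v : W} (h : S u v) :
    jpJ v (jpV S T hrefl u).1 := by
  classical
  obtain ⟨s, hs⟩ := jp_face (S := S) (T := T) {u, v} ⟨u, by simp⟩ (by
    intro a ha b hb
    simp only [Finset.mem_insert, Finset.mem_singleton] at ha hb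
    rcases ha with rfl | rfl <;> rcases hb with rfl | rfl
    · exact hrefl _
    · exact h
    · exact hsymm _ _ h
    · exact hrefl _)
  exact ⟨s, hs v (by simp), jpV_mem_K hrefl s (hs u (by simp))⟩

end Geometric

variable {W : Type} (S : W → W → Prop) (T : Type)

theorem pathConnected_CC [Nonempty W] (hrefl : ∀ u, S u u) (hsymm : ∀ u v, S u v → S v u)
    (hconn : ∀ u v, Relation.ReflTransGen S u v) : PathConnectedSpace (CC S T) := by
  have hVV : ∀ u v : W, Joined (jpV S T hrefl u) (jpV S T hrefl v) := by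
    intro u v
    induction hconn u v with
    | refl => exact Joined.refl _
    | tail _ h ih => exact ih.trans ⟨jpSeg hrefl _ _ (jpJ_V hrefl hsymm h)⟩
  have hxV : ∀ x : CC S T, ∃ d, Joined x (jpV S T hrefl d) := by
    intro x
    obtain ⟨d, hd⟩ := x.2
    exact ⟨d, ⟨jpSeg hrefl d x (jpJ_of_mem hd)⟩⟩
  refine ⟨⟨jpV S T hrefl (Classical.arbitrary W)⟩, fun x y => ?_⟩
  obtain ⟨d, hd⟩ := hxV x
  obtain ⟨e, he⟩ := hxV y
  exact (hd.trans (hVV d e)).trans he.symm

theorem perf_CC [Nonempty W] (hrefl : ∀ u, S u u) (hsymm : ∀ u v, S u v → S v u)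
    (hconn : ∀ u v, Relation.ReflTransGen S u v) (hH : H1Zero S)
    (c : CC S T) (B : Type) [CommGroup B] (φ : FundamentalGroup (CC S T) c →* B) : φ = 1 := by
  classical
  have hpc := pathConnected_CC S T hrefl hsymm hconn
  set β : ∀ x : CC S T, Path c x := fun x => PathConnectedSpace.somePath c x with hβ
  -- the value of `φ` on the straight paths
  set g : W → CC S T → B := fun d x =>
    if h : jpJ d x.1 then jpF φ β (jpSeg hrefl d x h) else 1 with hg
  have hgval : ∀ (d : W) (x : CC S T) (h : jpJ d x.1), g d x = jpF φ β (jpSeg hrefl d x h) :=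
    fun d x h => dif_pos h
  -- paths in an open star
  have hstar : ∀ (d : W) (x y : CC S T) (p : Path x y), (∀ t, p t ∈ jpO (S := S) (T := T) d) →
      jpF φ β p * g d y = g d x := by
    intro d x y p hp
    have hx : x ∈ jpO (S := S) (T := T) d := by simpa using hp 0
    have hy : y ∈ jpO (S := S) (T := T) d := by simpa using hp 1
    rw [hgval d x (jpJ_of_mem hx), hgval d y (jpJ_of_mem hy), ← jpF_trans]
    apply jpF_homotopic
    apply jp_homotopic_of_mem (jpO_simply hrefl d)
    · intro t
      rw [Path.trans_apply]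
      split_ifs with ht
      · exact hp _
      · exact jpMv_pos (jpJ_of_mem hy) _ (Or.inl hy)
    · intro t
      exact jpMv_pos (jpJ_of_mem hx) _ (Or.inl hx)
  -- triangles in a closed simplex
  have htri : ∀ (s : Face (JR S T)) (u v : W) (x : CC S T), Sum.inl u ∈ s.1 → Sum.inl v ∈ s.1 →
      x ∈ jpK s → g u x * g v (jpV S T hrefl u) = g v x := by
    intro s u v x hu hv hx
    have h1 : jpJ u x.1 := ⟨s, hu, hx⟩
    have h2 : jpJ v x.1 := ⟨s, hv, hx⟩
    have h3 : jpJ v (jpV S T hrefl u).1 := ⟨s, hv, jpV_mem_K hrefl s hu⟩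
    rw [hgval u x h1, hgval v x h2, hgval v _ h3, ← jpF_trans]
    apply jpF_homotopic
    apply jp_homotopic_of_mem (jpK_simply hrefl s hu)
    · intro t
      rw [Path.trans_apply]
      split_ifs with ht
      · exact fun w hw => jpMv_supp s hu hx _ w hw
      · exact fun w hw => jpMv_supp s hv (jpV_mem_K hrefl s hu) _ w hw
    · intro t
      exact fun w hw => jpMv_supp s hv hx _ w hw
  -- the cocycle on the edges
  obtain ⟨ψ, hψ⟩ := hH B (fun u v => g v (jpV S T hrefl u)) (by
    intro u v w huv hvw huw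
    obtain ⟨s, hs⟩ := jp_face (S := S) (T := T) {u, v, w} ⟨u, by simp⟩ (by
      intro a ha b hb
      simp only [Finset.mem_insert, Finset.mem_singleton] at ha hb
      rcases ha with rfl | rfl | rfl <;> rcases hb with rfl | rfl | rfl
      all_goals first
        | exact hrefl _
        | assumption
        | exact hsymm _ _ huv
        | exact hsymm _ _ hvw
        | exact hsymm _ _ huw)
    exact htri s v w (jpV S T hrefl u) (hs v (by simp)) (hs w (by simp))
      (jpV_mem_K hrefl s (hs u (by simp))))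
  -- the potential
  choose δ hδ using fun x : CC S T => jpO_cover (S := S) (T := T) x
  set G : CC S T → B := fun x => g (δ x) x * (ψ (δ x))⁻¹ with hG
  have hGval : ∀ (d : W) (x : CC S T), x ∈ jpO (S := S) (T := T) d →
      G x = g d x * (ψ d)⁻¹ := by
    intro d x hx
    obtain ⟨s, hs⟩ := exists_supp x.1
    have hu : Sum.inl (δ x) ∈ s.1 := (hs _).mpr (hδ x)
    have hv : Sum.inl d ∈ s.1 := (hs _).mpr hx
    have hxs : x ∈ jpK s := by
      intro v hv
      by_contra h
      exact hv ((hs v).mpr h)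
    have h1 := htri s (δ x) d x hu hv hxs
    have h2 := hψ (δ x) d (s.2.2 _ hu _ hv)
    show g (δ x) x * (ψ (δ x))⁻¹ = g d x * (ψ d)⁻¹
    rw [← h1]
    have h3 : g d (jpV S T hrefl (δ x)) = (ψ (δ x))⁻¹ * ψ d := h2
    rw [h3]
    group
  have hF : ∀ (x y : CC S T) (p : Path x y), jpF φ β p = G x * (G y)⁻¹ := by
    intro x y p
    refine jpF_potential φ β (jpO (S := S) (T := T)) jpO_open jpO_cover G ?_ p
    intro d x y p hp
    have hx : x ∈ jpO (S := S) (T := T) d := by simpa using hp 0
    have hy : y ∈ jpO (S := S) (T := T) d := by simpa using hp 1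
    rw [hGval d x hx, hGval d y hy, ← hstar d x y p hp]
    group
  ext q
  obtain ⟨p, hp⟩ := Path.Homotopic.Quotient.mk_surjective (FundamentalGroup.toPath q)
  have h1 := jpF_loop φ β p
  rw [hF, mul_inv_cancel] at h1
  rw [MonoidHom.one_apply, h1]
  congr 1
  exact hp.symm

end

end Pool.Agent.GCW
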