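import Pool.Agent.Lib.MP_63e749_al.RaagDefs
import Pool.Agent.Lib.MP_63e749_al.JoinPerf

/-!
# JOB COSET: the coset complex of a right-angled Artin group

Vertices: pairs (nonempty finite clique `σ`, left coset `g par σ`); `x ≤ y` if `σ_x ⊆ σ_y` and the cosets
are of the form `g par σ_x`, `g par σ_y`.

* Connected: for fixed `g`, all `(σ, g)` are connected by connectedness of the graph; `(v, g) = (v, g z_v)`.
* `H1Zero`: let `c` be a cocycle.
  (1) For fixed `g`, the function `(σ, τ) ↦ c((σ,g),(τ,g))` (for `σ ⊆ τ` or `τ ⊆ σ`) is a coboundary: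
  `c'(u,v) = c({u},{u,v}) c({u,v},{v})` is a cocycle for the relation `u = v ∨ adj u v`, so
  `c'(u,v) = ψ(u)⁻¹ ψ(v)`; put `f_g(σ) = ψ(u) c({u}, σ)`, independent of `u ∈ σ`; then
  `c(σ, τ) = f_g(σ)⁻¹ f_g(τ)`. Normalize `f_g({v₀}) = 1`.
  (2) For `v ∈ V` the ratio `κ(g, v) = f_{g z_v}(σ) / f_g(σ)` does not depend on the clique `σ ∋ v`, since
  `(σ, g) = (σ, g z_v)`.
  (3) Let `FreeGroup V` act on `G × B` by `z_v • (g, b) = (g z_v⁻¹, b κ(g z_v⁻¹, v))` (say); commutators
  of adjacent generators act trivially (evaluate at the clique `{u, v}`), so `G` acts and one gets a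
  function `k : G → B` with `k(g z_v) = k(g) κ(g, v)⁻¹`.
  (4) `F(σ, g par σ) = f_g(σ) k(g)` is well defined and its coboundary is `c`.
-/

set_option autoImplicit false

namespace Pool.Agent.GCW

variable {V : Type} (adj : V → V → Prop)

/-- Nonempty finite cliques. -/
def Clq : Type := {σ : Finset V // σ.Nonempty ∧ IsClq adj (σ : Set V)}

/-- The vertices of the coset complex. -/
abbrev CV : Type := Σ σ : Clq adj, Raag adj ⧸ par adj (σ.1 : Set V)

/-- The order of the coset poset. -/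
def cvLe (x y : CV adj) : Prop :=
  x.1.1 ⊆ y.1.1 ∧ ∃ g : Raag adj, x.2 = (g : Raag adj ⧸ par adj (x.1.1 : Set V)) ∧
    y.2 = (g : Raag adj ⧸ par adj (y.1.1 : Set V))

/-- Comparability. -/
def cvRel (x y : CV adj) : Prop := cvLe adj x y ∨ cvLe adj y x

/-! ### Auxiliary notions -/

/-- The vertex `(σ, g par σ)`. -/
private def pt (σ : Clq adj) (g : Raag adj) : CV adj :=
  ⟨σ, (g : Raag adj ⧸ par adj (σ.1 : Set V))⟩

private theorem pt_surj (x : CV adj) : ∃ g : Raag adj, x = pt adj x.1 g := by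
  obtain ⟨σ, q⟩ := x
  obtain ⟨g, rfl⟩ := QuotientGroup.mk_surjective q
  exact ⟨g, rfl⟩

private theorem pt_eq {σ : Clq adj} {g g' : Raag adj} (h : g⁻¹ * g' ∈ par adj (σ.1 : Set V)) :
    pt adj σ g = pt adj σ g' := by
  unfold pt
  rw [QuotientGroup.eq.mpr h]

private theorem zz_mem_par {σ : Set V} {v : V} (h : v ∈ σ) : zz adj v ∈ par adj σ :=
  Subgroup.subset_closure ⟨v, h, rfl⟩

private theorem pt_mul_zz {σ : Clq adj} (g : Raag adj) {v : V} (hv : v ∈ σ.1) :
    pt adj σ (g * zz adj v) = pt adj σ g := by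
  symm
  apply pt_eq
  rw [inv_mul_cancel_left]
  exact zz_mem_par adj (by exact_mod_cast hv)

private theorem pt_le {σ τ : Clq adj} (h : σ.1 ⊆ τ.1) (g : Raag adj) :
    cvLe adj (pt adj σ g) (pt adj τ g) := ⟨h, g, rfl, rfl⟩

private theorem le_iff_pt {x y : CV adj} (h : cvLe adj x y) :
    ∃ (σ τ : Clq adj) (g : Raag adj), σ.1 ⊆ τ.1 ∧ x = pt adj σ g ∧ y = pt adj τ g := by
  obtain ⟨σ, q⟩ := x
  obtain ⟨τ, r⟩ := y
  obtain ⟨h1, g, h2, h3⟩ := h
  dsimp only at h1 h2 h3
  subst h2
  subst h3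
  exact ⟨σ, τ, g, h1, rfl, rfl⟩

private theorem isClq_singleton (v : V) : IsClq adj (({v} : Finset V) : Set V) := by
  intro u hu w hw
  simp only [Finset.coe_singleton, Set.mem_singleton_iff] at hu hw
  left
  rw [hu, hw]

/-- The clique of one vertex. -/
private def sg (v : V) : Clq adj := ⟨{v}, ⟨v, by simp⟩, isClq_singleton adj v⟩

private theorem sg_subset {v : V} {σ : Clq adj} (h : v ∈ σ.1) : (sg adj v).1 ⊆ σ.1 := by
  intro w hw
  have : w = v := by simpa [sg] using hw
  rw [this]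
  exact h

/-- Induction on elements of the group. -/
private theorem raag_induction {p : Raag adj → Prop} (h1 : p 1) (hz : ∀ v, p (zz adj v))
    (hmul : ∀ g h, p g → p h → p (g * h)) (hinv : ∀ g, p g → p g⁻¹) (g : Raag adj) : p g := by
  induction g using PresentedGroup.induction_on with
  | _ w =>
    induction w using FreeGroup.induction_on with
    | C1 => simpa using h1
    | of x => exact hz x
    | inv_of x h =>
      rw [map_inv]
      exact hinv _ h
    | mul x y hx hy =>
      rw [map_mul]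
      exact hmul _ _ hx hy

/-- Comparable vertices with the same clique are equal. -/
theorem cv_eq {x y : CV adj} (h : cvRel adj x y) (h' : x.1 = y.1) : x = y := by
  obtain ⟨σ, q⟩ := x
  obtain ⟨τ, r⟩ := y
  dsimp only at h'
  subst h'
  rcases h with ⟨-, g, h2, h3⟩ | ⟨-, g, h2, h3⟩
  · dsimp only at h2 h3
    rw [h2, h3]
  · dsimp only at h2 h3
    rw [h2, h3]

/-- Every clique of the coset complex can be moved to the base chamber. -/
theorem cv_translate (s : Finset (CV adj)) (hs : s.Nonempty)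
    (hcl : ∀ x ∈ s, ∀ y ∈ s, cvRel adj x y) :
    ∃ (g : Raag adj) (σ₀ : Clq adj), (∀ x ∈ s, σ₀.1 ⊆ x.1.1 ∧
      x.2 = (g : Raag adj ⧸ par adj (x.1.1 : Set V))) := by
  obtain ⟨x0, hx0, hmin⟩ := Finset.exists_min_image s (fun x => x.1.1.card) hs
  obtain ⟨g, hg⟩ := pt_surj adj x0
  have hle : ∀ x ∈ s, cvLe adj x0 x := by
    intro x hx
    rcases hcl x0 hx0 x hx with h | h
    · exact h
    · have h1 : x.1.1 = x0.1.1 := Finset.eq_of_subset_of_card_le h.1 (hmin x hx)
      have h2 : x.1 = x0.1 := Subtype.ext h1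
      have h3 := cv_eq adj (Or.inl h) h2
      rw [h3]
      refine ⟨subset_rfl, g, ?_, ?_⟩
      · rw [hg]
        rfl
      · rw [hg]
        rfl
  refine ⟨g, x0.1, fun x hx => ?_⟩
  obtain ⟨h1, g', h2, h3⟩ := hle x hx
  refine ⟨h1, ?_⟩
  rw [h3]
  have h4 : x0.2 = (g : Raag adj ⧸ par adj (x0.1.1 : Set V)) := by
    have h5 : x0 = ⟨x0.1, (g : Raag adj ⧸ par adj (x0.1.1 : Set V))⟩ := hg
    have h6 := (Sigma.mk.inj_iff.mp (show (⟨x0.1, x0.2⟩ : CV adj) = ⟨x0.1, _⟩ from h5)).2
    exact eq_of_heq h6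
  rw [h4] at h2
  rw [QuotientGroup.eq] at h2
  symm
  rw [QuotientGroup.eq]
  apply Subgroup.closure_mono _ h2
  apply Set.image_mono
  exact_mod_cast h1

theorem cv_connected [Nonempty V] (hsymm : ∀ u v, adj u v → adj v u)
    (hconn : ∀ u v, Relation.ReflTransGen adj u v) (x y : CV adj) :
    Relation.ReflTransGen (cvRel adj) x y := by
  classical
  have hsy : ∀ {a b : CV adj}, Relation.ReflTransGen (cvRel adj) a b →
      Relation.ReflTransGen (cvRel adj) b a := by
    intro a b h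
    induction h with
    | refl => exact Relation.ReflTransGen.refl
    | tail _ h1 ih =>
      have h2 : cvRel adj _ _ := Or.symm h1
      exact (Relation.ReflTransGen.single h2).trans ih
  -- adjacent vertices over the same element
  have h1 : ∀ (g : Raag adj) (u v : V), adj u v →
      Relation.ReflTransGen (cvRel adj) (pt adj (sg adj u) g) (pt adj (sg adj v) g) := by
    intro g u v h
    have hcl : IsClq adj (({u, v} : Finset V) : Set V) := by
      intro a ha b hb
      simp only [Finset.coe_insert, Finset.coe_singleton, Set.mem_insert_iff,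
        Set.mem_singleton_iff] at ha hb
      rcases ha with rfl | rfl <;> rcases hb with rfl | rfl
      · exact Or.inl rfl
      · exact Or.inr h
      · exact Or.inr (hsymm _ _ h)
      · exact Or.inl rfl
    let σ : Clq adj := ⟨{u, v}, ⟨u, by simp⟩, hcl⟩
    have hu : u ∈ σ.1 := by simp [σ]
    have hv : v ∈ σ.1 := by simp [σ]
    have e1 : cvRel adj (pt adj (sg adj u) g) (pt adj σ g) :=
      Or.inl (pt_le adj (sg_subset adj hu) g)
    have e2 : cvRel adj (pt adj σ g) (pt adj (sg adj v) g) :=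
      Or.inr (pt_le adj (sg_subset adj hv) g)
    exact (Relation.ReflTransGen.single e1).tail e2
  have h2 : ∀ (g : Raag adj) (u v : V),
      Relation.ReflTransGen (cvRel adj) (pt adj (sg adj u) g) (pt adj (sg adj v) g) := by
    intro g u v
    induction hconn u v with
    | refl => exact Relation.ReflTransGen.refl
    | tail _ h ih => exact ih.trans (h1 g _ _ h)
  have h3 : ∀ (g : Raag adj) (σ τ : Clq adj),
      Relation.ReflTransGen (cvRel adj) (pt adj σ g) (pt adj τ g) := by
    intro g σ τ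
    obtain ⟨u, hu⟩ := σ.2.1
    obtain ⟨v, hv⟩ := τ.2.1
    have e1 : cvRel adj (pt adj σ g) (pt adj (sg adj u) g) :=
      Or.inr (pt_le adj (sg_subset adj hu) g)
    have e2 : cvRel adj (pt adj (sg adj v) g) (pt adj τ g) :=
      Or.inl (pt_le adj (sg_subset adj hv) g)
    exact ((Relation.ReflTransGen.single e1).trans (h2 g u v)).tail e2
  have h4 : ∀ h g : Raag adj, ∀ σ τ : Clq adj,
      Relation.ReflTransGen (cvRel adj) (pt adj σ g) (pt adj τ (g * h)) := by
    intro h
    induction h using raag_induction adj with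
    | h1 =>
      intro g σ τ
      rw [mul_one]
      exact h3 g σ τ
    | hz v =>
      intro g σ τ
      have h5 := h3 g σ (sg adj v)
      rw [← pt_mul_zz adj g (by simp [sg] : v ∈ (sg adj v).1)] at h5
      exact h5.trans (h3 _ _ _)
    | hmul a b ha hb =>
      intro g σ τ
      rw [← mul_assoc]
      exact (ha g σ τ).trans (hb _ τ τ)
    | hinv a ha =>
      intro g σ τ
      have := ha (g * a⁻¹) τ σ
      rw [inv_mul_cancel_right] at this
      exact hsy this
  obtain ⟨g, hg⟩ := pt_surj adj x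
  obtain ⟨g', hg'⟩ := pt_surj adj y
  rw [hg, hg']
  have := h4 (g⁻¹ * g') g x.1 y.1
  rwa [mul_inv_cancel_left] at this

section Cocycle

variable {adj}
variable {B : Type} [CommGroup B] {c : CV adj → CV adj → B}

/-- The cocycle restricted to one chamber is a coboundary. -/
private theorem chamber (hsymm : ∀ u v, adj u v → adj v u)
    (hH : H1Zero (fun u v : V => u = v ∨ adj u v))
    (hc : ∀ u v w, cvRel adj u v → cvRel adj v w → cvRel adj u w → c u v * c v w = c u w)
    (g : Raag adj) : ∃ f : Clq adj → B, ∀ σ τ : Clq adj, σ.1 ⊆ τ.1 →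
      c (pt adj σ g) (pt adj τ g) = (f σ)⁻¹ * f τ := by
  classical
  have hle : ∀ σ τ υ : Clq adj, σ.1 ⊆ τ.1 → τ.1 ⊆ υ.1 →
      c (pt adj σ g) (pt adj τ g) * c (pt adj τ g) (pt adj υ g) =
        c (pt adj σ g) (pt adj υ g) := by
    intro σ τ υ h1 h2
    exact hc _ _ _ (Or.inl (pt_le adj h1 g)) (Or.inl (pt_le adj h2 g))
      (Or.inl (pt_le adj (h1.trans h2) g))
  -- the induced cocycle on the graph
  let c' : V → V → B := fun u v =>
    if h : ∃ σ : Clq adj, u ∈ σ.1 ∧ v ∈ σ.1 then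
      c (pt adj (sg adj u) g) (pt adj h.choose g) *
        (c (pt adj (sg adj v) g) (pt adj h.choose g))⁻¹
    else 1
  have hind : ∀ (u v : V) (σ τ : Clq adj), u ∈ σ.1 → v ∈ σ.1 → σ.1 ⊆ τ.1 →
      c (pt adj (sg adj u) g) (pt adj σ g) * (c (pt adj (sg adj v) g) (pt adj σ g))⁻¹ =
      c (pt adj (sg adj u) g) (pt adj τ g) * (c (pt adj (sg adj v) g) (pt adj τ g))⁻¹ := by
    intro u v σ τ hu hv h
    rw [← hle _ _ _ (sg_subset adj hu) h, ← hle _ _ _ (sg_subset adj hv) h]
    rw [mul_inv, mul_mul_mul_comm, mul_inv_cancel, mul_one]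
  have hc' : ∀ (u v : V) (σ : Clq adj), u ∈ σ.1 → v ∈ σ.1 →
      c' u v = c (pt adj (sg adj u) g) (pt adj σ g) *
        (c (pt adj (sg adj v) g) (pt adj σ g))⁻¹ := by
    intro u v σ hu hv
    have hex : ∃ σ : Clq adj, u ∈ σ.1 ∧ v ∈ σ.1 := ⟨σ, hu, hv⟩
    have hpair : ∀ υ : Clq adj, u ∈ υ.1 → v ∈ υ.1 →
        ∃ ρ : Clq adj, u ∈ ρ.1 ∧ v ∈ ρ.1 ∧ ρ.1 ⊆ υ.1 ∧ ρ.1 = {u, v} := by
      intro υ h1 h2
      refine ⟨⟨{u, v}, ⟨u, by simp⟩, ?_⟩, by simp, by simp, ?_, rfl⟩
      · intro a ha b hb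
        have ha' : a ∈ υ.1 := by
          simp only [Finset.coe_insert, Finset.coe_singleton, Set.mem_insert_iff,
            Set.mem_singleton_iff] at ha
          rcases ha with rfl | rfl
          · exact h1
          · exact h2
        have hb' : b ∈ υ.1 := by
          simp only [Finset.coe_insert, Finset.coe_singleton, Set.mem_insert_iff,
            Set.mem_singleton_iff] at hb
          rcases hb with rfl | rfl
          · exact h1
          · exact h2
        exact υ.2.2 a (by exact_mod_cast ha') b (by exact_mod_cast hb')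
      · intro a ha
        simp only [Finset.mem_insert, Finset.mem_singleton] at ha
        rcases ha with rfl | rfl
        · exact h1
        · exact h2
    obtain ⟨ρ₁, hu1, hv1, hsub1, he1⟩ := hpair σ hu hv
    obtain ⟨ρ₂, hu2, hv2, hsub2, he2⟩ := hpair hex.choose hex.choose_spec.1 hex.choose_spec.2
    have he : ρ₁ = ρ₂ := Subtype.ext (he1.trans he2.symm)
    subst he
    show (if h : ∃ σ : Clq adj, u ∈ σ.1 ∧ v ∈ σ.1 then
      c (pt adj (sg adj u) g) (pt adj h.choose g) *
        (c (pt adj (sg adj v) g) (pt adj h.choose g))⁻¹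
      else 1) = _
    rw [dif_pos hex]
    rw [← hind u v ρ₁ hex.choose hu2 hv2 hsub2, ← hind u v ρ₁ σ hu1 hv1 hsub1]
  obtain ⟨ψ, hψ⟩ := hH B c' (by
    intro u v w huv hvw huw
    have hcl : IsClq adj (({u, v, w} : Finset V) : Set V) := by
      intro a ha b hb
      simp only [Finset.coe_insert, Finset.coe_singleton, Set.mem_insert_iff,
        Set.mem_singleton_iff] at ha hb
      have hs : ∀ a b : V, (a = b ∨ adj a b) → (b = a ∨ adj b a) := by
        rintro a b (h | h)
        · exact Or.inl h.symm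
        · exact Or.inr (hsymm _ _ h)
      rcases ha with rfl | rfl | rfl <;> rcases hb with rfl | rfl | rfl
      · exact Or.inl rfl
      · exact huv
      · exact huw
      · exact hs _ _ huv
      · exact Or.inl rfl
      · exact hvw
      · exact hs _ _ huw
      · exact hs _ _ hvw
      · exact Or.inl rfl
    let σ : Clq adj := ⟨{u, v, w}, ⟨u, by simp⟩, hcl⟩
    have hu : u ∈ σ.1 := by simp [σ]
    have hv : v ∈ σ.1 := by simp [σ]
    have hw : w ∈ σ.1 := by simp [σ]
    rw [hc' u v σ hu hv, hc' v w σ hv hw, hc' u w σ hu hw]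
    rw [mul_assoc, inv_mul_cancel_left])
  -- the primitive
  let f : Clq adj → B := fun σ => ψ σ.2.1.choose * c (pt adj (sg adj σ.2.1.choose) g) (pt adj σ g)
  have hf : ∀ (σ : Clq adj) (u : V), u ∈ σ.1 →
      f σ = ψ u * c (pt adj (sg adj u) g) (pt adj σ g) := by
    intro σ u hu
    have h0 : σ.2.1.choose ∈ σ.1 := σ.2.1.choose_spec
    have h1 := hψ σ.2.1.choose u (σ.2.2 _ (by exact_mod_cast h0) _ (by exact_mod_cast hu))
    rw [hc' _ _ σ h0 hu] at h1
    show ψ σ.2.1.choose * c (pt adj (sg adj σ.2.1.choose) g) (pt adj σ g) = _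
    have h2 : c (pt adj (sg adj σ.2.1.choose) g) (pt adj σ g) =
        (ψ σ.2.1.choose)⁻¹ * ψ u * c (pt adj (sg adj u) g) (pt adj σ g) := by
      rw [← h1, inv_mul_cancel_right]
    rw [h2, mul_assoc, mul_inv_cancel_left]
  refine ⟨f, fun σ τ h => ?_⟩
  obtain ⟨u, hu⟩ := σ.2.1
  rw [hf σ u hu, hf τ u (h hu), ← hle _ _ _ (sg_subset adj hu) h]
  rw [mul_inv_rev, mul_assoc, inv_mul_cancel_left, inv_mul_cancel_left]

end Cocycle

/-- Primitives on the Cayley graph. -/
private theorem exists_prim {B : Type} [CommGroup B] (κ : Raag adj → V → B)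
    (hκ : ∀ (g : Raag adj) (u v : V), adj u v →
      κ g u * κ (g * zz adj u) v = κ g v * κ (g * zz adj v) u) :
    ∃ k : Raag adj → B, ∀ g v, k (g * zz adj v) = k g * (κ g v)⁻¹ := by
  let T : V → Equiv.Perm (Raag adj × B) := fun v =>
    { toFun := fun x => (x.1 * (zz adj v)⁻¹, x.2 * κ (x.1 * (zz adj v)⁻¹) v)
      invFun := fun x => (x.1 * zz adj v, x.2 * (κ x.1 v)⁻¹)
      left_inv := by
        rintro ⟨g, b⟩
        simp
      right_inv := by
        rintro ⟨g, b⟩
        simp }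
  have hT : ∀ u v, adj u v → T u * T v = T v * T u := by
    intro u v h
    ext x
    · show ((x.1 * (zz adj v)⁻¹) * (zz adj u)⁻¹ : Raag adj) =
        (x.1 * (zz adj u)⁻¹) * (zz adj v)⁻¹
      rw [mul_assoc, mul_assoc, ← mul_inv_rev, ← mul_inv_rev, (zz_comm adj h).eq]
    · show x.2 * κ (x.1 * (zz adj v)⁻¹) v * κ (x.1 * (zz adj v)⁻¹ * (zz adj u)⁻¹) u =
        x.2 * κ (x.1 * (zz adj u)⁻¹) u * κ (x.1 * (zz adj u)⁻¹ * (zz adj v)⁻¹) v
      have hcomm : x.1 * (zz adj u)⁻¹ * (zz adj v)⁻¹ = x.1 * (zz adj v)⁻¹ * (zz adj u)⁻¹ := by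
        rw [mul_assoc, mul_assoc, ← mul_inv_rev, ← mul_inv_rev, (zz_comm adj h).eq]
      have h1 := hκ (x.1 * (zz adj v)⁻¹ * (zz adj u)⁻¹) u v h
      rw [inv_mul_cancel_right] at h1
      rw [← hcomm, inv_mul_cancel_right, hcomm] at h1
      rw [hcomm, mul_assoc x.2, mul_assoc x.2, mul_comm (κ (x.1 * (zz adj v)⁻¹) v), h1,
        mul_comm (κ (x.1 * (zz adj u)⁻¹) u)]
  let Φ : Raag adj →* Equiv.Perm (Raag adj × B) := PresentedGroup.toGroup (f := T) (by
    rintro r ⟨u, v, h, rfl⟩
    simp only [map_mul, map_inv, FreeGroup.lift_apply_of]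
    rw [hT u v h, mul_inv_cancel_right, mul_inv_cancel])
  have hΦ : ∀ v, Φ (zz adj v) = T v := fun v => by
    simp [Φ, zz]
  have hfst : ∀ (h : Raag adj) (x : Raag adj × B), (Φ h x).1 = x.1 * h⁻¹ := by
    intro h
    induction h using raag_induction adj with
    | h1 => intro x; simp
    | hz v =>
      intro x
      rw [hΦ]
      rfl
    | hmul a b ha hb =>
      intro x
      rw [map_mul, Equiv.Perm.mul_apply, ha, hb, mul_inv_rev, mul_assoc]
    | hinv a ha =>
      intro x
      have h1 := ha (Φ a⁻¹ x)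
      rw [← Equiv.Perm.mul_apply, ← map_mul, mul_inv_cancel, map_one, Equiv.Perm.one_apply] at h1
      rw [h1, inv_inv, inv_mul_cancel_right]
  refine ⟨fun g => (Φ g⁻¹ (1, 1)).2, fun g v => ?_⟩
  show (Φ (g * zz adj v)⁻¹ (1, 1)).2 = (Φ g⁻¹ (1, 1)).2 * (κ g v)⁻¹
  rw [mul_inv_rev, map_mul, map_inv, hΦ, Equiv.Perm.mul_apply]
  have h2 : (Φ g⁻¹ (1, 1)).1 = g := by
    rw [hfst, inv_inv]
    exact one_mul g
  show (Φ g⁻¹ (1, 1)).2 * (κ (Φ g⁻¹ (1, 1)).1 v)⁻¹ = _
  rw [h2]

theorem cv_H1Zero [Nonempty V] (hsymm : ∀ u v, adj u v → adj v u) (hirr : ∀ v, ¬ adj v v)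
    (hconn : ∀ u v, Relation.ReflTransGen adj u v)
    (hH : H1Zero (fun u v : V => u = v ∨ adj u v)) : H1Zero (cvRel adj) := by
  classical
  intro B _ c hc
  choose f hf using fun g => chamber hsymm hH hc g
  -- independence of the ratio of the clique
  let κ : Raag adj → V → B := fun g v => f (g * zz adj v) (sg adj v) * (f g (sg adj v))⁻¹
  have hκ : ∀ (g : Raag adj) (v : V) (σ : Clq adj), v ∈ σ.1 →
      κ g v = f (g * zz adj v) σ * (f g σ)⁻¹ := by
    intro g v σ hv
    have h1 := hf g (sg adj v) σ (sg_subset adj hv)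
    have h2 := hf (g * zz adj v) (sg adj v) σ (sg_subset adj hv)
    rw [pt_mul_zz adj g hv, pt_mul_zz adj g (by simp [sg] : v ∈ (sg adj v).1), h1] at h2
    -- `f g {v}⁻¹ * f g σ = f (g z) {v}⁻¹ * f (g z) σ`
    show f (g * zz adj v) (sg adj v) * (f g (sg adj v))⁻¹ = _
    have h3 : f (g * zz adj v) σ = f (g * zz adj v) (sg adj v) * ((f g (sg adj v))⁻¹ * f g σ) := by
      rw [h2, mul_inv_cancel_left]
    rw [h3, ← mul_assoc, mul_inv_cancel_right]
  obtain ⟨k, hk⟩ := exists_prim adj κ (by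
    intro g u v h
    have hcl : IsClq adj (({u, v} : Finset V) : Set V) := by
      intro a ha b hb
      simp only [Finset.coe_insert, Finset.coe_singleton, Set.mem_insert_iff,
        Set.mem_singleton_iff] at ha hb
      rcases ha with rfl | rfl <;> rcases hb with rfl | rfl
      · exact Or.inl rfl
      · exact Or.inr h
      · exact Or.inr (hsymm _ _ h)
      · exact Or.inl rfl
    let σ : Clq adj := ⟨{u, v}, ⟨u, by simp⟩, hcl⟩
    have hu : u ∈ σ.1 := by simp [σ]
    have hv : v ∈ σ.1 := by simp [σ]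
    rw [hκ g u σ hu, hκ g v σ hv, hκ (g * zz adj u) v σ hv, hκ (g * zz adj v) u σ hu]
    have hcomm : g * zz adj u * zz adj v = g * zz adj v * zz adj u := by
      rw [mul_assoc, (zz_comm adj h).eq, mul_assoc]
    have hcan : ∀ a b d : B, a * b⁻¹ * (d * a⁻¹) = d * b⁻¹ := by
      intro a b d
      rw [mul_comm (a * b⁻¹), mul_assoc, inv_mul_cancel_left]
    rw [hcomm, hcan, hcan])
  -- the primitive is well defined
  have hinv : ∀ (σ : Clq adj) (h : Raag adj), h ∈ par adj (σ.1 : Set V) → ∀ g : Raag adj,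
      f (g * h) σ * k (g * h) = f g σ * k g := by
    intro σ h hh
    unfold par at hh
    induction hh using Subgroup.closure_induction with
    | mem x hx =>
      obtain ⟨v, hv, rfl⟩ := hx
      intro g
      rw [hk, hκ g v σ (by exact_mod_cast hv), mul_inv_rev, inv_inv]
      rw [mul_comm (f (g * zz adj v) σ), mul_assoc, mul_assoc, inv_mul_cancel, mul_one, mul_comm]
    | one =>
      intro g
      rw [mul_one]
    | mul a b _ _ ha hb =>
      intro g
      rw [← mul_assoc, hb, ha]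
    | inv a _ ha =>
      intro g
      have := ha (g * a⁻¹)
      rw [inv_mul_cancel_right] at this
      exact this.symm
  let F : CV adj → B := fun x => f x.2.out x.1 * k x.2.out
  have hF : ∀ (σ : Clq adj) (g : Raag adj), F (pt adj σ g) = f g σ * k g := by
    intro σ g
    show f ((g : Raag adj ⧸ par adj (σ.1 : Set V)).out) σ *
      k ((g : Raag adj ⧸ par adj (σ.1 : Set V)).out) = _
    obtain ⟨h, hh⟩ := QuotientGroup.mk_out_eq_mul (par adj (σ.1 : Set V)) g
    rw [hh]
    exact hinv σ h.1 h.2 g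
  have hmain : ∀ x y, cvLe adj x y → c x y = (F x)⁻¹ * F y := by
    intro x y h
    obtain ⟨σ, τ, g, hs, rfl, rfl⟩ := le_iff_pt adj h
    rw [hf g σ τ hs, hF, hF]
    rw [mul_inv_rev, mul_comm (f g τ) (k g), mul_comm (k g)⁻¹, mul_assoc, inv_mul_cancel_left]
  refine ⟨F, fun x y h => ?_⟩
  rcases h with h | h
  · exact hmain x y h
  · have h1 := hmain y x h
    have h2 : cvRel adj x x := by
      obtain ⟨g, hg⟩ := pt_surj adj x
      rw [hg]
      exact Or.inl (pt_le adj subset_rfl g)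
    have h3 := hc x x x h2 h2 h2
    have h4 : c x x = 1 := by simpa using h3
    have h5 := hc x y x (Or.inr h) (Or.inl h) h2
    rw [h4, h1] at h5
    rw [mul_eq_one_iff_eq_inv] at h5
    rw [h5, mul_inv_rev, inv_inv]

end Pool.Agent.GCW
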