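import Pool.Agent.Lib.MP_63e749_al.HR

/-!
# Null homotopies of a loop of `C` in two contractible sets

We work in the loop space `Path c0 c0` of `X`.
-/

set_option autoImplicit false

open Set Metric Topology
open scoped unitInterval

namespace Pool.Agent.GCW

namespace LoopV

variable {X : Type} [TopologicalSpace X] {c0 : X}

/-- The projection of the line to the unit interval. -/
noncomputable abbrev pr (x : ℝ) : I := projIcc 0 1 zero_le_one x

theorem continuous_pr : Continuous pr := continuous_projIcc

theorem pr_zero : pr 0 = 0 := projIcc_left _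

theorem pr_one : pr 1 = 1 := projIcc_right _

theorem pr_coe (t : I) : pr (t : ℝ) = t := projIcc_val zero_le_one t

theorem coe_pr {x : ℝ} (hx : x ∈ Icc (0 : ℝ) 1) : ((pr x : I) : ℝ) = x := by
  simp [pr, projIcc_of_mem zero_le_one hx]

/-- The map on the square given by a path in the loop space (the first coordinate is the
parameter of the loops). -/
noncomputable def sq {p q : Path c0 c0} (α : Path p q) : ℝ × ℝ → X :=
  fun z => α (pr z.2) (pr z.1)

theorem continuous_uncurry_path {p q : Path c0 c0} (α : Path p q) :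
    Continuous fun z : I × I => α z.1 z.2 :=
  Path.continuous_uncurry_iff.mpr α.continuous

theorem continuous_sq {p q : Path c0 c0} (α : Path p q) : Continuous (sq α) :=
  (continuous_uncurry_path α).comp
    ((continuous_pr.comp continuous_snd).prodMk (continuous_pr.comp continuous_fst))

theorem sq_left {p q : Path c0 c0} (α : Path p q) (t : ℝ) : sq α (0, t) = c0 := by
  simp only [sq, pr_zero, Path.source]

theorem sq_right {p q : Path c0 c0} (α : Path p q) (t : ℝ) : sq α (1, t) = c0 := by
  simp only [sq, pr_one, Path.target]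

theorem sq_bot {p q : Path c0 c0} (α : Path p q) (s : ℝ) : sq α (s, 0) = p (pr s) := by
  simp only [sq, pr_zero, Path.source]

theorem sq_top {p q : Path c0 c0} (α : Path p q) (s : ℝ) : sq α (s, 1) = q (pr s) := by
  simp only [sq, pr_one, Path.target]

theorem homotopic_of_HR {p q : Path c0 c0} {α β : Path p q} (h : HR (sq α) (sq β)) :
    α.Homotopic β := by
  obtain ⟨F, hF, h0, h1, hb⟩ := h
  have hc : Continuous fun z : I × I × I => F ((z.1 : ℝ), ((z.2.2 : ℝ), (z.2.1 : ℝ))) :=
    hF.comp_continuous (by fun_prop) fun z => ⟨z.1.2, z.2.2.2, z.2.1.2⟩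
  let P : I → I → Path c0 c0 := fun θ t =>
    { toFun := fun s => F ((θ : ℝ), ((s : ℝ), (t : ℝ)))
      continuous_toFun := hc.comp (by fun_prop : Continuous fun s : I => (θ, t, s))
      source' := by
        have h2 : (((0 : I) : ℝ), (t : ℝ)) ∈ bI2 :=
          ⟨⟨by simp, t.2⟩, Or.inl (by simp)⟩
        rw [hb θ θ.2 _ h2]
        simpa using sq_left α t
      target' := by
        have h2 : (((1 : I) : ℝ), (t : ℝ)) ∈ bI2 :=
          ⟨⟨by simp, t.2⟩, Or.inr (Or.inl (by simp))⟩
        rw [hb θ θ.2 _ h2]
        simpa using sq_right α t }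
  have hP : ∀ θ t s, P θ t s = F ((θ : ℝ), ((s : ℝ), (t : ℝ))) := fun _ _ _ => rfl
  refine ⟨{ toFun := fun z => P z.1 z.2
            continuous_toFun := ?_
            map_zero_left := ?_
            map_one_left := ?_
            prop' := ?_ }⟩
  · apply Path.continuous_uncurry_iff.mp
    exact hc.comp (by fun_prop : Continuous fun z : (I × I) × I => (z.1.1, z.1.2, z.2))
  · intro t
    refine Path.ext (funext fun s => ?_)
    have h2 : ((s : ℝ), (t : ℝ)) ∈ I2 := ⟨s.2, t.2⟩
    have h3 := h0 _ h2
    rw [hP]
    simp only [Set.Icc.coe_zero]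
    rw [h3]
    simp [sq]
  · intro t
    refine Path.ext (funext fun s => ?_)
    have h2 : ((s : ℝ), (t : ℝ)) ∈ I2 := ⟨s.2, t.2⟩
    have h3 := h1 _ h2
    rw [hP]
    simp only [Set.Icc.coe_one]
    rw [h3]
    simp [sq]
  · intro θ t ht
    refine Path.ext (funext fun s => ?_)
    have h2 : ((s : ℝ), (t : ℝ)) ∈ bI2 := by
      refine ⟨⟨s.2, t.2⟩, ?_⟩
      rcases ht with ht | ht
      · exact Or.inr (Or.inr (Or.inl (by simp [ht])))
      · rw [mem_singleton_iff] at ht
        exact Or.inr (Or.inr (Or.inr (by simp [ht])))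
    show P θ t s = α t s
    rw [hP, hb θ θ.2 _ h2]
    simp [sq]

theorem HR_of_homotopic {p q : Path c0 c0} {α β : Path p q} (h : α.Homotopic β) :
    HR (sq α) (sq β) := by
  obtain ⟨H⟩ := h
  have hc : Continuous fun z : (I × I) × I => H z.1 z.2 :=
    Path.continuous_uncurry_iff.mpr H.continuous
  refine ⟨fun z => H (pr z.1, pr z.2.2) (pr z.2.1), ?_, ?_, ?_, ?_⟩
  · apply Continuous.continuousOn
    exact hc.comp (((continuous_pr.comp continuous_fst).prodMk
      (continuous_pr.comp (continuous_snd.comp continuous_snd))).prodMk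
      (continuous_pr.comp (continuous_fst.comp continuous_snd)))
  · intro z _
    simp [sq]
  · intro z _
    simp [sq]
  · intro θ hθ z hz
    show H (pr θ, pr z.2) (pr z.1) = sq α z
    rcases hz.2 with h1 | h1 | h1 | h1
    · simp [sq, h1]
    · simp [sq, h1]
    · simp [sq, h1]
    · simp [sq, h1]

theorem HR_congr {M M' M1 M1' : ℝ × ℝ → X} (h : HR M M') (h1 : EqOn M M1 I2)
    (h2 : EqOn M' M1' I2) : HR M1 M1' := by
  obtain ⟨F, hF, h3, h4, hb⟩ := h
  refine ⟨F, hF, ?_, ?_, ?_⟩
  · intro p hp
    rw [h3 p hp, h1 hp]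
  · intro p hp
    rw [h4 p hp, h2 hp]
  · intro θ hθ p hp
    rw [hb θ hθ p hp, h1 hp.1]

/-- Two paths in the loop space with values in a contractible set are homotopic. -/
theorem homotopic_of_mem {U : Set X} (hU : ContractibleSpace U) {p q : Path c0 c0}
    {α β : Path p q} (hα : ∀ t s, α t s ∈ U) (hβ : ∀ t s, β t s ∈ U) : α.Homotopic β := by
  apply homotopic_of_HR
  apply HR_of_contractible hU (continuous_sq α).continuousOn (continuous_sq β).continuousOn
    (fun z _ => hα _ _) (fun z _ => hβ _ _)
  rintro ⟨x, t⟩ ⟨-, h | h | h | h⟩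
  · simp only at h
    subst h
    rw [sq_left, sq_left]
  · simp only at h
    subst h
    rw [sq_right, sq_right]
  · simp only at h
    subst h
    rw [sq_bot, sq_bot]
  · simp only at h
    subst h
    rw [sq_top, sq_top]

/-- A homotopy of loops in `Y` gives a path in the loop space of `X`. -/
def pathOfHomotopy {Y : Type} [TopologicalSpace Y] {f : Y → X} (hf : Continuous f) {y : Y}
    {p q : Path y y} (H : p.Homotopy q) : Path (p.map hf) (q.map hf) where
  toFun t := (H.eval t).map hf
  continuous_toFun := by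
    apply Path.continuous_uncurry_iff.mp
    exact hf.comp (H.continuous.comp (by fun_prop : Continuous fun z : I × I => (z.1, z.2)))
  source' := by simp
  target' := by simp

theorem pathOfHomotopy_apply {Y : Type} [TopologicalSpace Y] {f : Y → X} (hf : Continuous f)
    {y : Y} {p q : Path y y} (H : p.Homotopy q) (t s : I) :
    pathOfHomotopy hf H t s = f (H (t, s)) := rfl

/-- Pointwise concatenation of two paths in the loop space. -/
noncomputable def star {p q p' q' : Path c0 c0} (α : Path p q) (β : Path p' q') :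
    Path (p.trans p') (q.trans q') where
  toFun t := (α t).trans (β t)
  continuous_toFun := Path.continuous_trans.comp (α.continuous.prodMk β.continuous)
  source' := by simp
  target' := by simp

theorem star_apply {p q p' q' : Path c0 c0} (α : Path p q) (β : Path p' q') (t : I) :
    star α β t = (α t).trans (β t) := rfl

theorem star_mem {U : Set X} {p q p' q' : Path c0 c0} {α : Path p q} {β : Path p' q'}
    (hα : ∀ t s, α t s ∈ U) (hβ : ∀ t s, β t s ∈ U) (t s : I) : star α β t s ∈ U := by
  rw [star_apply, Path.trans_apply]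
  split_ifs
  · exact hα _ _
  · exact hβ _ _

theorem star_homotopic {p q p' q' : Path c0 c0} {α α' : Path p q} {β β' : Path p' q'}
    (h : α.Homotopic α') (h' : β.Homotopic β') : (star α β).Homotopic (star α' β') := by
  obtain ⟨H⟩ := h
  obtain ⟨H'⟩ := h'
  refine ⟨{ toFun := fun z => (H z).trans (H' z)
            continuous_toFun := Path.continuous_trans.comp (H.continuous.prodMk H'.continuous)
            map_zero_left := fun t => by simp [star]
            map_one_left := fun t => by simp [star]
            prop' := ?_ }⟩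
  intro θ t ht
  show (H (θ, t)).trans (H' (θ, t)) = (α t).trans (β t)
  rw [H.eq_fst θ ht, H'.eq_fst θ ht]
  rfl

/-- The constant loop. -/
abbrev R (c0 : X) : Path c0 c0 := Path.refl c0

/-- Pointwise concatenation of two loops in the loop space at the constant loop. -/
noncomputable def star1 (α β : Path (R c0) (R c0)) : Path (R c0) (R c0) :=
  (star α β).cast Path.refl_trans_refl.symm Path.refl_trans_refl.symm

theorem star1_apply (α β : Path (R c0) (R c0)) (t : I) : star1 α β t = (α t).trans (β t) := rfl

/-- The operation on homotopy classes. -/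
noncomputable def starQ (a b : Path.Homotopic.Quotient (R c0) (R c0)) :
    Path.Homotopic.Quotient (R c0) (R c0) :=
  Quotient.map₂ star1 (fun _ _ h _ _ h' => star_homotopic h h') a b

theorem starQ_mk (α β : Path (R c0) (R c0)) :
    starQ (Path.Homotopic.Quotient.mk α) (Path.Homotopic.Quotient.mk β) =
      Path.Homotopic.Quotient.mk (star1 α β) := rfl

theorem star1_refl_left (β : Path (R c0) (R c0)) :
    (star1 (Path.refl (R c0)) β).Homotopic β := by
  refine ⟨{ toFun := fun z => Path.delayReflLeft z.1 (β z.2)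
            continuous_toFun := Path.continuous_delayReflLeft.comp
              (continuous_fst.prodMk (β.continuous.comp continuous_snd))
            map_zero_left := fun t => by
              simp only [Path.delayReflLeft_zero]
              rfl
            map_one_left := fun t => by
              simp only [Path.delayReflLeft_one]
              rfl
            prop' := ?_ }⟩
  intro θ t ht
  show Path.delayReflLeft θ (β t) = (Path.refl c0).trans (β t)
  have h1 : β t = R c0 := by
    rcases ht with ht | ht
    · rw [ht, Path.source]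
    · rw [mem_singleton_iff] at ht
      rw [ht, Path.target]
  rw [h1]
  refine Path.ext (funext fun s => ?_)
  simp [Path.delayReflLeft, Path.delayReflRight]

theorem star1_refl_right (β : Path (R c0) (R c0)) :
    (star1 β (Path.refl (R c0))).Homotopic β := by
  refine ⟨{ toFun := fun z => Path.delayReflRight z.1 (β z.2)
            continuous_toFun := Path.continuous_delayReflRight.comp
              (continuous_fst.prodMk (β.continuous.comp continuous_snd))
            map_zero_left := fun t => by
              simp only [Path.delayReflRight_zero]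
              rfl
            map_one_left := fun t => by
              simp only [Path.delayReflRight_one]
              rfl
            prop' := ?_ }⟩
  intro θ t ht
  show Path.delayReflRight θ (β t) = (β t).trans (Path.refl c0)
  have h1 : β t = R c0 := by
    rcases ht with ht | ht
    · rw [ht, Path.source]
    · rw [mem_singleton_iff] at ht
      rw [ht, Path.target]
  rw [h1]
  refine Path.ext (funext fun s => ?_)
  simp [Path.delayReflRight]

theorem star1_interchange (α β γ δ : Path (R c0) (R c0)) :
    star1 (α.trans β) (γ.trans δ) = (star1 α γ).trans (star1 β δ) := by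
  refine Path.ext (funext fun t => ?_)
  rw [star1_apply, Path.trans_apply, Path.trans_apply, Path.trans_apply]
  split_ifs <;> rfl

theorem starQ_unital :
    EckmannHilton.IsUnital (starQ (c0 := c0)) (Path.Homotopic.Quotient.refl (R c0)) :=
  { left_id := by
      intro b
      obtain ⟨β, rfl⟩ := Path.Homotopic.Quotient.mk_surjective b
      exact Path.Homotopic.Quotient.eq.2 (star1_refl_left β)
    right_id := by
      intro b
      obtain ⟨β, rfl⟩ := Path.Homotopic.Quotient.mk_surjective b
      exact Path.Homotopic.Quotient.eq.2 (star1_refl_right β) }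

theorem starQ_interchange (a b c d : Path.Homotopic.Quotient (R c0) (R c0)) :
    starQ (a.trans b) (c.trans d) = (starQ a c).trans (starQ b d) := by
  obtain ⟨α, rfl⟩ := Path.Homotopic.Quotient.mk_surjective a
  obtain ⟨β, rfl⟩ := Path.Homotopic.Quotient.mk_surjective b
  obtain ⟨γ, rfl⟩ := Path.Homotopic.Quotient.mk_surjective c
  obtain ⟨δ, rfl⟩ := Path.Homotopic.Quotient.mk_surjective d
  rw [← Path.Homotopic.Quotient.mk_trans, ← Path.Homotopic.Quotient.mk_trans, starQ_mk,
    starQ_mk, starQ_mk, ← Path.Homotopic.Quotient.mk_trans, star1_interchange]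

/-- The fundamental group of the loop space. -/
abbrev G (c0 : X) := FundamentalGroup (Path c0 c0) (R c0)

/-- The operation on the fundamental group of the loop space. -/
noncomputable def starG (a b : G c0) : G c0 := starQ a b

theorem starG_unital : EckmannHilton.IsUnital (starG (c0 := c0)) (1 : G c0) :=
  { left_id := (starQ_unital (c0 := c0)).left_id
    right_id := (starQ_unital (c0 := c0)).right_id }

theorem starG_distrib (a b c d : G c0) : starG (a * b) (c * d) = starG a c * starG b d :=
  starQ_interchange b a d c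

/-- The fundamental group of the loop space is commutative. -/
@[instance_reducible]
noncomputable def commG (c0 : X) : CommGroup (G c0) :=
  EckmannHilton.commGroup (starG_unital (c0 := c0)) starG_distrib

theorem starG_eq (a b : G c0) : starG a b = a * b := by
  have h := EckmannHilton.mul (X := G c0) (starG_unital (c0 := c0))
    (EckmannHilton.MulOneClass.isUnital (X := G c0)) starG_distrib
  exact congrFun (congrFun h a) b

theorem mul_comm_G (a b : G c0) : a * b = b * a :=
  (commG c0).mul_comm a b

theorem trans_mem {S : Set X} {p q r : Path c0 c0} {α : Path p q} {β : Path q r}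
    (hα : ∀ t s, α t s ∈ S) (hβ : ∀ t s, β t s ∈ S) (t s : I) : α.trans β t s ∈ S := by
  rw [Path.trans_apply]
  split_ifs
  · exact hα _ _
  · exact hβ _ _

theorem wellDef {C U U' : Set X} (hU : ContractibleSpace U) (hU' : ContractibleSpace U')
    (hCU : C ⊆ U) (hCU' : C ⊆ U') {p q : Path c0 c0} (κ : Path p q) (hκ : ∀ t s, κ t s ∈ C)
    {α α' : Path p (R c0)} {β β' : Path q (R c0)} (hα : ∀ t s, α t s ∈ U)
    (hα' : ∀ t s, α' t s ∈ U') (hβ : ∀ t s, β t s ∈ U) (hβ' : ∀ t s, β' t s ∈ U') :
    (Path.Homotopic.Quotient.mk α).symm.trans (Path.Homotopic.Quotient.mk α') =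
      (Path.Homotopic.Quotient.mk β).symm.trans (Path.Homotopic.Quotient.mk β') := by
  have h1 : Path.Homotopic.Quotient.mk α = Path.Homotopic.Quotient.mk (κ.trans β) :=
    Path.Homotopic.Quotient.eq.2
      (homotopic_of_mem hU hα (trans_mem (fun t s => hCU (hκ t s)) hβ))
  have h2 : Path.Homotopic.Quotient.mk α' = Path.Homotopic.Quotient.mk (κ.trans β') :=
    Path.Homotopic.Quotient.eq.2
      (homotopic_of_mem hU' hα' (trans_mem (fun t s => hCU' (hκ t s)) hβ'))
  rw [h1, h2, ← Path.Homotopic.Quotient.mk_symm, Path.trans_symm,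
    Path.Homotopic.Quotient.mk_trans, Path.Homotopic.Quotient.mk_trans,
    Path.Homotopic.Quotient.trans_assoc,
    ← Path.Homotopic.Quotient.trans_assoc (Path.Homotopic.Quotient.mk κ.symm),
    Path.Homotopic.Quotient.mk_symm, Path.Homotopic.Quotient.mk_symm,
    Path.Homotopic.Quotient.symm_trans, Path.Homotopic.Quotient.refl_trans]

theorem exists_null {U : Set X} (hU : ContractibleSpace U) (p : Path c0 c0)
    (hp : ∀ s, p s ∈ U) : ∃ α : Path p (R c0), ∀ t s, α t s ∈ U := by
  have hc : c0 ∈ U := by
    have := hp 0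
    rwa [p.source] at this
  let p' : Path (⟨c0, hc⟩ : U) ⟨c0, hc⟩ :=
    { toFun := fun s => ⟨p s, hp s⟩
      continuous_toFun := p.continuous.subtype_mk _
      source' := Subtype.ext p.source
      target' := Subtype.ext p.target }
  obtain ⟨H⟩ : p'.Homotopic (Path.refl _) := SimplyConnectedSpace.paths_homotopic _ _
  refine ⟨(pathOfHomotopy continuous_subtype_val H).cast (Path.ext rfl) (Path.ext rfl), ?_⟩
  intro t s
  exact (H (t, s)).2

/-- The inclusion of loops of `C`. -/
abbrev inc {C : Set X} {hc0 : c0 ∈ C} (l : Path (⟨c0, hc0⟩ : C) ⟨c0, hc0⟩) : Path c0 c0 :=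
  l.map continuous_subtype_val

theorem inc_mem {C : Set X} {hc0 : c0 ∈ C} (l : Path (⟨c0, hc0⟩ : C) ⟨c0, hc0⟩) (s : I) :
    inc l s ∈ C := (l s).2

theorem main {C U U' : Set X} (hU : ContractibleSpace U) (hU' : ContractibleSpace U')
    (hCU : C ⊆ U) (hCU' : C ⊆ U') (hc0 : c0 ∈ C)
    (hperf : ∀ (B : Type) [CommGroup B] (φ : FundamentalGroup C ⟨c0, hc0⟩ →* B), φ = 1)
    (l : Path (⟨c0, hc0⟩ : C) ⟨c0, hc0⟩) {α α' : Path (inc l) (R c0)}
    (hα : ∀ t s, α t s ∈ U) (hα' : ∀ t s, α' t s ∈ U') : α.Homotopic α' := by
  have hrep : ∀ a : FundamentalGroup C ⟨c0, hc0⟩, ∃ r : Path (⟨c0, hc0⟩ : C) ⟨c0, hc0⟩,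
      Path.Homotopic.Quotient.mk r = a := fun a => Path.Homotopic.Quotient.mk_surjective a
  choose rep hrep using hrep
  have hN : ∀ a, ∃ α : Path (inc (rep a)) (R c0), ∀ t s, α t s ∈ U := fun a =>
    exists_null hU _ fun s => hCU (inc_mem _ s)
  have hN' : ∀ a, ∃ α : Path (inc (rep a)) (R c0), ∀ t s, α t s ∈ U' := fun a =>
    exists_null hU' _ fun s => hCU' (inc_mem _ s)
  choose N hN using hN
  choose N' hN' using hN'
  let φ0 : FundamentalGroup C ⟨c0, hc0⟩ → G c0 := fun a =>
    (Path.Homotopic.Quotient.mk (N a)).symm.trans (Path.Homotopic.Quotient.mk (N' a))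
  have hmul : ∀ a b, φ0 (a * b) = φ0 a * φ0 b := by
    intro a b
    have h1 : Path.Homotopic.Quotient.mk (rep (a * b)) =
        Path.Homotopic.Quotient.mk ((rep b).trans (rep a)) := by
      rw [hrep, Path.Homotopic.Quotient.mk_trans, hrep, hrep]
      rfl
    obtain ⟨H⟩ := Path.Homotopic.Quotient.exact h1
    have h2 : inc ((rep b).trans (rep a)) = (inc (rep b)).trans (inc (rep a)) :=
      Path.map_trans _ _ _
    let S : Path (inc ((rep b).trans (rep a))) (R c0) :=
      (star (N b) (N a)).cast h2 Path.refl_trans_refl.symm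
    let S' : Path (inc ((rep b).trans (rep a))) (R c0) :=
      (star (N' b) (N' a)).cast h2 Path.refl_trans_refl.symm
    have hS : ∀ t s, S t s ∈ U := star_mem (hN b) (hN a)
    have hS' : ∀ t s, S' t s ∈ U' := star_mem (hN' b) (hN' a)
    have h3 := wellDef hU hU' hCU hCU' (pathOfHomotopy continuous_subtype_val H)
      (fun t s => (H (t, s)).2) (hN (a * b)) (hN' (a * b)) hS hS'
    have h4 : S.symm.trans S' =
        star1 ((N b).symm.trans (N' b)) ((N a).symm.trans (N' a)) := by
      refine Path.ext (funext fun t => ?_)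
      rw [star1_apply, Path.trans_apply, Path.trans_apply, Path.trans_apply]
      split_ifs <;> rfl
    have h5 : φ0 (a * b) = starG (φ0 b) (φ0 a) := by
      show (Path.Homotopic.Quotient.mk (N (a * b))).symm.trans
        (Path.Homotopic.Quotient.mk (N' (a * b))) = _
      rw [h3, ← Path.Homotopic.Quotient.mk_symm, ← Path.Homotopic.Quotient.mk_trans, h4]
      rfl
    rw [h5, starG_eq, mul_comm_G]
  have hone : φ0 1 = 1 := by
    have h := hmul 1 1
    rw [one_mul] at h
    exact left_eq_mul.mp h
  let φ : FundamentalGroup C ⟨c0, hc0⟩ →* G c0 :=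
    { toFun := φ0, map_one' := hone, map_mul' := hmul }
  have hφ : φ = 1 := @hperf (G c0) (commG c0) φ
  have hφ0 : ∀ a, φ0 a = 1 := fun a => by
    have := congrArg (fun f => f a) hφ
    exact this
  have h1 : Path.Homotopic.Quotient.mk l =
      Path.Homotopic.Quotient.mk (rep (Path.Homotopic.Quotient.mk l)) :=
    (hrep (Path.Homotopic.Quotient.mk l)).symm
  obtain ⟨H⟩ := Path.Homotopic.Quotient.exact h1
  have h3 := wellDef hU hU' hCU hCU' (pathOfHomotopy continuous_subtype_val H)
      (fun t s => (H (t, s)).2) hα hα' (hN _) (hN' _)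
  have h4 : (Path.Homotopic.Quotient.mk α).symm.trans (Path.Homotopic.Quotient.mk α') =
      Path.Homotopic.Quotient.refl _ := h3.trans (hφ0 (Path.Homotopic.Quotient.mk l))
  have h5 : Path.Homotopic.Quotient.mk α = Path.Homotopic.Quotient.mk α' := by
    have h6 := congrArg (fun z => (Path.Homotopic.Quotient.mk α).trans z) h4
    rw [← Path.Homotopic.Quotient.trans_assoc, Path.Homotopic.Quotient.trans_symm,
      Path.Homotopic.Quotient.refl_trans, Path.Homotopic.Quotient.trans_refl] at h6
    exact h6.symm
  exact Path.Homotopic.Quotient.exact h5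

end LoopV

open LoopV in
theorem lvProp_of_perfect {X : Type} [TopologicalSpace X] {C U U' : Set X}
    (hU : ContractibleSpace U) (hU' : ContractibleSpace U') (hCU : C ⊆ U) (hCU' : C ⊆ U')
    {c0 : X} (hc0 : c0 ∈ C)
    (hperf : ∀ (B : Type) [CommGroup B] (φ : FundamentalGroup C ⟨c0, hc0⟩ →* B), φ = 1) :
    LVProp C U U' c0 := by
  intro N N' hN hN' hNU hNU' hbd hbot hside
  have hc : Continuous fun z : I × I => N ((z.2 : ℝ), (z.1 : ℝ)) :=
    hN.comp_continuous (by fun_prop) fun z => ⟨z.2.2, z.1.2⟩
  have hc' : Continuous fun z : I × I => N' ((z.2 : ℝ), (z.1 : ℝ)) :=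
    hN'.comp_continuous (by fun_prop) fun z => ⟨z.2.2, z.1.2⟩
  have hside' : ∀ t ∈ Icc (0 : ℝ) 1, N' (0, t) = c0 ∧ N' (1, t) = c0 ∧ N' (t, 1) = c0 := by
    intro t ht
    obtain ⟨h1, h2, h3⟩ := hside t ht
    refine ⟨?_, ?_, ?_⟩
    · rw [← hbd ⟨⟨⟨le_rfl, zero_le_one⟩, ht⟩, Or.inl rfl⟩, h1]
    · rw [← hbd ⟨⟨⟨zero_le_one, le_rfl⟩, ht⟩, Or.inr (Or.inl rfl)⟩, h2]
    · rw [← hbd ⟨⟨ht, ⟨zero_le_one, le_rfl⟩⟩, Or.inr (Or.inr (Or.inr rfl))⟩, h3]
  have hN0 : N (0, 0) = c0 := (hside 0 ⟨le_rfl, zero_le_one⟩).1
  have hN1 : N (1, 0) = c0 := (hside 0 ⟨le_rfl, zero_le_one⟩).2.1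
  have h0I : ∀ s : I, ((s : ℝ), (0 : ℝ)) ∈ bI2 := fun s =>
    ⟨⟨s.2, ⟨le_rfl, zero_le_one⟩⟩, Or.inr (Or.inr (Or.inl rfl))⟩
  let l : Path (⟨c0, hc0⟩ : C) ⟨c0, hc0⟩ :=
    { toFun := fun s => ⟨N ((s : ℝ), 0), hbot s s.2⟩
      continuous_toFun := by
        apply Continuous.subtype_mk
        exact hN.comp_continuous (by fun_prop) fun s => (h0I s).1
      source' := Subtype.ext (by simpa using hN0)
      target' := Subtype.ext (by simpa using hN1) }
  let α : Path (inc l) (R c0) :=
    { toFun := fun t =>
        { toFun := fun s => N ((s : ℝ), (t : ℝ))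
          continuous_toFun := hc.comp (by fun_prop : Continuous fun s : I => (t, s))
          source' := by simpa using (hside t t.2).1
          target' := by simpa using (hside t t.2).2.1 }
      continuous_toFun := by
        apply Path.continuous_uncurry_iff.mp
        exact hc
      source' := by
        refine Path.ext (funext fun s => ?_)
        show N ((s : ℝ), ((0 : I) : ℝ)) = N ((s : ℝ), 0)
        simp
      target' := by
        refine Path.ext (funext fun s => ?_)
        show N ((s : ℝ), ((1 : I) : ℝ)) = c0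
        simpa using (hside s s.2).2.2 }
  let α' : Path (inc l) (R c0) :=
    { toFun := fun t =>
        { toFun := fun s => N' ((s : ℝ), (t : ℝ))
          continuous_toFun := hc'.comp (by fun_prop : Continuous fun s : I => (t, s))
          source' := by simpa using (hside' t t.2).1
          target' := by simpa using (hside' t t.2).2.1 }
      continuous_toFun := by
        apply Path.continuous_uncurry_iff.mp
        exact hc'
      source' := by
        refine Path.ext (funext fun s => ?_)
        show N' ((s : ℝ), ((0 : I) : ℝ)) = N ((s : ℝ), 0)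
        rw [hbd (h0I s)]
        simp
      target' := by
        refine Path.ext (funext fun s => ?_)
        show N' ((s : ℝ), ((1 : I) : ℝ)) = c0
        simpa using (hside' s s.2).2.2 }
  have h1 : α.Homotopic α' := main hU hU' hCU hCU' hc0 hperf l
    (fun t s => hNU ⟨s.2, t.2⟩) (fun t s => hNU' ⟨s.2, t.2⟩)
  refine HR_congr (HR_of_homotopic h1) ?_ ?_
  · rintro ⟨s, t⟩ ⟨hs, ht⟩
    show N (((pr s : I) : ℝ), ((pr t : I) : ℝ)) = N (s, t)
    rw [coe_pr hs, coe_pr ht]
  · rintro ⟨s, t⟩ ⟨hs, ht⟩
    show N' (((pr s : I) : ℝ), ((pr t : I) : ℝ)) = N' (s, t)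
    rw [coe_pr hs, coe_pr ht]

end Pool.Agent.GCW
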