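import Mathlib

/-!
# JOB PI01: path connectedness and simple connectedness of a union
-/

set_option autoImplicit false

open Set Metric Topology

namespace Pool.Agent.GCW

theorem pathConnected_of_cover {X : Type} [TopologicalSpace X] {ι : Type} (U : ι → Set X)
    (C : Set X) (hcov : ⋃ i, U i = univ) (hCU : ∀ i, C ⊆ U i)
    (hcontr : ∀ i, ContractibleSpace (U i)) (hC : PathConnectedSpace C) :
    PathConnectedSpace X := by
  obtain ⟨⟨c0, hc0⟩⟩ := hC.nonempty
  have key : ∀ x : X, Joined c0 x := by
    intro x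
    have hx : x ∈ ⋃ i, U i := by rw [hcov]; trivial
    obtain ⟨i, hi⟩ := mem_iUnion.1 hx
    haveI := hcontr i
    have hp : IsPathConnected (U i) := isPathConnected_iff_pathConnectedSpace.2 inferInstance
    exact (hp.joinedIn c0 (hCU i hc0) x hi).joined
  exact ⟨⟨c0⟩, fun x y => (key x).symm.trans (key y)⟩

/-- Two paths inside a contractible subset with the same endpoints are homotopic. -/
theorem homotopic_of_mem {X : Type} [TopologicalSpace X] {U : Set X} (h : ContractibleSpace U)
    {x y : X} (p q : Path x y) (hp : ∀ t, p t ∈ U) (hq : ∀ t, q t ∈ U) : p.Homotopic q := by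
  have hx : x ∈ U := by simpa using hp 0
  have hy : y ∈ U := by simpa using hp 1
  let p' : Path (⟨x, hx⟩ : U) ⟨y, hy⟩ :=
    { toFun := fun t => ⟨p t, hp t⟩
      continuous_toFun := Continuous.subtype_mk p.continuous _
      source' := by simp
      target' := by simp }
  let q' : Path (⟨x, hx⟩ : U) ⟨y, hy⟩ :=
    { toFun := fun t => ⟨q t, hq t⟩
      continuous_toFun := Continuous.subtype_mk q.continuous _
      source' := by simp
      target' := by simp }
  have h1 : p'.Homotopic q' := SimplyConnectedSpace.paths_homotopic p' q'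
  have h2 := h1.map ⟨Subtype.val, continuous_subtype_val⟩
  exact h2

theorem mem_trans_of_mem {X : Type} [TopologicalSpace X] {U : Set X} {x y z : X} (p : Path x y)
    (q : Path y z) (hp : ∀ t, p t ∈ U) (hq : ∀ t, q t ∈ U) : ∀ t, p.trans q t ∈ U := by
  intro t
  rw [Path.trans_apply]
  split_ifs
  · exact hp _
  · exact hq _

theorem subsingleton_pi01_of_cover {X : Type} [TopologicalSpace X] {ι : Type} (U : ι → Set X)
    (C : Set X) (hU : ∀ i, IsOpen (U i)) (hcov : ⋃ i, U i = univ) (hCU : ∀ i, C ⊆ U i)
    (hint : ∀ i j, i ≠ j → U i ∩ U j ⊆ C) (hcontr : ∀ i, ContractibleSpace (U i))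
    (hC : PathConnectedSpace C) (x : X) :
    Subsingleton (π_ 0 X x) ∧ Subsingleton (π_ 1 X x) := by
  haveI hpc : PathConnectedSpace X := pathConnected_of_cover U C hcov hCU hcontr hC
  obtain ⟨⟨c0, hc0⟩⟩ := hC.nonempty
  have hCp : IsPathConnected C := isPathConnected_iff_pathConnectedSpace.2 hC
  have hUp : ∀ i, IsPathConnected (U i) := fun i =>
    haveI := hcontr i
    isPathConnected_iff_pathConnectedSpace.2 inferInstance
  have hmem : ∀ y : X, ∃ i, y ∈ U i := by
    intro y
    have hy : y ∈ ⋃ i, U i := by rw [hcov]; trivial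
    exact mem_iUnion.1 hy
  -- canonical paths from the base point
  have hcan : ∀ (y : X) (β β' : Path c0 y) (i j : ι), (∀ t, β t ∈ U i) → (∀ t, β' t ∈ U j) →
      β.Homotopic β' := by
    intro y β β' i j hβ hβ'
    by_cases hij : i = j
    · subst hij
      exact homotopic_of_mem (hcontr i) β β' hβ hβ'
    · have hy : y ∈ C := hint i j hij ⟨by simpa using hβ 1, by simpa using hβ' 1⟩
      obtain ⟨δ, hδ⟩ := hCp.joinedIn c0 hc0 y hy
      exact (homotopic_of_mem (hcontr i) β δ hβ (fun t => hCU i (hδ t))).trans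
        (homotopic_of_mem (hcontr j) δ β' (fun t => hCU j (hδ t)) hβ')
  -- one step
  have hstep : ∀ (y y' : X) (γ : Path y y') (β : Path c0 y) (β' : Path c0 y') (i j k : ι),
      (∀ t, γ t ∈ U j) → (∀ t, β t ∈ U i) → (∀ t, β' t ∈ U k) → (β.trans γ).Homotopic β' := by
    intro y y' γ β β' i j k hγ hβ hβ'
    obtain ⟨δ, hδ⟩ := (hUp j).joinedIn c0 (hCU j hc0) y (by simpa using hγ 0)
    have h1 : β.Homotopic δ := hcan y β δ i j hβ hδ
    have h2 : (β.trans γ).Homotopic (δ.trans γ) := h1.hcomp (Path.Homotopic.refl γ)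
    exact h2.trans (hcan y' _ _ j k (mem_trans_of_mem δ γ hδ hγ) hβ')
  -- general paths
  have hgen : ∀ (y y' : X) (γ : Path y y') (β : Path c0 y) (β' : Path c0 y') (i k : ι),
      (∀ t, β t ∈ U i) → (∀ t, β' t ∈ U k) → (β.trans γ).Homotopic β' := by
    intro y y' γ β β' i k hβ hβ'
    obtain ⟨t, t0, tmono, ⟨m, hm⟩, hsub⟩ :=
      exists_monotone_Icc_subset_open_cover_unitInterval (c := fun i => γ ⁻¹' U i)
        (fun i => (hU i).preimage γ.continuous)
        (fun s _ => by
          obtain ⟨i, hi⟩ := hmem (γ s)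
          exact mem_iUnion.2 ⟨i, hi⟩)
    have hind : ∀ n : ℕ, ∀ (β0 : Path c0 (γ 0)) (β1 : Path c0 (γ (t n))) (i k : ι),
        (∀ s, β0 s ∈ U i) → (∀ s, β1 s ∈ U k) → (β0.trans (γ.subpath 0 (t n))).Homotopic β1 := by
      intro n
      induction n with
      | zero =>
        rw [t0]
        intro β0 β1 i k h0 h1
        rw [Path.subpath_self]
        exact (Path.Homotopic.trans_refl β0).trans (hcan _ β0 β1 i k h0 h1)
      | succ n ih =>
        intro β0 β1 i k h0 h1
        obtain ⟨j, hj⟩ := hsub n
        have hle : t n ≤ t (n + 1) := tmono n.le_succ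
        have hγj : ∀ s, γ.subpath (t n) (t (n + 1)) s ∈ U j := by
          intro s
          have h3 : γ.subpath (t n) (t (n + 1)) s ∈ range (γ.subpath (t n) (t (n + 1))) :=
            mem_range_self s
          rw [Path.range_subpath_of_le _ _ _ hle] at h3
          obtain ⟨r, hr, hrs⟩ := h3
          rw [← hrs]
          exact hj hr
        obtain ⟨δ, hδ⟩ := (hUp j).joinedIn c0 (hCU j hc0) (γ (t n))
          (hj ⟨le_refl _, hle⟩)
        have h4 : (β0.trans (γ.subpath 0 (t n))).Homotopic δ := ih β0 δ i j h0 hδ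
        have h5 : ((γ.subpath 0 (t n)).trans (γ.subpath (t n) (t (n + 1)))).Homotopic
            (γ.subpath 0 (t (n + 1))) := ⟨Path.Homotopy.subpathTransSubpath γ _ _ _⟩
        have h6 : (β0.trans (γ.subpath 0 (t (n + 1)))).Homotopic
            (β0.trans ((γ.subpath 0 (t n)).trans (γ.subpath (t n) (t (n + 1))))) :=
          (Path.Homotopic.refl β0).hcomp h5.symm
        have h7 := (Path.Homotopic.trans_assoc β0 (γ.subpath 0 (t n))
          (γ.subpath (t n) (t (n + 1)))).symm
        have h8 : ((β0.trans (γ.subpath 0 (t n))).trans (γ.subpath (t n) (t (n + 1)))).Homotopic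
            (δ.trans (γ.subpath (t n) (t (n + 1)))) := h4.hcomp (Path.Homotopic.refl _)
        exact h6.trans (h7.trans (h8.trans
          (hstep _ _ (γ.subpath (t n) (t (n + 1))) δ β1 j j k hγj hδ h1)))
    have hm1 : t m = 1 := hm m le_rfl
    have hfin := hind m
    rw [hm1] at hfin
    have h9 := hfin (β.cast rfl γ.source) (β'.cast rfl γ.target) i k (fun s => hβ s)
      (fun s => hβ' s)
    rw [Path.subpath_zero_one] at h9
    have h10 := h9.pathCast (x₂ := c0) (x₃ := y') rfl γ.target.symm
    exact h10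
  have hsc : SimplyConnectedSpace X := by
    rw [simply_connected_iff_paths_homotopic']
    refine ⟨hpc, ?_⟩
    intro a b p q
    obtain ⟨i, hi⟩ := hmem a
    obtain ⟨k, hk⟩ := hmem b
    obtain ⟨β, hβ⟩ := (hUp i).joinedIn c0 (hCU i hc0) a hi
    obtain ⟨β', hβ'⟩ := (hUp k).joinedIn c0 (hCU k hc0) b hk
    have h1 := hgen a b p β β' i k hβ hβ'
    have h2 := hgen a b q β β' i k hβ hβ'
    have h3 : (β.trans p).Homotopic (β.trans q) := h1.trans h2.symm
    have h4 : (β.symm.trans (β.trans p)).Homotopic (β.symm.trans (β.trans q)) :=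
      (Path.Homotopic.refl _).hcomp h3
    have h5 : ∀ r : Path a b, (β.symm.trans (β.trans r)).Homotopic r := by
      intro r
      have h6 := (Path.Homotopic.trans_assoc β.symm β r).symm
      have h7 : ((β.symm.trans β).trans r).Homotopic ((Path.refl a).trans r) :=
        (Path.Homotopic.symm_trans β).hcomp (Path.Homotopic.refl r)
      exact h6.trans (h7.trans (Path.Homotopic.refl_trans r))
    exact (h5 p).symm.trans (h4.trans (h5 q))
  constructor
  · haveI : Subsingleton (ZerothHomotopy X) := by
      constructor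
      intro a b
      induction a using Quotient.inductionOn with
      | h a =>
        induction b using Quotient.inductionOn with
        | h b => exact Quotient.sound (hpc.joined a b)
    exact (HomotopyGroup.pi0EquivZerothHomotopy (X := X) (x := x)).subsingleton
  · haveI : Subsingleton (FundamentalGroup X x) := inferInstance
    exact (HomotopyGroup.pi1EquivFundamentalGroup (X := X) (x := x)).subsingleton

end Pool.Agent.GCW
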