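import Mathlib

/-!
# `G`-CW-complexes: the notions used in the statement
-/

set_option autoImplicit false

open Topology Set
open scoped Topology Pointwise

namespace Pool.Agent.GCW

/-- `X` is `2`-connected: nonempty with vanishing `π_0`, `π_1`, `π_2` (at every base point). -/
def TwoConnected (X : Type*) [TopologicalSpace X] : Prop :=
  Nonempty X ∧ ∀ x : X, Subsingleton (π_ 0 X x) ∧ Subsingleton (π_ 1 X x) ∧
    Subsingleton (π_ 2 X x)

/-- The type of `n`-cells of a CW complex `X`. -/
abbrev Cell (X : Type*) [TopologicalSpace X] [CWComplex (univ : Set X)] (n : ℕ) : Type _ :=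
  RelCWComplex.cell (univ : Set X) n

/-- The open `n`-cell given by the index `e`. -/
abbrev oCell {X : Type*} [TopologicalSpace X] [CWComplex (univ : Set X)] {n : ℕ}
    (e : Cell X n) : Set X :=
  RelCWComplex.openCell n e

/-- The CW complex `X` with an action of `G` is a `G`-CW-complex: `G` acts by continuous maps,
permutes the open cells (preserving the dimension), and every element that maps a cell to itself
fixes this cell pointwise. -/
structure IsGCW (G X : Type*) [Group G] [TopologicalSpace X] [MulAction G X]
    [CWComplex (univ : Set X)] : Prop where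
  cont : ∀ g : G, Continuous fun x : X => g • x
  perm : ∀ (g : G) (n : ℕ) (e : Cell X n), ∃ e' : Cell X n, g • oCell e = oCell e'
  fix : ∀ (g : G) (n : ℕ) (e : Cell X n), g • oCell e = oCell e → ∀ x ∈ oCell e, g • x = x

/-- The stabiliser of a cell. -/
def cellStab (G : Type*) {X : Type*} [Group G] [TopologicalSpace X] [MulAction G X]
    [CWComplex (univ : Set X)] {n : ℕ} (e : Cell X n) : Subgroup G :=
  MulAction.stabilizer G (oCell e)

/-- The orbit relation on a subset of a `G`-space. -/
def orbitSetoid (G : Type*) {X : Type*} [Group G] [MulAction G X] (S : Set X) : Setoid S where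
  r x y := ∃ g : G, g • (x : X) = y
  iseqv :=
    { refl := fun x => ⟨1, one_smul G (x : X)⟩
      symm := by
        rintro x y ⟨g, h⟩
        exact ⟨g⁻¹, by rw [← h, inv_smul_smul]⟩
      trans := by
        rintro x y z ⟨g, h⟩ ⟨k, l⟩
        exact ⟨k * g, by rw [mul_smul, h, l]⟩ }

/-- The quotient of the `n`-skeleton of `X` by `G` is compact. -/
def SkelCocompact (G X : Type*) [Group G] [TopologicalSpace X] [T2Space X] [MulAction G X]
    [CWComplex (univ : Set X)] (n : ℕ) : Prop :=
  CompactSpace (Quotient (orbitSetoid G
    (CWComplex.skeleton (univ : Set X) (n : ℕ∞) : Set X)))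

end Pool.Agent.GCW
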