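import Pool.Agent.Lib.MP_63e749_al.NullSquare
import Pool.Agent.Lib.MP_63e749_al.Defs

/-!
# JOB PI2: from `NullSq` to Mathlib's `π_ 2`
-/

set_option autoImplicit false

open Set Metric Topology

namespace Pool.Agent.GCW

variable {X : Type} [TopologicalSpace X]

/-- The retraction of the plane onto the unit square, with values in the cube of Mathlib. -/
noncomputable def clampSq (u : ℝ × ℝ) : Fin 2 → unitInterval :=
  ![projIcc (0 : ℝ) 1 zero_le_one u.1, projIcc (0 : ℝ) 1 zero_le_one u.2]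

theorem continuous_clampSq : Continuous clampSq := by
  refine continuous_pi fun i => ?_
  fin_cases i
  · exact (continuous_projIcc (h := zero_le_one (α := ℝ))).comp continuous_fst
  · exact (continuous_projIcc (h := zero_le_one (α := ℝ))).comp continuous_snd

theorem clampSq_mem_boundary {u : ℝ × ℝ} (hu : u ∈ bI2) : clampSq u ∈ Cube.boundary (Fin 2) := by
  obtain ⟨-, h | h | h | h⟩ := hu
  · exact ⟨0, Or.inl (by
      show projIcc (0 : ℝ) 1 zero_le_one u.1 = 0
      rw [h]; exact projIcc_left (zero_le_one (α := ℝ)))⟩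
  · exact ⟨0, Or.inr (by
      show projIcc (0 : ℝ) 1 zero_le_one u.1 = 1
      rw [h]; exact projIcc_right (zero_le_one (α := ℝ)))⟩
  · exact ⟨1, Or.inl (by
      show projIcc (0 : ℝ) 1 zero_le_one u.2 = 0
      rw [h]; exact projIcc_left (zero_le_one (α := ℝ)))⟩
  · exact ⟨1, Or.inr (by
      show projIcc (0 : ℝ) 1 zero_le_one u.2 = 1
      rw [h]; exact projIcc_right (zero_le_one (α := ℝ)))⟩

theorem clampSq_coe (y : Fin 2 → unitInterval) : clampSq ((y 0 : ℝ), (y 1 : ℝ)) = y := by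
  funext i
  fin_cases i
  · exact projIcc_val zero_le_one (y 0)
  · exact projIcc_val zero_le_one (y 1)

theorem coe_mem_I2 (y : Fin 2 → unitInterval) : ((y 0 : ℝ), (y 1 : ℝ)) ∈ I2 :=
  ⟨(y 0).2, (y 1).2⟩

theorem coe_mem_bI2 {y : Fin 2 → unitInterval} (hy : y ∈ Cube.boundary (Fin 2)) :
    ((y 0 : ℝ), (y 1 : ℝ)) ∈ bI2 := by
  refine ⟨coe_mem_I2 y, ?_⟩
  obtain ⟨i, hi⟩ := hy
  fin_cases i
  · rcases hi with h | h
    · left
      show ((y 0 : unitInterval) : ℝ) = 0
      have h' : y 0 = 0 := h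
      rw [h']; rfl
    · right; left
      show ((y 0 : unitInterval) : ℝ) = 1
      have h' : y 0 = 1 := h
      rw [h']; rfl
  · rcases hi with h | h
    · right; right; left
      show ((y 1 : unitInterval) : ℝ) = 0
      have h' : y 1 = 0 := h
      rw [h']; rfl
    · right; right; right
      show ((y 1 : unitInterval) : ℝ) = 1
      have h' : y 1 = 1 := h
      rw [h']; rfl

/-- The signed sup-distance of a point of the plane to the boundary of the unit square. -/
noncomputable def bdist (u : ℝ × ℝ) : ℝ := dist u ctr2 - 1 / 2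

theorem continuous_bdist : Continuous bdist := by
  unfold bdist
  fun_prop

theorem bdist_scale {s : ℝ} (hs : 0 ≤ s) (p : ℝ × ℝ) :
    bdist (ctr2 + s • (p - ctr2)) = s * dist p ctr2 - 1 / 2 := by
  unfold bdist
  rw [dist_eq_norm, add_sub_cancel_left, norm_smul, Real.norm_eq_abs, abs_of_nonneg hs,
    ← dist_eq_norm]

theorem bI2_of_bdist_zero {u : ℝ × ℝ} (h : bdist u = 0) : u ∈ bI2 := by
  rw [← sphere_ctr2, mem_sphere]
  unfold bdist at h
  linarith

theorem half_le_dist_of_notMem {p : ℝ × ℝ} (hp : p ∉ Ioo (0 : ℝ) 1 ×ˢ Ioo (0 : ℝ) 1) :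
    1 / 2 ≤ dist p ctr2 := by
  by_contra hlt
  push Not at hlt
  apply hp
  have h : max (dist p.1 (1 / 2)) (dist p.2 (1 / 2)) < 1 / 2 := hlt
  rw [max_lt_iff, Real.dist_eq, Real.dist_eq, abs_lt, abs_lt] at h
  obtain ⟨⟨h1, h2⟩, h3, h4⟩ := h
  exact ⟨⟨by linarith, by linarith⟩, ⟨by linarith, by linarith⟩⟩

/-- Every generalised loop is null homotopic. -/
theorem genLoop_homotopic_const [PathConnectedSpace X] {c0 : X} (h : NullSq X c0) (x : X)
    (g : GenLoop (Fin 2) X x) : GenLoop.Homotopic g GenLoop.const := by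
  classical
  -- a path from `x` to `c0`
  obtain ⟨γ⟩ : Nonempty (Path x c0) := PathConnectedSpace.joined x c0
  set α : ℝ → X := ⇑γ.extend with hα
  have hαc : Continuous α := γ.continuous_extend
  have hα0 : ∀ t : ℝ, t ≤ 0 → α t = x := fun t ht => γ.extend_of_le_zero ht
  have hα1 : ∀ t : ℝ, 1 ≤ t → α t = c0 := fun t ht => γ.extend_of_one_le ht
  -- the extended map on the plane
  set f : ℝ × ℝ → X := fun u => if bdist u ≤ 0 then g (clampSq u) else α (bdist u) with hf
  have hgc : Continuous fun u : ℝ × ℝ => g (clampSq u) := g.1.continuous.comp continuous_clampSq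
  have hgb : ∀ u : ℝ × ℝ, bdist u = 0 → g (clampSq u) = x := fun u hu =>
    GenLoop.boundary g _ (clampSq_mem_boundary (bI2_of_bdist_zero hu))
  have hfc : Continuous f := by
    refine Continuous.if_le hgc (hαc.comp continuous_bdist) continuous_bdist continuous_const ?_
    intro u hu
    show g (clampSq u) = α (bdist u)
    rw [hgb u hu, hu, hα0 0 le_rfl]
  have hf1 : ∀ u, 0 ≤ bdist u → f u = α (bdist u) := by
    intro u hu
    by_cases h0 : bdist u ≤ 0
    · have h1 : bdist u = 0 := le_antisymm h0 hu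
      show (if bdist u ≤ 0 then g (clampSq u) else α (bdist u)) = α (bdist u)
      rw [if_pos h0, hgb u h1, h1, hα0 0 le_rfl]
    · show (if bdist u ≤ 0 then g (clampSq u) else α (bdist u)) = α (bdist u)
      rw [if_neg h0]
  have hf0 : ∀ u ∈ I2, f u = g (clampSq u) := by
    intro u hu
    rw [← closedBall_ctr2, mem_closedBall] at hu
    have h0 : bdist u ≤ 0 := by
      unfold bdist
      linarith
    exact if_pos h0
  -- the map which is constant outside the open square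
  obtain ⟨H, hHc, hH0, hH1, hHb⟩ := h (fun p => f (ctr2 + (3 : ℝ) • (p - ctr2)))
    (hfc.comp (by fun_prop)) (by
      intro p hp
      have h1 := half_le_dist_of_notMem hp
      have h2 : bdist (ctr2 + (3 : ℝ) • (p - ctr2)) = 3 * dist p ctr2 - 1 / 2 :=
        bdist_scale (by norm_num) p
      show f (ctr2 + (3 : ℝ) • (p - ctr2)) = c0
      rw [hf1 _ (by rw [h2]; linarith), hα1 _ (by rw [h2]; linarith)])
  -- the homotopy on the sphere
  set K : ℝ × (ℝ × (ℝ × ℝ)) → X := fun q =>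
    if q.2.1 = 0 then f (ctr2 + (1 + 2 * q.1) • (q.2.2 - ctr2)) else α q.1 with hK
  set A : Set (ℝ × (ℝ × (ℝ × ℝ))) := {q | q.2.1 = 0} with hA
  set B : Set (ℝ × (ℝ × (ℝ × ℝ))) := {q | 0 ≤ q.1 ∧ (q.2.1 = 1 ∨ q.2.2 ∈ bI2)} with hB
  have hAc : IsClosed A := isClosed_eq (by fun_prop) continuous_const
  have hBc : IsClosed B := by
    refine IsClosed.inter (isClosed_le continuous_const continuous_fst) ?_
    exact (isClosed_eq (by fun_prop) continuous_const).union
      (isClosed_bI2.preimage (by fun_prop : Continuous fun q : ℝ × (ℝ × (ℝ × ℝ)) => q.2.2))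
  have hAB : Icc (0 : ℝ) 1 ×ˢ sphere ctr3 (1 / 2) ⊆ A ∪ B := by
    rintro q ⟨hq1, hq2⟩
    rw [mem_sphere_ctr3] at hq2
    rcases hq2 with ⟨-, h3 | h3 | h3⟩
    · exact Or.inl h3
    · exact Or.inr ⟨hq1.1, Or.inl h3⟩
    · exact Or.inr ⟨hq1.1, Or.inr h3⟩
  have eA : EqOn K (fun q => f (ctr2 + (1 + 2 * q.1) • (q.2.2 - ctr2))) A := fun q hq => if_pos hq
  have eB : EqOn K (fun q => α q.1) B := by
    rintro q ⟨hq1, hq2⟩
    by_cases h1 : q.2.1 = 0
    · have h2 : q.2.2 ∈ bI2 := by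
        rcases hq2 with h2 | h2
        · rw [h1] at h2
          exact absurd h2 (by norm_num)
        · exact h2
      rw [← sphere_ctr2, mem_sphere] at h2
      have h3 : bdist (ctr2 + (1 + 2 * q.1) • (q.2.2 - ctr2)) = q.1 := by
        rw [bdist_scale (by linarith), h2]
        ring
      show (if q.2.1 = 0 then f (ctr2 + (1 + 2 * q.1) • (q.2.2 - ctr2)) else α q.1) = α q.1
      rw [if_pos h1, hf1 _ (by rw [h3]; exact hq1), h3]
    · show (if q.2.1 = 0 then f (ctr2 + (1 + 2 * q.1) • (q.2.2 - ctr2)) else α q.1) = α q.1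
      rw [if_neg h1]
  have hKc : ContinuousOn K (Icc (0 : ℝ) 1 ×ˢ sphere ctr3 (1 / 2)) := by
    refine ContinuousOn.mono ?_ hAB
    refine ContinuousOn.union_of_isClosed ?_ ?_ hAc hBc
    · exact (hfc.comp (by fun_prop)).continuousOn.congr eA
    · exact (hαc.comp continuous_fst).continuousOn.congr eB
  -- the extension of the end of the homotopy
  have hG1 : ContinuousOn (fun q : ℝ × (ℝ × ℝ) => H (q.2, q.1)) (closedBall ctr3 (1 / 2)) := by
    rw [closedBall_ctr3]
    exact hHc.comp (by fun_prop) fun q hq => ⟨mem_univ _, hq.1⟩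
  have hK1 : ∀ q ∈ sphere ctr3 (1 / 2), K (1, q) = H (q.2, q.1) := by
    intro q hq
    rw [mem_sphere_ctr3] at hq
    obtain ⟨⟨h1, h2⟩, h3⟩ := hq
    by_cases h0 : q.1 = 0
    · have e : K (1, q) = f (ctr2 + (1 + 2 * (1 : ℝ)) • (q.2 - ctr2)) := if_pos h0
      rw [e, h0, hH0]
      norm_num
    · have e : K (1, q) = α 1 := if_neg h0
      rw [e, hα1 1 le_rfl]
      rcases h3 with h3 | h3 | h3
      · exact absurd h3 h0
      · rw [h3, hH1]
      · refine (hHb q.2 ?_ q.1 h1).symm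
        rintro ⟨h4, h5⟩
        rcases h3.2 with h6 | h6 | h6 | h6
        · exact absurd h6 h4.1.ne'
        · exact absurd h6 h4.2.ne
        · exact absurd h6 h5.1.ne'
        · exact absurd h6 h5.2.ne
  obtain ⟨G, hGc, hGs, -⟩ := extend_of_homotopy ctr3 (by norm_num : (0 : ℝ) < 1 / 2) K hKc _ hG1 hK1
  rw [closedBall_ctr3] at hGc
  have hG0 : ∀ p ∈ I2, G (0, p) = g (clampSq p) := by
    intro p hp
    rw [hGs _ ((mem_sphere_ctr3 _).2 ⟨⟨⟨le_rfl, zero_le_one⟩, hp⟩, Or.inl rfl⟩)]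
    have e : K (0, (0, p)) = f (ctr2 + (1 + 2 * (0 : ℝ)) • (p - ctr2)) := if_pos rfl
    rw [e, ← hf0 p hp]
    congr 1
    simp
  have hGx : ∀ q : ℝ × (ℝ × ℝ), q.1 ∈ Icc (0 : ℝ) 1 → q.2 ∈ I2 → (q.1 = 1 ∨ q.2 ∈ bI2) →
      G q = x := by
    intro q h1 h2 h3
    have h4 : q.1 = 0 ∨ q.1 = 1 ∨ q.2 ∈ bI2 := Or.inr h3
    rw [hGs _ ((mem_sphere_ctr3 _).2 ⟨⟨h1, h2⟩, h4⟩)]
    rw [eB (x := (0, q)) ⟨le_rfl, h3⟩]
    exact hα0 0 le_rfl
  -- the homotopy
  refine ⟨{ toFun := fun q => G ((q.1 : ℝ), ((q.2 0 : ℝ), (q.2 1 : ℝ)))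
            continuous_toFun := ?_
            map_zero_left := ?_
            map_one_left := ?_
            prop' := ?_ }⟩
  · refine hGc.comp_continuous (by fun_prop) fun q => ?_
    exact ⟨q.1.2, coe_mem_I2 q.2⟩
  · intro y
    show G (((0 : unitInterval) : ℝ), ((y 0 : ℝ), (y 1 : ℝ))) = g y
    rw [show ((0 : unitInterval) : ℝ) = 0 from rfl, hG0 _ (coe_mem_I2 y), clampSq_coe]
  · intro y
    show G (((1 : unitInterval) : ℝ), ((y 0 : ℝ), (y 1 : ℝ))) = x
    exact hGx _ ⟨zero_le_one, le_rfl⟩ (coe_mem_I2 y) (Or.inl rfl)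
  · intro t y hy
    show G ((t : ℝ), ((y 0 : ℝ), (y 1 : ℝ))) = g y
    rw [GenLoop.boundary g y hy]
    exact hGx _ t.2 (coe_mem_I2 y) (Or.inr (coe_mem_bI2 hy))

theorem subsingleton_pi2 [PathConnectedSpace X] {c0 : X} (h : NullSq X c0) (x : X) :
    Subsingleton (π_ 2 X x) := by
  refine ⟨fun a b => ?_⟩
  refine Quotient.inductionOn₂ a b fun g g' => Quotient.sound ?_
  exact (genLoop_homotopic_const h x g).trans (genLoop_homotopic_const h x g').symm

end Pool.Agent.GCW
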