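import Pool.Agent.Lib.MP_63e749_al.Defs
import Pool.Agent.Lib.MP_63e749_al.LoopV
import Pool.Agent.Lib.MP_63e749_al.Pi2
import Pool.Agent.Lib.MP_63e749_al.Pi01

/-!
# 2-connectedness from an open cover by contractible sets with a common intersection

`U i` open contractible, `U i ∩ U j = C` for `i ≠ j`, `C` path connected with no nontrivial
homomorphism from its fundamental group to an abelian group.
-/

set_option autoImplicit false

open Topology Set
open scoped Topology

namespace Pool.Agent.GCW

theorem twoConnected_of_cover {X : Type} [TopologicalSpace X] {ι : Type} (U : ι → Set X)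
    (C : Set X) (hU : ∀ i, IsOpen (U i)) (hcov : ⋃ i, U i = univ) (hCU : ∀ i, C ⊆ U i)
    (hint : ∀ i j, i ≠ j → U i ∩ U j ⊆ C) (hcontr : ∀ i, ContractibleSpace (U i))
    (hC : PathConnectedSpace C)
    (hperf : ∀ (c : C) (B : Type) [CommGroup B] (φ : FundamentalGroup C c →* B), φ = 1) :
    TwoConnected X := by
  obtain ⟨c⟩ := hC.nonempty
  have hX : PathConnectedSpace X := pathConnected_of_cover U C hcov hCU hcontr hC
  have hLV : ∀ i j, LVProp C (U i) (U j) c.1 := fun i j =>
    lvProp_of_perfect (hcontr i) (hcontr j) (hCU i) (hCU j) c.2 (hperf c)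
  have h2 : NullSq X c.1 := nullSq_of_cover U C hU hcov hCU hint hcontr hC c.2 hLV
  refine ⟨⟨c.1⟩, fun x => ?_⟩
  obtain ⟨h3, h4⟩ := subsingleton_pi01_of_cover U C hU hcov hCU hint hcontr hC x
  exact ⟨h3, h4, subsingleton_pi2 h2 x⟩

end Pool.Agent.GCW
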