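import Pool.Agent.Lib.MP_63e749_al.HR

/-!
# JOB EDGE: null homotopies over an edge
-/

set_option autoImplicit false

open Set Metric Topology

namespace Pool.Agent.GCW

variable {X : Type} [TopologicalSpace X]

/-- Filling a square with prescribed boundary in a contractible subspace. -/
private theorem edge_fill {U : Set X} (hU : ContractibleSpace U) (b t l r : ℝ → X)
    (hb : ContinuousOn b (Icc 0 1)) (ht : ContinuousOn t (Icc 0 1)) (hl : ContinuousOn l (Icc 0 1))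
    (hr : ContinuousOn r (Icc 0 1)) (hbU : MapsTo b (Icc 0 1) U) (htU : MapsTo t (Icc 0 1) U)
    (hlU : MapsTo l (Icc 0 1) U) (hrU : MapsTo r (Icc 0 1) U)
    (h1 : b 0 = l 0) (h2 : b 1 = r 0) (h3 : t 0 = l 1) (h4 : t 1 = r 1) :
    ∃ M : ℝ × ℝ → X, ContinuousOn M I2 ∧ MapsTo M I2 U ∧ (∀ x ∈ Icc (0 : ℝ) 1, M (x, 0) = b x) ∧
      (∀ x ∈ Icc (0 : ℝ) 1, M (x, 1) = t x) ∧ (∀ y ∈ Icc (0 : ℝ) 1, M (0, y) = l y) ∧
      (∀ y ∈ Icc (0 : ℝ) 1, M (1, y) = r y) := by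
  classical
  set g : ℝ × ℝ → X := fun p => if p.2 = 0 then b p.1 else if p.2 = 1 then t p.1 else
    if p.1 = 0 then l p.2 else r p.2 with hg
  set A1 : Set (ℝ × ℝ) := {p | p ∈ I2 ∧ p.2 = 0} with hA1
  set A2 : Set (ℝ × ℝ) := {p | p ∈ I2 ∧ p.2 = 1} with hA2
  set A3 : Set (ℝ × ℝ) := {p | p ∈ I2 ∧ p.1 = 0} with hA3
  set A4 : Set (ℝ × ℝ) := {p | p ∈ I2 ∧ p.1 = 1} with hA4
  have c1 : IsClosed A1 := isClosed_I2.inter (isClosed_eq continuous_snd continuous_const)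
  have c2 : IsClosed A2 := isClosed_I2.inter (isClosed_eq continuous_snd continuous_const)
  have c3 : IsClosed A3 := isClosed_I2.inter (isClosed_eq continuous_fst continuous_const)
  have c4 : IsClosed A4 := isClosed_I2.inter (isClosed_eq continuous_fst continuous_const)
  have e1 : EqOn g (fun p => b p.1) A1 := fun p hp => if_pos hp.2
  have e2 : EqOn g (fun p => t p.1) A2 := fun p hp => by
    simp only [hg, hp.2, one_ne_zero, if_false, if_true]
  have e3 : EqOn g (fun p => l p.2) A3 := fun p hp => by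
    simp only [hg, hp.2, if_true]
    by_cases q1 : p.2 = 0
    · simp only [q1, if_true, h1]
    · by_cases q2 : p.2 = 1
      · simp only [q2, one_ne_zero, if_false, if_true, h3]
      · simp only [q1, q2, if_false]
  have e4 : EqOn g (fun p => r p.2) A4 := fun p hp => by
    simp only [hg, hp.2, one_ne_zero, if_false]
    by_cases q1 : p.2 = 0
    · simp only [q1, if_true, h2]
    · by_cases q2 : p.2 = 1
      · simp only [q2, one_ne_zero, if_false, if_true, h4]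
      · simp only [q1, q2, if_false]
  have hcov : sphere ctr2 (1 / 2) ⊆ ((A1 ∪ A2) ∪ A3) ∪ A4 := by
    rw [sphere_ctr2]
    rintro p ⟨hp, h | h | h | h⟩
    · exact Or.inl (Or.inr ⟨hp, h⟩)
    · exact Or.inr ⟨hp, h⟩
    · exact Or.inl (Or.inl (Or.inl ⟨hp, h⟩))
    · exact Or.inl (Or.inl (Or.inr ⟨hp, h⟩))
  have k1 : ContinuousOn g A1 :=
    (hb.comp continuousOn_fst fun p hp => hp.1.1).congr e1
  have k2 : ContinuousOn g A2 :=
    (ht.comp continuousOn_fst fun p hp => hp.1.1).congr e2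
  have k3 : ContinuousOn g A3 :=
    (hl.comp continuousOn_snd fun p hp => hp.1.2).congr e3
  have k4 : ContinuousOn g A4 :=
    (hr.comp continuousOn_snd fun p hp => hp.1.2).congr e4
  have hgc : ContinuousOn g (sphere ctr2 (1 / 2)) := by
    refine ContinuousOn.mono ?_ hcov
    refine ContinuousOn.union_of_isClosed ?_ k4 ((c1.union c2).union c3) c4
    refine ContinuousOn.union_of_isClosed ?_ k3 (c1.union c2) c3
    exact ContinuousOn.union_of_isClosed k1 k2 c1 c2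
  have hgU : MapsTo g (sphere ctr2 (1 / 2)) U := by
    intro p hp
    rcases hcov hp with ((h | h) | h) | h
    · rw [e1 h]; exact hbU h.1.1
    · rw [e2 h]; exact htU h.1.1
    · rw [e3 h]; exact hlU h.1.2
    · rw [e4 h]; exact hrU h.1.2
  obtain ⟨M, m1, m2, m3⟩ := fill_of_contractible ctr2 (by norm_num : (0 : ℝ) < 1 / 2) hU g hgc hgU
  rw [closedBall_ctr2] at m1 m2
  rw [sphere_ctr2] at m3
  have z0 : (0 : ℝ) ∈ Icc (0 : ℝ) 1 := ⟨le_rfl, zero_le_one⟩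
  have z1 : (1 : ℝ) ∈ Icc (0 : ℝ) 1 := ⟨zero_le_one, le_rfl⟩
  refine ⟨M, m1, m2, fun x hx => ?_, fun x hx => ?_, fun y hy => ?_, fun y hy => ?_⟩
  · have q : ((x, 0) : ℝ × ℝ) ∈ I2 := ⟨hx, z0⟩
    rw [m3 ⟨q, Or.inr (Or.inr (Or.inl rfl))⟩]
    exact e1 ⟨q, rfl⟩
  · have q : ((x, 1) : ℝ × ℝ) ∈ I2 := ⟨hx, z1⟩
    rw [m3 ⟨q, Or.inr (Or.inr (Or.inr rfl))⟩]
    exact e2 ⟨q, rfl⟩
  · have q : ((0, y) : ℝ × ℝ) ∈ I2 := ⟨z0, hy⟩
    rw [m3 ⟨q, Or.inl rfl⟩]
    exact e3 ⟨q, rfl⟩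
  · have q : ((1, y) : ℝ × ℝ) ∈ I2 := ⟨z1, hy⟩
    rw [m3 ⟨q, Or.inr (Or.inl rfl)⟩]
    exact e4 ⟨q, rfl⟩

/-- Gluing a collar to a homotopy. -/
private theorem edge_glue (Γ : ℝ → X) (hΓ : ContinuousOn Γ (Icc (-1 / 2) (3 / 2)))
    (A : ℝ × (ℝ × ℝ) → X) (hA : ContinuousOn A (Icc (0 : ℝ) 1 ×ˢ I2))
    (hAΓ : ∀ θ ∈ Icc (0 : ℝ) 1, ∀ x ∈ Icc (0 : ℝ) 1, A (θ, (x, 0)) = Γ (2 * x - 1 / 2)) :
    ContinuousOn (fun q : ℝ × (ℝ × ℝ) => if q.2.2 ≤ 1 / 2 then
      Γ ((1 + 2 * q.2.2) * q.2.1 - q.2.2) else A (q.1, (q.2.1, 2 * q.2.2 - 1)))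
      (Icc (0 : ℝ) 1 ×ˢ I2) := by
  set S1 : Set (ℝ × (ℝ × ℝ)) := {q | q ∈ Icc (0 : ℝ) 1 ×ˢ I2 ∧ q.2.2 ≤ 1 / 2} with hS1
  set S2 : Set (ℝ × (ℝ × ℝ)) := {q | q ∈ Icc (0 : ℝ) 1 ×ˢ I2 ∧ 1 / 2 ≤ q.2.2} with hS2
  have c0 : IsClosed (Icc (0 : ℝ) 1 ×ˢ I2) := isClosed_Icc.prod isClosed_I2
  have c1 : IsClosed S1 := c0.inter
    (isClosed_le (f := fun q : ℝ × (ℝ × ℝ) => q.2.2) (g := fun _ => 1 / 2) (by fun_prop)
      (by fun_prop))
  have c2 : IsClosed S2 := c0.inter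
    (isClosed_le (f := fun _ : ℝ × (ℝ × ℝ) => (1 / 2 : ℝ)) (g := fun q => q.2.2) (by fun_prop)
      (by fun_prop))
  have hcov : Icc (0 : ℝ) 1 ×ˢ I2 = S1 ∪ S2 := by
    ext q
    constructor
    · intro hq
      rcases le_total q.2.2 (1 / 2) with h | h
      · exact Or.inl ⟨hq, h⟩
      · exact Or.inr ⟨hq, h⟩
    · rintro (h | h)
      · exact h.1
      · exact h.1
  rw [hcov]
  refine ContinuousOn.union_of_isClosed ?_ ?_ c1 c2
  · have e1 : EqOn (fun q : ℝ × (ℝ × ℝ) => if q.2.2 ≤ 1 / 2 then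
      Γ ((1 + 2 * q.2.2) * q.2.1 - q.2.2) else A (q.1, (q.2.1, 2 * q.2.2 - 1)))
      (fun q => Γ ((1 + 2 * q.2.2) * q.2.1 - q.2.2)) S1 := fun q hq => if_pos hq.2
    refine ContinuousOn.congr ?_ e1
    refine hΓ.comp (f := fun q : ℝ × (ℝ × ℝ) => (1 + 2 * q.2.2) * q.2.1 - q.2.2) (by fun_prop) ?_
    rintro q ⟨⟨-, ⟨h1, h2⟩, h3, h4⟩, h5⟩
    constructor
    · show -1 / 2 ≤ (1 + 2 * q.2.2) * q.2.1 - q.2.2
      nlinarith
    · show (1 + 2 * q.2.2) * q.2.1 - q.2.2 ≤ 3 / 2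
      nlinarith
  · have e2 : EqOn (fun q : ℝ × (ℝ × ℝ) => if q.2.2 ≤ 1 / 2 then
      Γ ((1 + 2 * q.2.2) * q.2.1 - q.2.2) else A (q.1, (q.2.1, 2 * q.2.2 - 1)))
      (fun q => A (q.1, (q.2.1, 2 * q.2.2 - 1))) S2 := by
      rintro ⟨θ, x, t⟩ ⟨⟨h0, h1, h2⟩, h3⟩
      simp only at h0 h1 h2 h3 ⊢
      by_cases h : t ≤ 1 / 2
      · have h' : t = 1 / 2 := le_antisymm h h3
        subst h'
        simp only [le_refl, if_true]
        have := hAΓ θ h0 x h1
        rw [show (2 : ℝ) * (1 / 2) - 1 = 0 by norm_num, this]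
        congr 1
        ring
      · simp only [h, if_false]
    refine ContinuousOn.congr ?_ e2
    refine hA.comp (f := fun q : ℝ × (ℝ × ℝ) => (q.1, (q.2.1, 2 * q.2.2 - 1))) (by fun_prop) ?_
    rintro q ⟨⟨h0, h1, h2, h3⟩, h4⟩
    refine ⟨h0, h1, ?_, ?_⟩
    · show 0 ≤ 2 * q.2.2 - 1
      linarith
    · show 2 * q.2.2 - 1 ≤ 1
      linarith

theorem edge_lemma {C U U' : Set X} (hU : ContractibleSpace U) (hU' : ContractibleSpace U')
    (hCU : C ⊆ U) (hCU' : C ⊆ U') (hint : U = U' ∨ U ∩ U' ⊆ C) {c0 : X} (hc0 : c0 ∈ C)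
    (hLV : LVProp C U U' c0)
    (γ δ0 δ1 : ℝ → X) (hγ : ContinuousOn γ (Icc 0 1)) (hδ0 : ContinuousOn δ0 (Icc 0 1))
    (hδ1 : ContinuousOn δ1 (Icc 0 1)) (hγV : MapsTo γ (Icc 0 1) (U ∩ U'))
    (hδ0V : MapsTo δ0 (Icc 0 1) (U ∩ U')) (hδ1V : MapsTo δ1 (Icc 0 1) (U ∩ U'))
    (h0 : δ0 0 = γ 0) (h1 : δ1 0 = γ 1)
    (hδ0c : ∀ t ∈ Icc (1 / 2 : ℝ) 1, δ0 t = c0) (hδ1c : ∀ t ∈ Icc (1 / 2 : ℝ) 1, δ1 t = c0) :
    ∃ M : ℝ × ℝ → X, ContinuousOn M I2 ∧ (∀ x ∈ Icc (0 : ℝ) 1, M (x, 0) = γ x) ∧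
      (∀ x ∈ Icc (0 : ℝ) 1, M (x, 1) = c0) ∧ (∀ t ∈ Icc (0 : ℝ) 1, M (0, t) = δ0 t) ∧
      (∀ t ∈ Icc (0 : ℝ) 1, M (1, t) = δ1 t) ∧ Good U M ∧ Good U' M := by
  classical
  have z0 : (0 : ℝ) ∈ Icc (0 : ℝ) 1 := ⟨le_rfl, zero_le_one⟩
  have z1 : (1 : ℝ) ∈ Icc (0 : ℝ) 1 := ⟨zero_le_one, le_rfl⟩
  rcases hint with hUU | hint
  · subst hUU
    obtain ⟨M, m1, m2, m3, m4, m5, m6⟩ := edge_fill hU γ (fun _ => c0) δ0 δ1 hγ continuousOn_const
      hδ0 hδ1 (fun x hx => (hγV hx).1) (fun _ _ => hCU hc0) (fun x hx => (hδ0V hx).1)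
      (fun x hx => (hδ1V hx).1) h0.symm h1.symm (hδ0c 1 ⟨by norm_num, le_rfl⟩).symm
      (hδ1c 1 ⟨by norm_num, le_rfl⟩).symm
    exact ⟨M, m1, m3, m4, m5, m6, Good.of_mapsTo m1 m2, Good.of_mapsTo m1 m2⟩
  · -- the path `Γ`
    set Γ : ℝ → X := fun s => if s ≤ 0 then δ0 (-s) else if s ≤ 1 then γ s else δ1 (s - 1) with hΓ
    have Γ0 : EqOn Γ (fun s => δ0 (-s)) (Icc (-1) 0) := fun s hs => if_pos hs.2
    have Γ1 : EqOn Γ γ (Icc 0 1) := by
      intro s hs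
      by_cases h : s ≤ 0
      · have : s = 0 := le_antisymm h hs.1
        subst this
        simp only [hΓ, le_refl, if_true, neg_zero, h0]
      · simp only [hΓ, h, if_false, hs.2, if_true]
    have Γ2 : EqOn Γ (fun s => δ1 (s - 1)) (Icc 1 2) := by
      intro s hs
      have h : ¬ s ≤ 0 := by have := hs.1; linarith
      by_cases h' : s ≤ 1
      · have : s = 1 := le_antisymm h' hs.1
        subst this
        simp only [hΓ, h, if_false, le_refl, if_true, sub_self, h1]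
      · simp only [hΓ, h, h', if_false]
    have hΓc' : ContinuousOn Γ ((Icc (-1) 0 ∪ Icc 0 1) ∪ Icc 1 2) := by
      refine ContinuousOn.union_of_isClosed ?_ ?_ (isClosed_Icc.union isClosed_Icc) isClosed_Icc
      · refine ContinuousOn.union_of_isClosed ?_ ?_ isClosed_Icc isClosed_Icc
        · refine ContinuousOn.congr ?_ Γ0
          refine hδ0.comp (f := fun s : ℝ => -s) (by fun_prop) ?_
          intro s hs
          constructor
          · show 0 ≤ -s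
            linarith [hs.2]
          · show -s ≤ 1
            linarith [hs.1]
        · exact hγ.congr Γ1
      · refine ContinuousOn.congr ?_ Γ2
        refine hδ1.comp (f := fun s : ℝ => s - 1) (by fun_prop) ?_
        intro s hs
        constructor
        · show 0 ≤ s - 1
          linarith [hs.1]
        · show s - 1 ≤ 1
          linarith [hs.2]
    have hsub : Icc (-1 / 2 : ℝ) (3 / 2) ⊆ (Icc (-1) 0 ∪ Icc 0 1) ∪ Icc 1 2 := by
      intro s hs
      rcases le_total s 0 with h | h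
      · exact Or.inl (Or.inl ⟨by linarith [hs.1], h⟩)
      · rcases le_total s 1 with h' | h'
        · exact Or.inl (Or.inr ⟨h, h'⟩)
        · exact Or.inr ⟨h', by linarith [hs.2]⟩
    have hΓc : ContinuousOn Γ (Icc (-1 / 2) (3 / 2)) := hΓc'.mono hsub
    have hΓC : MapsTo Γ (Icc (-1 / 2) (3 / 2)) C := by
      intro s hs
      apply hint
      rcases hsub hs with (h | h) | h
      · rw [Γ0 h]
        exact hδ0V ⟨by linarith [h.2], by linarith [h.1]⟩
      · rw [Γ1 h]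
        exact hγV h
      · rw [Γ2 h]
        exact hδ1V ⟨by linarith [h.1], by linarith [h.2]⟩
    have hlc : ContinuousOn (fun x : ℝ => Γ (2 * x - 1 / 2)) (Icc 0 1) := by
      refine hΓc.comp (f := fun x : ℝ => 2 * x - 1 / 2) (by fun_prop) ?_
      intro x hx
      constructor
      · show -1 / 2 ≤ 2 * x - 1 / 2
        linarith [hx.1]
      · show 2 * x - 1 / 2 ≤ 3 / 2
        linarith [hx.2]
    have hlC : ∀ x ∈ Icc (0 : ℝ) 1, Γ (2 * x - 1 / 2) ∈ C := by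
      intro x hx
      exact hΓC ⟨by linarith [hx.1], by linarith [hx.2]⟩
    have hl0 : Γ (2 * 0 - 1 / 2) = c0 := by
      rw [Γ0 ⟨by norm_num, by norm_num⟩]
      exact hδ0c _ ⟨by norm_num, by norm_num⟩
    have hl1 : Γ (2 * 1 - 1 / 2) = c0 := by
      rw [Γ2 ⟨by norm_num, by norm_num⟩]
      exact hδ1c _ ⟨by norm_num, by norm_num⟩
    obtain ⟨N, n1, n2, n3, n4, n5, n6⟩ := edge_fill hU (fun x => Γ (2 * x - 1 / 2)) (fun _ => c0)
      (fun _ => c0) (fun _ => c0) hlc continuousOn_const continuousOn_const continuousOn_const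
      (fun x hx => hCU (hlC x hx)) (fun _ _ => hCU hc0) (fun _ _ => hCU hc0) (fun _ _ => hCU hc0)
      hl0 hl1 rfl rfl
    obtain ⟨N', n1', n2', n3', n4', n5', n6'⟩ := edge_fill hU' (fun x => Γ (2 * x - 1 / 2))
      (fun _ => c0) (fun _ => c0) (fun _ => c0) hlc continuousOn_const continuousOn_const
      continuousOn_const (fun x hx => hCU' (hlC x hx)) (fun _ _ => hCU' hc0) (fun _ _ => hCU' hc0)
      (fun _ _ => hCU' hc0) hl0 hl1 rfl rfl
    have hNN : EqOn N N' bI2 := by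
      rintro ⟨x, y⟩ ⟨⟨hx, hy⟩, h⟩
      simp only at hx hy h
      rcases h with h | h | h | h
      · subst h; rw [n5 y hy, n5' y hy]
      · subst h; rw [n6 y hy, n6' y hy]
      · subst h; rw [n3 x hx, n3' x hx]
      · subst h; rw [n4 x hx, n4' x hx]
    obtain ⟨F, f1, f2, f3, f4⟩ : HR N N' := hLV N N' n1 n1' n2 n2' hNN
      (fun x hx => by rw [n3 x hx]; exact hlC x hx)
      (fun t ht => ⟨n5 t ht, n6 t ht, n4 t ht⟩)
    set M : ℝ × ℝ → X := fun p => if p.2 ≤ 1 / 2 then Γ ((1 + 2 * p.2) * p.1 - p.2) else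
      N (p.1, 2 * p.2 - 1) with hM
    set M' : ℝ × ℝ → X := fun p => if p.2 ≤ 1 / 2 then Γ ((1 + 2 * p.2) * p.1 - p.2) else
      N' (p.1, 2 * p.2 - 1) with hM'
    have hhalf : ∀ p : ℝ × ℝ, p ∈ I2 → ¬ p.2 ≤ 1 / 2 → ((p.1, 2 * p.2 - 1) : ℝ × ℝ) ∈ I2 := by
      rintro p ⟨h1, h2, h3⟩ h4
      exact ⟨h1, by show 0 ≤ 2 * p.2 - 1; linarith, by show 2 * p.2 - 1 ≤ 1; linarith⟩
    have hHR : HR M M' := by
      refine ⟨_, edge_glue Γ hΓc F f1 ?_, ?_, ?_, ?_⟩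
      · intro θ hθ x hx
        rw [f4 θ hθ (x, 0) ⟨⟨hx, z0⟩, Or.inr (Or.inr (Or.inl rfl))⟩, n3 x hx]
      · intro p hp
        by_cases h : p.2 ≤ 1 / 2
        · simp only [hM, h, if_true]
        · simp only [hM, h, if_false]
          exact f2 _ (hhalf p hp h)
      · intro p hp
        by_cases h : p.2 ≤ 1 / 2
        · simp only [hM', h, if_true]
        · simp only [hM', h, if_false]
          exact f3 _ (hhalf p hp h)
      · intro θ hθ p hp
        by_cases h : p.2 ≤ 1 / 2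
        · simp only [hM, h, if_true]
        · simp only [hM, h, if_false]
          refine f4 θ hθ _ ⟨hhalf p hp.1 h, ?_⟩
          rcases hp.2 with h' | h' | h' | h'
          · exact Or.inl h'
          · exact Or.inr (Or.inl h')
          · exact absurd (by rw [h']; norm_num) h
          · refine Or.inr (Or.inr (Or.inr ?_))
            show 2 * p.2 - 1 = 1
            rw [h']; norm_num
    have hrange : ∀ p : ℝ × ℝ, p ∈ I2 → p.2 ≤ 1 / 2 →
        (1 + 2 * p.2) * p.1 - p.2 ∈ Icc (-1 / 2 : ℝ) (3 / 2) := by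
      rintro p ⟨⟨h1, h2⟩, h3, h4⟩ h5
      constructor <;> nlinarith
    have hMU : MapsTo M I2 U := by
      intro p hp
      by_cases h : p.2 ≤ 1 / 2
      · simp only [hM, h, if_true]
        exact hCU (hΓC (hrange p hp h))
      · simp only [hM, h, if_false]
        exact n2 (hhalf p hp h)
    have hMU' : MapsTo M' I2 U' := by
      intro p hp
      by_cases h : p.2 ≤ 1 / 2
      · simp only [hM', h, if_true]
        exact hCU' (hΓC (hrange p hp h))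
      · simp only [hM', h, if_false]
        exact n2' (hhalf p hp h)
    refine ⟨M, hHR.continuousOn_left, ?_, ?_, ?_, ?_, Good.of_mapsTo hHR.continuousOn_left hMU,
      ⟨M', hMU', hHR⟩⟩
    · intro x hx
      have : (0 : ℝ) ≤ 1 / 2 := by norm_num
      simp only [hM, this, if_true]
      rw [← Γ1 hx]
      congr 1
      ring
    · intro x hx
      have : ¬ (1 : ℝ) ≤ 1 / 2 := by norm_num
      simp only [hM, this, if_false]
      rw [show (2 : ℝ) * 1 - 1 = 1 by norm_num]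
      exact n4 x hx
    · intro t ht
      by_cases h : t ≤ 1 / 2
      · simp only [hM, h, if_true]
        have := Γ0 (x := -t) ⟨by linarith, by linarith [ht.1]⟩
        simp only [neg_neg] at this
        rw [← this]
        congr 1
        ring
      · simp only [hM, h, if_false]
        rw [n5 _ ⟨by linarith, by linarith [ht.2]⟩, hδ0c t ⟨by linarith, ht.2⟩]
    · intro t ht
      by_cases h : t ≤ 1 / 2
      · simp only [hM, h, if_true]
        have := Γ2 (x := 1 + t) ⟨by linarith [ht.1], by linarith [ht.2]⟩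
        simp only [add_sub_cancel_left] at this
        rw [← this]
        congr 1
        ring
      · simp only [hM, h, if_false]
        rw [n6 _ ⟨by linarith, by linarith [ht.2]⟩, hδ1c t ⟨by linarith, ht.2⟩]

end Pool.Agent.GCW
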