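import Pool.Agent.Lib.MP_63e749_al.RaagDefs

/-!
# JOB FP: finitely presented groups
-/

set_option autoImplicit false

open scoped Pointwise

namespace Pool.Agent.GCW

theorem fp_ker {H : Type} [Group H] [Group.IsFinitelyPresented H] {A : Type} [Finite A]
    (φ : FreeGroup A →* H) (hφ : Function.Surjective φ) :
    φ.ker.IsFinitelyNormallyGenerated := by
  obtain ⟨n, ψ, hψ, S, hS, hSk⟩ := Group.IsFinitelyPresented.out (G := H)
  choose f hf using fun i : Fin n => hφ (ψ (FreeGroup.of i))
  choose g hg using fun a : A => hψ (φ (FreeGroup.of a))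
  set α : FreeGroup (Fin n) →* FreeGroup A := FreeGroup.lift f with hα
  set β : FreeGroup A →* FreeGroup (Fin n) := FreeGroup.lift g with hβ
  have h1 : φ.comp α = ψ := by
    ext i; simp [hα, hf]
  have h2 : ψ.comp β = φ := by
    ext a; simp [hβ, hg]
  set T : Set (FreeGroup A) := α '' S ∪
    Set.range (fun a : A => (FreeGroup.of a)⁻¹ * α (β (FreeGroup.of a))) with hT
  refine ⟨T, (hS.image _).union (Set.finite_range _), ?_⟩
  apply le_antisymm
  · apply Subgroup.normalClosure_le_normal
    rintro x (⟨s, hs, rfl⟩ | ⟨a, rfl⟩)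
    · show α s ∈ φ.ker
      rw [MonoidHom.mem_ker]
      have h3 : φ (α s) = ψ s := DFunLike.congr_fun h1 s
      have h4 : s ∈ ψ.ker := by rw [← hSk]; exact Subgroup.subset_normalClosure hs
      rw [h3]; exact h4
    · show (FreeGroup.of a)⁻¹ * α (β (FreeGroup.of a)) ∈ φ.ker
      rw [MonoidHom.mem_ker, map_mul, map_inv]
      have h3 : φ (α (β (FreeGroup.of a))) = φ (FreeGroup.of a) := by
        have e1 : φ (α (β (FreeGroup.of a))) = ψ (β (FreeGroup.of a)) :=
          DFunLike.congr_fun h1 _
        have e2 : ψ (β (FreeGroup.of a)) = φ (FreeGroup.of a) := DFunLike.congr_fun h2 _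
        rw [e1, e2]
      rw [h3]; simp
  · intro x hx
    set N := Subgroup.normalClosure T with hN
    have h3 : (QuotientGroup.mk' N).comp (α.comp β) = QuotientGroup.mk' N := by
      ext a
      show (QuotientGroup.mk' N) (α (β (FreeGroup.of a))) = QuotientGroup.mk' N (FreeGroup.of a)
      symm
      rw [QuotientGroup.mk'_eq_mk']
      refine ⟨(FreeGroup.of a)⁻¹ * α (β (FreeGroup.of a)), ?_, by group⟩
      exact Subgroup.subset_normalClosure (Or.inr ⟨a, rfl⟩)
    have h4 : β x ∈ Subgroup.normalClosure S := by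
      rw [hSk, MonoidHom.mem_ker]
      have e2 : ψ (β x) = φ x := DFunLike.congr_fun h2 _
      rw [e2]; exact hx
    have h5 : Subgroup.normalClosure S ≤ N.comap α := by
      apply Subgroup.normalClosure_le_normal
      intro s hs
      exact Subgroup.subset_normalClosure (Or.inl ⟨s, hs, rfl⟩)
    have h6 : α (β x) ∈ N := h5 h4
    have h7 : QuotientGroup.mk' N x = 1 := by
      rw [← DFunLike.congr_fun h3 x]
      exact (QuotientGroup.eq_one_iff _).2 h6
    exact (QuotientGroup.eq_one_iff x).1 h7

/-- subgroups of finitely generated abelian groups -/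
theorem fp_sub_fg {A : Type} [Group A] (hcomm : ∀ a b : A, a * b = b * a) (hfg : Group.FG A)
    (K : Subgroup A) : K.FG := by
  letI : CommGroup A := { (inferInstance : Group A) with mul_comm := hcomm }
  have h0 : AddGroup.FG (Additive A) := GroupFG.iff_add_fg.mp hfg
  have h1 : Module.Finite ℤ (Additive A) := Module.Finite.iff_addGroup_fg.mpr h0
  have h2 : IsNoetherian ℤ (Additive A) := isNoetherian_of_isNoetherianRing_of_finite ℤ _
  have h3 : (AddSubgroup.toIntSubmodule (Subgroup.toAddSubgroup K)).FG :=
    IsNoetherian.noetherian _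
  rw [Submodule.fg_iff_addSubgroup_fg] at h3
  rw [Subgroup.fg_iff_add_fg]
  exact h3

theorem fp_of_comm {A : Type} [Group A] (hcomm : ∀ a b : A, a * b = b * a) (hfg : Group.FG A) :
    Group.IsFinitelyPresented A := by
  obtain ⟨S, hS⟩ := hfg.out
  set φ : FreeGroup S →* A := FreeGroup.lift (fun s : S => (s : A)) with hφ
  have hsurj : Function.Surjective φ := by
    rw [← MonoidHom.range_eq_top, eq_top_iff, ← hS, Subgroup.closure_le]
    intro s hs
    exact ⟨FreeGroup.of ⟨s, hs⟩, by simp [hφ]⟩
  set R : Set (FreeGroup S) := Set.range (fun p : S × S => FreeGroup.of p.1 * FreeGroup.of p.2 *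
    (FreeGroup.of p.1)⁻¹ * (FreeGroup.of p.2)⁻¹) with hR
  set N := Subgroup.normalClosure R with hN
  have hNφ : N ≤ φ.ker := by
    apply Subgroup.normalClosure_le_normal
    rintro x ⟨p, rfl⟩
    show _ ∈ φ.ker
    rw [MonoidHom.mem_ker]
    simp only [map_mul, map_inv]
    rw [hcomm (φ (FreeGroup.of p.1)) (φ (FreeGroup.of p.2))]
    group
  have hgen : ∀ s t : S, Commute (QuotientGroup.mk' N (FreeGroup.of s))
      (QuotientGroup.mk' N (FreeGroup.of t)) := by
    intro s t
    have h1 : QuotientGroup.mk' N (FreeGroup.of s * FreeGroup.of t *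
      (FreeGroup.of s)⁻¹ * (FreeGroup.of t)⁻¹) = 1 :=
      (QuotientGroup.eq_one_iff _).2 (Subgroup.subset_normalClosure ⟨(s, t), rfl⟩)
    simp only [map_mul, map_inv] at h1
    rw [mul_inv_eq_one, mul_inv_eq_iff_eq_mul] at h1
    exact h1
  have hcomm1 : ∀ (s : S) (x : FreeGroup S), Commute (QuotientGroup.mk' N (FreeGroup.of s))
      (QuotientGroup.mk' N x) := by
    intro s x
    induction x using FreeGroup.induction_on with
    | C1 => rw [map_one]; exact Commute.one_right _
    | of t => exact hgen s t
    | inv_of t h => rw [map_inv]; exact h.inv_right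
    | mul x y hx hy => rw [map_mul]; exact hx.mul_right hy
  have hcomm2 : ∀ (x y : FreeGroup S), Commute (QuotientGroup.mk' N x) (QuotientGroup.mk' N y) := by
    intro x y
    induction x using FreeGroup.induction_on with
    | C1 => rw [map_one]; exact Commute.one_left _
    | of t => exact hcomm1 t y
    | inv_of t h => rw [map_inv]; exact h.inv_left
    | mul x z hx hz => rw [map_mul]; exact hx.mul_left hz
  have hcomm3 : ∀ a b : (FreeGroup S) ⧸ N, a * b = b * a := by
    intro a b
    obtain ⟨x, rfl⟩ := QuotientGroup.mk'_surjective N a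
    obtain ⟨y, rfl⟩ := QuotientGroup.mk'_surjective N b
    exact hcomm2 x y
  set φ' : (FreeGroup S) ⧸ N →* A := QuotientGroup.lift N φ hNφ with hφ'
  have hfg' : Group.FG ((FreeGroup S) ⧸ N) := inferInstance
  have hk : φ'.ker.IsFinitelyNormallyGenerated := by
    have : Group.FG φ'.ker := (Group.fg_iff_subgroup_fg _).2 (fp_sub_fg hcomm3 hfg' _)
    exact Subgroup.IsFinitelyNormallyGenerated.of_FG _
  have hfp : Group.IsFinitelyPresented ((FreeGroup S) ⧸ N) := by
    have : Group.IsFinitelyPresented (FreeGroup S) := inferInstance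
    exact Group.IsFinitelyPresented.quotient N ⟨R, Set.finite_range _, rfl⟩
  refine Group.IsFinitelyPresented.of_surjective φ' ?_ hk
  intro a
  obtain ⟨x, rfl⟩ := hsurj a
  exact ⟨QuotientGroup.mk' N x, rfl⟩

variable {V : Type} (adj : V → V → Prop)

theorem raag_fp [Finite V] : Group.IsFinitelyPresented (Raag adj) := by
  have : (raagRels adj).Finite := by
    apply (Set.finite_range (fun p : V × V => FreeGroup.of p.1 * FreeGroup.of p.2 *
      (FreeGroup.of p.1)⁻¹ * (FreeGroup.of p.2)⁻¹)).subset
    rintro r ⟨u, v, -, rfl⟩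
    exact ⟨(u, v), rfl⟩
  have : Finite (raagRels adj) := this
  infer_instance

/-- Subgroups of conjugates of `par σ`, `σ` a finite clique. -/
theorem fp_of_le_par (σ : Finset V) (hσ : IsClq adj (σ : Set V)) (g : Raag adj)
    (K : Subgroup (Raag adj)) (hK : ∀ k ∈ K, g⁻¹ * k * g ∈ par adj (σ : Set V)) :
    Group.FG K ∧ Group.IsFinitelyPresented K := by
  set P := par adj (σ : Set V) with hP
  have hPfg : Group.FG P := by
    have : Finite (zz adj '' (σ : Set V)) := (σ.finite_toSet.image _)
    exact Group.closure_finite_fg (zz adj '' (σ : Set V))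
  have hgen : ∀ x ∈ zz adj '' (σ : Set V), ∀ y ∈ zz adj '' (σ : Set V), Commute x y := by
    rintro _ ⟨u, hu, rfl⟩ _ ⟨v, hv, rfl⟩
    rcases hσ u hu v hv with rfl | h
    · exact Commute.refl _
    · exact zz_comm adj h
  have h1 : ∀ x ∈ zz adj '' (σ : Set V), ∀ y ∈ P, Commute x y := by
    intro x hx y hy
    induction hy using Subgroup.closure_induction with
    | mem y hy => exact hgen x hx y hy
    | one => exact Commute.one_right _
    | mul y z _ _ h1 h2 => exact h1.mul_right h2
    | inv y _ h => exact h.inv_right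
  have h2 : ∀ x ∈ P, ∀ y ∈ P, Commute x y := by
    intro x hx y hy
    induction hx using Subgroup.closure_induction with
    | mem x hx => exact h1 x hx y hy
    | one => exact Commute.one_left _
    | mul y z _ _ h1 h2 => exact h1.mul_left h2
    | inv y _ h => exact h.inv_left
  have hPcomm : ∀ a b : P, a * b = b * a := fun a b => Subtype.ext (h2 a.1 a.2 b.1 b.2)
  let f : K →* P :=
    { toFun := fun k => ⟨g⁻¹ * k.1 * g, hK k.1 k.2⟩
      map_one' := by apply Subtype.ext; simp
      map_mul' := fun a b => by apply Subtype.ext; simp [mul_assoc] }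
  have hf : Function.Injective f := by
    intro a b hab
    have h3 := congrArg Subtype.val hab
    apply Subtype.ext
    simpa [f] using h3
  have hKcomm : ∀ a b : K, a * b = b * a := by
    intro a b
    apply hf
    rw [map_mul, map_mul, hPcomm]
  have hrange : f.range.FG := fp_sub_fg hPcomm hPfg _
  have hKfg : Group.FG K := by
    have e : K ≃* f.range := MonoidHom.ofInjective hf
    have : Group.FG f.range := (Group.fg_iff_subgroup_fg _).2 hrange
    exact Group.fg_of_surjective (f := (e.symm : f.range →* K)) e.symm.surjective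
  exact ⟨hKfg, fp_of_comm hKcomm hKfg⟩

end Pool.Agent.GCW
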