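import Mathlib

/-!
# Filling spheres: homotopy invariance of extendability, contractible targets
-/

set_option autoImplicit false

open Set Metric Topology

namespace Pool.Agent.GCW

section HI

variable {X : Type} [TopologicalSpace X] {E : Type*} [NormedAddCommGroup E] [NormedSpace ℝ E]

/-- If two maps on a sphere are homotopic and one of them extends to the ball, so does the
other. -/
theorem extend_of_homotopy (c : E) {r : ℝ} (hr : 0 < r) (K : ℝ × E → X)
    (hK : ContinuousOn K (Icc (0 : ℝ) 1 ×ˢ sphere c r)) (G1 : E → X)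
    (hG1 : ContinuousOn G1 (closedBall c r)) (h : ∀ x ∈ sphere c r, K (1, x) = G1 x) :
    ∃ G : E → X, ContinuousOn G (closedBall c r) ∧ (∀ x ∈ sphere c r, G x = K (0, x)) ∧
      ∀ A : Set X, MapsTo K (Icc (0 : ℝ) 1 ×ˢ sphere c r) A → MapsTo G1 (closedBall c r) A →
        MapsTo G (closedBall c r) A := by
  classical
  set a : E → E := fun x => c + (2 : ℝ) • (x - c) with ha
  set b : E → ℝ × E := fun x => (2 - 2 * ‖x - c‖ / r, c + (r / ‖x - c‖) • (x - c)) with hb
  set S1 : Set E := {x | ‖x - c‖ ≤ r / 2} with hS1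
  set S2 : Set E := {x | r / 2 ≤ ‖x - c‖ ∧ ‖x - c‖ ≤ r} with hS2
  have hc1 : IsClosed S1 := isClosed_le (by fun_prop) continuous_const
  have hc2 : IsClosed S2 := by
    have h1 : IsClosed {x : E | r / 2 ≤ ‖x - c‖} := isClosed_le (by fun_prop) (by fun_prop)
    have h2 : IsClosed {x : E | ‖x - c‖ ≤ r} := isClosed_le (by fun_prop) (by fun_prop)
    exact h1.inter h2
  have hcover : closedBall c r = S1 ∪ S2 := by
    ext x
    simp only [mem_closedBall, dist_eq_norm, hS1, hS2, mem_union, mem_ofPred_eq]
    constructor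
    · intro hx
      rcases le_total ‖x - c‖ (r / 2) with h1 | h1
      · exact Or.inl h1
      · exact Or.inr ⟨h1, hx⟩
    · rintro (h1 | h1)
      · linarith
      · exact h1.2
  have ha1 : MapsTo a S1 (closedBall c r) := by
    intro x hx
    have hx' : ‖x - c‖ ≤ r / 2 := hx
    simp only [mem_closedBall, dist_eq_norm, ha, add_sub_cancel_left, norm_smul, Real.norm_ofNat]
    linarith
  have hb2 : MapsTo b S2 (Icc (0 : ℝ) 1 ×ˢ sphere c r) := by
    intro x hx
    obtain ⟨h1, h2⟩ := hx
    have h0 : 0 < ‖x - c‖ := by linarith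
    refine ⟨⟨?_, ?_⟩, ?_⟩
    · simp only [hb, sub_nonneg]
      rw [div_le_iff₀ hr]
      linarith
    · simp only [hb]
      have : 1 ≤ 2 * ‖x - c‖ / r := by
        rw [le_div_iff₀ hr]
        linarith
      linarith
    · simp only [hb, mem_sphere, dist_eq_norm, add_sub_cancel_left, norm_smul, norm_div,
        Real.norm_eq_abs, abs_of_pos hr, abs_norm]
      field_simp
  set G : E → X := fun x => if ‖x - c‖ ≤ r / 2 then G1 (a x) else K (b x) with hG
  have e1 : EqOn G (G1 ∘ a) S1 := fun x hx => if_pos hx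
  have e2 : EqOn G (K ∘ b) S2 := by
    intro x hx
    by_cases h1 : ‖x - c‖ ≤ r / 2
    · have h2 : ‖x - c‖ = r / 2 := le_antisymm h1 hx.1
      have h3 := hb2 hx
      have h4 : b x = (1, a x) := by
        simp only [hb, ha, h2]
        congr 1
        · field_simp
          ring
        · congr 2
          field_simp
      simp only [hG, h1, if_pos, Function.comp_apply, h4]
      rw [h4] at h3
      exact (h _ h3.2).symm
    · simp only [hG, h1, if_neg, not_false_iff, Function.comp_apply]
  have hcont1 : ContinuousOn G S1 := by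
    refine ContinuousOn.congr (hG1.comp ?_ ha1) e1
    exact (by fun_prop : Continuous a).continuousOn
  have hcont2 : ContinuousOn G S2 := by
    refine ContinuousOn.congr (hK.comp ?_ hb2) e2
    have hne : ∀ x ∈ S2, ‖x - c‖ ≠ 0 := fun x hx => by
      have h1 : r / 2 ≤ ‖x - c‖ := hx.1
      have h2 : 0 < ‖x - c‖ := by linarith
      exact h2.ne'
    apply ContinuousOn.prodMk
    · exact (by fun_prop : Continuous fun x : E => 2 - 2 * ‖x - c‖ / r).continuousOn
    · apply ContinuousOn.add continuousOn_const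
      apply ContinuousOn.smul
      · exact ContinuousOn.div continuousOn_const (by fun_prop) hne
      · fun_prop
  refine ⟨G, ?_, ?_, ?_⟩
  · rw [hcover]
    exact hcont1.union_of_isClosed hcont2 hc1 hc2
  · intro x hx
    have hx' : ‖x - c‖ = r := by rwa [mem_sphere, dist_eq_norm] at hx
    have hxS : x ∈ S2 := ⟨by linarith, hx'.le⟩
    rw [e2 hxS]
    simp only [Function.comp_apply, hb, hx']
    congr 2
    · field_simp
      ring
    · rw [div_self hr.ne', one_smul]
      abel
  · intro A hKA hGA x hx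
    rw [hcover] at hx
    rcases hx with hx | hx
    · rw [e1 hx]
      exact hGA (ha1 hx)
    · rw [e2 hx]
      exact hKA (hb2 hx)

/-- Maps from a sphere to a contractible subspace extend to the ball. -/
theorem fill_of_contractible (c : E) {r : ℝ} (hr : 0 < r) {U : Set X} (hU : ContractibleSpace U)
    (g : E → X) (hg : ContinuousOn g (sphere c r)) (hgU : MapsTo g (sphere c r) U) :
    ∃ G : E → X, ContinuousOn G (closedBall c r) ∧ MapsTo G (closedBall c r) U ∧
      EqOn G g (sphere c r) := by
  classical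
  obtain ⟨u0, ⟨H⟩⟩ := id_nullhomotopic U
  set K : ℝ × E → X := fun p => if h : g p.2 ∈ U then
    ((H (projIcc 0 1 zero_le_one p.1, ⟨g p.2, h⟩) : U) : X) else u0 with hKdef
  have hKeq : ∀ p : ℝ × E, ∀ h : g p.2 ∈ U, K p =
      ((H (projIcc 0 1 zero_le_one p.1, ⟨g p.2, h⟩) : U) : X) := fun p h => dif_pos h
  have hK : ContinuousOn K (Icc (0 : ℝ) 1 ×ˢ sphere c r) := by
    rw [continuousOn_iff_continuous_domRestrict]
    have h1 : Continuous fun p : (Icc (0 : ℝ) 1 ×ˢ sphere c r : Set (ℝ × E)) =>
        (⟨g p.1.2, hgU p.2.2⟩ : U) := by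
      apply Continuous.subtype_mk
      exact hg.comp_continuous (by fun_prop) fun p => p.2.2
    have h2 : Continuous fun p : (Icc (0 : ℝ) 1 ×ˢ sphere c r : Set (ℝ × E)) =>
        ((H (projIcc 0 1 zero_le_one p.1.1, ⟨g p.1.2, hgU p.2.2⟩) : U) : X) := by
      apply continuous_subtype_val.comp
      apply H.continuous.comp
      exact (continuous_projIcc.comp (by fun_prop)).prodMk h1
    refine h2.congr fun p => ?_
    exact (hKeq p.1 (hgU p.2.2)).symm
  obtain ⟨G, h1, h2, h3⟩ := extend_of_homotopy c hr K hK (fun _ => (u0 : X)) continuousOn_const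
    (fun x hx => by
      rw [hKeq (1, x) (hgU hx)]
      simp)
  refine ⟨G, h1, h3 U ?_ ?_, ?_⟩
  · intro p hp
    rw [hKeq p (hgU hp.2)]
    exact Subtype.coe_prop _
  · intro x _
    exact u0.2
  · intro x hx
    rw [h2 x hx, hKeq (0, x) (hgU hx)]
    simp

end HI

end Pool.Agent.GCW
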