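import Pool.Agent.Lib.MP_63e749_al.Flag

/-!
# JOB JOIN: the join of a flag complex with a discrete set; the open cover

Vertices `W ⊕ T`; `X = FReal (JR S T)` is the join of `FReal S` with the discrete set `T`.
`CC` is `X` minus the cone points `inr t`, `UU t` is `X` minus the cone points other than `t`.

`UU t` is contractible: first the homotopy `A(x, τ)` which multiplies the coordinates `inr t'`, `t' ≠ t`,
by `1 - τ` and renormalises, then `B(x, τ) = (1 - τ) x + τ (inr t)`.
Continuity: `freal_continuousOn_prod` and `continuousOn_of_simplex` (the homotopies stay in the closed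
simplex `s`, resp. `s ∪ {inr t}` without the other cone points).
-/

set_option autoImplicit false

open Topology Set
open scoped Topology

namespace Pool.Agent.GCW

noncomputable section

variable {W : Type} (S : W → W → Prop) (T : Type)

/-- The relation of the join with a discrete set. -/
def JR : W ⊕ T → W ⊕ T → Prop
  | Sum.inl u, Sum.inl v => S u v
  | Sum.inl _, Sum.inr _ => True
  | Sum.inr _, Sum.inl _ => True
  | Sum.inr t, Sum.inr t' => t = t'

/-- The complement of the cone points. -/
def CC : Set (FReal (JR S T)) := {x | ∃ d : W, x.1 (Sum.inl d) ≠ 0}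

/-- The complement of the cone points different from `t`. -/
def UU (t : T) : Set (FReal (JR S T)) := {x | x ∈ CC S T ∨ x.1 (Sum.inr t) ≠ 0}

theorem isOpen_CC : IsOpen (CC S T) := by
  have h : CC S T = ⋃ d : W, {x | x.1 (Sum.inl d) ≠ 0} := by
    ext x
    simp [CC]
  rw [h]
  exact isOpen_iUnion fun d => isOpen_ne_fun (continuous_coord _) continuous_const

theorem isOpen_UU (t : T) : IsOpen (UU S T t) := by
  have h : UU S T t = CC S T ∪ {x | x.1 (Sum.inr t) ≠ 0} := rfl
  rw [h]
  exact (isOpen_CC S T).union (isOpen_ne_fun (continuous_coord _) continuous_const)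

theorem iUnion_UU [Nonempty T] : ⋃ t, UU S T t = univ := by
  rw [eq_univ_iff_forall]
  intro x
  rw [mem_iUnion]
  obtain ⟨s, hs⟩ := exists_supp x
  obtain ⟨v, hv⟩ := s.2.1
  rw [hs] at hv
  cases v with
  | inl d => exact ⟨Classical.arbitrary T, Or.inl ⟨d, hv⟩⟩
  | inr t => exact ⟨t, Or.inr hv⟩

theorem CC_subset_UU (t : T) : CC S T ⊆ UU S T t := fun _ h => Or.inl h

theorem UU_inter {t t' : T} (h : t ≠ t') : UU S T t ∩ UU S T t' ⊆ CC S T := by
  rintro x ⟨h1, h2⟩
  rcases h1 with h1 | h1
  · exact h1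
  rcases h2 with h2 | h2
  · exact h2
  obtain ⟨s, hs⟩ := exists_supp x
  have h3 := s.2.2 _ ((hs _).2 h1) _ ((hs _).2 h2)
  exact absurd h3 h

/-! ### The homotopies -/

variable {S T}

open Classical in
/-- The weights of the first homotopy. -/
def JoinC (t : T) (τ : ℝ) : W ⊕ T → ℝ
  | Sum.inl _ => 1
  | Sum.inr t' => if t' = t then 1 else 1 - τ

theorem JoinC_nonneg (t : T) (τ : unitInterval) (v : W ⊕ T) : 0 ≤ JoinC t τ v := by
  cases v with
  | inl d => simp [JoinC]
  | inr t' =>
    simp only [JoinC]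
    split_ifs
    · exact zero_le_one
    · have := τ.2.2
      linarith

theorem JoinC_zero (t : T) (v : W ⊕ T) : JoinC t (0 : ℝ) v = 1 := by
  cases v with
  | inl d => simp [JoinC]
  | inr t' => simp [JoinC]

theorem JoinC_continuous (t : T) (v : W ⊕ T) : Continuous fun τ : unitInterval => JoinC t τ v := by
  cases v with
  | inl d => simp only [JoinC]; exact continuous_const
  | inr t' =>
    simp only [JoinC]
    split_ifs
    · exact continuous_const
    · exact continuous_const.sub continuous_subtype_val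

/-- The mass after multiplication with the weights. -/
def JoinM (t : T) (τ : ℝ) (x : FReal (JR S T)) : ℝ := ∑ᶠ v, JoinC t τ v * x.1 v

theorem JoinM_eq (t : T) (τ : ℝ) (x : FReal (JR S T)) (s : Face (JR S T))
    (hs : ∀ v, v ∉ s.1 → x.1 v = 0) : JoinM t τ x = ∑ v ∈ s.1, JoinC t τ v * x.1 v := by
  apply finsum_eq_sum_of_support_subset
  intro v hv
  by_contra h
  apply hv
  change JoinC t τ v * x.1 v = 0
  rw [hs v h, mul_zero]

theorem JoinM_pos (t : T) (τ : unitInterval) (x : FReal (JR S T)) (hx : x ∈ UU S T t) :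
    0 < JoinM t τ x := by
  obtain ⟨s, hs⟩ := exists_supp x
  rw [JoinM_eq t τ x s (fun v hv => by by_contra h; exact hv ((hs v).2 h))]
  apply Finset.sum_pos'
  · intro v _
    exact mul_nonneg (JoinC_nonneg t τ v) (x.2.1 v)
  · rcases hx with ⟨d, hd⟩ | hd
    · refine ⟨_, (hs _).2 hd, ?_⟩
      simp only [JoinC, one_mul]
      exact lt_of_le_of_ne (x.2.1 _) (Ne.symm hd)
    · refine ⟨_, (hs _).2 hd, ?_⟩
      simp only [JoinC, if_true, one_mul]
      exact lt_of_le_of_ne (x.2.1 _) (Ne.symm hd)

theorem JoinA_exists (t : T) (τ : unitInterval) (x : FReal (JR S T)) :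
    ∃ y : FReal (JR S T), x ∈ UU S T t →
      ∀ v, y.1 v = JoinC t τ v * x.1 v / JoinM t τ x := by
  by_cases hx : x ∈ UU S T t
  · have h := JoinM_pos t τ x hx
    refine ⟨⟨fun v => JoinC t τ v * x.1 v / JoinM t τ x,
      fun v => div_nonneg (mul_nonneg (JoinC_nonneg t τ v) (x.2.1 v)) h.le, ?_⟩, fun _ v => rfl⟩
    obtain ⟨s, hs⟩ := exists_supp x
    have hs' : ∀ v, v ∉ s.1 → x.1 v = 0 := fun v hv => by
      by_contra h
      exact hv ((hs v).2 h)
    refine ⟨s, fun v hv => ?_, ?_⟩
    · change JoinC t τ v * x.1 v / JoinM t τ x = 0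
      rw [hs' v hv, mul_zero, zero_div]
    · change ∑ v ∈ s.1, JoinC t τ v * x.1 v / JoinM t τ x = 1
      rw [← Finset.sum_div, ← JoinM_eq t τ x s hs', div_self h.ne']
  · exact ⟨x, fun h => absurd h hx⟩

/-- The first homotopy. -/
def JoinA (t : T) (τ : unitInterval) (x : FReal (JR S T)) : FReal (JR S T) :=
  (JoinA_exists t τ x).choose

theorem JoinA_apply (t : T) (τ : unitInterval) (x : FReal (JR S T)) (hx : x ∈ UU S T t)
    (v : W ⊕ T) : (JoinA t τ x).1 v = JoinC t τ v * x.1 v / JoinM t τ x :=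
  (JoinA_exists t τ x).choose_spec hx v

theorem JoinA_zero (t : T) (x : FReal (JR S T)) (hx : x ∈ UU S T t) : JoinA t 0 x = x := by
  obtain ⟨s, hs⟩ := exists_supp x
  have hs' : ∀ v, v ∉ s.1 → x.1 v = 0 := fun v hv => by
    by_contra h
    exact hv ((hs v).2 h)
  have hM : JoinM t ((0 : unitInterval) : ℝ) x = 1 := by
    rw [JoinM_eq t _ x s hs']
    refine Eq.trans (Finset.sum_congr rfl fun v _ => ?_) (sum_eq_one hs')
    rw [Set.Icc.coe_zero, JoinC_zero, one_mul]
  apply FReal.ext
  intro v
  rw [JoinA_apply t 0 x hx, hM, div_one, Set.Icc.coe_zero, JoinC_zero, one_mul]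

theorem JoinA_one (t : T) (x : FReal (JR S T)) (hx : x ∈ UU S T t) (t' : T) (h : t' ≠ t) :
    (JoinA t 1 x).1 (Sum.inr t') = 0 := by
  rw [JoinA_apply t 1 x hx]
  simp [JoinC, h]

theorem JoinA_mem (t : T) (τ : unitInterval) (x : FReal (JR S T)) (hx : x ∈ UU S T t) :
    JoinA t τ x ∈ UU S T t := by
  have hM := JoinM_pos t τ x hx
  rcases hx with ⟨d, hd⟩ | hd
  · left
    refine ⟨d, ?_⟩
    rw [JoinA_apply t τ x (Or.inl ⟨d, hd⟩)]
    simp only [JoinC, one_mul]
    exact div_ne_zero hd hM.ne'
  · right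
    rw [JoinA_apply t τ x (Or.inr hd)]
    simp only [JoinC, if_true, one_mul]
    exact div_ne_zero hd hM.ne'

theorem JoinA_support (t : T) (τ : unitInterval) (x : FReal (JR S T)) (hx : x ∈ UU S T t)
    (v : W ⊕ T) (hv : x.1 v = 0) : (JoinA t τ x).1 v = 0 := by
  rw [JoinA_apply t τ x hx, hv, mul_zero, zero_div]

open Classical in
/-- The face without the other cone points, together with `inr t`. -/
def JoinFace (s : Face (JR S T)) (t : T) : Face (JR S T) :=
  ⟨insert (Sum.inr t) (s.1.filter fun v => v.isLeft = true), Finset.insert_nonempty _ _, by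
    intro u hu v hv
    simp only [Finset.mem_insert, Finset.mem_filter] at hu hv
    rcases hu with rfl | ⟨hu, hu'⟩ <;> rcases hv with rfl | ⟨hv, hv'⟩
    · exact rfl
    · cases v with
      | inl d => trivial
      | inr t' => simp at hv'
    · cases u with
      | inl d => trivial
      | inr t' => simp at hu'
    · exact s.2.2 u hu v hv⟩

theorem mem_JoinFace (s : Face (JR S T)) (t : T) (v : W ⊕ T) :
    v ∈ (JoinFace s t).1 ↔ v = Sum.inr t ∨ (v ∈ s.1 ∧ v.isLeft = true) := by
  classical
  simp only [JoinFace, Finset.mem_insert, Finset.mem_filter]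

theorem JoinB_aux (t : T) (x : FReal (JR S T))
    (h : ∀ t', t' ≠ t → x.1 (Sum.inr t') = 0) (s : Face (JR S T))
    (hs : ∀ v, v ∉ s.1 → x.1 v = 0) (v : W ⊕ T) (hv : v ∉ (JoinFace s t).1) : x.1 v = 0 := by
  rw [mem_JoinFace] at hv
  push Not at hv
  cases v with
  | inl d =>
    apply hs
    intro h1
    exact hv.2 h1 rfl
  | inr t' =>
    apply h
    rintro rfl
    exact hv.1 rfl

open Classical in
theorem JoinB_exists (t : T) (τ : unitInterval) (x : FReal (JR S T)) :
    ∃ y : FReal (JR S T), (∀ t', t' ≠ t → x.1 (Sum.inr t') = 0) →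
      ∀ v, y.1 v = (1 - (τ : ℝ)) * x.1 v + (τ : ℝ) * (if v = Sum.inr t then 1 else 0) := by
  by_cases h : ∀ t', t' ≠ t → x.1 (Sum.inr t') = 0
  · refine ⟨⟨fun v => (1 - (τ : ℝ)) * x.1 v + (τ : ℝ) * (if v = Sum.inr t then 1 else 0),
      fun v => ?_, ?_⟩, fun _ v => rfl⟩
    · have h1 := x.2.1 v
      have h2 := τ.2.1
      have h3 : 0 ≤ 1 - (τ : ℝ) := by linarith [τ.2.2]
      change 0 ≤ (1 - (τ : ℝ)) * x.1 v + (τ : ℝ) * (if v = Sum.inr t then 1 else 0)
      split_ifs <;> positivity
    · obtain ⟨s, hs⟩ := exists_supp x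
      have hs' : ∀ v, v ∉ s.1 → x.1 v = 0 := fun v hv => by
        by_contra h
        exact hv ((hs v).2 h)
      refine ⟨JoinFace s t, fun v hv => ?_, ?_⟩
      · change (1 - (τ : ℝ)) * x.1 v + (τ : ℝ) * (if v = Sum.inr t then 1 else 0) = 0
        rw [JoinB_aux t x h s hs' v hv, mul_zero, zero_add, if_neg, mul_zero]
        rintro rfl
        rw [mem_JoinFace] at hv
        exact hv (Or.inl rfl)
      · change ∑ v ∈ (JoinFace s t).1, ((1 - (τ : ℝ)) * x.1 v +
            (τ : ℝ) * (if v = Sum.inr t then 1 else 0)) = 1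
        rw [Finset.sum_add_distrib, ← Finset.mul_sum, ← Finset.mul_sum,
          sum_eq_one (JoinB_aux t x h s hs'), Finset.sum_ite_eq', if_pos]
        · ring
        · rw [mem_JoinFace]
          exact Or.inl rfl
  · exact ⟨x, fun h' => absurd h' h⟩

/-- The second homotopy. -/
def JoinB (t : T) (τ : unitInterval) (x : FReal (JR S T)) : FReal (JR S T) :=
  (JoinB_exists t τ x).choose

open Classical in
theorem JoinB_apply (t : T) (τ : unitInterval) (x : FReal (JR S T))
    (h : ∀ t', t' ≠ t → x.1 (Sum.inr t') = 0) (v : W ⊕ T) :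
    (JoinB t τ x).1 v = (1 - (τ : ℝ)) * x.1 v + (τ : ℝ) * (if v = Sum.inr t then 1 else 0) :=
  (JoinB_exists t τ x).choose_spec h v

theorem JoinB_mem (t : T) (τ : unitInterval) (x : FReal (JR S T)) (hx : x ∈ UU S T t)
    (h : ∀ t', t' ≠ t → x.1 (Sum.inr t') = 0) : JoinB t τ x ∈ UU S T t := by
  classical
  by_cases hτ : (τ : ℝ) = 0
  · have : JoinB t τ x = x := by
      apply FReal.ext
      intro v
      rw [JoinB_apply t τ x h, hτ]
      ring
    rw [this]; exact hx
  · right
    rw [JoinB_apply t τ x h, if_pos rfl]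
    have h1 : 0 < (τ : ℝ) := lt_of_le_of_ne τ.2.1 (Ne.symm hτ)
    have h2 : 0 ≤ (1 - (τ : ℝ)) * x.1 (Sum.inr t) :=
      mul_nonneg (by linarith [τ.2.2]) (x.2.1 _)
    have : 0 < (1 - (τ : ℝ)) * x.1 (Sum.inr t) + (τ : ℝ) * 1 := by linarith
    exact this.ne'

theorem JoinA_continuous (t : T) :
    ContinuousOn (fun p : FReal (JR S T) × unitInterval => JoinA t p.2 p.1)
      (UU S T t ×ˢ (univ : Set unitInterval)) := by
  apply freal_continuousOn_prod (isOpen_UU S T t)
  intro s
  have hz : ∀ (p : stdSimplex ℝ s.1) (v : W ⊕ T), v ∉ s.1 → (incl s p).1 v = 0 := fun p v hv =>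
    mem_range_incl.1 ⟨p, rfl⟩ v hv
  refine continuousOn_of_simplex s ?_ ?_
  · rintro ⟨p, τ⟩ hp v hv
    exact JoinA_support t τ _ hp v (hz p v hv)
  · intro v _
    have hc : ∀ u : W ⊕ T, Continuous fun p : stdSimplex ℝ s.1 × unitInterval =>
        JoinC t p.2 u * (incl s p.1).1 u := fun u =>
      ((JoinC_continuous t u).comp continuous_snd).mul
        ((continuous_coord u).comp ((continuous_incl s).comp continuous_fst))
    have h1 : ContinuousOn (fun p : stdSimplex ℝ s.1 × unitInterval =>
        JoinC t p.2 v * (incl s p.1).1 v / ∑ u ∈ s.1, JoinC t p.2 u * (incl s p.1).1 u)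
        {p | incl s p.1 ∈ UU S T t} := by
      refine ContinuousOn.div (hc v).continuousOn
        (continuous_finsetSum _ fun u _ => hc u).continuousOn ?_
      intro p hp
      rw [← JoinM_eq t p.2 (incl s p.1) s (hz p.1)]
      exact (JoinM_pos t p.2 _ hp).ne'
    refine h1.congr ?_
    intro p hp
    change (JoinA t p.2 (incl s p.1)).1 v = _
    rw [JoinA_apply t p.2 _ hp, JoinM_eq t p.2 (incl s p.1) s (hz p.1)]

theorem JoinB_continuous (t : T) :
    ContinuousOn (fun p : FReal (JR S T) × unitInterval => JoinB t p.2 (JoinA t 1 p.1))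
      (UU S T t ×ˢ (univ : Set unitInterval)) := by
  classical
  apply freal_continuousOn_prod (isOpen_UU S T t)
  intro s
  have hz : ∀ (p : stdSimplex ℝ s.1) (v : W ⊕ T), v ∉ s.1 → (incl s p).1 v = 0 := fun p v hv =>
    mem_range_incl.1 ⟨p, rfl⟩ v hv
  refine continuousOn_of_simplex (JoinFace s t) ?_ ?_
  · rintro ⟨p, τ⟩ hp v hv
    have hA := JoinA_one t (incl s p) hp
    change (JoinB t τ (JoinA t 1 (incl s p))).1 v = 0
    rw [JoinB_apply t τ _ hA, JoinB_aux t _ hA s
      (fun v hv => JoinA_support t 1 _ hp v (hz p v hv)) v hv, mul_zero, zero_add, if_neg, mul_zero]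
    rintro rfl
    rw [mem_JoinFace] at hv
    exact hv (Or.inl rfl)
  · intro v _
    have hA : ContinuousOn (fun p : stdSimplex ℝ s.1 × unitInterval =>
        (JoinA t 1 (incl s p.1)).1 v) {p | incl s p.1 ∈ UU S T t} := by
      have h1 := (JoinA_continuous (S := S) t)
      have h2 : ContinuousOn (fun p : stdSimplex ℝ s.1 × unitInterval =>
          JoinA t 1 (incl s p.1)) {p | incl s p.1 ∈ UU S T t} := by
        refine h1.comp (f := fun p : stdSimplex ℝ s.1 × unitInterval =>
          (incl s p.1, (1 : unitInterval))) ?_ ?_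
        · exact (((continuous_incl s).comp continuous_fst).prodMk continuous_const).continuousOn
        · intro p hp
          exact ⟨hp, mem_univ _⟩
      exact (continuous_coord v).comp_continuousOn h2
    have h3 : ContinuousOn (fun p : stdSimplex ℝ s.1 × unitInterval =>
        (1 - (p.2 : ℝ)) * (JoinA t 1 (incl s p.1)).1 v +
          (p.2 : ℝ) * (if v = Sum.inr t then 1 else 0)) {p | incl s p.1 ∈ UU S T t} := by
      have h4 : Continuous fun p : stdSimplex ℝ s.1 × unitInterval => (p.2 : ℝ) :=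
        continuous_subtype_val.comp continuous_snd
      exact ((continuous_const.sub h4).continuousOn.mul hA).add
        (h4.mul continuous_const).continuousOn
    refine h3.congr ?_
    intro p hp
    change (JoinB t p.2 (JoinA t 1 (incl s p.1))).1 v = _
    rw [JoinB_apply t p.2 _ (JoinA_one t (incl s p.1) hp)]

variable (S T)

theorem contractible_UU (t : T) : ContractibleSpace (UU S T t) := by
  classical
  rw [contractible_iff_id_nullhomotopic]
  have hstep : ∀ g : FReal (JR S T) × unitInterval → FReal (JR S T),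
      ContinuousOn g (UU S T t ×ˢ (univ : Set unitInterval)) →
      ∀ hg : ∀ (x : UU S T t) (τ : unitInterval), g (x, τ) ∈ UU S T t,
      ∀ (f₀ f₁ : C(UU S T t, UU S T t)), (∀ x : UU S T t, g (x, 0) = f₀ x) →
      (∀ x : UU S T t, g (x, 1) = f₁ x) →
      f₀.Homotopic f₁ := by
    intro g hc hg f₀ f₁ h0 h1
    refine ⟨{ toFun := fun p => ⟨g (p.2, p.1), hg p.2 p.1⟩
              continuous_toFun := ?_
              map_zero_left := ?_
              map_one_left := ?_ }⟩
    · refine Continuous.subtype_mk ?_ _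
      refine hc.comp_continuous (f := fun p : unitInterval × UU S T t =>
        ((p.2 : FReal (JR S T)), p.1)) ?_ ?_
      · exact (continuous_subtype_val.comp continuous_snd).prodMk continuous_fst
      · intro p
        exact ⟨p.2.2, mem_univ _⟩
    · intro x
      exact Subtype.ext (h0 x)
    · intro x
      exact Subtype.ext (h1 x)
  -- the end of the first homotopy
  have hAc : Continuous fun x : UU S T t => (⟨JoinA t 1 x.1, JoinA_mem (S := S) t 1 x.1 x.2⟩ : UU S T t) := by
    refine Continuous.subtype_mk ?_ _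
    refine (JoinA_continuous (S := S) t).comp_continuous (f := fun x : UU S T t =>
      ((x : FReal (JR S T)), (1 : unitInterval))) ?_ ?_
    · exact continuous_subtype_val.prodMk continuous_const
    · intro p
      exact ⟨p.2, mem_univ _⟩
  let fA : C(UU S T t, UU S T t) := ⟨_, hAc⟩
  have hA : (ContinuousMap.id (UU S T t)).Homotopic fA := by
    refine hstep (fun p => JoinA t p.2 p.1) (JoinA_continuous t)
      (fun x τ => JoinA_mem (S := S) t τ x.1 x.2) _ _ ?_ ?_
    · intro x
      exact JoinA_zero (S := S) t x.1 x.2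
    · intro x
      rfl
  -- the base point
  have hb : ∃ y : FReal (JR S T), ∀ v, y.1 v = if v = Sum.inr t then 1 else 0 := by
    refine ⟨⟨fun v => if v = Sum.inr t then 1 else 0, fun v => ?_, ?_⟩, fun v => rfl⟩
    · change (0 : ℝ) ≤ if v = Sum.inr t then 1 else 0
      split_ifs
      · exact zero_le_one
      · exact le_refl _
    · refine ⟨⟨{Sum.inr t}, Finset.singleton_nonempty _, ?_⟩, ?_, ?_⟩
      · intro u hu v hv
        rw [Finset.mem_singleton] at hu hv
        rw [hu, hv]
        exact rfl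
      · intro v hv
        rw [Finset.mem_singleton] at hv
        change (if v = Sum.inr t then (1 : ℝ) else 0) = 0
        rw [if_neg hv]
      · simp
  obtain ⟨y, hy⟩ := hb
  have hyU : y ∈ UU S T t := by
    right
    rw [hy, if_pos rfl]
    exact one_ne_zero
  refine ⟨⟨y, hyU⟩, hA.trans ?_⟩
  refine hstep (fun p => JoinB t p.2 (JoinA t 1 p.1)) (JoinB_continuous t)
      (fun x τ => JoinB_mem (S := S) t τ _ (JoinA_mem (S := S) t 1 x.1 x.2)
        (JoinA_one (S := S) t x.1 x.2)) _ _ ?_ ?_
  · intro x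
    apply FReal.ext
    intro v
    change (JoinB t 0 (JoinA t 1 x.1)).1 v = (JoinA t 1 x.1).1 v
    rw [JoinB_apply t 0 _ (JoinA_one (S := S) t x.1 x.2)]
    simp
  · intro x
    apply FReal.ext
    intro v
    change (JoinB t 1 (JoinA t 1 x.1)).1 v = y.1 v
    rw [JoinB_apply t 1 _ (JoinA_one (S := S) t x.1 x.2), hy]
    simp

end

end Pool.Agent.GCW
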