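import Pool.Agent.Lib.MP_63e749_al.Raag
import Pool.Agent.Lib.MP_63e749_al.FP

/-!
# The kernel of the height homomorphism is not finitely presented

Write `G = Raag adj`, `z_v = zz adj v`, `H = ker hgt`, `D` from `exists_firstLetters`; for `g ≠ 1` choose
`w(g) ∈ D g` (arbitrary for `g = 1`).
* `E = {(u, v) | adj u v}` is finite; the elements `z_u z_v⁻¹`, `(u,v) ∈ E`, generate `H`: the subgroup
  `H'` they generate is normalized by every `z_w` (by connectedness `z_w ∈ H' z_u` and `z_u` commutes with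
  `z_u z_v⁻¹`), and `G = H' ⟨z_u⟩`. (If `V` has one vertex or no edges, `H` is treated by the
  hypothesis on the walk, which needs an edge.)
* For `k ∈ G` put `α_k(g, g') = a (w(k⁻¹ g)) (w(k⁻¹ g'))` and let `FreeGroup V` act on `G × Q` by
  `z_v • (g, q) = (g z_v⁻¹, q * α_k(g, g z_v⁻¹))`. For `x ∈ FreeGroup V` we get `x • (g, q) =
  (g x⁻¹, q * hol_k(g, x))`. Claim: for every `r` in the kernel of `FreeGroup V → G` there is a finite
  set `F ⊆ G` such that `hol_k(g, r) = 1` for all `g, k` with `k ∉ g F`. For a relator `[z_u, z_v]` this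
  holds with `F` = the four (or more) vertices `g⁻¹ · (vertices of the square)`: the points
  `k⁻¹ g'` for `g'` in the square are `≠ 1` and lie in one coset of `par {u, v}`, so their `w`'s
  are pairwise equal or adjacent and the cocycle property gives `1`. The claim is stable under
  products, inverses and conjugation.
* If `H` is finitely presented, the kernel of `FreeGroup E → H` is the normal closure of a finite
  set `R` (`fp_ker`); let `F` be a finite set for the images of the elements of `R` in `FreeGroup V`. Choose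
  `k = z_{p 0}^N` with `N` so large that `k ∉ H F` (heights). The elements `x` of `FreeGroup E` which act
  trivially on `H × Q` form a normal subgroup containing `R`, hence the kernel of `FreeGroup E → H`.
* The element `∏_i (p_i, p_{i+1})^N` is in the kernel (it maps to `∏ z_{p_i}^N z_{p_{i+1}}^{-N} = 1`) but
  it moves `(1, 1)` to `(1, holonomy of a along the walk or its inverse)` (telescoping inside the
  cliques `{p_i, p_{i+1}}`, since all points `k⁻¹ g` on the `i`-th segment lie in `par {p_i, p_{i+1}}`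
  and `D` of the end points `z_{p_i}^{-N}` is `{p_i}`). Contradiction. (Reverse the walk or the order
  if this is more convenient for the conventions.)
-/

set_option autoImplicit false

namespace Pool.Agent.GCW

section NotFPAux

variable {V : Type} (adj : V → V → Prop) {Q : Type} [Group Q]

/-- The permutation of `G × Q` given by a generator and a weight. -/
private def NotFPperm {G : Type} [Group G] (z : G) (al : G → G → Q) : Equiv.Perm (G × Q) where
  toFun x := (x.1 * z⁻¹, x.2 * al x.1 (x.1 * z⁻¹))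
  invFun x := (x.1 * z, x.2 * (al (x.1 * z) x.1)⁻¹)
  left_inv x := by
    ext
    · simp
    · simp
  right_inv x := by
    ext
    · simp
    · simp

/-- The action of the free group. -/
private def NotFPact (be : Raag adj → Raag adj → Q) (k : Raag adj) :
    FreeGroup V →* Equiv.Perm (Raag adj × Q) :=
  FreeGroup.lift fun v => NotFPperm (zz adj v) fun g g' => be (k⁻¹ * g) (k⁻¹ * g')

private theorem NotFPact_of (be : Raag adj → Raag adj → Q) (k : Raag adj) (v : V)
    (g : Raag adj) (q : Q) :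
    NotFPact adj be k (FreeGroup.of v) (g, q) =
      (g * (zz adj v)⁻¹, q * be (k⁻¹ * g) (k⁻¹ * (g * (zz adj v)⁻¹))) := by
  simp [NotFPact, NotFPperm]

private theorem NotFPact_of_inv (be : Raag adj → Raag adj → Q) (k : Raag adj) (v : V)
    (g : Raag adj) (q : Q) :
    NotFPact adj be k (FreeGroup.of v)⁻¹ (g, q) =
      (g * zz adj v, q * (be (k⁻¹ * (g * zz adj v)) (k⁻¹ * g))⁻¹) := by
  rw [map_inv]
  simp [NotFPact, NotFPperm, Equiv.Perm.inv_def]

private theorem NotFPact_fst (be : Raag adj → Raag adj → Q) (k : Raag adj) (x : FreeGroup V)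
    (g : Raag adj) (q : Q) :
    (NotFPact adj be k x (g, q)).1 = g * (PresentedGroup.mk (raagRels adj) x)⁻¹ := by
  induction x generalizing g q with
  | C1 => simp
  | of v => rw [NotFPact_of]; rfl
  | inv_of v ih => rw [NotFPact_of_inv, map_inv, inv_inv]; rfl
  | mul x y hx hy =>
    rw [map_mul, Equiv.Perm.mul_apply]
    have h1 := hy g q
    generalize NotFPact adj be k y (g, q) = gq at h1 ⊢
    obtain ⟨g', q'⟩ := gq
    rw [hx, map_mul, mul_inv_rev, ← mul_assoc, ← h1]

/-- The relators act trivially away from a finite set. -/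
private theorem NotFPlocal (be : Raag adj → Raag adj → Q)
    (hbe : ∀ σ : Set V, IsClq adj σ → ∀ P P' P'' : Raag adj, P ≠ 1 → P' ≠ 1 → P'' ≠ 1 →
      P⁻¹ * P' ∈ par adj σ → P⁻¹ * P'' ∈ par adj σ → be P P' * be P' P'' = be P P'')
    (hsymm : ∀ u v, adj u v → adj v u) (r : FreeGroup V)
    (hr : r ∈ Subgroup.normalClosure (raagRels adj)) :
    ∃ F : Set (Raag adj), F.Finite ∧ ∀ (k g : Raag adj) (q : Q), g⁻¹ * k ∉ F →
      NotFPact adj be k r (g, q) = (g, q) := by
  let S : Subgroup (FreeGroup V) :=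
    { carrier := {r | ∃ F : Set (Raag adj), F.Finite ∧ ∀ (k g : Raag adj) (q : Q),
        g⁻¹ * k ∉ F → NotFPact adj be k r (g, q) = (g, q)}
      one_mem' := ⟨∅, Set.finite_empty, by intro k g q _; simp⟩
      mul_mem' := by
        rintro a b ⟨Fa, hFa, ha⟩ ⟨Fb, hFb, hb⟩
        refine ⟨Fa ∪ Fb, hFa.union hFb, ?_⟩
        intro k g q hk
        rw [Set.mem_union, not_or] at hk
        rw [map_mul, Equiv.Perm.mul_apply, hb k g q hk.2, ha k g q hk.1]
      inv_mem' := by
        rintro a ⟨Fa, hFa, ha⟩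
        refine ⟨Fa, hFa, ?_⟩
        intro k g q hk
        rw [map_inv, Equiv.Perm.inv_eq_iff_eq, ha k g q hk] }
  have hSn : S.Normal := by
    refine ⟨?_⟩
    rintro a ⟨Fa, hFa, ha⟩ x
    refine ⟨(fun y => PresentedGroup.mk (raagRels adj) x * y) '' Fa, hFa.image _, ?_⟩
    intro k g q hk
    rw [map_mul, map_mul, Equiv.Perm.mul_apply, Equiv.Perm.mul_apply]
    have h1 := NotFPact_fst adj be k x⁻¹ g q
    have h3 : NotFPact adj be k x (NotFPact adj be k x⁻¹ (g, q)) = (g, q) := by
      rw [← Equiv.Perm.mul_apply, ← map_mul, mul_inv_cancel, map_one, Equiv.Perm.one_apply]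
    generalize NotFPact adj be k x⁻¹ (g, q) = gq at h1 h3 ⊢
    obtain ⟨g', q'⟩ := gq
    rw [ha k g' q' ?_, h3]
    intro hmem
    apply hk
    refine ⟨_, hmem, ?_⟩
    simp only at h1
    rw [h1]
    simp [mul_assoc]
  have hle : Subgroup.normalClosure (raagRels adj) ≤ S := by
    apply Subgroup.normalClosure_le_normal
    rintro r ⟨u, v, huv, rfl⟩
    have hcl : IsClq adj {u, v} := by
      rintro a ha b hb
      rcases ha with rfl | rfl <;> rcases hb with rfl | rfl
      · exact Or.inl rfl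
      · exact Or.inr huv
      · exact Or.inr (hsymm _ _ huv)
      · exact Or.inl rfl
    have hu : zz adj u ∈ par adj {u, v} := Subgroup.subset_closure ⟨u, Or.inl rfl, rfl⟩
    have hv : zz adj v ∈ par adj {u, v} := Subgroup.subset_closure ⟨v, Or.inr rfl, rfl⟩
    have hc : zz adj u * zz adj v = zz adj v * zz adj u := zz_comm adj huv
    refine ⟨{1, zz adj v, zz adj v * zz adj u, zz adj u}, by
      simp, ?_⟩
    intro k g q hk
    have key := hbe _ hcl
    have hne : ∀ y : Raag adj, y ∈ ({1, zz adj v, zz adj v * zz adj u, zz adj u} :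
        Set (Raag adj)) → k⁻¹ * (g * y) ≠ 1 := by
      intro y hy h1
      apply hk
      rw [inv_mul_eq_one] at h1
      rw [h1, inv_mul_cancel_left]
      exact hy
    have n0 := hne 1 (by simp)
    have n1 := hne (zz adj v) (by simp)
    have n2 := hne (zz adj v * zz adj u) (by simp)
    have n3 := hne (zz adj u) (by simp)
    have e1 := key (k⁻¹ * (g * (zz adj v * zz adj u))) (k⁻¹ * (g * zz adj v)) (k⁻¹ * (g * 1))
      n2 n1 n0
      (by
        have : (k⁻¹ * (g * (zz adj v * zz adj u)))⁻¹ * (k⁻¹ * (g * zz adj v)) =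
          (zz adj v * zz adj u)⁻¹ * zz adj v := by group
        rw [this]
        exact mul_mem (inv_mem (mul_mem hv hu)) hv)
      (by
        have : (k⁻¹ * (g * (zz adj v * zz adj u)))⁻¹ * (k⁻¹ * (g * 1)) =
          (zz adj v * zz adj u)⁻¹ := by group
        rw [this]
        exact inv_mem (mul_mem hv hu))
    have e2 := key (k⁻¹ * (g * (zz adj v * zz adj u))) (k⁻¹ * (g * zz adj u)) (k⁻¹ * (g * 1))
      n2 n3 n0
      (by
        have : (k⁻¹ * (g * (zz adj v * zz adj u)))⁻¹ * (k⁻¹ * (g * zz adj u)) =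
          (zz adj v * zz adj u)⁻¹ * zz adj u := by group
        rw [this]
        exact mul_mem (inv_mem (mul_mem hv hu)) hu)
      (by
        have : (k⁻¹ * (g * (zz adj v * zz adj u)))⁻¹ * (k⁻¹ * (g * 1)) =
          (zz adj v * zz adj u)⁻¹ := by group
        rw [this]
        exact inv_mem (mul_mem hv hu))
    have p3 : g * zz adj v * zz adj u * (zz adj v)⁻¹ = g * zz adj u := by
      rw [mul_assoc g, ← hc, ← mul_assoc, mul_inv_cancel_right]
    rw [map_mul, map_mul, map_mul, Equiv.Perm.mul_apply, Equiv.Perm.mul_apply,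
      Equiv.Perm.mul_apply, NotFPact_of_inv, NotFPact_of_inv, NotFPact_of, NotFPact_of, p3]
    rw [mul_one] at e1 e2
    rw [mul_inv_cancel_right]
    ext
    · rfl
    · show q * _ * _ * _ * _ = q
      rw [mul_assoc (q * _ * _), mul_assoc g, e2, ← e1, mul_assoc q, ← mul_inv_rev]
      group
  exact hle hr

/-- The action along a segment. -/
private theorem NotFPsegment (be : Raag adj → Raag adj → Q)
    (hbe : ∀ σ : Set V, IsClq adj σ → ∀ P P' P'' : Raag adj, P ≠ 1 → P' ≠ 1 → P'' ≠ 1 →
      P⁻¹ * P' ∈ par adj σ → P⁻¹ * P'' ∈ par adj σ → be P P' * be P' P'' = be P P'')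
    (hsymm : ∀ u v, adj u v → adj v u) (k : Raag adj) (N : ℕ) (hN : 2 ≤ N) (u v : V)
    (huv : adj u v) (j : ℕ) (q : Q) :
    NotFPact adj be k ((FreeGroup.of u * (FreeGroup.of v)⁻¹) ^ j)
      (k * zz adj v ^ (-(N : ℤ)), q) =
      (k * (zz adj v ^ ((j : ℤ) - N) * zz adj u ^ (-(j : ℤ))),
        q * be (zz adj v ^ (-(N : ℤ))) (zz adj v ^ ((j : ℤ) - N) * zz adj u ^ (-(j : ℤ)))) := by
  have hcl : IsClq adj {u, v} := by
    rintro a ha b hb
    rcases ha with rfl | rfl <;> rcases hb with rfl | rfl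
    · exact Or.inl rfl
    · exact Or.inr huv
    · exact Or.inr (hsymm _ _ huv)
    · exact Or.inl rfl
  have hu : zz adj u ∈ par adj {u, v} := Subgroup.subset_closure ⟨u, Or.inl rfl, rfl⟩
  have hv : zz adj v ∈ par adj {u, v} := Subgroup.subset_closure ⟨v, Or.inr rfl, rfl⟩
  have hc : Commute (zz adj u) (zz adj v) := zz_comm adj huv
  have key : ∀ P P' P'' : Raag adj, P ≠ 1 → P' ≠ 1 → P'' ≠ 1 → P ∈ par adj {u, v} →
      P' ∈ par adj {u, v} → P'' ∈ par adj {u, v} → be P P' * be P' P'' = be P P'' :=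
    fun P P' P'' h h' h'' hP hP' hP'' => hbe _ hcl P P' P'' h h' h''
      (mul_mem (inv_mem hP) hP') (mul_mem (inv_mem hP) hP'')
  have hone : ∀ P : Raag adj, P ≠ 1 → P ∈ par adj {u, v} → be P P = 1 := by
    intro P h hP
    have := key P P P h h h hP hP hP
    simpa using this
  have hinv : ∀ P P' : Raag adj, P ≠ 1 → P' ≠ 1 → P ∈ par adj {u, v} →
      P' ∈ par adj {u, v} → (be P' P)⁻¹ = be P P' := by
    intro P P' h h' hP hP'
    have := key P P' P h h' h hP hP' hP
    rw [hone P h hP] at this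
    exact inv_eq_of_mul_eq_one_left this
  have hmem : ∀ i j : ℤ, zz adj v ^ i * zz adj u ^ j ∈ par adj {u, v} := fun i j =>
    mul_mem (zpow_mem hv i) (zpow_mem hu j)
  have hnz : ∀ i j : ℤ, i + j ≠ 0 → zz adj v ^ i * zz adj u ^ j ≠ 1 := by
    intro i j hij h1
    have h2 := congrArg (fun x => Multiplicative.toAdd (hgt adj x)) h1
    simp only [map_mul, map_zpow, hgt_zz, map_one, toAdd_mul, toAdd_zpow, toAdd_ofAdd,
      toAdd_one] at h2
    apply hij
    simpa using h2
  have hN' : (2 : ℤ) ≤ N := by exact_mod_cast hN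
  have h0 : zz adj v ^ (-(N : ℤ)) ≠ 1 := by
    have := hnz (-(N : ℤ)) 0 (by omega)
    simpa using this
  have h0m : zz adj v ^ (-(N : ℤ)) ∈ par adj {u, v} := zpow_mem hv _
  induction j with
  | zero =>
    simp only [pow_zero, map_one, Equiv.Perm.one_apply, Nat.cast_zero, zero_sub, neg_zero,
      zpow_zero, mul_one]
    rw [hone _ h0 h0m, mul_one]
  | succ j ih =>
    rw [pow_succ', map_mul, Equiv.Perm.mul_apply, ih, map_mul, Equiv.Perm.mul_apply,
      NotFPact_of_inv, NotFPact_of]
    have e1 : zz adj v ^ ((j : ℤ) - N) * zz adj u ^ (-(j : ℤ)) * zz adj v =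
        zz adj v ^ ((j : ℤ) + 1 - N) * zz adj u ^ (-(j : ℤ)) := by
      rw [mul_assoc, (hc.zpow_left _).eq, ← mul_assoc]
      congr 1
      rw [← zpow_add_one]
      congr 1
      ring
    have e2 : zz adj v ^ ((j : ℤ) + 1 - N) * zz adj u ^ (-(j : ℤ)) * (zz adj u)⁻¹ =
        zz adj v ^ ((j : ℤ) + 1 - N) * zz adj u ^ (-((j : ℤ) + 1)) := by
      rw [mul_assoc, ← zpow_sub_one]
      congr 2
      ring
    rw [mul_assoc k, e1, mul_assoc k, e2, inv_mul_cancel_left, inv_mul_cancel_left,
      inv_mul_cancel_left, Nat.cast_succ]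
    ext
    · rfl
    · show q * _ * _ * _ = q * _
      rw [hinv _ _ (hnz _ _ (by omega)) (hnz _ _ (by omega)) (hmem _ _) (hmem _ _),
        mul_assoc q, key _ _ _ h0 (hnz _ _ (by omega)) (hnz _ _ (by omega)) h0m (hmem _ _)
          (hmem _ _), mul_assoc q,
        key _ _ _ h0 (hnz _ _ (by omega)) (hnz _ _ (by omega)) h0m (hmem _ _)
          (hmem _ _)]

/-- The elements `z_u z_v⁻¹` generate the kernel of the height. -/
private theorem NotFPgen (hsymm : ∀ u v, adj u v → adj v u)
    (hconn : ∀ u v, Relation.ReflTransGen adj u v) (u₀ : V) (g : Raag adj)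
    (hg : hgt adj g = 1) :
    g ∈ Subgroup.closure {x : Raag adj | ∃ u v, adj u v ∧ x = zz adj u * (zz adj v)⁻¹} := by
  set N := Subgroup.closure {x : Raag adj | ∃ u v, adj u v ∧ x = zz adj u * (zz adj v)⁻¹}
    with hNdef
  have hgen : ∀ u v, adj u v → zz adj u * (zz adj v)⁻¹ ∈ N := fun u v h =>
    Subgroup.subset_closure ⟨u, v, h, rfl⟩
  have h1 : ∀ u v, zz adj u * (zz adj v)⁻¹ ∈ N := by
    intro u v
    induction hconn u v with
    | refl => simp
    | @tail b c _ hbc ih =>
      have : zz adj u * (zz adj c)⁻¹ = zz adj u * (zz adj b)⁻¹ * (zz adj b * (zz adj c)⁻¹) := by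
        group
      rw [this]
      exact mul_mem ih (hgen _ _ hbc)
  have h2 : ∀ u v, (zz adj u)⁻¹ * zz adj v ∈ N := by
    intro u v
    induction hconn u v with
    | refl => simp
    | @tail b c _ hbc ih =>
      have : (zz adj u)⁻¹ * zz adj c = (zz adj u)⁻¹ * zz adj b * ((zz adj b)⁻¹ * zz adj c) := by
        group
      rw [this]
      refine mul_mem ih ?_
      have hc : Commute (zz adj b) (zz adj c) := zz_comm adj hbc
      rw [hc.inv_left.eq]
      exact hgen _ _ (hsymm _ _ hbc)
  have hnorm : N.Normal := by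
    rw [← Subgroup.normalizer_eq_top_iff, eq_top_iff, ← PresentedGroup.closure_range_of,
      Subgroup.closure_le]
    rintro x ⟨w, rfl⟩
    show zz adj w ∈ Subgroup.normalizer (N : Set (Raag adj))
    rw [Subgroup.mem_normalizer_iff]
    have e1 : ∀ h, h ∈ N → zz adj w * h * (zz adj w)⁻¹ ∈ N := by
      have hle : N ≤ N.comap (MulAut.conj (zz adj w)).toMonoidHom := by
        rw [hNdef, Subgroup.closure_le, ← hNdef]
        rintro x ⟨u, v, huv, rfl⟩
        show zz adj w * (zz adj u * (zz adj v)⁻¹) * (zz adj w)⁻¹ ∈ N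
        have hc : Commute (zz adj u) (zz adj v)⁻¹ := (zz_comm adj huv).inv_right
        have : zz adj w * (zz adj u * (zz adj v)⁻¹) * (zz adj w)⁻¹ =
            zz adj w * (zz adj u)⁻¹ * (zz adj u * (zz adj u * (zz adj v)⁻¹) * (zz adj u)⁻¹) *
              (zz adj u * (zz adj w)⁻¹) := by group
        rw [this]
        refine mul_mem (mul_mem (h1 _ _) ?_) (h1 _ _)
        rw [hc.eq]
        have h6 : zz adj u * ((zz adj v)⁻¹ * zz adj u) * (zz adj u)⁻¹ =
            zz adj u * (zz adj v)⁻¹ := by group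
        rw [h6]
        exact hgen _ _ huv
      intro h hh
      exact hle hh
    have e2 : ∀ h, h ∈ N → (zz adj w)⁻¹ * h * zz adj w ∈ N := by
      have hle : N ≤ N.comap (MulAut.conj (zz adj w)⁻¹).toMonoidHom := by
        rw [hNdef, Subgroup.closure_le, ← hNdef]
        rintro x ⟨u, v, huv, rfl⟩
        show (zz adj w)⁻¹ * (zz adj u * (zz adj v)⁻¹) * (zz adj w)⁻¹⁻¹ ∈ N
        have hc : Commute (zz adj u) (zz adj v)⁻¹ := (zz_comm adj huv).inv_right
        have : (zz adj w)⁻¹ * (zz adj u * (zz adj v)⁻¹) * (zz adj w)⁻¹⁻¹ =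
            (zz adj w)⁻¹ * zz adj u * ((zz adj v)⁻¹ * zz adj u) *
              ((zz adj u)⁻¹ * zz adj w) := by group
        rw [this]
        refine mul_mem (mul_mem (h2 _ _) (h2 _ _)) (h2 _ _)
      intro h hh
      have := hle hh
      simpa using this
    intro h
    refine ⟨e1 h, fun hh => ?_⟩
    have := e2 _ hh
    have h5 : (zz adj w)⁻¹ * (zz adj w * h * (zz adj w)⁻¹) * zz adj w = h := by group
    rwa [h5] at this
  have h3 : (zpowersHom (Raag adj ⧸ N) (QuotientGroup.mk' N (zz adj u₀))).comp (hgt adj) =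
      QuotientGroup.mk' N := by
    apply PresentedGroup.ext
    intro w
    show zpowersHom (Raag adj ⧸ N) (QuotientGroup.mk' N (zz adj u₀)) (hgt adj (zz adj w)) =
      QuotientGroup.mk' N (zz adj w)
    rw [hgt_zz]
    simp only [zpowersHom_apply, toAdd_ofAdd, zpow_one]
    exact (QuotientGroup.eq.2 (h2 u₀ w))
  have h4 := DFunLike.congr_fun h3 g
  rw [MonoidHom.comp_apply, hg, map_one] at h4
  exact (QuotientGroup.eq_one_iff g).1 h4.symm

end NotFPAux

theorem ker_hgt_not_fp {V : Type} [Finite V] (adj : V → V → Prop)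
    (hsymm : ∀ u v, adj u v → adj v u) (hirr : ∀ v, ¬ adj v v)
    (hconn : ∀ u v, Relation.ReflTransGen adj u v)
    {Q : Type} [Group Q] (a : V → V → Q)
    (ha : ∀ u v w, (u = v ∨ adj u v) → (v = w ∨ adj v w) → (u = w ∨ adj u w) →
      a u v * a v w = a u w)
    (n : ℕ) (p : ℕ → V) (hp0 : p n = p 0) (hp : ∀ i < n, adj (p i) (p (i + 1)))
    (hhol : (List.ofFn fun i : Fin n => a (p i) (p (i + 1))).prod ≠ 1) :
    ¬ Group.IsFinitelyPresented (hgt adj).ker := by
  classical
  intro hfp
  obtain ⟨D, hD1, hD2, hD3⟩ := exists_firstLetters adj hsymm hirr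
  have hDne : ∀ g : Raag adj, g ≠ 1 → ∃ v, v ∈ D g := by
    intro g hg
    by_contra hcon
    push Not at hcon
    exact hg (hD1 g (Set.eq_empty_iff_forall_notMem.2 hcon))
  let w : Raag adj → V := fun g => if h : g ≠ 1 then (hDne g h).choose else p 0
  have hw : ∀ g, g ≠ 1 → w g ∈ D g := by
    intro g hg
    simp only [w, dif_pos hg]
    exact (hDne g hg).choose_spec
  let be : Raag adj → Raag adj → Q := fun P P' => a (w P) (w P')
  have hbe : ∀ σ : Set V, IsClq adj σ → ∀ P P' P'' : Raag adj, P ≠ 1 → P' ≠ 1 → P'' ≠ 1 →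
      P⁻¹ * P' ∈ par adj σ → P⁻¹ * P'' ∈ par adj σ → be P P' * be P' P'' = be P P'' := by
    intro σ hσ P P' P'' h h' h'' h1 h2
    apply ha
    · exact hD2 σ hσ P P' h1 _ (hw _ h) _ (hw _ h')
    · refine hD2 σ hσ P' P'' ?_ _ (hw _ h') _ (hw _ h'')
      have : P'⁻¹ * P'' = (P⁻¹ * P')⁻¹ * (P⁻¹ * P'') := by group
      rw [this]
      exact mul_mem (inv_mem h1) h2
    · exact hD2 σ hσ P P'' h2 _ (hw _ h) _ (hw _ h'')
  -- the generators of the kernel
  let E : Type := {e : V × V // adj e.1 e.2}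
  have hEfin : Finite E := inferInstance
  have hhE : ∀ e : E, zz adj e.1.1 * (zz adj e.1.2)⁻¹ ∈ (hgt adj).ker := by
    intro e
    rw [MonoidHom.mem_ker, map_mul, map_inv, hgt_zz, hgt_zz, mul_inv_cancel]
  let φ : FreeGroup E →* (hgt adj).ker :=
    FreeGroup.lift fun e => ⟨zz adj e.1.1 * (zz adj e.1.2)⁻¹, hhE e⟩
  let ψ : FreeGroup E →* FreeGroup V :=
    FreeGroup.lift fun e => FreeGroup.of e.1.1 * (FreeGroup.of e.1.2)⁻¹
  have hφψ : ∀ x, PresentedGroup.mk (raagRels adj) (ψ x) = (φ x : Raag adj) := by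
    intro x
    have : (PresentedGroup.mk (raagRels adj)).comp ψ = (hgt adj).ker.subtype.comp φ := by
      apply FreeGroup.ext_hom
      intro e
      simp [φ, ψ, zz, PresentedGroup.of]
    exact DFunLike.congr_fun this x
  have hφ : Function.Surjective φ := by
    rintro ⟨g, hg⟩
    have h1 := NotFPgen adj hsymm hconn (p 0) g (MonoidHom.mem_ker.1 hg)
    have h2 : Subgroup.closure {x : Raag adj | ∃ u v, adj u v ∧ x = zz adj u * (zz adj v)⁻¹} ≤
        ((hgt adj).ker.subtype.comp φ).range := by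
      rw [Subgroup.closure_le]
      rintro x ⟨u, v, huv, rfl⟩
      refine ⟨FreeGroup.of ⟨(u, v), huv⟩, ?_⟩
      simp [φ]
    obtain ⟨x, hx⟩ := h2 h1
    exact ⟨x, Subtype.ext hx⟩
  obtain ⟨R, hRfin, hR⟩ := fp_ker φ hφ
  -- the finite set
  have hloc : ∀ s : R, ∃ F : Set (Raag adj), F.Finite ∧ ∀ (k g : Raag adj) (q : Q),
      g⁻¹ * k ∉ F → NotFPact adj be k (ψ s) (g, q) = (g, q) := by
    intro s
    apply NotFPlocal adj be hbe hsymm
    rw [← PresentedGroup.mk_eq_one_iff, hφψ]
    have : (s : FreeGroup E) ∈ φ.ker := by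
      rw [← hR]
      exact Subgroup.subset_normalClosure s.2
    rw [MonoidHom.mem_ker.1 this]
    rfl
  choose F hF1 hF2 using hloc
  have : Finite R := hRfin
  have hFfin : (⋃ s, F s).Finite := Set.finite_iUnion hF1
  -- the exponent
  obtain ⟨N, hN2, hN⟩ : ∃ N : ℕ, 2 ≤ N ∧ ∀ g ∈ ⋃ s, F s,
      hgt adj g ≠ Multiplicative.ofAdd (N : ℤ) := by
    have hfin : ((fun N : ℕ => Multiplicative.ofAdd (N : ℤ)) ⁻¹'
        (hgt adj '' ⋃ s, F s)).Finite := by
      apply Set.Finite.preimage _ (hFfin.image _)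
      intro x _ y _ hxy
      have := Multiplicative.ofAdd.injective hxy
      exact_mod_cast this
    obtain ⟨N, hN1, hN2⟩ := (hfin.infinite_compl).exists_gt 2
    refine ⟨N, hN2.le, fun g hg hgN => hN1 ?_⟩
    exact ⟨g, hg, hgN⟩
  set k : Raag adj := zz adj (p 0) ^ N with hk
  have hkN : hgt adj k = Multiplicative.ofAdd (N : ℤ) := by
    rw [hk, map_pow, hgt_zz, ← ofAdd_nsmul]
    simp
  -- elements of the kernel act trivially
  let T : Subgroup (FreeGroup E) :=
    { carrier := {x | ∀ (g : Raag adj) (q : Q), hgt adj g = 1 →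
        NotFPact adj be k (ψ x) (g, q) = (g, q)}
      one_mem' := by intro g q _; simp
      mul_mem' := by
        intro x y hx hy g q hg
        rw [map_mul, map_mul, Equiv.Perm.mul_apply, hy g q hg, hx g q hg]
      inv_mem' := by
        intro x hx g q hg
        rw [map_inv, map_inv, Equiv.Perm.inv_eq_iff_eq, hx g q hg] }
  have hTn : T.Normal := by
    refine ⟨?_⟩
    intro x hx y g q hg
    rw [map_mul, map_mul, map_mul, map_mul, Equiv.Perm.mul_apply, Equiv.Perm.mul_apply]
    have h1 := NotFPact_fst adj be k (ψ y⁻¹) g q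
    have h3 : NotFPact adj be k (ψ y) (NotFPact adj be k (ψ y⁻¹) (g, q)) = (g, q) := by
      rw [← Equiv.Perm.mul_apply, ← map_mul, ← map_mul, mul_inv_cancel, map_one, map_one,
        Equiv.Perm.one_apply]
    generalize NotFPact adj be k (ψ y⁻¹) (g, q) = gq at h1 h3 ⊢
    obtain ⟨g', q'⟩ := gq
    rw [hx g' q' ?_, h3]
    simp only at h1
    rw [h1, map_mul, hg, one_mul, map_inv, hφψ, MonoidHom.mem_ker.1 (φ y⁻¹).2, inv_one]
  have hT : φ.ker ≤ T := by
    rw [← hR]
    apply Subgroup.normalClosure_le_normal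
    intro s hs g q hg
    refine hF2 ⟨s, hs⟩ k g q ?_
    intro hmem
    apply hN _ (Set.mem_iUnion.2 ⟨_, hmem⟩)
    rw [map_mul, map_inv, hg, inv_one, one_mul, hkN]
  -- the walk
  let x : ℕ → FreeGroup E := fun i =>
    if h : adj (p i) (p (i + 1)) then FreeGroup.of ⟨(p i, p (i + 1)), h⟩ else 1
  have hx : ∀ i < n, ψ (x i) = FreeGroup.of (p i) * (FreeGroup.of (p (i + 1)))⁻¹ := by
    intro i hi
    simp only [x, dif_pos (hp i hi), ψ, FreeGroup.lift_apply_of]
  let X : ℕ → FreeGroup E := fun m => (List.ofFn fun i : Fin m => x i ^ N).prod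
  let A : ℕ → Q := fun m => (List.ofFn fun i : Fin m => a (p i) (p (i + 1))).prod
  have hX : ∀ m, X (m + 1) = X m * x m ^ N := by
    intro m
    simp only [X]
    rw [List.ofFn_succ', List.concat_eq_append, List.prod_append]
    simp
  have hA : ∀ m, A (m + 1) = A m * a (p m) (p (m + 1)) := by
    intro m
    simp only [A]
    rw [List.ofFn_succ', List.concat_eq_append, List.prod_append]
    simp
  have hwp : ∀ v, w (zz adj v ^ (-(N : ℤ))) = v := by
    intro v
    have h1 : zz adj v ^ (-(N : ℤ)) ≠ 1 := by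
      intro h1
      have h2 := congrArg (fun x => Multiplicative.toAdd (hgt adj x)) h1
      simp only [map_zpow, hgt_zz, map_one, toAdd_zpow, toAdd_ofAdd, toAdd_one] at h2
      have : (N : ℤ) = 0 := by simpa using h2
      omega
    have h2 := hw _ h1
    have h4 : zz adj v ∈ par adj {v} := Subgroup.subset_closure ⟨v, rfl, rfl⟩
    have h3 := hD3 {v} (by rintro a rfl b rfl; exact Or.inl rfl) (zz adj v ^ (-(N : ℤ)))
      (zpow_mem h4 _) h2
    exact h3
  have hmain : ∀ m ≤ n, ∀ q : Q, NotFPact adj be k (ψ (X m)) (k * zz adj (p m) ^ (-(N : ℤ)), q) =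
      (k * zz adj (p 0) ^ (-(N : ℤ)), q * (A m)⁻¹) := by
    intro m
    induction m with
    | zero =>
      intro _ q
      simp [X, A]
    | succ m ih =>
      intro hm q
      rw [hX, map_mul, map_mul, Equiv.Perm.mul_apply, map_pow, hx m (by omega),
        NotFPsegment adj be hbe hsymm k N hN2 _ _ (hp m (by omega)), sub_self, zpow_zero,
        one_mul, ih (by omega), hA]
      ext
      · rfl
      · show q * be _ _ * _ = q * _
        have : be (zz adj (p (m + 1)) ^ (-(N : ℤ))) (zz adj (p m) ^ (-(N : ℤ))) =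
            (a (p m) (p (m + 1)))⁻¹ := by
          show a (w _) (w _) = _
          rw [hwp, hwp]
          have h1 := ha (p m) (p (m + 1)) (p m) (Or.inr (hp m (by omega)))
            (Or.inr (hsymm _ _ (hp m (by omega)))) (Or.inl rfl)
          have h2 := ha (p m) (p m) (p m) (Or.inl rfl) (Or.inl rfl) (Or.inl rfl)
          have h3 : a (p m) (p m) = 1 := by simpa using h2
          rw [h3] at h1
          exact (inv_eq_of_mul_eq_one_right h1).symm
        rw [this, mul_inv_rev, mul_assoc]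
  -- the element of the kernel
  have hXker : X n ∈ φ.ker := by
    have h1 := NotFPact_fst adj be k (ψ (X n)) (k * zz adj (p n) ^ (-(N : ℤ))) 1
    rw [hmain n le_rfl, hφψ, hp0] at h1
    simp only at h1
    rw [MonoidHom.mem_ker]
    apply Subtype.ext
    have h2 := (mul_eq_left (a := k * zz adj (p 0) ^ (-(N : ℤ)))).1 h1.symm
    exact inv_eq_one.1 h2
  have hfinal := hT hXker 1 1 (map_one _)
  have h1 := hmain n le_rfl 1
  rw [hp0] at h1
  have h2 : k * zz adj (p 0) ^ (-(N : ℤ)) = 1 := by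
    rw [hk, zpow_neg, zpow_natCast, mul_inv_cancel]
  rw [h2, hfinal, one_mul] at h1
  have h3 := (Prod.ext_iff.1 h1).2
  simp only at h3
  apply hhol
  exact inv_eq_one.1 h3.symm

end Pool.Agent.GCW
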