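import Pool.Agent.Lib.MP_63e749_al.JoinPerf

/-!
# JOB POSET: a finite poset with fundamental group `Q`

The elements of `PQ Q` are the cells of a 2-complex: vertices `0, 1, 2`; edges `e01 q : 0 → 1`,
`e12 q : 1 → 2`, `e02 q : 0 → 2`; triangles `t q q'` with edges `e01 q`, `e12 q'`, `e02 (q q')`. `adj` is comparability
(distinct) of faces.

* `H1Zero`: for a cocycle `c` put `χ₀₁(q) = c(v 0, e01 q) c(e01 q, v 1)` etc. The triangles give
  `χ₀₁(q) χ₁₂(q') = χ₀₂(q q')`; so `α(q) = χ₀₁(q)/χ₀₁(1)` is a homomorphism, hence trivial, and all three are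
  constant: `c` is a coboundary (`ψ(v 0) = 1`, `ψ(v 1) = χ₀₁`, `ψ(v 2) = χ₀₂`, `ψ(x) = ψ(v i) c(v i, x)` for the
  first vertex `i` of `x`).
* cocycle `a`: for a face `x` of `y` let `h(x, y)` be the label of the path in `y` from the first vertex
  of `y` to the first vertex of `x`; `a y x = h(x,y)`, `a x y = h(x,y)⁻¹`, `a x x = 1` (or the reverse).
* closed walk with nontrivial holonomy: `v 0, e01 q, v 1, e01 1, v 0`, for `q ≠ 1`.
-/

set_option autoImplicit false

namespace Pool.Agent.GCW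

/-- The cells. -/
inductive PQ (Q : Type) : Type
  | v : Fin 3 → PQ Q
  | e01 : Q → PQ Q
  | e12 : Q → PQ Q
  | e02 : Q → PQ Q
  | t : Q → Q → PQ Q

/-- The proper face relation. -/
inductive PQ.Lt {Q : Type} [Group Q] : PQ Q → PQ Q → Prop
  | v0_e01 (q : Q) : PQ.Lt (PQ.v 0) (PQ.e01 q)
  | v1_e01 (q : Q) : PQ.Lt (PQ.v 1) (PQ.e01 q)
  | v1_e12 (q : Q) : PQ.Lt (PQ.v 1) (PQ.e12 q)
  | v2_e12 (q : Q) : PQ.Lt (PQ.v 2) (PQ.e12 q)
  | v0_e02 (q : Q) : PQ.Lt (PQ.v 0) (PQ.e02 q)
  | v2_e02 (q : Q) : PQ.Lt (PQ.v 2) (PQ.e02 q)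
  | v_t (i : Fin 3) (q q' : Q) : PQ.Lt (PQ.v i) (PQ.t q q')
  | e01_t (q q' : Q) : PQ.Lt (PQ.e01 q) (PQ.t q q')
  | e12_t (q q' : Q) : PQ.Lt (PQ.e12 q') (PQ.t q q')
  | e02_t (q q' : Q) : PQ.Lt (PQ.e02 (q * q')) (PQ.t q q')

/-- Adjacency: comparable and different. -/
def PQ.adj {Q : Type} [Group Q] (x y : PQ Q) : Prop := PQ.Lt x y ∨ PQ.Lt y x

/-- The dimension of a cell. -/
private def PosetRank {Q : Type} : PQ Q → ℕ
  | .v _ => 0
  | .e01 _ => 1
  | .e12 _ => 1
  | .e02 _ => 1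
  | .t _ _ => 2

private theorem Poset_rank_lt {Q : Type} [Group Q] {x y : PQ Q} (h : PQ.Lt x y) :
    PosetRank x < PosetRank y := by
  cases h <;> simp [PosetRank]

private theorem Poset_rank_ne {Q : Type} [Group Q] {x y : PQ Q} (h : PQ.adj x y) :
    PosetRank x ≠ PosetRank y := by
  rcases h with h | h
  · exact (Poset_rank_lt h).ne
  · exact (Poset_rank_lt h).ne'

variable (Q : Type) [Group Q]

theorem pq_finite [Finite Q] : Finite (PQ Q) := by
  let f : PQ Q → (Fin 3 ⊕ Q) ⊕ (Q ⊕ Q) ⊕ (Q × Q) := fun x => match x with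
    | .v i => Sum.inl (Sum.inl i)
    | .e01 q => Sum.inl (Sum.inr q)
    | .e12 q => Sum.inr (Sum.inl (Sum.inl q))
    | .e02 q => Sum.inr (Sum.inl (Sum.inr q))
    | .t q q' => Sum.inr (Sum.inr (q, q'))
  refine Finite.of_injective f ?_
  intro x y h
  cases x <;> cases y <;> simp_all [f]

theorem pq_symm (x y : PQ Q) : PQ.adj x y → PQ.adj y x := Or.symm

theorem pq_irr (x : PQ Q) : ¬ PQ.adj x x := fun h => Poset_rank_ne h rfl

theorem pq_connected (x y : PQ Q) : Relation.ReflTransGen PQ.adj x y := by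
  have hsymm : ∀ a b : PQ Q, Relation.ReflTransGen PQ.adj a b →
      Relation.ReflTransGen PQ.adj b a := by
    intro a b h
    induction h with
    | refl => exact Relation.ReflTransGen.refl
    | tail _ h2 ih => exact Relation.ReflTransGen.head (pq_symm Q _ _ h2) ih
  have h0 : ∀ a : PQ Q, Relation.ReflTransGen PQ.adj a (PQ.t 1 1) := by
    have hv : ∀ i : Fin 3, Relation.ReflTransGen PQ.adj (PQ.v i) (PQ.t (1 : Q) 1) := fun i =>
      Relation.ReflTransGen.single (Or.inl (PQ.Lt.v_t i 1 1))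
    intro a
    cases a with
    | v i => exact hv i
    | e01 q => exact Relation.ReflTransGen.head (Or.inr (PQ.Lt.v0_e01 q)) (hv 0)
    | e12 q => exact Relation.ReflTransGen.head (Or.inr (PQ.Lt.v1_e12 q)) (hv 1)
    | e02 q => exact Relation.ReflTransGen.head (Or.inr (PQ.Lt.v0_e02 q)) (hv 0)
    | t q q' => exact Relation.ReflTransGen.head (Or.inr (PQ.Lt.v_t 0 q q')) (hv 0)
  exact (h0 x).trans (hsymm _ _ (h0 y))

/-- Cliques have at most three elements (so that the coset complex has dimension 2). -/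
theorem pq_clique (σ : Finset (PQ Q)) (h : ∀ x ∈ σ, ∀ y ∈ σ, x = y ∨ PQ.adj x y) :
    σ.card ≤ 3 := by
  have hinj : Set.InjOn (PosetRank (Q := Q)) σ := by
    intro x hx y hy hxy
    rcases h x hx y hy with h1 | h1
    · exact h1
    · exact absurd hxy (Poset_rank_ne h1)
  rw [← Finset.card_image_of_injOn hinj]
  calc _ ≤ (Finset.range 3).card := by
        apply Finset.card_le_card
        intro n hn
        rw [Finset.mem_image] at hn
        obtain ⟨x, -, rfl⟩ := hn
        rw [Finset.mem_range]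
        cases x <;> simp [PosetRank]
    _ = 3 := Finset.card_range 3

theorem pq_H1Zero (hQ : ∀ (B : Type) [CommGroup B] (φ : Q →* B), φ = 1) :
    H1Zero (fun x y : PQ Q => x = y ∨ PQ.adj x y) := by
  intro B _ c hc
  have hself : ∀ u, c u u = 1 := by
    intro u
    have := hc u u u (Or.inl rfl) (Or.inl rfl) (Or.inl rfl)
    exact mul_eq_left.mp this
  have hinv : ∀ u v, PQ.Lt u v → c v u = (c u v)⁻¹ := by
    intro u v h
    have h1 := hc u v u (Or.inr (Or.inl h)) (Or.inr (Or.inr h)) (Or.inl rfl)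
    rw [hself] at h1
    exact (inv_eq_of_mul_eq_one_right h1).symm
  -- monotone cocycle identity
  have hmon : ∀ u v w, PQ.Lt u v → PQ.Lt v w → PQ.Lt u w → c u v * c v w = c u w :=
    fun u v w h1 h2 h3 => hc u v w (Or.inr (Or.inl h1)) (Or.inr (Or.inl h2))
      (Or.inr (Or.inl h3))
  obtain ⟨X01, hX01⟩ : ∃ X : Q → B, ∀ q, X q = c (.v 0) (.e01 q) * (c (.v 1) (.e01 q))⁻¹ :=
    ⟨_, fun _ => rfl⟩
  obtain ⟨X12, hX12⟩ : ∃ X : Q → B, ∀ q, X q = c (.v 1) (.e12 q) * (c (.v 2) (.e12 q))⁻¹ :=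
    ⟨_, fun _ => rfl⟩
  obtain ⟨X02, hX02⟩ : ∃ X : Q → B, ∀ q, X q = c (.v 0) (.e02 q) * (c (.v 2) (.e02 q))⁻¹ :=
    ⟨_, fun _ => rfl⟩
  have e01 : ∀ q q', X01 q = c (.v 0) (.t q q') * (c (.v 1) (.t q q'))⁻¹ := by
    intro q q'
    have h1 := hmon (.v 0) (.e01 q) (.t q q') (.v0_e01 q) (.e01_t q q') (.v_t 0 q q')
    have h2 := hmon (.v 1) (.e01 q) (.t q q') (.v1_e01 q) (.e01_t q q') (.v_t 1 q q')
    rw [← h1, ← h2, hX01]; group
  have e12 : ∀ q q', X12 q' = c (.v 1) (.t q q') * (c (.v 2) (.t q q'))⁻¹ := by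
    intro q q'
    have h1 := hmon (.v 1) (.e12 q') (.t q q') (.v1_e12 q') (.e12_t q q') (.v_t 1 q q')
    have h2 := hmon (.v 2) (.e12 q') (.t q q') (.v2_e12 q') (.e12_t q q') (.v_t 2 q q')
    rw [← h1, ← h2, hX12]; group
  have e02 : ∀ q q', X02 (q * q') = c (.v 0) (.t q q') * (c (.v 2) (.t q q'))⁻¹ := by
    intro q q'
    have h1 := hmon (.v 0) (.e02 (q * q')) (.t q q') (.v0_e02 _) (.e02_t q q') (.v_t 0 q q')
    have h2 := hmon (.v 2) (.e02 (q * q')) (.t q q') (.v2_e02 _) (.e02_t q q') (.v_t 2 q q')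
    rw [← h1, ← h2, hX02]; group
  have hX : ∀ q q', X01 q * X12 q' = X02 (q * q') := by
    intro q q'
    rw [e01 q q', e12 q q', e02 q q']; group
  have h2 : ∀ q, X02 q = X01 q * X12 1 := fun q => by rw [hX, mul_one]
  have h3 : ∀ q, X02 q = X01 1 * X12 q := fun q => by rw [hX, one_mul]
  have h4 : ∀ q q', X01 q * X01 q' = X01 (q * q') * X01 1 := by
    intro q q'
    have h5 : X01 q * X12 q' = X01 (q * q') * X12 1 := by rw [hX, h2]
    have h6 : X01 q' * X12 1 = X01 1 * X12 q' := by rw [← h2, h3]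
    have h7 : X01 q * X01 q' * X12 1 = X01 (q * q') * X01 1 * X12 1 := by
      calc X01 q * X01 q' * X12 1 = X01 q * (X01 q' * X12 1) := mul_assoc _ _ _
        _ = X01 q * (X01 1 * X12 q') := by rw [h6]
        _ = X01 1 * (X01 q * X12 q') := by rw [mul_left_comm]
        _ = X01 1 * (X01 (q * q') * X12 1) := by rw [h5]
        _ = X01 (q * q') * X01 1 * X12 1 := by rw [mul_left_comm (X01 1), mul_assoc]
    exact mul_right_cancel h7
  let α : Q →* B :=
    { toFun := fun q => X01 q * (X01 1)⁻¹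
      map_one' := mul_inv_cancel _
      map_mul' := fun q q' => by
        have := h4 q q'
        have h8 : X01 q * (X01 1)⁻¹ * (X01 q' * (X01 1)⁻¹) =
            (X01 q * X01 q') * (X01 1)⁻¹ * (X01 1)⁻¹ := by
          rw [mul_mul_mul_comm, mul_assoc (X01 q * X01 q')]
        rw [h8, this, mul_inv_cancel_right] }
  have hα : ∀ q, X01 q = X01 1 := by
    intro q
    have h9 : α q = 1 := by rw [hQ B α]; rfl
    exact mul_inv_eq_one.mp h9
  have hβ : ∀ q, X02 q = X01 1 * X12 1 := fun q => by rw [h2, hα]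
  have hγ : ∀ q, X12 q = X12 1 := by
    intro q
    have := h3 q
    rw [hβ] at this
    exact (mul_left_cancel this).symm
  clear_value α
  clear α
  generalize X01 1 = A at hα hβ
  generalize X12 1 = C at hγ hβ
  clear h2 h3 h4
  -- explicit forms
  have k1 : ∀ q, c (.v 0) (.e01 q) = A * c (.v 1) (.e01 q) := by
    intro q
    have := hα q
    rw [hX01] at this
    rw [mul_inv_eq_iff_eq_mul] at this
    exact this
  have k2 : ∀ q, c (.v 1) (.e12 q) = C * c (.v 2) (.e12 q) := by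
    intro q
    have := hγ q
    rw [hX12] at this
    rw [mul_inv_eq_iff_eq_mul] at this
    exact this
  have k3 : ∀ q, c (.v 0) (.e02 q) = A * C * c (.v 2) (.e02 q) := by
    intro q
    have := hβ q
    rw [hX02] at this
    rw [mul_inv_eq_iff_eq_mul] at this
    exact this
  have k4 : ∀ q q', c (.v 0) (.t q q') = A * c (.v 1) (.t q q') := by
    intro q q'
    have := e01 q q'
    rw [hα q] at this
    rw [this]; group
  have k5 : ∀ q q', c (.v 1) (.t q q') = C * c (.v 2) (.t q q') := by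
    intro q q'
    have := e12 q q'
    rw [hγ q'] at this
    rw [this]; group
  have k6 : ∀ q q', c (.v 0) (.t q q') = A * C * c (.v 2) (.t q q') := by
    intro q q'
    rw [k4, k5, mul_assoc]
  let ψ : PQ Q → B := fun x => match x with
    | .v i => if i = 0 then 1 else if i = 1 then A else A * C
    | .e01 q => c (.v 0) (.e01 q)
    | .e12 q => A * c (.v 1) (.e12 q)
    | .e02 q => c (.v 0) (.e02 q)
    | .t q q' => c (.v 0) (.t q q')
  have hψ0 : ψ (.v 0) = 1 := by simp [ψ]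
  have hψ1 : ψ (.v 1) = A := by simp [ψ]
  have hψ2 : ψ (.v 2) = A * C := by simp [ψ]
  have key : ∀ u v, PQ.Lt u v → c u v = (ψ u)⁻¹ * ψ v := by
    intro u v h
    cases h with
    | v0_e01 q => rw [hψ0]; simp [ψ]
    | v1_e01 q => rw [hψ1]; simp only [ψ]; rw [k1]; group
    | v1_e12 q => rw [hψ1]; simp only [ψ]; group
    | v2_e12 q => rw [hψ2]; simp only [ψ]; rw [k2]; group
    | v0_e02 q => rw [hψ0]; simp [ψ]
    | v2_e02 q => rw [hψ2]; simp only [ψ]; rw [k3]; group
    | v_t i q q' =>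
      fin_cases i
      · change c (.v 0) _ = (ψ (.v 0))⁻¹ * _
        rw [hψ0]; simp [ψ]
      · change c (.v 1) _ = (ψ (.v 1))⁻¹ * _
        rw [hψ1]; simp only [ψ]; rw [k4]; group
      · change c (.v 2) _ = (ψ (.v 2))⁻¹ * _
        rw [hψ2]; simp only [ψ]; rw [k6]; group
    | e01_t q q' =>
      have h1 := hmon (.v 0) (.e01 q) (.t q q') (.v0_e01 q) (.e01_t q q') (.v_t 0 q q')
      simp only [ψ]; rw [← h1]; group
    | e12_t q q' =>
      have h1 := hmon (.v 1) (.e12 q') (.t q q') (.v1_e12 q') (.e12_t q q') (.v_t 1 q q')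
      simp only [ψ]; rw [k4, ← h1]; group
    | e02_t q q' =>
      have h1 := hmon (.v 0) (.e02 (q * q')) (.t q q') (.v0_e02 _) (.e02_t q q') (.v_t 0 q q')
      simp only [ψ]; rw [← h1]; group
  refine ⟨ψ, ?_⟩
  rintro u v (rfl | h | h)
  · rw [hself, inv_mul_cancel]
  · exact key u v h
  · rw [hinv v u h, key v u h, mul_inv_rev, inv_inv]

/-- The position of the first vertex of the face `x` in the cell `y`. -/
private def PosetPos {Q : Type} [Group Q] : PQ Q → PQ Q → Q
  | .e01 q, .v i => if i = 1 then q else 1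
  | .e12 q, .v i => if i = 2 then q else 1
  | .e02 q, .v i => if i = 2 then q else 1
  | .t q q', .v i => if i = 0 then 1 else if i = 1 then q else q * q'
  | .t q _, .e12 _ => q
  | _, _ => 1

private theorem Poset_pos_one {Q : Type} [Group Q] {x y : PQ Q} (h : PQ.Lt x y) :
    PosetPos x y = 1 := by
  cases h <;> simp [PosetPos]

private theorem Poset_pos_self {Q : Type} [Group Q] (x : PQ Q) : PosetPos x x = 1 := by
  cases x <;> simp [PosetPos]

private theorem Poset_pos_mul {Q : Type} [Group Q] {x y z : PQ Q} (h : PQ.Lt x y)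
    (h' : PQ.Lt y z) : PosetPos z x = PosetPos z y * PosetPos y x := by
  cases h <;> cases h' <;> simp [PosetPos]

/-- The cocycle. -/
private def PosetA {Q : Type} [Group Q] (x y : PQ Q) : Q := (PosetPos y x)⁻¹ * PosetPos x y

private theorem Poset_A_lt {Q : Type} [Group Q] {x y : PQ Q} (h : PQ.Lt x y) :
    PosetA x y = (PosetPos y x)⁻¹ := by
  rw [PosetA, Poset_pos_one h, mul_one]

private theorem Poset_A_gt {Q : Type} [Group Q] {x y : PQ Q} (h : PQ.Lt x y) :
    PosetA y x = PosetPos y x := by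
  rw [PosetA, Poset_pos_one h, inv_one, one_mul]

private theorem Poset_A_self {Q : Type} [Group Q] (x : PQ Q) : PosetA x x = 1 := by
  rw [PosetA, Poset_pos_self, inv_one, one_mul]

private theorem Poset_A_symm {Q : Type} [Group Q] (x y : PQ Q) :
    PosetA x y * PosetA y x = 1 := by
  simp only [PosetA]; group

theorem pq_cocycle (q : Q) (hq : q ≠ 1) : ∃ a : PQ Q → PQ Q → Q,
    (∀ u v w, (u = v ∨ PQ.adj u v) → (v = w ∨ PQ.adj v w) → (u = w ∨ PQ.adj u w) →
      a u v * a v w = a u w) ∧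
    ∃ (n : ℕ) (p : ℕ → PQ Q), p n = p 0 ∧ (∀ i < n, PQ.adj (p i) (p (i + 1))) ∧
      (List.ofFn fun i : Fin n => a (p i) (p (i + 1))).prod ≠ 1 := by
  refine ⟨PosetA, ?_, 4, fun i => if i = 1 then .e01 q else if i = 2 then .v 1 else
    if i = 3 then .e01 1 else .v 0, ?_, ?_, ?_⟩
  · intro u v w h1 h2 h3
    rcases h1 with rfl | h1
    · rw [Poset_A_self, one_mul]
    rcases h2 with rfl | h2
    · rw [Poset_A_self, mul_one]
    rcases h3 with rfl | h3
    · rw [Poset_A_symm, Poset_A_self]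
    rcases h1 with h1 | h1 <;> rcases h2 with h2 | h2 <;> rcases h3 with h3 | h3
    · rw [Poset_A_lt h1, Poset_A_lt h2, Poset_A_lt h3, Poset_pos_mul h1 h2, mul_inv_rev]
    · have := Poset_rank_lt h1
      have := Poset_rank_lt h2
      have := Poset_rank_lt h3
      omega
    · rw [Poset_A_lt h1, Poset_A_gt h2, Poset_A_lt h3, Poset_pos_mul h3 h2]; group
    · rw [Poset_A_lt h1, Poset_A_gt h2, Poset_A_gt h3, Poset_pos_mul h3 h1]; group
    · rw [Poset_A_gt h1, Poset_A_lt h2, Poset_A_lt h3, Poset_pos_mul h1 h3]; group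
    · rw [Poset_A_gt h1, Poset_A_lt h2, Poset_A_gt h3, Poset_pos_mul h2 h3]; group
    · have := Poset_rank_lt h1
      have := Poset_rank_lt h2
      have := Poset_rank_lt h3
      omega
    · rw [Poset_A_gt h1, Poset_A_gt h2, Poset_A_gt h3, Poset_pos_mul h2 h1]
  · simp
  · intro i hi
    have h4 : i = 0 ∨ i = 1 ∨ i = 2 ∨ i = 3 := by omega
    rcases h4 with rfl | rfl | rfl | rfl
    · exact Or.inl (.v0_e01 q)
    · exact Or.inr (.v1_e01 q)
    · exact Or.inl (.v1_e01 1)
    · exact Or.inr (.v0_e01 1)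
  · simp [List.ofFn_succ, PosetA, PosetPos, hq]

/-- The alternating group `A₅` is a nontrivial finite perfect group. -/
theorem alt5_perfect (B : Type) [CommGroup B] (φ : alternatingGroup (Fin 5) →* B) : φ = 1 := by
  rcases (inferInstance : φ.ker.Normal).eq_bot_or_eq_top with h | h
  · exfalso
    have hinj : Function.Injective φ := (MonoidHom.ker_eq_bot_iff φ).mp h
    have hcomm : ∀ x y : alternatingGroup (Fin 5), x * y = y * x := by
      intro x y
      apply hinj
      rw [map_mul, map_mul, mul_comm]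
    revert hcomm
    decide
  · rw [← MonoidHom.ker_eq_top_iff]
    exact h

theorem alt5_nontrivial : ∃ q : alternatingGroup (Fin 5), q ≠ 1 := exists_ne 1

end Pool.Agent.GCW
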