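import Pool.Agent.Lib.MP_63e749_al.FlagAct
import Pool.Agent.Lib.MP_63e749_al.Join
import Pool.Agent.Lib.MP_63e749_al.JoinPerf
import Pool.Agent.Lib.MP_63e749_al.Cover
import Pool.Agent.Lib.MP_63e749_al.NotFP
import Pool.Agent.Lib.MP_63e749_al.Coset
import Pool.Agent.Lib.MP_63e749_al.Poset

/-!
# Assembly
-/

set_option autoImplicit false

open Topology Set
open scoped Topology

namespace Pool.Agent.GCW

noncomputable section

variable {V : Type} (adj : V → V → Prop)

/-- The discrete `G`-set: a fixed point and the integers, translated by the height. -/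
def tAct (g : Raag adj) : Option ℤ → Option ℤ
  | none => none
  | some t => some (t + Multiplicative.toAdd (hgt adj g))

/-- The action on the vertices of the join. -/
def vAct (g : Raag adj) : CV adj ⊕ Option ℤ → CV adj ⊕ Option ℤ
  | Sum.inl x => Sum.inl ⟨x.1, g • x.2⟩
  | Sum.inr t => Sum.inr (tAct adj g t)

instance vMulAction : MulAction (Raag adj) (CV adj ⊕ Option ℤ) where
  smul := vAct adj
  one_smul := by
    rintro (x | (_ | t))
    · show Sum.inl _ = Sum.inl x
      rw [one_smul]
    · rfl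
    · show Sum.inr (some _) = Sum.inr (some t)
      simp
  mul_smul := by
    rintro g h (x | (_ | t))
    · show Sum.inl _ = Sum.inl _
      rw [mul_smul]
    · rfl
    · show Sum.inr (some _) = Sum.inr (some _)
      simp only [map_mul, toAdd_mul]
      congr 2
      ring

theorem smul_inl (g : Raag adj) (x : CV adj) :
    g • (Sum.inl x : CV adj ⊕ Option ℤ) = Sum.inl ⟨x.1, g • x.2⟩ := rfl

theorem smul_none (g : Raag adj) :
    g • (Sum.inr none : CV adj ⊕ Option ℤ) = Sum.inr none := rfl

theorem smul_some (g : Raag adj) (t : ℤ) :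
    g • (Sum.inr (some t) : CV adj ⊕ Option ℤ) =
      Sum.inr (some (t + Multiplicative.toAdd (hgt adj g))) := rfl

/-- The relation of the join. -/
abbrev RR : CV adj ⊕ Option ℤ → CV adj ⊕ Option ℤ → Prop := JR (cvRel adj) (Option ℤ)

theorem cvLe_smul (g : Raag adj) {x y : CV adj} (h : cvLe adj x y) :
    cvLe adj ⟨x.1, g • x.2⟩ ⟨y.1, g • y.2⟩ := by
  obtain ⟨h1, k, h2, h3⟩ := h
  refine ⟨h1, g * k, ?_, ?_⟩
  · show g • x.2 = _
    rw [h2]
    rfl
  · show g • y.2 = _
    rw [h3]
    rfl

theorem RR_smul (g : Raag adj) (u v : CV adj ⊕ Option ℤ) (h : RR adj u v) :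
    RR adj (g • u) (g • v) := by
  rcases u with x | t <;> rcases v with y | t'
  · rcases h with h | h
    · exact Or.inl (cvLe_smul adj g h)
    · exact Or.inr (cvLe_smul adj g h)
  · trivial
  · trivial
  · have : t = t' := h
    subst this
    show (_ : Option ℤ) = _
    rfl

/-- Elements mapping a face to itself fix its vertices. -/
theorem RR_fix (g : Raag adj) (s : Face (RR adj)) (h : ∀ v ∈ s.1, g • v ∈ s.1) :
    ∀ v ∈ s.1, g • v = v := by
  intro v hv
  have hgv := h v hv
  have hr := s.2.2 v hv (g • v) hgv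
  rcases v with x | t
  · rw [smul_inl] at hr ⊢
    have hr' : cvRel adj x ⟨x.1, g • x.2⟩ := hr
    have := cv_eq adj hr' rfl
    rw [← this]
  · have : t = tAct adj g t := hr
    show Sum.inr (tAct adj g t) = Sum.inr t
    rw [← this]

/-- The finite set of representatives of the vertices. -/
def V0 [Finite V] : Finset (CV adj ⊕ Option ℤ) :=
  Set.Finite.toFinset (s := (range fun σ : Clq adj => (Sum.inl ⟨σ, ((1 : Raag adj) :
    Raag adj ⧸ par adj (σ.1 : Set V))⟩ : CV adj ⊕ Option ℤ)) ∪ {Sum.inr none, Sum.inr (some 0)})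
    (by
      have : Finite (Clq adj) := by
        unfold Clq
        infer_instance
      exact (finite_range _).union (by simp))

theorem mem_V0 [Finite V] (u : CV adj ⊕ Option ℤ) : u ∈ V0 adj ↔
    (∃ σ : Clq adj, Sum.inl ⟨σ, ((1 : Raag adj) : Raag adj ⧸ par adj (σ.1 : Set V))⟩ = u) ∨
      u = Sum.inr none ∨ u = Sum.inr (some 0) := by
  simp only [V0, Set.Finite.mem_toFinset, mem_union, mem_range, mem_insert_iff,
    mem_singleton_iff]

theorem exists_translate [Finite V] [Nonempty V] (s : Face (RR adj)) :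
    ∃ g : Raag adj, ∀ v ∈ s.1, g • v ∈ V0 adj := by
  classical
  -- the part of `s` in the coset complex
  by_cases hne : ∃ x : CV adj, Sum.inl x ∈ s.1
  · set sW : Finset (CV adj) := s.1.preimage Sum.inl Sum.inl_injective.injOn with hsW
    have hmem : ∀ x, x ∈ sW ↔ Sum.inl x ∈ s.1 := fun x => by simp [hsW]
    obtain ⟨x0, hx0⟩ := hne
    obtain ⟨g, σ₀, hg⟩ := cv_translate adj sW ⟨x0, (hmem x0).mpr hx0⟩ (by
      intro x hx y hy
      exact s.2.2 _ ((hmem x).mp hx) _ ((hmem y).mp hy))
    obtain ⟨v, hv⟩ := σ₀.2.1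
    -- multiply by a power of `zz v` to move the integer to `0`
    obtain ⟨m, hm⟩ : ∃ m : ℤ, ∀ t : ℤ, Sum.inr (some t) ∈ s.1 →
        t + Multiplicative.toAdd (hgt adj g⁻¹) + m = 0 := by
      by_cases ht : ∃ t : ℤ, Sum.inr (some t) ∈ s.1
      · obtain ⟨t, ht⟩ := ht
        refine ⟨-(t + Multiplicative.toAdd (hgt adj g⁻¹)), fun t' ht' => ?_⟩
        have : (some t : Option ℤ) = some t' := s.2.2 _ ht _ ht'
        have : t = t' := by simpa using this
        subst this
        ring
      · exact ⟨0, fun t h => absurd ⟨t, h⟩ ht⟩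
    refine ⟨zz adj v ^ m * g⁻¹, fun u hu => ?_⟩
    rw [mem_V0]
    rcases u with x | (_ | t)
    · left
      refine ⟨x.1, ?_⟩
      obtain ⟨h1, h2⟩ := hg x ((hmem x).mpr hu)
      rw [smul_inl]
      congr 1
      have h3 : (zz adj v ^ m * g⁻¹) • x.2 = ((1 : Raag adj) : Raag adj ⧸ par adj (x.1.1 : Set V)) := by
        rw [h2]
        show ((zz adj v ^ m * g⁻¹ * g : Raag adj) : Raag adj ⧸ par adj (x.1.1 : Set V)) = _
        rw [inv_mul_cancel_right, QuotientGroup.eq]
        have h4 : zz adj v ∈ par adj (x.1.1 : Set V) :=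
          Subgroup.subset_closure ⟨v, by exact_mod_cast h1 hv, rfl⟩
        simpa using (par adj (x.1.1 : Set V)).inv_mem ((par adj (x.1.1 : Set V)).zpow_mem h4 m)
      rw [h3]
    · right
      left
      rfl
    · right
      right
      rw [smul_some]
      congr 2
      rw [map_mul, map_zpow, hgt_zz, toAdd_mul, toAdd_zpow, toAdd_ofAdd, ← hm t hu]
      simp
      ring
  · obtain ⟨u, hu⟩ := s.2.1
    rcases u with x | t
    · exact absurd ⟨x, hu⟩ hne
    · have hall : ∀ u' ∈ s.1, u' = Sum.inr t := by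
        intro u' hu'
        rcases u' with x | t'
        · exact absurd ⟨x, hu'⟩ hne
        · have : t' = t := s.2.2 _ hu' _ hu
          rw [this]
      rcases t with _ | t
      · refine ⟨1, fun u' hu' => ?_⟩
        rw [hall u' hu', smul_none, mem_V0]
        right
        left
        rfl
      · obtain ⟨v⟩ := ‹Nonempty V›
        refine ⟨zz adj v ^ (-t), fun u' hu' => ?_⟩
        rw [hall u' hu', smul_some, mem_V0]
        right
        right
        congr 2
        rw [map_zpow, hgt_zz, toAdd_zpow, toAdd_ofAdd]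
        simp

end

theorem main : ∃ (G : Type) (_ : Group G) (X : Type) (_ : TopologicalSpace X) (_ : T2Space X)
    (_ : CWComplex (univ : Set X)) (_ : MulAction G X),
    IsGCW G X ∧ TwoConnected X ∧ SkelCocompact G X 3 ∧
    (∀ e : Cell X 2, Group.FG (cellStab G e)) ∧
    (∀ e : Cell X 1, Group.IsFinitelyPresented (cellStab G e)) ∧
    Group.IsFinitelyPresented G ∧
    ∃ e : Cell X 0, ¬ Group.IsFinitelyPresented (cellStab G e) := by
  let Q := alternatingGroup (Fin 5)
  let adj : PQ Q → PQ Q → Prop := PQ.adj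
  have : Finite (PQ Q) := pq_finite Q
  have : Nonempty (PQ Q) := ⟨PQ.v 0⟩
  have : Nonempty (CV adj) := ⟨⟨⟨{PQ.v 0}, by simp, by
    intro u hu v hv
    simp only [Finset.coe_singleton, mem_singleton_iff] at hu hv
    left
    rw [hu, hv]⟩, ((1 : Raag adj) : Raag adj ⧸ _)⟩⟩
  have hsymm : ∀ u v, adj u v → adj v u := pq_symm Q
  have hirr : ∀ v, ¬ adj v v := pq_irr Q
  have hconn : ∀ u v, Relation.ReflTransGen adj u v := pq_connected Q
  have hH1 : H1Zero (fun u v : PQ Q => u = v ∨ adj u v) := pq_H1Zero Q alt5_perfect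
  have hcv := cv_H1Zero adj hsymm hirr hconn hH1
  have hcc := cv_connected adj hsymm hconn
  have hrefl : ∀ x, cvRel adj x x := by
    intro x
    left
    obtain ⟨g, hg⟩ := QuotientGroup.mk_surjective x.2
    exact ⟨subset_rfl, g, hg.symm, hg.symm⟩
  have hsy : ∀ x y, cvRel adj x y → cvRel adj y x := fun x y => Or.symm
  -- 2-connectedness
  have h2 : TwoConnected (FReal (RR adj)) :=
    twoConnected_of_cover (UU (cvRel adj) (Option ℤ)) (CC (cvRel adj) (Option ℤ))
      (isOpen_UU _ _) (iUnion_UU _ _) (CC_subset_UU _ _) (fun i j h => UU_inter _ _ h)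
      (contractible_UU _ _) (pathConnected_CC _ _ hrefl hsy hcc)
      (fun c B _ φ => perf_CC _ _ hrefl hsy hcc hcv c B φ)
  obtain ⟨C, A, hG, hco, hst, hst'⟩ := exists_action (RR adj) (RR_smul adj) (RR_fix adj) (V0 adj)
    (exists_translate adj)
  have hstab : ∀ (n : ℕ) (e : Cell (FReal (RR adj)) (n + 1)),
      Group.FG (cellStab (Raag adj) e) ∧ Group.IsFinitelyPresented (cellStab (Raag adj) e) := by
    intro n e
    obtain ⟨s, hs, he⟩ := hst _ e
    -- a coset vertex in `s`
    obtain ⟨x, hx⟩ : ∃ x : CV adj, Sum.inl x ∈ s.1 := by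
      by_contra hcon
      have : s.1.card ≤ 1 := by
        rw [Finset.card_le_one]
        intro a ha b hb
        rcases a with x | t
        · exact absurd ⟨x, ha⟩ hcon
        · rcases b with x | t'
          · exact absurd ⟨x, hb⟩ hcon
          · have : t = t' := s.2.2 _ ha _ hb
            rw [this]
      omega
    obtain ⟨g, hg⟩ := QuotientGroup.mk_surjective x.2
    apply fp_of_le_par adj x.1.1 x.1.2.2 g
    intro k hk
    have h1 := (he k).mp hk _ hx
    rw [smul_inl] at h1
    have h2 : k • x.2 = x.2 := by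
      have := Sum.inl_injective h1
      have h3 := congrArg (fun y : CV adj => y) this
      have h4 := (Sigma.mk.inj_iff.mp (show (⟨x.1, k • x.2⟩ : CV adj) = ⟨x.1, x.2⟩ from h3)).2
      exact eq_of_heq h4
    rw [← hg] at h2
    have h5 : ((k * g : Raag adj) : Raag adj ⧸ par adj (x.1.1 : Set (PQ Q))) = (g : _ ⧸ _) := h2
    have h6 := QuotientGroup.eq.mp h5.symm
    rwa [← mul_assoc] at h6
  refine ⟨Raag adj, inferInstance, FReal (RR adj), inferInstance, inferInstance, C, A, hG, h2,
    hco 3, fun e => (hstab 1 e).1, fun e => (hstab 0 e).2, raag_fp adj, ?_⟩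
  -- the vertex `0`
  obtain ⟨e, he⟩ := hst' 0 ⟨{Sum.inr (some 0)}, by simp, by
    intro u hu v hv
    simp only [Finset.mem_singleton] at hu hv
    rw [hu, hv]
    rfl⟩ (by simp)
  refine ⟨e, ?_⟩
  have hker : cellStab (Raag adj) e = (hgt adj).ker := by
    ext g
    rw [he g, MonoidHom.mem_ker]
    simp only [Finset.mem_singleton, forall_eq]
    rw [smul_some]
    constructor
    · intro h
      have h1 := Option.some_injective _ (Sum.inr_injective h)
      have h2 : Multiplicative.toAdd (hgt adj g) = 0 := by linarith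
      exact h2
    · intro h
      rw [h]
      simp
  rw [hker]
  obtain ⟨q, hq⟩ := alt5_nontrivial
  obtain ⟨a, ha, n, p, hp0, hp, hhol⟩ := pq_cocycle Q q hq
  exact ker_hgt_not_fp adj hsymm hirr hconn a ha n p hp0 hp hhol

end Pool.Agent.GCW
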