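import Mathlib

/-!
# Geometric realization of a flag complex (weak topology)

`R : V → V → Prop` is a relation on the vertex set (it will be reflexive and symmetric); the faces
are the nonempty finite sets of pairwise related vertices. `FReal R` is the set of points
`x : V → ℝ` (barycentric coordinates) supported on a face; its topology is the final topology with
respect to the inclusions of the closed simplices.
-/

set_option autoImplicit false

open Topology Set
open scoped Topology

namespace Pool.Agent.GCW

noncomputable section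

variable {V : Type} (R : V → V → Prop)

/-- The faces: nonempty finite sets of pairwise related vertices. -/
def Face : Type := {s : Finset V // s.Nonempty ∧ ∀ u ∈ s, ∀ v ∈ s, R u v}

/-- The geometric realization. -/
def FReal : Type :=
  {x : V → ℝ // (∀ v, 0 ≤ x v) ∧ ∃ s : Face R, (∀ v, v ∉ s.1 → x v = 0) ∧ ∑ v ∈ s.1, x v = 1}

variable {R}

open Classical in
/-- The inclusion of a closed simplex. -/
def incl (s : Face R) (x : stdSimplex ℝ s.1) : FReal R :=
  ⟨fun v => if h : v ∈ s.1 then x.1 ⟨v, h⟩ else 0, by
    refine ⟨fun v => ?_, s, fun v hv => dif_neg hv, ?_⟩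
    · by_cases h : v ∈ s.1
      · simp only [h, dif_pos]
        exact x.2.1 _
      · simp only [h, dif_neg, not_false_iff]
        exact le_refl _
    · rw [← Finset.sum_coe_sort]
      have : ∀ i : s.1, (if h : (i : V) ∈ s.1 then x.1 ⟨i, h⟩ else 0) = x.1 i := fun i => by
        rw [dif_pos i.2]
      simp only [this]
      exact x.2.2⟩

/-- The weak topology. -/
instance : TopologicalSpace (FReal R) :=
  ⨆ s : Face R, TopologicalSpace.coinduced (incl s) inferInstance

theorem continuous_incl (s : Face R) : Continuous (incl s) :=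
  continuous_iff_coinduced_le.mpr (le_iSup
    (fun s : Face R => TopologicalSpace.coinduced (incl s) inferInstance) s)

theorem freal_continuous_iff {Y : Type*} [TopologicalSpace Y] {f : FReal R → Y} :
    Continuous f ↔ ∀ s : Face R, Continuous (f ∘ incl s) := by
  constructor
  · exact fun h s => h.comp (continuous_incl s)
  · intro h
    rw [continuous_iSup_dom]
    intro s
    rw [continuous_coinduced_dom]
    exact h s

theorem freal_isOpen_iff {A : Set (FReal R)} :
    IsOpen A ↔ ∀ s : Face R, IsOpen (incl s ⁻¹' A) := by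
  show IsOpen[⨆ s : Face R, TopologicalSpace.coinduced (incl s) inferInstance] A ↔ _
  rw [isOpen_iSup_iff]
  rfl

theorem freal_isClosed_iff {A : Set (FReal R)} :
    IsClosed A ↔ ∀ s : Face R, IsClosed (incl s ⁻¹' A) := by
  rw [← isOpen_compl_iff, freal_isOpen_iff]
  refine forall_congr' fun s => ?_
  rw [← isOpen_compl_iff, preimage_compl]

@[ext]
theorem FReal.ext {x y : FReal R} (h : ∀ v, x.1 v = y.1 v) : x = y := Subtype.ext (funext h)

theorem incl_apply_mem {s : Face R} (x : stdSimplex ℝ s.1) {v : V} (h : v ∈ s.1) :
    (incl s x).1 v = x.1 ⟨v, h⟩ := dif_pos h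

theorem incl_apply_notMem {s : Face R} (x : stdSimplex ℝ s.1) {v : V} (h : v ∉ s.1) :
    (incl s x).1 v = 0 := dif_neg h

/-- The support of a point, as a face. -/
theorem exists_supp (x : FReal R) : ∃ s : Face R, ∀ v, v ∈ s.1 ↔ x.1 v ≠ 0 := by
  classical
  obtain ⟨x, h0, s, hs, hsum⟩ := x
  refine ⟨⟨s.1.filter fun v => x v ≠ 0, ?_, ?_⟩, ?_⟩
  · by_contra hcon
    rw [Finset.not_nonempty_iff_eq_empty] at hcon
    have : ∑ v ∈ s.1, x v = 0 := by
      apply Finset.sum_eq_zero
      intro v hv
      by_contra hne
      have : v ∈ s.1.filter fun v => x v ≠ 0 := Finset.mem_filter.mpr ⟨hv, hne⟩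
      rw [hcon] at this
      simp at this
    rw [this] at hsum
    norm_num at hsum
  · intro u hu v hv
    exact s.2.2 u (Finset.mem_filter.mp hu).1 v (Finset.mem_filter.mp hv).1
  · intro v
    simp only [Finset.mem_filter]
    constructor
    · exact fun h => h.2
    · intro h
      refine ⟨?_, h⟩
      by_contra hv
      exact h (hs v hv)

theorem sum_eq_one {s : Face R} {x : FReal R} (h : ∀ v, v ∉ s.1 → x.1 v = 0) :
    ∑ v ∈ s.1, x.1 v = 1 := by
  classical
  obtain ⟨x, h0, t, ht, hsum⟩ := x
  have h1 : ∑ v ∈ s.1 ∪ t.1, x v = ∑ v ∈ s.1, x v := by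
    symm
    apply Finset.sum_subset Finset.subset_union_left
    intro v _ hv
    exact h v hv
  have h2 : ∑ v ∈ s.1 ∪ t.1, x v = ∑ v ∈ t.1, x v := by
    symm
    apply Finset.sum_subset Finset.subset_union_right
    intro v _ hv
    exact ht v hv
  show ∑ v ∈ s.1, x v = 1
  rw [← h1, h2, hsum]

/-- A point lies in the image of `incl s` iff it vanishes outside of `s`. -/
theorem mem_range_incl {s : Face R} {x : FReal R} :
    x ∈ range (incl s) ↔ ∀ v, v ∉ s.1 → x.1 v = 0 := by
  constructor
  · rintro ⟨y, rfl⟩ v hv
    exact incl_apply_notMem y hv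
  · intro h
    refine ⟨⟨fun v => x.1 v, fun v => x.2.1 v, ?_⟩, ?_⟩
    · rw [Finset.sum_coe_sort s.1 (fun v => x.1 v)]
      exact sum_eq_one h
    · ext v
      by_cases hv : v ∈ s.1
      · rw [incl_apply_mem _ hv]
      · rw [incl_apply_notMem _ hv, h v hv]

theorem continuous_coord (v : V) : Continuous fun x : FReal R => x.1 v := by
  rw [freal_continuous_iff]
  intro s
  by_cases hv : v ∈ s.1
  · have : (fun x : FReal R => x.1 v) ∘ incl s = fun y => y.1 ⟨v, hv⟩ := by
      funext y
      exact incl_apply_mem y hv
    rw [this]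
    exact (continuous_apply _).comp continuous_subtype_val
  · have : (fun x : FReal R => x.1 v) ∘ incl s = fun y => 0 := by
      funext y
      exact incl_apply_notMem y hv
    rw [this]
    exact continuous_const

instance : T2Space (FReal R) := by
  have hc : Continuous fun x : FReal R => x.1 := continuous_pi fun v => continuous_coord v
  exact T2Space.of_injective_continuous Subtype.val_injective hc

theorem incl_injective (s : Face R) : Function.Injective (incl s) := by
  intro x y h
  apply Subtype.ext
  funext v
  have := congrArg (fun z : FReal R => z.1 v.1) h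
  simpa only [incl_apply_mem _ v.2] using this

theorem isClosedEmbedding_incl (s : Face R) : IsClosedEmbedding (incl s) :=
  (continuous_incl s).isClosedEmbedding (incl_injective s)

/-- A map with values in one closed simplex is continuous if its coordinates are. -/
theorem continuousOn_of_simplex {W : Type*} [TopologicalSpace W] {g : W → FReal R} {A : Set W}
    (s : Face R) (hs : ∀ w ∈ A, ∀ v, v ∉ s.1 → (g w).1 v = 0)
    (hc : ∀ v ∈ s.1, ContinuousOn (fun w => (g w).1 v) A) : ContinuousOn g A := by
  rw [continuousOn_iff_continuous_domRestrict]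
  -- factor through the closed simplex
  let k : A → stdSimplex ℝ s.1 := fun w => ⟨fun v => (g w.1).1 v, fun v => (g w.1).2.1 v, by
    rw [Finset.sum_coe_sort s.1 (fun v => (g w.1).1 v)]
    exact sum_eq_one (hs w.1 w.2)⟩
  have hk : Continuous k := by
    apply Continuous.subtype_mk
    apply continuous_pi
    intro v
    have := continuousOn_iff_continuous_domRestrict.mp (hc v.1 v.2)
    exact this
  have : A.domRestrict g = incl s ∘ k := by
    funext w
    ext v
    by_cases hv : v ∈ s.1
    · rw [Function.comp_apply, incl_apply_mem _ hv]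
      rfl
    · rw [Function.comp_apply, incl_apply_notMem _ hv]
      exact hs w.1 w.2 v hv
  rw [this]
  exact (continuous_incl s).comp hk

/-- The quotient map from the disjoint union of the open parts of the closed simplices. -/
theorem isQuotientMap_sigma {O : Set (FReal R)} (hO : IsOpen O) :
    IsQuotientMap (fun p : Σ s : Face R, {y : stdSimplex ℝ s.1 // incl s y ∈ O} =>
      (⟨incl p.1 p.2.1, p.2.2⟩ : O)) := by
  rw [isQuotientMap_iff_isClosed]
  constructor
  · rintro ⟨x, hx⟩
    obtain ⟨s, hs⟩ := exists_supp x
    have : x ∈ range (incl s) := mem_range_incl.mpr fun v hv => by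
      by_contra h
      exact hv ((hs v).mpr h)
    obtain ⟨y, rfl⟩ := this
    exact ⟨⟨s, ⟨y, hx⟩⟩, rfl⟩
  · intro A
    rw [← isOpen_compl_iff, ← isOpen_compl_iff, ← preimage_compl]
    generalize Aᶜ = B
    rw [hO.isOpenEmbedding_subtypeVal.isOpen_iff_image_isOpen, freal_isOpen_iff,
      isOpen_sigma_iff]
    refine forall_congr' fun s => ?_
    have h1 : IsOpen {y : stdSimplex ℝ s.1 | incl s y ∈ O} := hO.preimage (continuous_incl s)
    rw [h1.isOpenEmbedding_subtypeVal.isOpen_iff_image_isOpen]
    have : (incl s ⁻¹' (Subtype.val '' B)) = Subtype.val ''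
        ((fun y : {y : stdSimplex ℝ s.1 // incl s y ∈ O} => (⟨incl s y.1, y.2⟩ : O)) ⁻¹' B) := by
      ext y
      constructor
      · rintro ⟨b, hb, hby⟩
        have hy : incl s y ∈ O := hby ▸ b.2
        refine ⟨⟨y, hy⟩, ?_, rfl⟩
        show (⟨incl s y, hy⟩ : O) ∈ B
        have : (⟨incl s y, hy⟩ : O) = b := Subtype.ext hby.symm
        rw [this]
        exact hb
      · rintro ⟨⟨y', hy'⟩, hb, rfl⟩
        exact ⟨⟨incl s y', hy'⟩, hb, rfl⟩
    rw [this]
    rfl

/-- Continuity of a map defined on the product of an open subset and a locally compact space. -/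
theorem freal_continuousOn_prod {Y Z : Type*} [TopologicalSpace Y] [TopologicalSpace Z]
    [LocallyCompactSpace Z] {O : Set (FReal R)} (hO : IsOpen O) {f : FReal R × Z → Y}
    (h : ∀ s : Face R, ContinuousOn (fun p : stdSimplex ℝ s.1 × Z => f (incl s p.1, p.2))
      {p | incl s p.1 ∈ O}) :
    ContinuousOn f (O ×ˢ (univ : Set Z)) := by
  have hg : Continuous fun p : O × Z => f ((p.1 : FReal R), p.2) := by
    apply (isQuotientMap_sigma hO).continuous_lift_prod_left
    rw [← (Homeomorph.sigmaProdDistrib).symm.comp_continuous_iff', continuous_sigma_iff]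
    intro s
    have h1 := h s
    have h2 : Continuous fun p : {y : stdSimplex ℝ s.1 // incl s y ∈ O} × Z =>
        ((p.1 : stdSimplex ℝ s.1), p.2) := by fun_prop
    exact h1.comp_continuous h2 fun p => p.1.2
  rw [continuousOn_iff_continuous_domRestrict]
  have h3 : Continuous fun p : (O ×ˢ (univ : Set Z) : Set (FReal R × Z)) =>
      ((⟨p.1.1, p.2.1⟩ : O), p.1.2) := by fun_prop
  exact hg.comp h3

/-- Continuity of a map defined on an open subset. -/
theorem freal_continuousOn {Y : Type*} [TopologicalSpace Y] {O : Set (FReal R)} (hO : IsOpen O)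
    {f : FReal R → Y}
    (h : ∀ s : Face R, ContinuousOn (fun p => f (incl s p)) {p | incl s p ∈ O}) :
    ContinuousOn f O := by
  have h1 := freal_continuousOn_prod (Z := Unit) hO (f := fun p => f p.1) (fun s => by
    exact (h s).comp continuous_fst.continuousOn fun p hp => hp)
  have h2 : ContinuousOn (fun x : FReal R => (x, ())) O := by fun_prop
  exact h1.comp h2 fun x hx => ⟨hx, trivial⟩

end

end Pool.Agent.GCW
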