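import Pool.Agent.Lib.MP_63e749_al.FlagCW

/-!
# JOB ACT: group actions on the realization of a flag complex

`G` acts on the vertices preserving `R`; the action on `FReal R` is `(g • x) v = x (g⁻¹ • v)`. It is
continuous (`freal_continuous_iff`, `continuousOn_of_simplex`), maps `oSimplex s` to
`oSimplex (g • s)`. Since `g • s = s` implies that `g` fixes the vertices of `s`, the stabiliser of the
cell `s` is the pointwise stabiliser of `s` and fixes the cell pointwise. Cocompactness of the
skeleta: the image of the union of the (finitely many) closed simplices with vertices in `V0` is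
compact, intersected with the closed `G`-invariant skeleton (a union of open cells, permuted
by `G`).
-/

set_option autoImplicit false

open Topology Set
open scoped Topology Pointwise

namespace Pool.Agent.GCW

noncomputable section

variable {G V : Type} [Group G] [MulAction G V] {R : V → V → Prop}

open Classical in
/-- The translate of a face. -/
def FlagActFace (hR : ∀ (g : G) (u v : V), R u v → R (g • u) (g • v)) (g : G) (s : Face R) :
    Face R :=
  ⟨s.1.image (fun v => g • v), s.2.1.image _, by
    intro u hu v hv
    rw [Finset.mem_image] at hu hv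
    obtain ⟨u, hu, rfl⟩ := hu
    obtain ⟨v, hv, rfl⟩ := hv
    exact hR g u v (s.2.2 u hu v hv)⟩

theorem FlagAct_mem_face (hR : ∀ (g : G) (u v : V), R u v → R (g • u) (g • v)) (g : G)
    (s : Face R) (v : V) : v ∈ (FlagActFace hR g s).1 ↔ g⁻¹ • v ∈ s.1 := by
  classical
  simp only [FlagActFace, Finset.mem_image]
  constructor
  · rintro ⟨u, hu, rfl⟩
    simpa using hu
  · intro h
    exact ⟨_, h, by simp⟩

theorem FlagAct_card (hR : ∀ (g : G) (u v : V), R u v → R (g • u) (g • v)) (g : G)
    (s : Face R) : (FlagActFace hR g s).1.card = s.1.card := by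
  classical
  simp only [FlagActFace]
  exact Finset.card_image_of_injective _ (MulAction.injective g)

/-- The action on the realization. -/
@[instance_reducible]
def FlagActInst (hR : ∀ (g : G) (u v : V), R u v → R (g • u) (g • v)) :
    MulAction G (FReal R) where
  smul g x := ⟨fun v => x.1 (g⁻¹ • v), fun v => x.2.1 _, by
    classical
    obtain ⟨s, hs, hs1⟩ := x.2.2
    refine ⟨FlagActFace hR g s, fun v hv => ?_, ?_⟩
    · rw [FlagAct_mem_face] at hv
      exact hs _ hv
    · simp only [FlagActFace]
      rw [Finset.sum_image (fun a _ b _ h => MulAction.injective g h)]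
      simpa using hs1⟩
  one_smul x := by
    apply FReal.ext
    intro v
    change x.1 ((1 : G)⁻¹ • v) = x.1 v
    simp
  mul_smul g k x := by
    apply FReal.ext
    intro v
    change x.1 ((g * k)⁻¹ • v) = x.1 (k⁻¹ • g⁻¹ • v)
    rw [mul_inv_rev, mul_smul]

theorem exists_action {G V : Type} [Group G] [MulAction G V] (R : V → V → Prop)
    (hR : ∀ (g : G) (u v : V), R u v → R (g • u) (g • v))
    (hfix : ∀ (g : G) (s : Face R), (∀ v ∈ s.1, g • v ∈ s.1) → ∀ v ∈ s.1, g • v = v)
    (V0 : Finset V) (hV0 : ∀ s : Face R, ∃ g : G, ∀ v ∈ s.1, g • v ∈ V0) :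
    ∃ (_ : CWComplex (univ : Set (FReal R))) (_ : MulAction G (FReal R)),
      IsGCW G (FReal R) ∧ (∀ n : ℕ, SkelCocompact G (FReal R) n) ∧
      (∀ (n : ℕ) (e : Cell (FReal R) n), ∃ s : Face R, s.1.card = n + 1 ∧
        ∀ g : G, g ∈ cellStab G e ↔ ∀ v ∈ s.1, g • v = v) ∧
      (∀ (n : ℕ) (s : Face R), s.1.card = n + 1 → ∃ e : Cell (FReal R) n,
        ∀ g : G, g ∈ cellStab G e ↔ ∀ v ∈ s.1, g • v = v) := by
  classical
  obtain ⟨C, hC1, hC2⟩ := exists_cw R
  let := C
  let A : MulAction G (FReal R) := FlagActInst hR
  have hA : ∀ (g : G) (x : FReal R) (v : V), (g • x).1 v = x.1 (g⁻¹ • v) := fun g x v => rfl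
  have hos : ∀ (g : G) (s : Face R), g • oSimplex s = oSimplex (FlagActFace hR g s) := by
    intro g s
    ext x
    rw [Set.mem_smul_set_iff_inv_smul_mem]
    constructor
    · intro h v
      rw [FlagAct_mem_face, h, hA]
      simp
    · intro h v
      rw [hA, ← h, FlagAct_mem_face]
      simp
  have hinj : ∀ (s t : Face R) (x : FReal R), x ∈ oSimplex s → x ∈ oSimplex t → s = t := by
    intro s t x hs ht
    apply Subtype.ext
    ext v
    rw [hs v, ht v]
  have hne : ∀ (n : ℕ) (s : Face R), s.1.card = n + 1 → (oSimplex s).Nonempty := by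
    intro n s hs
    obtain ⟨e, he⟩ := hC2 n s hs
    rw [← he]
    exact RelCWComplex.openCell_nonempty n e
  have hst : ∀ (n : ℕ) (s : Face R), s.1.card = n + 1 → ∀ g : G,
      (g • oSimplex s = oSimplex s ↔ ∀ v ∈ s.1, g • v = v) := by
    intro n s hs g
    rw [hos]
    constructor
    · intro h
      obtain ⟨x, hx⟩ := hne n s hs
      have h1 : FlagActFace hR g s = s := by
        refine hinj _ _ x ?_ hx
        rw [h]; exact hx
      refine hfix g s ?_
      intro v hv
      rw [← h1, FlagAct_mem_face]
      simpa using hv
    · intro h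
      have h1 : FlagActFace hR g s = s := by
        apply Subtype.ext
        ext v
        rw [FlagAct_mem_face]
        constructor
        · intro hv
          have := h _ hv
          rw [smul_inv_smul] at this
          rw [this]; exact hv
        · intro hv
          have := h _ hv
          rw [← this, inv_smul_smul]; exact hv
      rw [h1]
  have hcont : ∀ g : G, Continuous fun x : FReal R => g • x := by
    intro g
    rw [freal_continuous_iff]
    intro s
    rw [← continuousOn_univ]
    refine continuousOn_of_simplex (FlagActFace hR g s) ?_ ?_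
    · intro p _ v hv
      rw [FlagAct_mem_face] at hv
      change (g • incl s p).1 v = 0
      rw [hA]
      exact mem_range_incl.1 ⟨p, rfl⟩ _ hv
    · intro v _
      refine Continuous.continuousOn ?_
      exact (continuous_coord (g⁻¹ • v)).comp (continuous_incl s)
  have hgcw : IsGCW G (FReal R) := by
    refine ⟨hcont, ?_, ?_⟩
    · intro g n e
      obtain ⟨s, hs, he⟩ := hC1 n e
      obtain ⟨e', he'⟩ := hC2 n (FlagActFace hR g s) (by rw [FlagAct_card, hs])
      refine ⟨e', ?_⟩
      rw [he', he, hos]
    · intro g n e
      obtain ⟨s, hs, he⟩ := hC1 n e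
      rw [he, hst n s hs]
      intro h x hx
      apply FReal.ext
      intro v
      rw [hA]
      by_cases hv : v ∈ s.1
      · have h1 := h v hv
        have h2 : g⁻¹ • v = v := by
          rw [inv_smul_eq_iff, h1]
        rw [h2]
      · have h1 : g⁻¹ • v ∉ s.1 := by
          intro h2
          have h3 := h _ h2
          rw [smul_inv_smul] at h3
          apply hv
          rw [h3]
          exact h2
        have h4 : x.1 v = 0 := by
          by_contra h5
          exact hv ((hx v).2 h5)
        have h6 : x.1 (g⁻¹ • v) = 0 := by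
          by_contra h5
          exact h1 ((hx _).2 h5)
        rw [h4, h6]
  refine ⟨C, A, hgcw, ?_, ?_, ?_⟩
  · intro n
    set S : Set (FReal R) := (CWComplex.skeleton (univ : Set (FReal R)) (n : ℕ∞) :
      Set (FReal R)) with hS
    have hSinv : ∀ (g : G) (x : FReal R), x ∈ S → g • x ∈ S := by
      intro g x hx
      rw [hS, SetLike.mem_coe, CWComplex.mem_skeleton_iff] at hx ⊢
      obtain ⟨m, hm, e, hxe⟩ := hx
      obtain ⟨e', he'⟩ := hgcw.perm g m e
      refine ⟨m, hm, e', ?_⟩
      have h1 : g • x ∈ g • oCell e := Set.smul_mem_smul_set hxe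
      rw [he'] at h1
      exact h1
    have hSc : IsClosed S := RelCWComplex.Subcomplex.closed _
    have hfin : {s : Face R | s.1 ⊆ V0}.Finite := by
      refine Set.Finite.of_finite_image (f := fun t => t.1) ?_ ?_
      · refine (V0.powerset.finite_toSet).subset ?_
        rintro _ ⟨t, ht, rfl⟩
        simpa using ht
      · intro t _ t' _ h
        exact Subtype.ext h
    have hK : IsCompact (⋃ s ∈ {s : Face R | s.1 ⊆ V0}, range (incl s)) :=
      hfin.isCompact_biUnion fun s _ => isCompact_range (continuous_incl s)
    have hK' : IsCompact ((↑) ⁻¹' (⋃ s ∈ {s : Face R | s.1 ⊆ V0}, range (incl s)) : Set S) := by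
      rw [Subtype.isCompact_iff, Subtype.image_preimage_coe]
      exact hK.inter_left hSc
    refine ⟨?_⟩
    have hq : Continuous (Quotient.mk (orbitSetoid G S)) := continuous_quotient_mk'
    have huniv : (univ : Set (Quotient (orbitSetoid G S))) = Quotient.mk (orbitSetoid G S) ''
        ((↑) ⁻¹' (⋃ s ∈ {s : Face R | s.1 ⊆ V0}, range (incl s)) : Set S) := by
      symm
      rw [eq_univ_iff_forall]
      intro q
      induction q using Quotient.inductionOn with
      | h x =>
        obtain ⟨x, hx⟩ := x
        obtain ⟨s, hs⟩ := exists_supp x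
        obtain ⟨g, hg⟩ := hV0 s
        refine ⟨⟨g • x, hSinv g x hx⟩, ?_, ?_⟩
        · simp only [mem_preimage, mem_iUnion]
          refine ⟨FlagActFace hR g s, ?_, ?_⟩
          · intro v hv
            rw [FlagAct_mem_face] at hv
            have := hg _ hv
            rwa [smul_inv_smul] at this
          · rw [mem_range_incl]
            intro v hv
            rw [FlagAct_mem_face, hs] at hv
            rw [hA]
            exact not_not.1 hv
        · apply Quotient.sound
          exact ⟨g⁻¹, by simp⟩
    change IsCompact (univ : Set (Quotient (orbitSetoid G S)))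
    rw [huniv]
    exact hK'.image hq
  · intro n e
    obtain ⟨s, hs, he⟩ := hC1 n e
    refine ⟨s, hs, fun g => ?_⟩
    rw [← hst n s hs g, ← he]
    exact MulAction.mem_stabilizer_iff
  · intro n s hs
    obtain ⟨e, he⟩ := hC2 n s hs
    refine ⟨e, fun g => ?_⟩
    rw [← hst n s hs g, ← he]
    exact MulAction.mem_stabilizer_iff

end

end Pool.Agent.GCW
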