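import Pool.Agent.Lib.MP_63e749_al.Defs
import Pool.Agent.Lib.MP_63e749_al.Flag

/-!
# JOB CW: the CW structure of the realization of a flag complex

`Cell n` is the type of faces with `n + 1` vertices. The characteristic map of a face `s` is
`incl s` composed with a homeomorphism of `Fin n → ℝ` carrying the closed unit ball (sup norm) onto
`{y | 0 ≤ y i, ∑ y i ≤ 1}` (from `exists_homeomorph_image_interior_closure_frontier_eq_unitBall`)
followed by `y ↦ (1 - ∑ y i, y)` and a bijection `s ≃ Fin (n + 1)`. `closed'` is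
`freal_isClosed_iff`; the boundary of a cell is covered by the closed cells of the proper faces;
continuity of the inverse: `isClosedEmbedding_incl`.
-/

set_option autoImplicit false

open Topology Set
open scoped Topology

namespace Pool.Agent.GCW

noncomputable section

variable {V : Type} {R : V → V → Prop}

/-- The open simplex of a face. -/
def oSimplex (s : Face R) : Set (FReal R) := {x | ∀ v, v ∈ s.1 ↔ x.1 v ≠ 0}

/-! ### The corner simplex -/

/-- The corner simplex. -/
def FlagCWcorner (n : ℕ) : Set (Fin n → ℝ) := {y | (∀ i, 0 ≤ y i) ∧ ∑ i, y i ≤ 1}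

/-- The open corner simplex. -/
def FlagCWocorner (n : ℕ) : Set (Fin n → ℝ) := {y | (∀ i, 0 < y i) ∧ ∑ i, y i < 1}

theorem FlagCW_closed (n : ℕ) : IsClosed (FlagCWcorner n) := by
  have h : FlagCWcorner n = (⋂ i, {y | 0 ≤ y i}) ∩ {y | ∑ i, y i ≤ 1} := by
    ext y; simp [FlagCWcorner]
  rw [h]
  refine IsClosed.inter (isClosed_iInter fun i => ?_) ?_
  · exact isClosed_le continuous_const (continuous_apply i)
  · exact isClosed_le (continuous_finsetSum _ fun i _ => continuous_apply i) continuous_const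

theorem FlagCW_open (n : ℕ) : IsOpen (FlagCWocorner n) := by
  have h : FlagCWocorner n = (⋂ i, {y | 0 < y i}) ∩ {y | ∑ i, y i < 1} := by
    ext y; simp [FlagCWocorner]
  rw [h]
  refine IsOpen.inter (isOpen_iInter_of_finite fun i => ?_) ?_
  · exact isOpen_lt continuous_const (continuous_apply i)
  · exact isOpen_lt (continuous_finsetSum _ fun i _ => continuous_apply i) continuous_const

theorem FlagCW_interior (n : ℕ) : interior (FlagCWcorner n) = FlagCWocorner n := by
  apply subset_antisymm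
  · intro y hy
    rw [mem_interior_iff_mem_nhds, Metric.mem_nhds_iff] at hy
    obtain ⟨ε, hε, hy⟩ := hy
    have h1 : y - (fun _ => ε / 2) ∈ FlagCWcorner n := by
      apply hy
      rw [Metric.mem_ball, dist_pi_lt_iff hε]
      intro i
      simp only [Pi.sub_apply, Real.dist_eq]
      rw [abs_lt]
      constructor <;> linarith
    have h2 : y + (fun _ => ε / 2) ∈ FlagCWcorner n := by
      apply hy
      rw [Metric.mem_ball, dist_pi_lt_iff hε]
      intro i
      simp only [Pi.add_apply, Real.dist_eq]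
      rw [abs_lt]
      constructor <;> linarith
    refine ⟨fun i => ?_, ?_⟩
    · have := h1.1 i
      simp only [Pi.sub_apply] at this
      linarith
    · have h3 := h2.2
      simp only [Pi.add_apply, Finset.sum_add_distrib, Finset.sum_const, Finset.card_univ,
        Fintype.card_fin, nsmul_eq_mul] at h3
      rcases Nat.eq_zero_or_pos n with rfl | hn
      · simp
      · have : (0 : ℝ) < n := by exact_mod_cast hn
        have : 0 < (n : ℝ) * (ε / 2) := by positivity
        linarith
  · apply interior_maximal _ (FlagCW_open n)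
    intro y hy
    exact ⟨fun i => (hy.1 i).le, hy.2.le⟩

theorem FlagCW_convex (n : ℕ) : Convex ℝ (FlagCWcorner n) := by
  intro x hx y hy a b ha hb hab
  refine ⟨fun i => ?_, ?_⟩
  · have h1 := hx.1 i
    have h2 := hy.1 i
    simp only [Pi.add_apply, Pi.smul_apply, smul_eq_mul]
    positivity
  · simp only [Pi.add_apply, Pi.smul_apply, smul_eq_mul, Finset.sum_add_distrib, ← Finset.mul_sum]
    calc a * ∑ i, x i + b * ∑ i, y i ≤ a * 1 + b * 1 :=
        add_le_add (mul_le_mul_of_nonneg_left hx.2 ha) (mul_le_mul_of_nonneg_left hy.2 hb)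
      _ = 1 := by linarith

theorem FlagCW_bounded (n : ℕ) : Bornology.IsBounded (FlagCWcorner n) := by
  refine (Metric.isBounded_closedBall (x := (0 : Fin n → ℝ)) (r := 1)).subset ?_
  intro y hy
  rw [mem_closedBall_zero_iff, pi_norm_le_iff_of_nonneg zero_le_one]
  intro i
  rw [Real.norm_eq_abs, abs_of_nonneg (hy.1 i)]
  exact (Finset.single_le_sum (fun j _ => hy.1 j) (Finset.mem_univ i)).trans hy.2

theorem FlagCW_nonempty (n : ℕ) : (interior (FlagCWcorner n)).Nonempty := by
  rw [FlagCW_interior]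
  refine ⟨fun _ => 1 / ((n : ℝ) + 1), fun i => by positivity, ?_⟩
  simp only [Finset.sum_const, Finset.card_univ, Fintype.card_fin, nsmul_eq_mul]
  have : (0 : ℝ) < n + 1 := by positivity
  rw [mul_one_div, div_lt_one this]
  linarith

/-- Parametrization of the standard simplex by the closed unit ball. -/
theorem FlagCW_param (n : ℕ) : ∃ (φ : (Fin n → ℝ) → (Fin (n + 1) → ℝ))
    (ψ : (Fin (n + 1) → ℝ) → (Fin n → ℝ)), Continuous φ ∧ Continuous ψ ∧
    (∀ y ∈ Metric.closedBall (0 : Fin n → ℝ) 1, (∀ i, 0 ≤ φ y i) ∧ ∑ i, φ y i = 1 ∧ ψ (φ y) = y) ∧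
    (∀ x : Fin (n + 1) → ℝ, (∀ i, 0 ≤ x i) → ∑ i, x i = 1 →
      ψ x ∈ Metric.closedBall (0 : Fin n → ℝ) 1 ∧ φ (ψ x) = x) ∧
    (∀ y ∈ Metric.closedBall (0 : Fin n → ℝ) 1,
      (y ∈ Metric.ball (0 : Fin n → ℝ) 1 ↔ ∀ i, 0 < φ y i)) := by
  obtain ⟨h, hi, hc, -⟩ := exists_homeomorph_image_interior_closure_frontier_eq_unitBall
    (FlagCW_convex n) (FlagCW_nonempty n) (FlagCW_bounded n)
  rw [FlagCW_interior] at hi
  rw [(FlagCW_closed n).closure_eq] at hc
  have hc' : ∀ y, y ∈ Metric.closedBall (0 : Fin n → ℝ) 1 ↔ h.symm y ∈ FlagCWcorner n := by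
    intro y
    rw [← hc]
    constructor
    · rintro ⟨x, hx, rfl⟩
      simpa using hx
    · intro hy
      exact ⟨_, hy, by simp⟩
  have hi' : ∀ y, y ∈ Metric.ball (0 : Fin n → ℝ) 1 ↔ h.symm y ∈ FlagCWocorner n := by
    intro y
    rw [← hi]
    constructor
    · rintro ⟨x, hx, rfl⟩
      simpa using hx
    · intro hy
      exact ⟨_, hy, by simp⟩
  refine ⟨fun y => Fin.cons (1 - ∑ i, h.symm y i) (h.symm y), fun x => h (Fin.tail x), ?_, ?_,
    ?_, ?_, ?_⟩
  · refine continuous_pi fun i => ?_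
    refine Fin.cases ?_ (fun j => ?_) i
    · simp only [Fin.cons_zero]
      refine continuous_const.sub (continuous_finsetSum _ fun i _ => ?_)
      exact (continuous_apply i).comp h.symm.continuous
    · simp only [Fin.cons_succ]
      exact (continuous_apply j).comp h.symm.continuous
  · refine h.continuous.comp (continuous_pi fun i => ?_)
    exact continuous_apply (Fin.succ i)
  · intro y hy
    rw [hc'] at hy
    refine ⟨fun i => ?_, ?_, ?_⟩
    · refine Fin.cases ?_ (fun j => ?_) i
      · simp only [Fin.cons_zero]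
        linarith [hy.2]
      · simp only [Fin.cons_succ]
        exact hy.1 j
    · rw [Fin.sum_univ_succ]
      simp
    · simp
  · intro x hx0 hx1
    rw [Fin.sum_univ_succ] at hx1
    have hT : Fin.tail x ∈ FlagCWcorner n := by
      refine ⟨fun i => hx0 _, ?_⟩
      have := hx0 0
      simp only [Fin.tail]
      linarith
    refine ⟨?_, ?_⟩
    · rw [hc']; simpa using hT
    · have h0 : 1 - ∑ i, h.symm (h (Fin.tail x)) i = x 0 := by
        simp only [Homeomorph.symm_apply_apply, Fin.tail]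
        linarith
      change (Fin.cons (1 - ∑ i, h.symm (h (Fin.tail x)) i) (h.symm (h (Fin.tail x))) :
        Fin (n + 1) → ℝ) = x
      rw [h0]
      simp
  · intro y hy
    rw [hi']
    constructor
    · intro ho i
      refine Fin.cases ?_ (fun j => ?_) i
      · simp only [Fin.cons_zero]
        linarith [ho.2]
      · simp only [Fin.cons_succ]
        exact ho.1 j
    · intro H
      refine ⟨fun j => ?_, ?_⟩
      · have := H j.succ
        simpa using this
      · have := H 0
        simp only [Fin.cons_zero] at this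
        linarith

/-! ### The characteristic maps -/

theorem FlagCW_map (n : ℕ) (s : Face R) (hs : s.1.card = n + 1) :
    ∃ P : PartialEquiv (Fin n → ℝ) (FReal R), P.source = Metric.ball 0 1 ∧
      P.target = oSimplex s ∧ Continuous P ∧ Continuous P.symm ∧
      P '' Metric.closedBall 0 1 = range (incl s) ∧ P '' Metric.ball 0 1 = oSimplex s ∧
      ∀ y ∈ Metric.sphere (0 : Fin n → ℝ) 1, P y ∉ oSimplex s := by
  classical
  obtain ⟨φ, ψ, hφ, hψ, h1, h2, h3⟩ := FlagCW_param n
  let e : s.1 ≃ Fin (n + 1) := Finset.equivFinOfCardEq hs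
  let r : (Fin n → ℝ) → (Fin n → ℝ) := fun y => (max 1 ‖y‖)⁻¹ • y
  have hrpos : ∀ y : Fin n → ℝ, 0 < max 1 ‖y‖ := fun y => lt_of_lt_of_le one_pos (le_max_left _ _)
  have hr : Continuous r := by
    refine Continuous.smul (Continuous.inv₀ (continuous_const.max continuous_norm) ?_) continuous_id
    exact fun y => (hrpos y).ne'
  have hrb : ∀ y, r y ∈ Metric.closedBall (0 : Fin n → ℝ) 1 := by
    intro y
    rw [mem_closedBall_zero_iff, norm_smul, norm_inv, Real.norm_eq_abs, abs_of_pos (hrpos y),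
      inv_mul_le_iff₀ (hrpos y), mul_one]
    exact le_max_right _ _
  have hre : ∀ y ∈ Metric.closedBall (0 : Fin n → ℝ) 1, r y = y := by
    intro y hy
    rw [mem_closedBall_zero_iff] at hy
    simp only [r]
    rw [max_eq_left hy, inv_one, one_smul]
  have hmem : ∀ y, (fun v : s.1 => φ (r y) (e v)) ∈ stdSimplex ℝ s.1 := by
    intro y
    obtain ⟨ha, hb, -⟩ := h1 _ (hrb y)
    refine ⟨fun v => ha _, ?_⟩
    rw [← hb]
    exact Equiv.sum_comp e (fun i => φ (r y) i)
  let F : (Fin n → ℝ) → FReal R := fun y => incl s ⟨_, hmem y⟩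
  have hF : Continuous F := by
    refine (continuous_incl s).comp (Continuous.subtype_mk ?_ _)
    refine continuous_pi fun v => ?_
    exact (continuous_apply _).comp (hφ.comp hr)
  let c : FReal R → (Fin (n + 1) → ℝ) := fun x i => x.1 (e.symm i)
  have hc : Continuous c := continuous_pi fun i => continuous_coord _
  let H : FReal R → (Fin n → ℝ) := fun x => ψ (c x)
  have hH : Continuous H := hψ.comp hc
  have hFv : ∀ y (v : s.1), (F y).1 v = φ (r y) (e v) := by
    intro y v
    simp only [F, incl]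
    rw [dif_pos v.2]
  have hFn : ∀ y v, v ∉ s.1 → (F y).1 v = 0 := by
    intro y v hv
    simp only [F, incl]
    rw [dif_neg hv]
  have hcF : ∀ y, c (F y) = φ (r y) := by
    intro y
    funext i
    simp only [c]
    rw [hFv]
    simp
  have hHF : ∀ y ∈ Metric.closedBall (0 : Fin n → ℝ) 1, H (F y) = y := by
    intro y hy
    simp only [H]
    rw [hcF, hre y hy]
    exact (h1 y hy).2.2
  have hcs : ∀ x : FReal R, (∀ v, v ∉ s.1 → x.1 v = 0) → ∑ i, c x i = 1 := by
    intro x hx
    rw [← sum_eq_one hx, ← Finset.sum_coe_sort s.1 (fun v => x.1 v)]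
    exact Equiv.sum_comp e.symm (fun v : s.1 => x.1 v)
  have hHb : ∀ x : FReal R, (∀ v, v ∉ s.1 → x.1 v = 0) →
      H x ∈ Metric.closedBall (0 : Fin n → ℝ) 1 ∧ F (H x) = x := by
    intro x hx
    obtain ⟨ha, hb⟩ := h2 (c x) (fun i => x.2.1 _) (hcs x hx)
    refine ⟨ha, ?_⟩
    apply FReal.ext
    intro v
    by_cases hv : v ∈ s.1
    · have h7 : (F (H x)).1 v = φ (r (H x)) (e ⟨v, hv⟩) := hFv (H x) ⟨v, hv⟩
      rw [h7, hre _ ha]
      change φ (ψ (c x)) (e ⟨v, hv⟩) = x.1 v
      rw [hb]
      change x.1 (e.symm (e ⟨v, hv⟩)) = x.1 v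
      rw [Equiv.symm_apply_apply]
    · rw [hFn _ v hv, hx v hv]
  have hFo : ∀ y ∈ Metric.closedBall (0 : Fin n → ℝ) 1,
      (y ∈ Metric.ball (0 : Fin n → ℝ) 1 ↔ F y ∈ oSimplex s) := by
    intro y hy
    rw [h3 y hy]
    constructor
    · intro h v
      constructor
      · intro hv
        have h7 : (F y).1 v = φ (r y) (e ⟨v, hv⟩) := hFv y ⟨v, hv⟩
        rw [h7, hre _ hy]
        exact (h _).ne'
      · intro hv
        by_contra hv'
        exact hv (hFn y v hv')
    · intro h i
      have h4 := (h (e.symm i)).1 (e.symm i).2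
      rw [hFv, hre y hy] at h4
      simp only [Equiv.apply_symm_apply] at h4
      exact lt_of_le_of_ne ((h1 y hy).1 i) (Ne.symm h4)
  have hoz : ∀ x ∈ oSimplex s, ∀ v, v ∉ s.1 → x.1 v = 0 := by
    intro x hx v hv
    by_contra h
    exact hv ((hx v).2 h)
  have q1 : ∀ y ∈ Metric.ball (0 : Fin n → ℝ) 1, F y ∈ oSimplex s := fun y hy =>
    (hFo y (Metric.ball_subset_closedBall hy)).1 hy
  have q2 : ∀ x ∈ oSimplex s, H x ∈ Metric.ball (0 : Fin n → ℝ) 1 := by
    intro x hx
    obtain ⟨ha, hb⟩ := hHb x (hoz x hx)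
    rw [hFo _ ha, hb]
    exact hx
  have q3 : ∀ y ∈ Metric.ball (0 : Fin n → ℝ) 1, H (F y) = y := fun y hy =>
    hHF y (Metric.ball_subset_closedBall hy)
  have q4 : ∀ x ∈ oSimplex s, F (H x) = x := fun x hx => (hHb x (hoz x hx)).2
  refine ⟨⟨F, H, Metric.ball 0 1, oSimplex s, q1, q2, q3, q4⟩, rfl, rfl, hF, hH, ?_, ?_, ?_⟩
  · ext x
    constructor
    · rintro ⟨y, -, rfl⟩
      exact ⟨_, rfl⟩
    · intro hx
      rw [mem_range_incl] at hx
      exact ⟨H x, (hHb x hx).1, (hHb x hx).2⟩
  · ext x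
    constructor
    · rintro ⟨y, hy, rfl⟩
      exact (hFo y (Metric.ball_subset_closedBall hy)).1 hy
    · intro hx
      obtain ⟨ha, hb⟩ := hHb x (hoz x hx)
      refine ⟨H x, ?_, hb⟩
      rw [hFo _ ha, hb]
      exact hx
  · intro y hy h
    have h5 := (hFo y (Metric.sphere_subset_closedBall hy)).2 h
    rw [Metric.mem_ball] at h5
    rw [Metric.mem_sphere] at hy
    exact absurd hy h5.ne

/-- The characteristic map of a face. -/
def FlagCWmap (n : ℕ) (s : {s : Face R // s.1.card = n + 1}) :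
    PartialEquiv (Fin n → ℝ) (FReal R) :=
  (FlagCW_map n s.1 s.2).choose

theorem FlagCWmap_spec (n : ℕ) (s : {s : Face R // s.1.card = n + 1}) :
    (FlagCWmap n s).source = Metric.ball 0 1 ∧
      (FlagCWmap n s).target = oSimplex s.1 ∧ Continuous (FlagCWmap n s) ∧
      Continuous (FlagCWmap n s).symm ∧
      FlagCWmap n s '' Metric.closedBall 0 1 = range (incl s.1) ∧
      FlagCWmap n s '' Metric.ball 0 1 = oSimplex s.1 ∧
      ∀ y ∈ Metric.sphere (0 : Fin n → ℝ) 1, FlagCWmap n s y ∉ oSimplex s.1 :=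
  (FlagCW_map n s.1 s.2).choose_spec

theorem FlagCW_oSimplex_inj {s t : Face R} {x : FReal R} (hs : x ∈ oSimplex s)
    (ht : x ∈ oSimplex t) : s = t := by
  apply Subtype.ext
  ext v
  rw [hs v, ht v]

theorem FlagCW_card {s : Face R} : ∃ n : ℕ, s.1.card = n + 1 := by
  have := s.2.1.card_pos
  exact ⟨s.1.card - 1, by omega⟩

/-- The CW structure. -/
@[instance_reducible]
def FlagCWcw (R : V → V → Prop) : CWComplex (univ : Set (FReal R)) where
  cell n := {s : Face R // s.1.card = n + 1}
  map n s := FlagCWmap n s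
  source_eq n s := (FlagCWmap_spec n s).1
  continuousOn n s := (FlagCWmap_spec n s).2.2.1.continuousOn
  continuousOn_symm n s := (FlagCWmap_spec n s).2.2.2.1.continuousOn
  pairwiseDisjoint' := by
    rintro ⟨n, s⟩ - ⟨m, t⟩ - hne
    rw [Function.onFun, (FlagCWmap_spec n s).2.2.2.2.2.1, (FlagCWmap_spec m t).2.2.2.2.2.1,
      Set.disjoint_left]
    intro x hx hx'
    apply hne
    have h := FlagCW_oSimplex_inj hx hx'
    obtain ⟨s, hs⟩ := s
    obtain ⟨t, ht⟩ := t
    simp only at h
    subst h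
    have hnm : n = m := by omega
    subst hnm
    rfl
  mapsTo' n s := by
    have hfin : ∀ m : ℕ, {t : {t : Face R // t.1.card = m + 1} | t.1.1 ⊆ s.1.1}.Finite := by
      intro m
      refine Set.Finite.of_finite_image (f := fun t => t.1.1) ?_ ?_
      · refine (s.1.1.powerset.finite_toSet).subset ?_
        rintro _ ⟨t, ht, rfl⟩
        simpa using ht
      · intro t _ t' _ h
        exact Subtype.ext (Subtype.ext h)
    refine ⟨fun m => (hfin m).toFinset, ?_⟩
    intro y hy
    obtain ⟨t, ht⟩ := exists_supp (FlagCWmap n s y)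
    have hmem : FlagCWmap n s y ∈ range (incl s.1) := by
      rw [← (FlagCWmap_spec n s).2.2.2.2.1]
      exact mem_image_of_mem _ (Metric.sphere_subset_closedBall hy)
    rw [mem_range_incl] at hmem
    have hsub : t.1 ⊆ s.1.1 := by
      intro v hv
      by_contra hv'
      exact (ht v).1 hv (hmem v hv')
    have hne : t.1 ≠ s.1.1 := by
      intro h
      have : t = s.1 := Subtype.ext h
      apply (FlagCWmap_spec n s).2.2.2.2.2.2 y hy
      rw [← this]
      exact ht
    have hcard : t.1.card < s.1.1.card := Finset.card_lt_card (hsub.ssubset_of_ne hne)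
    obtain ⟨m, hm⟩ := FlagCW_card (s := t)
    have hs := s.2
    simp only [mem_iUnion]
    refine ⟨m, by omega, ⟨t, hm⟩, ?_, ?_⟩
    · simpa using hsub
    · rw [(FlagCWmap_spec m ⟨t, hm⟩).2.2.2.2.1, mem_range_incl]
      intro v hv
      by_contra h
      exact hv ((ht v).2 h)
  closed' A _ h := by
    rw [freal_isClosed_iff]
    intro s
    obtain ⟨n, hn⟩ := FlagCW_card (s := s)
    have h1 := h n ⟨s, hn⟩
    rw [(FlagCWmap_spec n ⟨s, hn⟩).2.2.2.2.1] at h1
    have h2 := h1.preimage (continuous_incl s)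
    have h3 : incl s ⁻¹' (A ∩ range (incl s)) = incl s ⁻¹' A := by
      ext x
      simp
    rwa [h3] at h2
  union' := by
    rw [eq_univ_iff_forall]
    intro x
    obtain ⟨t, ht⟩ := exists_supp x
    obtain ⟨m, hm⟩ := FlagCW_card (s := t)
    simp only [mem_iUnion]
    refine ⟨m, ⟨t, hm⟩, ?_⟩
    rw [(FlagCWmap_spec m ⟨t, hm⟩).2.2.2.2.1, mem_range_incl]
    intro v hv
    by_contra h
    exact hv ((ht v).2 h)

theorem exists_cw (R : V → V → Prop) : ∃ C : CWComplex (univ : Set (FReal R)),
    (∀ (n : ℕ) (e : @Cell _ _ C n), ∃ s : Face R, s.1.card = n + 1 ∧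
      @oCell _ _ C n e = oSimplex s) ∧
    ∀ (n : ℕ) (s : Face R), s.1.card = n + 1 → ∃ e : @Cell _ _ C n,
      @oCell _ _ C n e = oSimplex s := by
  refine ⟨FlagCWcw R, ?_, ?_⟩
  · intro n e
    refine ⟨(show {s : Face R // s.1.card = n + 1} from e).1,
      (show {s : Face R // s.1.card = n + 1} from e).2, ?_⟩
    exact (FlagCWmap_spec n (show {s : Face R // s.1.card = n + 1} from e)).2.2.2.2.2.1
  · intro n s hs
    refine ⟨(show {s : Face R // s.1.card = n + 1} from ⟨s, hs⟩), ?_⟩
    exact (FlagCWmap_spec n ⟨s, hs⟩).2.2.2.2.2.1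

end

end Pool.Agent.GCW
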