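import Pool.Agent.Lib.MP_63e749_al.HR

/-!
# JOB SQUARE: filling the cube over a small square
-/

set_option autoImplicit false

open Set Metric Topology

namespace Pool.Agent.GCW

variable {X : Type} [TopologicalSpace X]

private theorem sq_mem_bI2_left {t : ℝ} (ht : t ∈ Icc (0 : ℝ) 1) : ((0 : ℝ), t) ∈ bI2 :=
  ⟨⟨⟨le_rfl, zero_le_one⟩, ht⟩, Or.inl rfl⟩

private theorem sq_mem_bI2_right {t : ℝ} (ht : t ∈ Icc (0 : ℝ) 1) : ((1 : ℝ), t) ∈ bI2 :=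
  ⟨⟨⟨zero_le_one, le_rfl⟩, ht⟩, Or.inr (Or.inl rfl)⟩

private theorem sq_mem_bI2_bot {x : ℝ} (hx : x ∈ Icc (0 : ℝ) 1) : (x, (0 : ℝ)) ∈ bI2 :=
  ⟨⟨hx, ⟨le_rfl, zero_le_one⟩⟩, Or.inr (Or.inr (Or.inl rfl))⟩

private theorem sq_mem_bI2_top {x : ℝ} (hx : x ∈ Icc (0 : ℝ) 1) : (x, (1 : ℝ)) ∈ bI2 :=
  ⟨⟨hx, ⟨zero_le_one, le_rfl⟩⟩, Or.inr (Or.inr (Or.inr rfl))⟩

/-- `f` maps the unit square to `U`; over the four edges of the square null homotopies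
`MB, MT, ML, MR` (bottom, top, left, right; the second coordinate is the homotopy parameter) are
given, each homotopic relative to its boundary to a map into the contractible set `U`. Then there
is a homotopy from `f` to the constant map which is the given one over the edges. -/
theorem square_lemma {U : Set X} (hU : ContractibleSpace U) {c0 : X} (hc0 : c0 ∈ U)
    (f : ℝ × ℝ → X) (hf : ContinuousOn f I2) (hfU : MapsTo f I2 U)
    (MB MT ML MR : ℝ × ℝ → X)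
    (gB : Good U MB) (gT : Good U MT) (gL : Good U ML) (gR : Good U MR)
    (bB : ∀ x ∈ Icc (0 : ℝ) 1, MB (x, 0) = f (x, 0)) (bT : ∀ x ∈ Icc (0 : ℝ) 1, MT (x, 0) = f (x, 1))
    (bL : ∀ y ∈ Icc (0 : ℝ) 1, ML (y, 0) = f (0, y)) (bR : ∀ y ∈ Icc (0 : ℝ) 1, MR (y, 0) = f (1, y))
    (tB : ∀ x ∈ Icc (0 : ℝ) 1, MB (x, 1) = c0) (tT : ∀ x ∈ Icc (0 : ℝ) 1, MT (x, 1) = c0)
    (tL : ∀ y ∈ Icc (0 : ℝ) 1, ML (y, 1) = c0) (tR : ∀ y ∈ Icc (0 : ℝ) 1, MR (y, 1) = c0)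
    (c00 : ∀ t ∈ Icc (0 : ℝ) 1, MB (0, t) = ML (0, t))
    (c10 : ∀ t ∈ Icc (0 : ℝ) 1, MB (1, t) = MR (0, t))
    (c01 : ∀ t ∈ Icc (0 : ℝ) 1, MT (0, t) = ML (1, t))
    (c11 : ∀ t ∈ Icc (0 : ℝ) 1, MT (1, t) = MR (1, t)) :
    ∃ G : (ℝ × ℝ) × ℝ → X, ContinuousOn G (I2 ×ˢ Icc (0 : ℝ) 1) ∧
      (∀ p ∈ I2, G (p, 0) = f p) ∧ (∀ p ∈ I2, G (p, 1) = c0) ∧
      (∀ x ∈ Icc (0 : ℝ) 1, ∀ t ∈ Icc (0 : ℝ) 1, G ((x, 0), t) = MB (x, t)) ∧
      (∀ x ∈ Icc (0 : ℝ) 1, ∀ t ∈ Icc (0 : ℝ) 1, G ((x, 1), t) = MT (x, t)) ∧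
      (∀ y ∈ Icc (0 : ℝ) 1, ∀ t ∈ Icc (0 : ℝ) 1, G ((0, y), t) = ML (y, t)) ∧
      (∀ y ∈ Icc (0 : ℝ) 1, ∀ t ∈ Icc (0 : ℝ) 1, G ((1, y), t) = MR (y, t)) := by
  classical
  obtain ⟨MB', uB, FB, cB, zB, oB, dB⟩ := gB
  obtain ⟨MT', uT, FT, cT, zT, oT, dT⟩ := gT
  obtain ⟨ML', uL, FL, cL, zL, oL, dL⟩ := gL
  obtain ⟨MR', uR, FR, cR, zR, oR, dR⟩ := gR
  set K : ℝ × (ℝ × (ℝ × ℝ)) → X := fun z =>
    if z.2.1 = 0 then f z.2.2 else if z.2.1 = 1 then c0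
    else if z.2.2.2 = 0 then FB (z.1, (z.2.2.1, z.2.1))
    else if z.2.2.2 = 1 then FT (z.1, (z.2.2.1, z.2.1))
    else if z.2.2.1 = 0 then FL (z.1, (z.2.2.2, z.2.1))
    else FR (z.1, (z.2.2.2, z.2.1)) with hK
  set P : Set (ℝ × (ℝ × (ℝ × ℝ))) := {z | z.1 ∈ Icc (0 : ℝ) 1 ∧ z.2.1 ∈ Icc (0 : ℝ) 1 ∧ z.2.2.1 ∈ Icc (0 : ℝ) 1 ∧
    z.2.2.2 ∈ Icc (0 : ℝ) 1} with hP
  have hPc : IsClosed P :=
    (isClosed_Icc.preimage continuous_fst).inter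
      ((isClosed_Icc.preimage (continuous_fst.comp continuous_snd)).inter
        ((isClosed_Icc.preimage (continuous_fst.comp (continuous_snd.comp continuous_snd))).inter
          (isClosed_Icc.preimage (continuous_snd.comp (continuous_snd.comp continuous_snd)))))
  set P0 : Set (ℝ × (ℝ × (ℝ × ℝ))) := P ∩ {z | z.2.1 = 0} with hP0
  set P1 : Set (ℝ × (ℝ × (ℝ × ℝ))) := P ∩ {z | z.2.1 = 1} with hP1
  set PB : Set (ℝ × (ℝ × (ℝ × ℝ))) := P ∩ {z | z.2.2.2 = 0} with hPB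
  set PT : Set (ℝ × (ℝ × (ℝ × ℝ))) := P ∩ {z | z.2.2.2 = 1} with hPT
  set PL : Set (ℝ × (ℝ × (ℝ × ℝ))) := P ∩ {z | z.2.2.1 = 0} with hPL
  set PR : Set (ℝ × (ℝ × (ℝ × ℝ))) := P ∩ {z | z.2.2.1 = 1} with hPR
  have k0 : IsClosed P0 := hPc.inter
    (isClosed_eq (continuous_fst.comp continuous_snd) continuous_const)
  have k1 : IsClosed P1 := hPc.inter
    (isClosed_eq (continuous_fst.comp continuous_snd) continuous_const)
  have kB : IsClosed PB := hPc.inter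
    (isClosed_eq (continuous_snd.comp (continuous_snd.comp continuous_snd)) continuous_const)
  have kT : IsClosed PT := hPc.inter
    (isClosed_eq (continuous_snd.comp (continuous_snd.comp continuous_snd)) continuous_const)
  have kL : IsClosed PL := hPc.inter
    (isClosed_eq (continuous_fst.comp (continuous_snd.comp continuous_snd)) continuous_const)
  have kR : IsClosed PR := hPc.inter
    (isClosed_eq (continuous_fst.comp (continuous_snd.comp continuous_snd)) continuous_const)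
  -- the values of `K` on the six faces
  have e0 : EqOn K (fun z => f z.2.2) P0 := fun z hz => if_pos hz.2
  have e1 : EqOn K (fun _ => c0) P1 := by
    intro z hz
    have h1 : z.2.1 = 1 := hz.2
    simp only [hK, h1, if_true, if_false, one_ne_zero]
  have eB : EqOn K (fun z => FB (z.1, (z.2.2.1, z.2.1))) PB := by
    rintro ⟨θ, t, x, y⟩ ⟨⟨hθ, ht, hx, hy⟩, hy0⟩
    simp only [mem_ofPred_eq] at hθ ht hx hy hy0
    subst hy0
    simp only [hK]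
    by_cases t0 : t = 0
    · subst t0
      rw [if_pos rfl, dB θ hθ _ (sq_mem_bI2_bot hx), bB x hx]
    rw [if_neg t0]
    by_cases t1 : t = 1
    · subst t1
      rw [if_pos rfl, dB θ hθ _ (sq_mem_bI2_top hx), tB x hx]
    rw [if_neg t1, if_pos trivial]
  have eT : EqOn K (fun z => FT (z.1, (z.2.2.1, z.2.1))) PT := by
    rintro ⟨θ, t, x, y⟩ ⟨⟨hθ, ht, hx, hy⟩, hy0⟩
    simp only [mem_ofPred_eq] at hθ ht hx hy hy0
    subst hy0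
    simp only [hK]
    by_cases t0 : t = 0
    · subst t0
      rw [if_pos rfl, dT θ hθ _ (sq_mem_bI2_bot hx), bT x hx]
    rw [if_neg t0]
    by_cases t1 : t = 1
    · subst t1
      rw [if_pos rfl, dT θ hθ _ (sq_mem_bI2_top hx), tT x hx]
    rw [if_neg t1, if_neg one_ne_zero, if_pos trivial]
  have eL : EqOn K (fun z => FL (z.1, (z.2.2.2, z.2.1))) PL := by
    rintro ⟨θ, t, x, y⟩ ⟨⟨hθ, ht, hx, hy⟩, hx0⟩
    simp only [mem_ofPred_eq] at hθ ht hx hy hx0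
    subst hx0
    simp only [hK]
    by_cases t0 : t = 0
    · subst t0
      rw [if_pos rfl, dL θ hθ _ (sq_mem_bI2_bot hy), bL y hy]
    rw [if_neg t0]
    by_cases t1 : t = 1
    · subst t1
      rw [if_pos rfl, dL θ hθ _ (sq_mem_bI2_top hy), tL y hy]
    rw [if_neg t1]
    by_cases y0 : y = 0
    · subst y0
      rw [if_pos rfl, dB θ hθ _ (sq_mem_bI2_left ht), dL θ hθ _ (sq_mem_bI2_left ht), c00 t ht]
    rw [if_neg y0]
    by_cases y1 : y = 1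
    · subst y1
      rw [if_pos rfl, dT θ hθ _ (sq_mem_bI2_left ht), dL θ hθ _ (sq_mem_bI2_right ht), c01 t ht]
    rw [if_neg y1, if_pos trivial]
  have eR : EqOn K (fun z => FR (z.1, (z.2.2.2, z.2.1))) PR := by
    rintro ⟨θ, t, x, y⟩ ⟨⟨hθ, ht, hx, hy⟩, hx0⟩
    simp only [mem_ofPred_eq] at hθ ht hx hy hx0
    subst hx0
    simp only [hK]
    by_cases t0 : t = 0
    · subst t0
      rw [if_pos rfl, dR θ hθ _ (sq_mem_bI2_bot hy), bR y hy]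
    rw [if_neg t0]
    by_cases t1 : t = 1
    · subst t1
      rw [if_pos rfl, dR θ hθ _ (sq_mem_bI2_top hy), tR y hy]
    rw [if_neg t1]
    by_cases y0 : y = 0
    · subst y0
      rw [if_pos rfl, dB θ hθ _ (sq_mem_bI2_right ht), dR θ hθ _ (sq_mem_bI2_left ht), c10 t ht]
    rw [if_neg y0]
    by_cases y1 : y = 1
    · subst y1
      rw [if_pos rfl, dT θ hθ _ (sq_mem_bI2_right ht), dR θ hθ _ (sq_mem_bI2_right ht), c11 t ht]
    rw [if_neg y1, if_neg one_ne_zero]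
  -- the cover
  have hcover : Icc (0 : ℝ) 1 ×ˢ sphere ctr3 (1 / 2) ⊆
      P0 ∪ (P1 ∪ (PB ∪ (PT ∪ (PL ∪ PR)))) := by
    rintro ⟨θ, t, x, y⟩ ⟨hθ, hq⟩
    rw [mem_sphere_ctr3] at hq
    obtain ⟨⟨ht, hxy⟩, h⟩ := hq
    have hmem : (θ, t, x, y) ∈ P := ⟨hθ, ht, hxy.1, hxy.2⟩
    rcases h with h | h | h
    · exact Or.inl ⟨hmem, h⟩
    · exact Or.inr (Or.inl ⟨hmem, h⟩)
    · rcases h.2 with h | h | h | h
      · exact Or.inr (Or.inr (Or.inr (Or.inr (Or.inl ⟨hmem, h⟩))))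
      · exact Or.inr (Or.inr (Or.inr (Or.inr (Or.inr ⟨hmem, h⟩))))
      · exact Or.inr (Or.inr (Or.inl ⟨hmem, h⟩))
      · exact Or.inr (Or.inr (Or.inr (Or.inl ⟨hmem, h⟩)))
  have hKc : ContinuousOn K (Icc (0 : ℝ) 1 ×ˢ sphere ctr3 (1 / 2)) := by
    refine ContinuousOn.mono ?_ hcover
    have g0 : ContinuousOn K P0 := by
      refine ContinuousOn.congr ?_ e0
      exact hf.comp (by fun_prop) fun z hz => ⟨hz.1.2.2.1, hz.1.2.2.2⟩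
    have g1 : ContinuousOn K P1 := continuousOn_const.congr e1
    have gB : ContinuousOn K PB := by
      refine ContinuousOn.congr ?_ eB
      exact cB.comp (by fun_prop) fun z hz => ⟨hz.1.1, hz.1.2.2.1, hz.1.2.1⟩
    have gT : ContinuousOn K PT := by
      refine ContinuousOn.congr ?_ eT
      exact cT.comp (by fun_prop) fun z hz => ⟨hz.1.1, hz.1.2.2.1, hz.1.2.1⟩
    have gL : ContinuousOn K PL := by
      refine ContinuousOn.congr ?_ eL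
      exact cL.comp (by fun_prop) fun z hz => ⟨hz.1.1, hz.1.2.2.2, hz.1.2.1⟩
    have gR : ContinuousOn K PR := by
      refine ContinuousOn.congr ?_ eR
      exact cR.comp (by fun_prop) fun z hz => ⟨hz.1.1, hz.1.2.2.2, hz.1.2.1⟩
    have h5 := gL.union_of_isClosed gR kL kR
    have h4 := gT.union_of_isClosed h5 kT (kL.union kR)
    have h3 := gB.union_of_isClosed h4 kB (kT.union (kL.union kR))
    have h2 := g1.union_of_isClosed h3 k1 (kB.union (kT.union (kL.union kR)))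
    exact g0.union_of_isClosed h2 k0 (k1.union (kB.union (kT.union (kL.union kR))))
  -- the map at `θ = 1` has values in `U`
  have hm : MapsTo (fun q : ℝ × (ℝ × ℝ) => ((1 : ℝ), q)) (sphere ctr3 (1 / 2))
      (Icc (0 : ℝ) 1 ×ˢ sphere ctr3 (1 / 2)) :=
    fun q hq => ⟨⟨zero_le_one, le_rfl⟩, hq⟩
  have hg1c : ContinuousOn (fun q => K (1, q)) (sphere ctr3 (1 / 2)) :=
    hKc.comp (by fun_prop) hm
  have hg1U : MapsTo (fun q => K (1, q)) (sphere ctr3 (1 / 2)) U := by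
    intro q hq
    have h := hcover (hm hq)
    show K (1, q) ∈ U
    rcases h with h | h | h | h | h | h
    · rw [e0 h]
      exact hfU ⟨h.1.2.2.1, h.1.2.2.2⟩
    · rw [e1 h]
      exact hc0
    · rw [eB h]
      have hmem : (q.2.1, q.1) ∈ I2 := ⟨h.1.2.2.1, h.1.2.1⟩
      show FB (1, (q.2.1, q.1)) ∈ U
      rw [oB _ hmem]
      exact uB hmem
    · rw [eT h]
      have hmem : (q.2.1, q.1) ∈ I2 := ⟨h.1.2.2.1, h.1.2.1⟩
      show FT (1, (q.2.1, q.1)) ∈ U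
      rw [oT _ hmem]
      exact uT hmem
    · rw [eL h]
      have hmem : (q.2.2, q.1) ∈ I2 := ⟨h.1.2.2.2, h.1.2.1⟩
      show FL (1, (q.2.2, q.1)) ∈ U
      rw [oL _ hmem]
      exact uL hmem
    · rw [eR h]
      have hmem : (q.2.2, q.1) ∈ I2 := ⟨h.1.2.2.2, h.1.2.1⟩
      show FR (1, (q.2.2, q.1)) ∈ U
      rw [oR _ hmem]
      exact uR hmem
  obtain ⟨G1, hG1c, -, hG1e⟩ := fill_of_contractible ctr3 (by norm_num : (0 : ℝ) < 1 / 2) hU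
    (fun q => K (1, q)) hg1c hg1U
  obtain ⟨G, hGc, hGs, -⟩ := extend_of_homotopy ctr3 (by norm_num : (0 : ℝ) < 1 / 2) K hKc G1 hG1c
    (fun x hx => (hG1e hx).symm)
  rw [closedBall_ctr3] at hGc
  have hz0 : (0 : ℝ) ∈ Icc (0 : ℝ) 1 := ⟨le_rfl, zero_le_one⟩
  have hz1 : (1 : ℝ) ∈ Icc (0 : ℝ) 1 := ⟨zero_le_one, le_rfl⟩
  refine ⟨fun q => G (q.2, q.1), ?_, ?_, ?_, ?_, ?_, ?_, ?_⟩
  · exact hGc.comp (by fun_prop) fun q hq => ⟨hq.2, hq.1⟩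
  · intro p hp
    show G (0, p) = f p
    rw [hGs _ ((mem_sphere_ctr3 _).2 ⟨⟨hz0, hp⟩, Or.inl rfl⟩)]
    exact e0 ⟨⟨hz0, hz0, hp.1, hp.2⟩, rfl⟩
  · intro p hp
    show G (1, p) = c0
    rw [hGs _ ((mem_sphere_ctr3 _).2 ⟨⟨hz1, hp⟩, Or.inr (Or.inl rfl)⟩)]
    exact e1 ⟨⟨hz0, hz1, hp.1, hp.2⟩, rfl⟩
  · intro x hx t ht
    show G (t, (x, 0)) = MB (x, t)
    rw [hGs _ ((mem_sphere_ctr3 _).2 ⟨⟨ht, ⟨hx, hz0⟩⟩, Or.inr (Or.inr (sq_mem_bI2_bot hx))⟩),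
      eB ⟨⟨hz0, ht, hx, hz0⟩, rfl⟩]
    exact zB _ ⟨hx, ht⟩
  · intro x hx t ht
    show G (t, (x, 1)) = MT (x, t)
    rw [hGs _ ((mem_sphere_ctr3 _).2 ⟨⟨ht, ⟨hx, hz1⟩⟩, Or.inr (Or.inr (sq_mem_bI2_top hx))⟩),
      eT ⟨⟨hz0, ht, hx, hz1⟩, rfl⟩]
    exact zT _ ⟨hx, ht⟩
  · intro y hy t ht
    show G (t, (0, y)) = ML (y, t)
    rw [hGs _ ((mem_sphere_ctr3 _).2 ⟨⟨ht, ⟨hz0, hy⟩⟩, Or.inr (Or.inr (sq_mem_bI2_left hy))⟩),
      eL ⟨⟨hz0, ht, hz0, hy⟩, rfl⟩]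
    exact zL _ ⟨hy, ht⟩
  · intro y hy t ht
    show G (t, (1, y)) = MR (y, t)
    rw [hGs _ ((mem_sphere_ctr3 _).2 ⟨⟨ht, ⟨hz1, hy⟩⟩, Or.inr (Or.inr (sq_mem_bI2_right hy))⟩),
      eR ⟨⟨hz0, ht, hz1, hy⟩, rfl⟩]
    exact zR _ ⟨hy, ht⟩

end Pool.Agent.GCW
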