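import Pool.Agent.Lib.MP_63e749_al.EdgeLemma
import Pool.Agent.Lib.MP_63e749_al.Square

/-!
# JOB GRID: assembling a null homotopy over the integer grid
-/

set_option autoImplicit false

open Set Metric Topology

namespace Pool.Agent.GCW

variable {X : Type} [TopologicalSpace X]

/-- The closed integer squares form a locally finite family. -/
private theorem grid_locallyFinite : LocallyFinite fun i : ℤ × ℤ =>
    ((Icc (i.1 : ℝ) (i.1 + 1) ×ˢ Icc (i.2 : ℝ) (i.2 + 1)) ×ˢ Icc (0 : ℝ) 1 :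
      Set ((ℝ × ℝ) × ℝ)) := by
  rintro ⟨⟨x, y⟩, t⟩
  refine ⟨{q | x - 1 < q.1.1 ∧ q.1.1 < x + 1 ∧ y - 1 < q.1.2 ∧ q.1.2 < y + 1}, ?_, ?_⟩
  · apply IsOpen.mem_nhds
    · have e1 : IsOpen {q : (ℝ × ℝ) × ℝ | x - 1 < q.1.1} := isOpen_lt (by fun_prop) (by fun_prop)
      have e2 : IsOpen {q : (ℝ × ℝ) × ℝ | q.1.1 < x + 1} := isOpen_lt (by fun_prop) (by fun_prop)
      have e3 : IsOpen {q : (ℝ × ℝ) × ℝ | y - 1 < q.1.2} := isOpen_lt (by fun_prop) (by fun_prop)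
      have e4 : IsOpen {q : (ℝ × ℝ) × ℝ | q.1.2 < y + 1} := isOpen_lt (by fun_prop) (by fun_prop)
      exact e1.inter (e2.inter (e3.inter e4))
    · refine ⟨?_, ?_, ?_, ?_⟩ <;> simp
  · refine (Finset.finite_toSet
      (Finset.Icc (⌊x⌋ - 2) (⌊x⌋ + 2) ×ˢ Finset.Icc (⌊y⌋ - 2) (⌊y⌋ + 2))).subset ?_
    rintro ⟨a, b⟩ ⟨q, ⟨⟨⟨h1, h2⟩, ⟨h3, h4⟩⟩, -⟩, h5, h6, h7, h8⟩
    have hx1 := Int.floor_le x
    have hx2 := Int.lt_floor_add_one x
    have hy1 := Int.floor_le y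
    have hy2 := Int.lt_floor_add_one y
    simp only at h1 h2 h3 h4
    have e1 : ((⌊x⌋ - 2 : ℤ) : ℝ) < ((a : ℤ) : ℝ) := by push_cast; linarith
    have e2 : ((a : ℤ) : ℝ) < ((⌊x⌋ + 2 : ℤ) : ℝ) := by push_cast; linarith
    have e3 : ((⌊y⌋ - 2 : ℤ) : ℝ) < ((b : ℤ) : ℝ) := by push_cast; linarith
    have e4 : ((b : ℤ) : ℝ) < ((⌊y⌋ + 2 : ℤ) : ℝ) := by push_cast; linarith
    rw [Int.cast_lt] at e1 e2 e3 e4
    simp only [Finset.coe_product, Finset.coe_Icc, mem_prod, mem_Icc]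
    omega

/-- `f` is constant `c0` outside the open box `(0,N)²` and maps every closed integer unit square
into one of the sets `U i`. Then `f` is null homotopic, relative to the complement of the box. -/
theorem grid_null {ι : Type} (U : ι → Set X) (C : Set X) (hCU : ∀ i, C ⊆ U i)
    (hint : ∀ i j, i ≠ j → U i ∩ U j ⊆ C) (hcontr : ∀ i, ContractibleSpace (U i))
    (hC : PathConnectedSpace C) {c0 : X} (hc0 : c0 ∈ C)
    (hLV : ∀ i j, LVProp C (U i) (U j) c0)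
    (f : ℝ × ℝ → X) (hf : Continuous f) (N : ℕ)
    (hf0 : ∀ p : ℝ × ℝ, p ∉ Ioo (0 : ℝ) N ×ˢ Ioo (0 : ℝ) N → f p = c0)
    (s : ℤ → ℤ → ι)
    (hs : ∀ (a b : ℤ) (p : ℝ × ℝ), p ∈ Icc (a : ℝ) (a + 1) ×ˢ Icc (b : ℝ) (b + 1) → f p ∈ U (s a b)) :
    ∃ H : (ℝ × ℝ) × ℝ → X, ContinuousOn H (univ ×ˢ Icc (0 : ℝ) 1) ∧ (∀ p, H (p, 0) = f p) ∧
      (∀ p, H (p, 1) = c0) ∧
      ∀ p : ℝ × ℝ, p ∉ Ioo (0 : ℝ) N ×ˢ Ioo (0 : ℝ) N → ∀ t ∈ Icc (0 : ℝ) 1, H (p, t) = c0 := by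
  classical
  have h01 : (0 : ℝ) ∈ Icc (0 : ℝ) 1 := ⟨le_rfl, zero_le_one⟩
  have h11 : (1 : ℝ) ∈ Icc (0 : ℝ) 1 := ⟨zero_le_one, le_rfl⟩
  have hint' : ∀ i j, U i = U j ∨ U i ∩ U j ⊆ C := by
    intro i j
    by_cases h : i = j
    · exact Or.inl (by rw [h])
    · exact Or.inr (hint i j h)
  have hcU : ∀ i, c0 ∈ U i := fun i => hCU i hc0
  -- membership for shifted squares
  have hs1 : ∀ (a b : ℤ) (x y : ℝ), (a : ℝ) ≤ x → x ≤ a + 1 → (b : ℝ) ≤ y → y ≤ b + 1 →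
      f (x, y) ∈ U (s a b) := fun a b x y h1 h2 h3 h4 => hs a b (x, y) ⟨⟨h1, h2⟩, ⟨h3, h4⟩⟩
  have hs2 : ∀ (a b : ℤ) (x y : ℝ), (a : ℝ) - 1 ≤ x → x ≤ a → (b : ℝ) ≤ y → y ≤ b + 1 →
      f (x, y) ∈ U (s (a - 1) b) := fun a b x y h1 h2 h3 h4 =>
    hs1 (a - 1) b x y (by push_cast; linarith) (by push_cast; linarith) h3 h4
  have hs3 : ∀ (a b : ℤ) (x y : ℝ), (a : ℝ) ≤ x → x ≤ a + 1 → (b : ℝ) - 1 ≤ y → y ≤ b →
      f (x, y) ∈ U (s a (b - 1)) := fun a b x y h1 h2 h3 h4 =>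
    hs1 a (b - 1) x y h1 h2 (by push_cast; linarith) (by push_cast; linarith)
  have hs4 : ∀ (a b : ℤ) (x y : ℝ), (a : ℝ) - 1 ≤ x → x ≤ a → (b : ℝ) - 1 ≤ y → y ≤ b →
      f (x, y) ∈ U (s (a - 1) (b - 1)) := fun a b x y h1 h2 h3 h4 =>
    hs2 a (b - 1) x y h1 h2 (by push_cast; linarith) (by push_cast; linarith)
  -- vertices
  have hvert : ∀ a b : ℤ, ∃ δ : ℝ → X, Continuous δ ∧
      (∀ t, δ t ∈ U (s a b) ∧ δ t ∈ U (s (a - 1) b) ∧ δ t ∈ U (s a (b - 1)) ∧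
        δ t ∈ U (s (a - 1) (b - 1))) ∧
      δ 0 = f (a, b) ∧ (∀ t, 1 / 2 ≤ t → δ t = c0) ∧ (f (a, b) = c0 → ∀ t, δ t = c0) := by
    intro a b
    by_cases hfc : f (a, b) = c0
    · exact ⟨fun _ => c0, continuous_const, fun t => ⟨hcU _, hcU _, hcU _, hcU _⟩, hfc.symm,
        fun _ _ => rfl, fun _ _ => rfl⟩
    · set V : Set X := U (s a b) ∩ (U (s (a - 1) b) ∩ (U (s a (b - 1)) ∩
        U (s (a - 1) (b - 1)))) with hV
      have hfV : f (a, b) ∈ V := by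
        refine ⟨hs1 _ _ _ _ ?_ ?_ ?_ ?_, hs2 _ _ _ _ ?_ ?_ ?_ ?_, hs3 _ _ _ _ ?_ ?_ ?_ ?_,
          hs4 _ _ _ _ ?_ ?_ ?_ ?_⟩ <;> linarith
      have hCV : C ⊆ V := fun x hx => ⟨hCU _ hx, hCU _ hx, hCU _ hx, hCU _ hx⟩
      have hpc : IsPathConnected V := by
        by_cases heq : s (a - 1) b = s a b ∧ s a (b - 1) = s a b ∧ s (a - 1) (b - 1) = s a b
        · have : V = U (s a b) := by
            rw [hV, heq.1, heq.2.1, heq.2.2]
            simp only [inter_self]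
          rw [this, isPathConnected_iff_pathConnectedSpace]
          have := hcontr (s a b)
          infer_instance
        · have : V = C := by
            apply subset_antisymm ?_ hCV
            rintro x ⟨h1, h2, h3, h4⟩
            by_contra hx
            apply heq
            refine ⟨?_, ?_, ?_⟩
            · by_contra hne
              exact hx (hint _ _ hne ⟨h2, h1⟩)
            · by_contra hne
              exact hx (hint _ _ hne ⟨h3, h1⟩)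
            · by_contra hne
              exact hx (hint _ _ hne ⟨h4, h1⟩)
          rw [this, isPathConnected_iff_pathConnectedSpace]
          exact hC
      have hj : JoinedIn V (f (a, b)) c0 := hpc.joinedIn _ hfV _ (hCV hc0)
      set γ := hj.somePath with hγ
      have hγV : ∀ t, γ.extend t ∈ V := by
        intro t
        have : γ.extend t ∈ range γ.extend := mem_range_self t
        rw [Path.extend_range] at this
        obtain ⟨r, hr⟩ := this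
        rw [← hr]
        exact hj.somePath_mem r
      refine ⟨fun t => γ.extend (2 * t), ?_, ?_, ?_, ?_, ?_⟩
      · exact γ.continuous_extend.comp (by fun_prop)
      · intro t
        exact hγV (2 * t)
      · show γ.extend (2 * 0) = _
        rw [mul_zero, Path.extend_zero]
      · intro t ht
        exact Path.extend_of_one_le _ (by linarith)
      · intro h
        exact absurd h hfc
  choose δ hδc hδV hδ0 hδ1 hδf using hvert
  -- horizontal edges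
  have hhor : ∀ a b : ℤ, ∃ M : ℝ × ℝ → X, ContinuousOn M I2 ∧
      (∀ x ∈ Icc (0 : ℝ) 1, M (x, 0) = f (a + x, b)) ∧ (∀ x ∈ Icc (0 : ℝ) 1, M (x, 1) = c0) ∧
      (∀ t ∈ Icc (0 : ℝ) 1, M (0, t) = δ a b t) ∧
      (∀ t ∈ Icc (0 : ℝ) 1, M (1, t) = δ (a + 1) b t) ∧
      Good (U (s a b)) M ∧ Good (U (s a (b - 1))) M ∧
      ((∀ x ∈ Icc (0 : ℝ) 1, f (a + x, b) = c0) → ∀ p ∈ I2, M p = c0) := by
    intro a b
    by_cases hall : ∀ x ∈ Icc (0 : ℝ) 1, f (a + x, b) = c0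
    · refine ⟨fun _ => c0, continuousOn_const, fun x hx => (hall x hx).symm, fun _ _ => rfl,
        fun t _ => ?_, fun t _ => ?_, Good.of_mapsTo continuousOn_const fun _ _ => hcU _,
        Good.of_mapsTo continuousOn_const fun _ _ => hcU _, fun _ _ _ => rfl⟩
      · refine (hδf a b ?_ t).symm
        have := hall 0 h01
        rwa [add_zero] at this
      · refine (hδf (a + 1) b ?_ t).symm
        have := hall 1 h11
        push_cast
        exact this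
    · obtain ⟨M, h1, h2, h3, h4, h5, h6, h7⟩ := edge_lemma (hcontr (s a b)) (hcontr (s a (b - 1)))
        (hCU _) (hCU _) (hint' _ _) hc0 (hLV _ _) (fun x => f (a + x, b)) (δ a b) (δ (a + 1) b)
        (hf.comp (by fun_prop)).continuousOn (hδc _ _).continuousOn (hδc _ _).continuousOn
        (fun x hx => ⟨hs1 _ _ _ _ (by linarith [hx.1]) (by linarith [hx.2]) le_rfl (by linarith),
          hs3 _ _ _ _ (by linarith [hx.1]) (by linarith [hx.2]) (by linarith) le_rfl⟩)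
        (fun t _ => ⟨(hδV a b t).1, (hδV a b t).2.2.1⟩)
        (fun t _ => by
          have := hδV (a + 1) b t
          rw [add_sub_cancel_right] at this
          exact ⟨this.2.1, this.2.2.2⟩)
        (by rw [hδ0, add_zero]) (by rw [hδ0]; push_cast; rfl)
        (fun t ht => hδ1 _ _ t ht.1) (fun t ht => hδ1 _ _ t ht.1)
      exact ⟨M, h1, h2, h3, h4, h5, h6, h7, fun h => absurd h hall⟩
  choose MH hHc hH0 hH1 hHl hHr hHg hHg' hHf using hhor
  -- vertical edges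
  have hver : ∀ a b : ℤ, ∃ M : ℝ × ℝ → X, ContinuousOn M I2 ∧
      (∀ y ∈ Icc (0 : ℝ) 1, M (y, 0) = f (a, b + y)) ∧ (∀ x ∈ Icc (0 : ℝ) 1, M (x, 1) = c0) ∧
      (∀ t ∈ Icc (0 : ℝ) 1, M (0, t) = δ a b t) ∧
      (∀ t ∈ Icc (0 : ℝ) 1, M (1, t) = δ a (b + 1) t) ∧
      Good (U (s a b)) M ∧ Good (U (s (a - 1) b)) M ∧
      ((∀ y ∈ Icc (0 : ℝ) 1, f (a, b + y) = c0) → ∀ p ∈ I2, M p = c0) := by
    intro a b
    by_cases hall : ∀ y ∈ Icc (0 : ℝ) 1, f (a, b + y) = c0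
    · refine ⟨fun _ => c0, continuousOn_const, fun x hx => (hall x hx).symm, fun _ _ => rfl,
        fun t _ => ?_, fun t _ => ?_, Good.of_mapsTo continuousOn_const fun _ _ => hcU _,
        Good.of_mapsTo continuousOn_const fun _ _ => hcU _, fun _ _ _ => rfl⟩
      · refine (hδf a b ?_ t).symm
        have := hall 0 h01
        rwa [add_zero] at this
      · refine (hδf a (b + 1) ?_ t).symm
        have := hall 1 h11
        push_cast
        exact this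
    · obtain ⟨M, h1, h2, h3, h4, h5, h6, h7⟩ := edge_lemma (hcontr (s a b)) (hcontr (s (a - 1) b))
        (hCU _) (hCU _) (hint' _ _) hc0 (hLV _ _) (fun y => f (a, b + y)) (δ a b) (δ a (b + 1))
        (hf.comp (by fun_prop)).continuousOn (hδc _ _).continuousOn (hδc _ _).continuousOn
        (fun y hy => ⟨hs1 _ _ _ _ le_rfl (by linarith) (by linarith [hy.1]) (by linarith [hy.2]),
          hs2 _ _ _ _ (by linarith) le_rfl (by linarith [hy.1]) (by linarith [hy.2])⟩)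
        (fun t _ => ⟨(hδV a b t).1, (hδV a b t).2.1⟩)
        (fun t _ => by
          have := hδV a (b + 1) t
          rw [add_sub_cancel_right] at this
          exact ⟨this.2.2.1, this.2.2.2⟩)
        (by rw [hδ0, add_zero]) (by rw [hδ0]; push_cast; rfl)
        (fun t ht => hδ1 _ _ t ht.1) (fun t ht => hδ1 _ _ t ht.1)
      exact ⟨M, h1, h2, h3, h4, h5, h6, h7, fun h => absurd h hall⟩
  choose MV hVc hV0 hV1 hVl hVr hVg hVg' hVf using hver
  -- squares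
  have hsq : ∀ a b : ℤ, ∃ G : (ℝ × ℝ) × ℝ → X, ContinuousOn G (I2 ×ˢ Icc (0 : ℝ) 1) ∧
      (∀ p ∈ I2, G (p, 0) = f (a + p.1, b + p.2)) ∧ (∀ p ∈ I2, G (p, 1) = c0) ∧
      (∀ x ∈ Icc (0 : ℝ) 1, ∀ t ∈ Icc (0 : ℝ) 1, G ((x, 0), t) = MH a b (x, t)) ∧
      (∀ x ∈ Icc (0 : ℝ) 1, ∀ t ∈ Icc (0 : ℝ) 1, G ((x, 1), t) = MH a (b + 1) (x, t)) ∧
      (∀ y ∈ Icc (0 : ℝ) 1, ∀ t ∈ Icc (0 : ℝ) 1, G ((0, y), t) = MV a b (y, t)) ∧
      (∀ y ∈ Icc (0 : ℝ) 1, ∀ t ∈ Icc (0 : ℝ) 1, G ((1, y), t) = MV (a + 1) b (y, t)) ∧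
      ((∀ p ∈ I2, f (a + p.1, b + p.2) = c0) → ∀ p ∈ I2, ∀ t ∈ Icc (0 : ℝ) 1,
        G (p, t) = c0) := by
    intro a b
    by_cases hall : ∀ p ∈ I2, f (a + p.1, b + p.2) = c0
    · refine ⟨fun _ => c0, continuousOn_const, fun p hp => (hall p hp).symm, fun _ _ => rfl,
        fun x hx t ht => ?_, fun x hx t ht => ?_, fun y hy t ht => ?_, fun y hy t ht => ?_,
        fun _ _ _ _ _ => rfl⟩
      · refine (hHf a b (fun r hr => ?_) _ ⟨hx, ht⟩).symm
        have := hall (r, 0) ⟨hr, h01⟩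
        simpa using this
      · refine (hHf a (b + 1) (fun r hr => ?_) _ ⟨hx, ht⟩).symm
        have := hall (r, 1) ⟨hr, h11⟩
        push_cast
        exact this
      · refine (hVf a b (fun r hr => ?_) _ ⟨hy, ht⟩).symm
        have := hall (0, r) ⟨h01, hr⟩
        simpa using this
      · refine (hVf (a + 1) b (fun r hr => ?_) _ ⟨hy, ht⟩).symm
        have := hall (1, r) ⟨h11, hr⟩
        push_cast
        exact this
    · have gT := hHg' a (b + 1)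
      have gR := hVg' (a + 1) b
      rw [add_sub_cancel_right] at gT gR
      obtain ⟨G, h1, h2, h3, h4, h5, h6, h7⟩ := square_lemma (hcontr (s a b)) (hcU _)
        (fun p => f (a + p.1, b + p.2)) (hf.comp (by fun_prop)).continuousOn
        (fun p hp => hs1 _ _ _ _ (by linarith [hp.1.1]) (by linarith [hp.1.2])
          (by linarith [hp.2.1]) (by linarith [hp.2.2]))
        (MH a b) (MH a (b + 1)) (MV a b) (MV (a + 1) b) (hHg a b) gT (hVg a b) gR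
        (fun x hx => by rw [hH0 a b x hx]; simp)
        (fun x hx => by rw [hH0 a (b + 1) x hx]; push_cast; rfl)
        (fun y hy => by rw [hV0 a b y hy]; simp)
        (fun y hy => by rw [hV0 (a + 1) b y hy]; push_cast; rfl)
        (hH1 a b) (hH1 a (b + 1)) (hV1 a b) (hV1 (a + 1) b)
        (fun t ht => by rw [hHl a b t ht, hVl a b t ht])
        (fun t ht => by rw [hHr a b t ht, hVl (a + 1) b t ht])
        (fun t ht => by rw [hHl a (b + 1) t ht, hVr a b t ht])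
        (fun t ht => by rw [hHr a (b + 1) t ht, hVr (a + 1) b t ht])
      exact ⟨G, h1, h2, h3, h4, h5, h6, h7, fun h => absurd h hall⟩
  choose G hGc hG0 hG1 hGB hGT hGL hGR hGf using hsq
  -- the glued homotopy
  set H : (ℝ × ℝ) × ℝ → X := fun q =>
    G ⌊q.1.1⌋ ⌊q.1.2⌋ ((Int.fract q.1.1, Int.fract q.1.2), q.2) with hHdef
  have hfr : ∀ p : ℝ × ℝ, (Int.fract p.1, Int.fract p.2) ∈ I2 := fun p =>
    ⟨⟨Int.fract_nonneg _, (Int.fract_lt_one _).le⟩, ⟨Int.fract_nonneg _, (Int.fract_lt_one _).le⟩⟩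
  have hkey : ∀ (a b : ℤ) (x y t : ℝ), x ∈ Icc (0 : ℝ) 1 → y ∈ Icc (0 : ℝ) 1 →
      t ∈ Icc (0 : ℝ) 1 → H ((a + x, b + y), t) = G a b ((x, y), t) := by
    intro a b x y t hx hy ht
    have hlt : ∀ (a : ℤ) (x : ℝ), x ∈ Icc (0 : ℝ) 1 → x < 1 → ⌊(a : ℝ) + x⌋ = a ∧
        Int.fract ((a : ℝ) + x) = x := by
      intro a x hx hx1
      have h1 : ⌊(a : ℝ) + x⌋ = a := by
        rw [Int.floor_eq_iff]
        exact ⟨by linarith [hx.1], by linarith⟩
      refine ⟨h1, ?_⟩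
      rw [Int.fract, h1]
      ring
    have heq : ∀ (a : ℤ), ⌊(a : ℝ) + 1⌋ = a + 1 ∧ Int.fract ((a : ℝ) + 1) = 0 := by
      intro a
      have h1 : ⌊(a : ℝ) + 1⌋ = a + 1 := by
        rw [Int.floor_add_one, Int.floor_intCast]
      refine ⟨h1, ?_⟩
      rw [Int.fract, h1]
      push_cast
      ring
    show G ⌊(a : ℝ) + x⌋ ⌊(b : ℝ) + y⌋ ((Int.fract ((a : ℝ) + x), Int.fract ((b : ℝ) + y)), t) = _
    rcases lt_or_eq_of_le hx.2 with hx1 | rfl <;> rcases lt_or_eq_of_le hy.2 with hy1 | rfl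
    · rw [(hlt a x hx hx1).1, (hlt a x hx hx1).2, (hlt b y hy hy1).1, (hlt b y hy hy1).2]
    · rw [(hlt a x hx hx1).1, (hlt a x hx hx1).2, (heq b).1, (heq b).2, hGB _ _ x hx t ht,
        hGT _ _ x hx t ht]
    · rw [(hlt b y hy hy1).1, (hlt b y hy hy1).2, (heq a).1, (heq a).2, hGL _ _ y hy t ht,
        hGR _ _ y hy t ht]
    · rw [(heq a).1, (heq a).2, (heq b).1, (heq b).2, hGL _ _ 0 h01 t ht, hVl _ _ t ht,
        hGR _ _ 1 h11 t ht, hVr _ _ t ht]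
  refine ⟨H, ?_, ?_, ?_, ?_⟩
  · have hcover : (univ ×ˢ Icc (0 : ℝ) 1 : Set ((ℝ × ℝ) × ℝ)) = ⋃ i : ℤ × ℤ,
        (Icc (i.1 : ℝ) (i.1 + 1) ×ˢ Icc (i.2 : ℝ) (i.2 + 1)) ×ˢ Icc (0 : ℝ) 1 := by
      ext ⟨⟨x, y⟩, t⟩
      simp only [mem_prod, mem_univ, true_and, mem_iUnion]
      constructor
      · intro ht
        exact ⟨(⌊x⌋, ⌊y⌋), ⟨⟨Int.floor_le x, (Int.lt_floor_add_one x).le⟩,
          ⟨Int.floor_le y, (Int.lt_floor_add_one y).le⟩⟩, ht⟩
      · rintro ⟨i, -, ht⟩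
        exact ht
    rw [hcover]
    apply grid_locallyFinite.continuousOn_iUnion
    · intro i
      exact (isClosed_Icc.prod isClosed_Icc).prod isClosed_Icc
    · rintro ⟨a, b⟩
      have h1 : ContinuousOn (fun q : (ℝ × ℝ) × ℝ => G a b ((q.1.1 - a, q.1.2 - b), q.2))
          ((Icc (a : ℝ) (a + 1) ×ˢ Icc (b : ℝ) (b + 1)) ×ˢ Icc (0 : ℝ) 1) := by
        refine (hGc a b).comp (f := fun q : (ℝ × ℝ) × ℝ => ((q.1.1 - a, q.1.2 - b), q.2))
          (by fun_prop) ?_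
        rintro ⟨⟨x, y⟩, t⟩ ⟨⟨hx, hy⟩, ht⟩
        exact ⟨⟨⟨by linarith [hx.1], by linarith [hx.2]⟩, ⟨by linarith [hy.1],
          by linarith [hy.2]⟩⟩, ht⟩
      refine h1.congr ?_
      rintro ⟨⟨x, y⟩, t⟩ ⟨⟨hx, hy⟩, ht⟩
      have := hkey a b (x - a) (y - b) t ⟨by linarith [hx.1], by linarith [hx.2]⟩
        ⟨by linarith [hy.1], by linarith [hy.2]⟩ ht
      rw [add_sub_cancel, add_sub_cancel] at this
      exact this
  · intro p
    show G ⌊p.1⌋ ⌊p.2⌋ ((Int.fract p.1, Int.fract p.2), 0) = _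
    rw [hG0 _ _ _ (hfr p)]
    simp only [Int.floor_add_fract]
  · intro p
    show G ⌊p.1⌋ ⌊p.2⌋ ((Int.fract p.1, Int.fract p.2), 1) = _
    rw [hG1 _ _ _ (hfr p)]
  · intro p hp t ht
    show G ⌊p.1⌋ ⌊p.2⌋ ((Int.fract p.1, Int.fract p.2), t) = _
    by_cases hout : (∀ q ∈ I2, f (⌊p.1⌋ + q.1, ⌊p.2⌋ + q.2) = c0)
    · exact hGf _ _ hout _ (hfr p) t ht
    · push Not at hout
      obtain ⟨q, hq, hqf⟩ := hout
      have hq' : ((⌊p.1⌋ : ℝ) + q.1, (⌊p.2⌋ : ℝ) + q.2) ∈ Ioo (0 : ℝ) N ×ˢ Ioo (0 : ℝ) N := by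
        by_contra h
        exact hqf (hf0 _ h)
      obtain ⟨⟨q1, q2⟩, ⟨q3, q4⟩⟩ := hq'
      obtain ⟨⟨q5, q6⟩, ⟨q7, q8⟩⟩ := hq
      simp only at q1 q2 q3 q4 q5 q6 q7 q8
      -- the integer parts are in `[0, N)`
      have a1 : 0 ≤ ⌊p.1⌋ := by
        have : ((-1 : ℤ) : ℝ) < ⌊p.1⌋ := by push_cast; linarith
        have := Int.cast_lt.mp this
        omega
      have a2 : ⌊p.1⌋ + 1 ≤ N := by
        have : ((⌊p.1⌋ : ℤ) : ℝ) < ((N : ℤ) : ℝ) := by push_cast; linarith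
        have := Int.cast_lt.mp this
        omega
      have b1 : 0 ≤ ⌊p.2⌋ := by
        have : ((-1 : ℤ) : ℝ) < ⌊p.2⌋ := by push_cast; linarith
        have := Int.cast_lt.mp this
        omega
      have b2 : ⌊p.2⌋ + 1 ≤ N := by
        have : ((⌊p.2⌋ : ℤ) : ℝ) < ((N : ℤ) : ℝ) := by push_cast; linarith
        have := Int.cast_lt.mp this
        omega
      have a1' : (0 : ℝ) ≤ ⌊p.1⌋ := by exact_mod_cast a1
      have a2' : (⌊p.1⌋ : ℝ) + 1 ≤ N := by exact_mod_cast a2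
      have b1' : (0 : ℝ) ≤ ⌊p.2⌋ := by exact_mod_cast b1
      have b2' : (⌊p.2⌋ : ℝ) + 1 ≤ N := by exact_mod_cast b2
      have p1 : 0 ≤ p.1 := a1'.trans (Int.floor_le _)
      have p2 : p.1 < N := (Int.lt_floor_add_one _).trans_le a2'
      have p3 : 0 ≤ p.2 := b1'.trans (Int.floor_le _)
      have p4 : p.2 < N := (Int.lt_floor_add_one _).trans_le b2'
      have hz : p.1 = 0 ∨ p.2 = 0 := by
        by_contra h
        push Not at h
        exact hp ⟨⟨lt_of_le_of_ne p1 (Ne.symm h.1), p2⟩, ⟨lt_of_le_of_ne p3 (Ne.symm h.2), p4⟩⟩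
      rcases hz with hz | hz
      · rw [hz, Int.fract_zero, hGL _ _ _ (hfr p).2 t ht]
        refine hVf _ _ (fun y _ => ?_) (Int.fract p.2, t) ⟨(hfr p).2, ht⟩
        apply hf0
        rintro ⟨⟨h, -⟩, -⟩
        simp at h
      · rw [hz, Int.fract_zero, hGB _ _ _ (hfr p).1 t ht]
        refine hHf _ _ (fun y _ => ?_) (Int.fract p.1, t) ⟨(hfr p).1, ht⟩
        apply hf0
        rintro ⟨-, ⟨h, -⟩⟩
        simp at h

end Pool.Agent.GCW
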