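import Pool.Agent.Lib.MP_63e749_al.Fill

/-!
# Homotopies of maps on the unit square relative to the boundary
-/

set_option autoImplicit false

open Set Metric Topology

namespace Pool.Agent.GCW

/-- The closed unit square. -/
def I2 : Set (ℝ × ℝ) := Icc 0 1 ×ˢ Icc 0 1

/-- The boundary of the unit square. -/
def bI2 : Set (ℝ × ℝ) := {p | p ∈ I2 ∧ (p.1 = 0 ∨ p.1 = 1 ∨ p.2 = 0 ∨ p.2 = 1)}

theorem bI2_subset : bI2 ⊆ I2 := fun _ h => h.1

/-- The centre of the unit square. -/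
noncomputable def ctr2 : ℝ × ℝ := (1 / 2, 1 / 2)

/-- The centre of the unit cube. -/
noncomputable def ctr3 : ℝ × (ℝ × ℝ) := (1 / 2, ctr2)

theorem abs_half_le_iff (x : ℝ) : |x - 1 / 2| ≤ 1 / 2 ↔ x ∈ Icc (0 : ℝ) 1 := by
  rw [abs_le, mem_Icc]
  constructor <;> rintro ⟨h1, h2⟩ <;> constructor <;> linarith

theorem abs_half_eq_iff (x : ℝ) : |x - 1 / 2| = 1 / 2 ↔ x = 0 ∨ x = 1 := by
  rw [abs_eq (by norm_num)]
  constructor
  · rintro (h | h)
    · right; linarith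
    · left; linarith
  · rintro (h | h)
    · right; linarith
    · left; linarith

theorem closedBall_ctr2 : closedBall ctr2 (1 / 2) = I2 := by
  ext p
  simp only [mem_closedBall, ctr2, Prod.dist_eq, Real.dist_eq, max_le_iff, abs_half_le_iff, I2,
    mem_prod]

theorem closedBall_ctr3 : closedBall ctr3 (1 / 2) = Icc (0 : ℝ) 1 ×ˢ I2 := by
  ext p
  rw [mem_closedBall, Prod.dist_eq, max_le_iff, mem_prod, ← closedBall_ctr2, mem_closedBall]
  simp only [ctr3, Real.dist_eq, abs_half_le_iff]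

theorem max_eq_iff' (a b r : ℝ) : max a b = r ↔ max a b ≤ r ∧ (a = r ∨ b = r) := by
  constructor
  · intro h
    refine ⟨h.le, ?_⟩
    rcases max_choice a b with h1 | h1
    · exact Or.inl (h1 ▸ h)
    · exact Or.inr (h1 ▸ h)
  · rintro ⟨h1, h2 | h2⟩
    · exact le_antisymm h1 (h2 ▸ le_max_left a b)
    · exact le_antisymm h1 (h2 ▸ le_max_right a b)

theorem sphere_ctr2 : sphere ctr2 (1 / 2) = bI2 := by
  ext p
  have h0 : p ∈ sphere ctr2 (1 / 2) ↔ p ∈ closedBall ctr2 (1 / 2) ∧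
      (|p.1 - 1 / 2| = 1 / 2 ∨ |p.2 - 1 / 2| = 1 / 2) := by
    simp only [mem_sphere, mem_closedBall, ctr2, Prod.dist_eq, Real.dist_eq]
    exact max_eq_iff' _ _ _
  rw [h0, closedBall_ctr2, abs_half_eq_iff, abs_half_eq_iff]
  simp only [bI2, mem_ofPred_eq]
  tauto

theorem mem_sphere_ctr3 (q : ℝ × (ℝ × ℝ)) : q ∈ sphere ctr3 (1 / 2) ↔
    (q.1 ∈ Icc (0 : ℝ) 1 ∧ q.2 ∈ I2) ∧ (q.1 = 0 ∨ q.1 = 1 ∨ q.2 ∈ bI2) := by
  have h0 : q ∈ sphere ctr3 (1 / 2) ↔ q ∈ closedBall ctr3 (1 / 2) ∧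
      (|q.1 - 1 / 2| = 1 / 2 ∨ q.2 ∈ sphere ctr2 (1 / 2)) := by
    have h1 : dist q ctr3 = max (|q.1 - 1 / 2|) (dist q.2 ctr2) := rfl
    rw [mem_sphere, mem_closedBall, mem_sphere, h1]
    exact max_eq_iff' _ _ _
  rw [h0, closedBall_ctr3, abs_half_eq_iff, sphere_ctr2, mem_prod]
  tauto

theorem isClosed_I2 : IsClosed I2 := isClosed_Icc.prod isClosed_Icc

theorem isClosed_bI2 : IsClosed bI2 := by
  rw [← sphere_ctr2]
  exact isClosed_sphere

variable {X : Type} [TopologicalSpace X]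

/-- `M` and `M'` (maps on the unit square) are homotopic relative to the boundary. -/
def HR (M M' : ℝ × ℝ → X) : Prop :=
  ∃ F : ℝ × (ℝ × ℝ) → X, ContinuousOn F (Icc (0 : ℝ) 1 ×ˢ I2) ∧ (∀ p ∈ I2, F (0, p) = M p) ∧
    (∀ p ∈ I2, F (1, p) = M' p) ∧ ∀ θ ∈ Icc (0 : ℝ) 1, ∀ p ∈ bI2, F (θ, p) = M p

theorem HR.refl {M : ℝ × ℝ → X} (hM : ContinuousOn M I2) : HR M M :=
  ⟨fun q => M q.2, hM.comp continuousOn_snd (fun _ hq => hq.2), fun _ _ => rfl, fun _ _ => rfl,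
    fun _ _ _ _ => rfl⟩

theorem HR.continuousOn_left {M M' : ℝ × ℝ → X} (h : HR M M') : ContinuousOn M I2 := by
  obtain ⟨F, h1, h2, -, -⟩ := h
  refine ContinuousOn.congr (f := fun p => F (0, p)) ?_ fun p hp => (h2 p hp).symm
  exact h1.comp (by fun_prop) fun p hp => ⟨⟨le_rfl, zero_le_one⟩, hp⟩

theorem HR.continuousOn_right {M M' : ℝ × ℝ → X} (h : HR M M') : ContinuousOn M' I2 := by
  obtain ⟨F, h1, -, h2, -⟩ := h
  refine ContinuousOn.congr (f := fun p => F (1, p)) ?_ fun p hp => (h2 p hp).symm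
  exact h1.comp (by fun_prop) fun p hp => ⟨⟨zero_le_one, le_rfl⟩, hp⟩

theorem HR.eqOn {M M' : ℝ × ℝ → X} (h : HR M M') : EqOn M M' bI2 := by
  obtain ⟨F, -, -, h2, h3⟩ := h
  intro p hp
  rw [← h2 p hp.1, h3 1 ⟨zero_le_one, le_rfl⟩ p hp]

/-- Two maps from the square to a contractible subspace which agree on the boundary are
homotopic relative to the boundary. -/
theorem HR_of_contractible {U : Set X} (hU : ContractibleSpace U) {M M' : ℝ × ℝ → X}
    (hM : ContinuousOn M I2) (hM' : ContinuousOn M' I2) (hMU : MapsTo M I2 U)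
    (hMU' : MapsTo M' I2 U) (h : EqOn M M' bI2) : HR M M' := by
  classical
  set g : ℝ × (ℝ × ℝ) → X := fun q => if q.1 = 1 then M' q.2 else M q.2 with hg
  set A : Set (ℝ × (ℝ × ℝ)) := {q | q.1 = 1 ∧ q.2 ∈ I2} with hA
  set B : Set (ℝ × (ℝ × ℝ)) := {q | q.1 ∈ Icc (0 : ℝ) 1 ∧ q.2 ∈ I2 ∧ (q.1 = 0 ∨ q.2 ∈ bI2)} with hB
  have hAB : sphere ctr3 (1 / 2) ⊆ A ∪ B := by
    intro q hq
    rw [mem_sphere_ctr3] at hq
    rcases hq with ⟨⟨h1, h2⟩, h3 | h3 | h3⟩
    · exact Or.inr ⟨h1, h2, Or.inl h3⟩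
    · exact Or.inl ⟨h3, h2⟩
    · exact Or.inr ⟨h1, h2, Or.inr h3⟩
  have hAc : IsClosed A := (isClosed_eq continuous_fst continuous_const).inter
    (isClosed_I2.preimage continuous_snd)
  have hBc : IsClosed B := (isClosed_Icc.preimage continuous_fst).inter
    ((isClosed_I2.preimage continuous_snd).inter
      ((isClosed_eq continuous_fst continuous_const).union (isClosed_bI2.preimage continuous_snd)))
  have eA : EqOn g (fun q => M' q.2) A := fun q hq => if_pos hq.1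
  have eB : EqOn g (fun q => M q.2) B := by
    intro q hq
    by_cases h1 : q.1 = 1
    · simp only [hg, h1, if_pos]
      rcases hq.2.2 with h2 | h2
      · rw [h1] at h2
        exact absurd h2 one_ne_zero
      · exact (h h2).symm
    · simp only [hg, h1, if_neg, not_false_iff]
  have hgc : ContinuousOn g (sphere ctr3 (1 / 2)) := by
    refine ContinuousOn.mono ?_ hAB
    refine ContinuousOn.union_of_isClosed ?_ ?_ hAc hBc
    · exact (hM'.comp continuousOn_snd fun q hq => hq.2).congr eA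
    · exact (hM.comp continuousOn_snd fun q hq => hq.2.1).congr eB
  have hgU : MapsTo g (sphere ctr3 (1 / 2)) U := by
    intro q hq
    rcases hAB hq with h1 | h1
    · rw [eA h1]
      exact hMU' h1.2
    · rw [eB h1]
      exact hMU h1.2.1
  obtain ⟨F, h1, -, h3⟩ := fill_of_contractible ctr3 (by norm_num : (0 : ℝ) < 1 / 2) hU g hgc hgU
  rw [closedBall_ctr3] at h1
  refine ⟨F, h1, ?_, ?_, ?_⟩
  · intro p hp
    rw [h3 ((mem_sphere_ctr3 _).2 ⟨⟨⟨le_rfl, zero_le_one⟩, hp⟩, Or.inl rfl⟩)]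
    simp [hg]
  · intro p hp
    rw [h3 ((mem_sphere_ctr3 _).2 ⟨⟨⟨zero_le_one, le_rfl⟩, hp⟩, Or.inr (Or.inl rfl)⟩)]
    simp [hg]
  · intro θ hθ p hp
    rw [h3 ((mem_sphere_ctr3 _).2 ⟨⟨hθ, hp.1⟩, Or.inr (Or.inr hp)⟩)]
    exact eB ⟨hθ, hp.1, Or.inr hp⟩

/-- The map `M` on the square is homotopic relative to the boundary to a map into `U`. -/
def Good (U : Set X) (M : ℝ × ℝ → X) : Prop :=
  ∃ M' : ℝ × ℝ → X, MapsTo M' I2 U ∧ HR M M'

theorem Good.of_mapsTo {U : Set X} {M : ℝ × ℝ → X} (hM : ContinuousOn M I2)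
    (h : MapsTo M I2 U) : Good U M :=
  ⟨M, h, HR.refl hM⟩

/-- The hypothesis on null homotopies of loops in `C` (proved in `LoopV.lean`): if `N` and `N'`
are null homotopies of the same loop of `C` at `c0`, in `U` and in `U'`, then `N` and `N'` are
homotopic relative to the boundary (in `X`). -/
def LVProp (C U U' : Set X) (c0 : X) : Prop :=
  ∀ N N' : ℝ × ℝ → X, ContinuousOn N I2 → ContinuousOn N' I2 → MapsTo N I2 U →
    MapsTo N' I2 U' → EqOn N N' bI2 → (∀ x ∈ Icc (0 : ℝ) 1, N (x, 0) ∈ C) →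
    (∀ t ∈ Icc (0 : ℝ) 1, N (0, t) = c0 ∧ N (1, t) = c0 ∧ N (t, 1) = c0) → HR N N'

end Pool.Agent.GCW
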