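import Pool.Agent.Lib.MP_63e749_al.Grid

/-!
# JOB LEBESGUE: from the grid to arbitrary maps of the square
-/

set_option autoImplicit false

open Set Metric Topology

namespace Pool.Agent.GCW

variable {X : Type} [TopologicalSpace X]

/-- Every map of the plane which is constant `c0` outside the open unit square is null homotopic
relative to the complement of the open unit square. -/
def NullSq (X : Type) [TopologicalSpace X] (c0 : X) : Prop :=
  ∀ f : ℝ × ℝ → X, Continuous f → (∀ p : ℝ × ℝ, p ∉ Ioo (0 : ℝ) 1 ×ˢ Ioo (0 : ℝ) 1 → f p = c0) →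
    ∃ H : (ℝ × ℝ) × ℝ → X, ContinuousOn H (univ ×ˢ Icc (0 : ℝ) 1) ∧ (∀ p, H (p, 0) = f p) ∧
      (∀ p, H (p, 1) = c0) ∧
      ∀ p : ℝ × ℝ, p ∉ Ioo (0 : ℝ) 1 ×ˢ Ioo (0 : ℝ) 1 → ∀ t ∈ Icc (0 : ℝ) 1, H (p, t) = c0

theorem nullSq_of_cover {ι : Type} (U : ι → Set X) (C : Set X) (hU : ∀ i, IsOpen (U i))
    (hcov : ⋃ i, U i = univ) (hCU : ∀ i, C ⊆ U i)
    (hint : ∀ i j, i ≠ j → U i ∩ U j ⊆ C) (hcontr : ∀ i, ContractibleSpace (U i))
    (hC : PathConnectedSpace C) {c0 : X} (hc0 : c0 ∈ C)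
    (hLV : ∀ i j, LVProp C (U i) (U j) c0) : NullSq X c0 := by
  intro f hf hf0
  obtain ⟨i0, hi0⟩ : ∃ i, c0 ∈ U i := by
    have h : c0 ∈ ⋃ i, U i := by rw [hcov]; exact mem_univ _
    simpa using h
  obtain ⟨δ, hδ, hL⟩ := lebesgue_number_lemma_of_metric
    (isCompact_Icc.prod isCompact_Icc : IsCompact (Icc (0 : ℝ) 1 ×ˢ Icc (0 : ℝ) 1))
    (c := fun i => f ⁻¹' U i) (fun i => (hU i).preimage hf)
    (by
      intro x _
      have h : f x ∈ ⋃ i, U i := by rw [hcov]; exact mem_univ _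
      simpa using h)
  obtain ⟨N, hN⟩ := exists_nat_gt (1 / δ)
  have hN0 : (0 : ℝ) < N := lt_trans (by positivity) hN
  have hN1 : 1 / (N : ℝ) < δ := by
    rw [div_lt_iff₀ hN0]
    rw [div_lt_iff₀ hδ] at hN
    linarith
  set f' : ℝ × ℝ → X := fun p => f (p.1 / N, p.2 / N) with hf'
  have hf'c : Continuous f' := hf.comp (by fun_prop)
  have hf'0 : ∀ p : ℝ × ℝ, p ∉ Ioo (0 : ℝ) N ×ˢ Ioo (0 : ℝ) N → f' p = c0 := by
    intro p hp
    apply hf0
    intro h
    apply hp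
    obtain ⟨⟨h1, h2⟩, h3, h4⟩ := h
    simp only at h1 h2 h3 h4
    rw [lt_div_iff₀ hN0] at h1 h3
    rw [div_lt_iff₀ hN0] at h2 h4
    refine ⟨⟨?_, ?_⟩, ?_, ?_⟩ <;> linarith
  have hsq : ∀ a b : ℤ, ∃ i, ∀ p : ℝ × ℝ,
      p ∈ Icc (a : ℝ) (a + 1) ×ˢ Icc (b : ℝ) (b + 1) → f' p ∈ U i := by
    intro a b
    by_cases h : (0 ≤ a ∧ a + 1 ≤ N) ∧ (0 ≤ b ∧ b + 1 ≤ N)
    · obtain ⟨⟨ha, ha'⟩, hb, hb'⟩ := h
      have ha2 : (0 : ℝ) ≤ a := by exact_mod_cast ha
      have hb2 : (0 : ℝ) ≤ b := by exact_mod_cast hb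
      have ha3 : (a : ℝ) + 1 ≤ N := by exact_mod_cast ha'
      have hb3 : (b : ℝ) + 1 ≤ N := by exact_mod_cast hb'
      obtain ⟨i, hi⟩ := hL ((a : ℝ) / N, (b : ℝ) / N) (by
        refine ⟨⟨?_, ?_⟩, ?_, ?_⟩
        · exact div_nonneg ha2 hN0.le
        · rw [div_le_one hN0]; linarith
        · exact div_nonneg hb2 hN0.le
        · rw [div_le_one hN0]; linarith)
      refine ⟨i, fun p hp => ?_⟩
      have key : ∀ u v : ℝ, u ∈ Icc v (v + 1) → |u / N - v / N| < δ := by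
        intro u v huv
        rw [← sub_div, abs_div, abs_of_pos hN0, abs_of_nonneg (by linarith [huv.1])]
        refine lt_of_le_of_lt ?_ hN1
        exact div_le_div_of_nonneg_right (by linarith [huv.2]) hN0.le
      have hmem : ((p.1 / N, p.2 / N) : ℝ × ℝ) ∈ ball ((a : ℝ) / N, (b : ℝ) / N) δ := by
        rw [mem_ball, Prod.dist_eq, Real.dist_eq, Real.dist_eq]
        exact max_lt (key _ _ hp.1) (key _ _ hp.2)
      exact hi hmem
    · refine ⟨i0, fun p hp => ?_⟩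
      have h0 : f' p = c0 := by
        apply hf'0
        intro hp2
        apply h
        obtain ⟨⟨h1, h2⟩, h3, h4⟩ := hp
        obtain ⟨⟨h5, h6⟩, h7, h8⟩ := hp2
        refine ⟨⟨?_, ?_⟩, ?_, ?_⟩
        · have : (0 : ℝ) < ((a + 1 : ℤ) : ℝ) := by push_cast; linarith
          have h9 : 0 < a + 1 := by exact_mod_cast this
          omega
        · have : (a : ℝ) < ((N : ℤ) : ℝ) := by push_cast; linarith
          have h9 : a < (N : ℤ) := by exact_mod_cast this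
          omega
        · have : (0 : ℝ) < ((b + 1 : ℤ) : ℝ) := by push_cast; linarith
          have h9 : 0 < b + 1 := by exact_mod_cast this
          omega
        · have : (b : ℝ) < ((N : ℤ) : ℝ) := by push_cast; linarith
          have h9 : b < (N : ℤ) := by exact_mod_cast this
          omega
      rw [h0]
      exact hi0
  choose s hs using hsq
  obtain ⟨H', h1, h2, h3, h4⟩ := grid_null U C hCU hint hcontr hC hc0 hLV f' hf'c N hf'0 s hs
  refine ⟨fun q => H' (((N : ℝ) * q.1.1, (N : ℝ) * q.1.2), q.2), ?_, ?_, ?_, ?_⟩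
  · refine h1.comp (by fun_prop) ?_
    intro q hq
    exact ⟨mem_univ _, hq.2⟩
  · intro p
    simp only [h2, hf']
    rw [mul_div_cancel_left₀ _ hN0.ne', mul_div_cancel_left₀ _ hN0.ne']
  · intro p
    simp only [h3]
  · intro p hp t ht
    simp only
    apply h4 _ _ t ht
    intro h
    apply hp
    obtain ⟨⟨h5, h6⟩, h7, h8⟩ := h
    simp only at h5 h6 h7 h8
    refine ⟨⟨?_, ?_⟩, ?_, ?_⟩
    · exact (mul_pos_iff_of_pos_left hN0).1 h5
    · exact (mul_lt_iff_lt_one_right hN0).1 h6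
    · exact (mul_pos_iff_of_pos_left hN0).1 h7
    · exact (mul_lt_iff_lt_one_right hN0).1 h8

end Pool.Agent.GCW
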