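import Pool.Agent.Lib.MP_63e749_al.RaagDefs

/-!
# JOB RAAG: first letters in right-angled Artin groups

Words are lists over `V × Bool`. States are functions `p : V → List (Option Bool)` (stacks). The
letter `(v, ε)` pushes `some ε` to the stack `v` and `none` to the stacks of the `u ≠ v` not
adjacent to `v`, unless the head of `p v` is `some (!ε)`, when it pops. The group acts on the good states.
-/

set_option autoImplicit false

namespace Pool.Agent.GCW

variable {V : Type} (adj : V → V → Prop)

open Classical in
/-- push -/
noncomputable def raagPush (v : V) (e : Bool) (p : V → List (Option Bool)) :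
    V → List (Option Bool) :=
  fun u => if u = v then some e :: p u else if adj u v then p u else none :: p u

open Classical in
/-- pop -/
noncomputable def raagPop (v : V) (p : V → List (Option Bool)) : V → List (Option Bool) :=
  fun u => if adj u v then p u else (p u).tail

/-- invariant -/
def RaagInv (p : V → List (Option Bool)) : Prop :=
  ∀ v e, (p v).head? = some (some e) → (p v).tail.head? ≠ some (some (!e)) ∧
    ∀ u, u ≠ v → ¬ adj u v → (p u).head? = some none

/-- legal pops -/
def RaagStep (p q : V → List (Option Bool)) : Prop :=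
  ∃ v e, (p v).head? = some (some e) ∧ q = raagPop adj v p

/-- good states -/
def RaagGood (p : V → List (Option Bool)) : Prop :=
  ∀ q, Relation.ReflTransGen (RaagStep adj) p q → RaagInv adj q

variable {adj}

theorem RaagGood.inv {p : V → List (Option Bool)} (h : RaagGood adj p) : RaagInv adj p :=
  h p Relation.ReflTransGen.refl

theorem RaagGood.pop {p : V → List (Option Bool)} (h : RaagGood adj p) {v : V} {e : Bool}
    (hv : (p v).head? = some (some e)) : RaagGood adj (raagPop adj v p) :=
  fun q hq => h q (Relation.ReflTransGen.head ⟨v, e, hv, rfl⟩ hq)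

theorem raag_list_eq {l : List (Option Bool)} {a : Option Bool} (h : l.head? = some a) :
    a :: l.tail = l := by
  cases l with
  | nil => simp at h
  | cons b t =>
    simp only [List.head?_cons, Option.some.injEq] at h
    rw [h]; rfl

theorem raagPush_self (v : V) (e : Bool) (p : V → List (Option Bool)) :
    raagPush adj v e p v = some e :: p v := by simp [raagPush]

theorem raagPush_adj {u v : V} (hne : u ≠ v) (h : adj u v) (e : Bool)
    (p : V → List (Option Bool)) : raagPush adj v e p u = p u := by simp [raagPush, hne, h]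

theorem raagPush_nadj {u v : V} (hne : u ≠ v) (h : ¬ adj u v) (e : Bool)
    (p : V → List (Option Bool)) : raagPush adj v e p u = none :: p u := by
  simp [raagPush, hne, h]

theorem raagPop_adj {u v : V} (h : adj u v)
    (p : V → List (Option Bool)) : raagPop adj v p u = p u := by simp [raagPop, h]

theorem raagPop_nadj {u v : V} (h : ¬ adj u v)
    (p : V → List (Option Bool)) : raagPop adj v p u = (p u).tail := by
  simp [raagPop, h]

theorem raagPop_push (hirr : ∀ v, ¬ adj v v) (v : V) (e : Bool) (p : V → List (Option Bool)) :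
    raagPop adj v (raagPush adj v e p) = p := by
  funext u
  by_cases hne : u = v
  · subst hne
    rw [raagPop_nadj (hirr u), raagPush_self]; rfl
  · by_cases h : adj u v
    · rw [raagPop_adj h, raagPush_adj hne h]
    · rw [raagPop_nadj h, raagPush_nadj hne h]; rfl

theorem raagPush_pop (hirr : ∀ v, ¬ adj v v) {v : V} {e : Bool} {p : V → List (Option Bool)}
    (hp : RaagInv adj p) (hv : (p v).head? = some (some e)) :
    raagPush adj v e (raagPop adj v p) = p := by
  funext u
  by_cases hne : u = v
  · subst hne
    rw [raagPush_self, raagPop_nadj (hirr u), raag_list_eq hv]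
  · by_cases h : adj u v
    · rw [raagPush_adj hne h, raagPop_adj h]
    · rw [raagPush_nadj hne h, raagPop_nadj h, raag_list_eq ((hp v e hv).2 u hne h)]

theorem raag_pop_push_comm (hsymm : ∀ u v, adj u v → adj v u) (hirr : ∀ v, ¬ adj v v)
    {u v : V} (huv : adj u v) {d e : Bool} {q : V → List (Option Bool)}
    (hq : RaagInv adj q) (hu : (q u).head? = some (some d)) :
    raagPop adj u (raagPush adj v e q) = raagPush adj v e (raagPop adj u q) := by
  have hvu := hsymm _ _ huv
  have hne : u ≠ v := by rintro rfl; exact hirr _ huv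
  funext t
  by_cases h1 : t = v
  · subst h1
    rw [raagPop_adj hvu, raagPush_self, raagPush_self, raagPop_adj hvu]
  · by_cases h2 : adj t v
    · rw [raagPush_adj h1 h2]
      by_cases h3 : adj t u
      · rw [raagPop_adj h3, raagPush_adj h1 h2, raagPop_adj h3]
      · rw [raagPop_nadj h3, raagPush_adj h1 h2, raagPop_nadj h3]
    · have h4 : t ≠ u := by rintro rfl; exact h2 huv
      rw [raagPush_nadj h1 h2]
      by_cases h3 : adj t u
      · rw [raagPop_adj h3, raagPush_nadj h1 h2, raagPop_adj h3]
      · rw [raagPop_nadj h3, raagPush_nadj h1 h2, raagPop_nadj h3, List.tail_cons,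
          raag_list_eq ((hq u d hu).2 t h4 h3)]

theorem raag_push_push_comm (hsymm : ∀ u v, adj u v → adj v u) (hirr : ∀ v, ¬ adj v v)
    {u v : V} (huv : adj u v) {d e : Bool} (q : V → List (Option Bool)) :
    raagPush adj u d (raagPush adj v e q) = raagPush adj v e (raagPush adj u d q) := by
  have hvu := hsymm _ _ huv
  have hne : u ≠ v := by rintro rfl; exact hirr _ huv
  funext t
  by_cases h1 : t = v
  · subst h1
    rw [raagPush_adj hne.symm hvu, raagPush_self, raagPush_self, raagPush_adj hne.symm hvu]
  · by_cases h2 : t = u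
    · subst h2
      rw [raagPush_self, raagPush_adj hne huv, raagPush_adj hne huv, raagPush_self]
    · by_cases h3 : adj t v <;> by_cases h4 : adj t u
      · rw [raagPush_adj h2 h4, raagPush_adj h1 h3, raagPush_adj h1 h3, raagPush_adj h2 h4]
      · rw [raagPush_nadj h2 h4, raagPush_adj h1 h3, raagPush_adj h1 h3, raagPush_nadj h2 h4]
      · rw [raagPush_adj h2 h4, raagPush_nadj h1 h3, raagPush_nadj h1 h3, raagPush_adj h2 h4]
      · rw [raagPush_nadj h2 h4, raagPush_nadj h1 h3, raagPush_nadj h1 h3, raagPush_nadj h2 h4]

theorem raag_pop_pop_comm (u v : V) (q : V → List (Option Bool)) :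
    raagPop adj u (raagPop adj v q) = raagPop adj v (raagPop adj u q) := by
  funext t
  by_cases h3 : adj t v <;> by_cases h4 : adj t u
  · rw [raagPop_adj h4, raagPop_adj h3, raagPop_adj h3, raagPop_adj h4]
  · rw [raagPop_nadj h4, raagPop_adj h3, raagPop_adj h3, raagPop_nadj h4]
  · rw [raagPop_adj h4, raagPop_nadj h3, raagPop_nadj h3, raagPop_adj h4]
  · rw [raagPop_nadj h4, raagPop_nadj h3, raagPop_nadj h3, raagPop_nadj h4]

theorem raagInv_push (hsymm : ∀ u v, adj u v → adj v u) (hirr : ∀ v, ¬ adj v v) {v : V} {e : Bool}
    {q : V → List (Option Bool)} (hq : RaagInv adj q) (hv : (q v).head? ≠ some (some (!e))) :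
    RaagInv adj (raagPush adj v e q) := by
  intro u d hu
  by_cases h1 : u = v
  · subst h1
    rw [raagPush_self] at hu ⊢
    simp only [List.head?_cons, Option.some.injEq] at hu
    subst hu
    refine ⟨hv, fun t ht hadj => ?_⟩
    rw [raagPush_nadj ht hadj]; rfl
  · by_cases h2 : adj u v
    · rw [raagPush_adj h1 h2] at hu ⊢
      refine ⟨(hq u d hu).1, fun t ht hadj => ?_⟩
      have h3 : t ≠ v := by rintro rfl; exact hadj (hsymm _ _ h2)
      by_cases h4 : adj t v
      · rw [raagPush_adj h3 h4]; exact (hq u d hu).2 t ht hadj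
      · rw [raagPush_nadj h3 h4]; rfl
    · rw [raagPush_nadj h1 h2] at hu
      simp at hu

theorem RaagGood.push (hsymm : ∀ u v, adj u v → adj v u) (hirr : ∀ v, ¬ adj v v) {v : V} {e : Bool}
    {p : V → List (Option Bool)} (hp : RaagGood adj p) (hv : (p v).head? ≠ some (some (!e))) :
    RaagGood adj (raagPush adj v e p) := by
  have key : ∀ q, Relation.ReflTransGen (RaagStep adj) (raagPush adj v e p) q →
      (RaagGood adj q ∨ ∃ q', RaagGood adj q' ∧ (q' v).head? ≠ some (some (!e)) ∧
        q = raagPush adj v e q') := by
    intro q hq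
    induction hq with
    | refl => exact Or.inr ⟨p, hp, hv, rfl⟩
    | tail _ hstep ih =>
      obtain ⟨u, d, hu, rfl⟩ := hstep
      rcases ih with hg | ⟨q', hg, hv', rfl⟩
      · exact Or.inl (hg.pop hu)
      · by_cases h1 : u = v
        · subst h1
          rw [raagPop_push hirr]
          exact Or.inl hg
        · by_cases h2 : adj u v
          · rw [raagPush_adj h1 h2] at hu
            refine Or.inr ⟨raagPop adj u q', hg.pop hu, ?_,
              raag_pop_push_comm hsymm hirr h2 hg.inv hu⟩
            rw [raagPop_adj (hsymm _ _ h2)]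
            exact hv'
          · rw [raagPush_nadj h1 h2] at hu
            simp at hu
  intro q hq
  rcases key q hq with h | ⟨q', hg, hv', rfl⟩
  · exact h.inv
  · exact raagInv_push hsymm hirr hg.inv hv'

theorem raagGood_empty : RaagGood adj (fun _ => []) := by
  intro q hq
  have : q = fun _ => [] := by
    induction hq with
    | refl => rfl
    | tail _ hstep ih =>
      obtain ⟨u, d, hu, rfl⟩ := hstep
      rw [ih] at hu
      simp at hu
  rw [this]
  intro v e hv
  simp at hv

variable (adj) in
open Classical in
/-- the action of a letter -/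
noncomputable def raagAct (v : V) (e : Bool) (p : V → List (Option Bool)) :
    V → List (Option Bool) :=
  if (p v).head? = some (some (!e)) then raagPop adj v p else raagPush adj v e p

theorem raagAct_pop {v : V} {e : Bool} {p : V → List (Option Bool)}
    (h : (p v).head? = some (some (!e))) : raagAct adj v e p = raagPop adj v p := if_pos h

theorem raagAct_push {v : V} {e : Bool} {p : V → List (Option Bool)}
    (h : (p v).head? ≠ some (some (!e))) : raagAct adj v e p = raagPush adj v e p := if_neg h

theorem RaagGood.act (hsymm : ∀ u v, adj u v → adj v u) (hirr : ∀ v, ¬ adj v v)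
    {p : V → List (Option Bool)} (hp : RaagGood adj p) (v : V) (e : Bool) :
    RaagGood adj (raagAct adj v e p) := by
  by_cases h : (p v).head? = some (some (!e))
  · rw [raagAct_pop h]; exact hp.pop h
  · rw [raagAct_push h]; exact hp.push hsymm hirr h

theorem raagAct_adj {u v : V} (hirr : ∀ v, ¬ adj v v) (h : adj u v) (e : Bool)
    (p : V → List (Option Bool)) : raagAct adj v e p u = p u := by
  have hne : u ≠ v := by rintro rfl; exact hirr _ h
  by_cases h1 : (p v).head? = some (some (!e))
  · rw [raagAct_pop h1, raagPop_adj h]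
  · rw [raagAct_push h1, raagPush_adj hne h]

theorem raagAct_inv (hirr : ∀ v, ¬ adj v v)
    {p : V → List (Option Bool)} (hp : RaagGood adj p) (v : V) (e : Bool) :
    raagAct adj v (!e) (raagAct adj v e p) = p := by
  by_cases h : (p v).head? = some (some (!e))
  · rw [raagAct_pop h]
    have h2 : ((raagPop adj v p) v).head? ≠ some (some (!!e)) := by
      rw [raagPop_nadj (hirr v)]
      exact (hp.inv v (!e) h).1
    rw [raagAct_push h2, raagPush_pop hirr hp.inv h]
  · rw [raagAct_push h]
    have h2 : ((raagPush adj v e p) v).head? = some (some (!!e)) := by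
      rw [raagPush_self]; simp
    rw [raagAct_pop h2, raagPop_push hirr]

theorem raagAct_comm (hsymm : ∀ u v, adj u v → adj v u) (hirr : ∀ v, ¬ adj v v)
    {p : V → List (Option Bool)} (hp : RaagGood adj p) {u v : V} (huv : adj u v) (d e : Bool) :
    raagAct adj u d (raagAct adj v e p) = raagAct adj v e (raagAct adj u d p) := by
  have hvu := hsymm _ _ huv
  have e1 := raagAct_adj hirr huv e p
  have e2 := raagAct_adj hirr hvu d p
  by_cases h1 : (p u).head? = some (some (!d)) <;> by_cases h2 : (p v).head? = some (some (!e))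
  · rw [raagAct_pop (p := raagAct adj v e p) (by rw [e1]; exact h1),
      raagAct_pop (p := raagAct adj u d p) (by rw [e2]; exact h2), raagAct_pop h1, raagAct_pop h2,
      raag_pop_pop_comm]
  · rw [raagAct_pop (p := raagAct adj v e p) (by rw [e1]; exact h1),
      raagAct_push (p := raagAct adj u d p) (by rw [e2]; exact h2), raagAct_pop h1,
      raagAct_push h2, raag_pop_push_comm hsymm hirr huv hp.inv h1]
  · rw [raagAct_push (p := raagAct adj v e p) (by rw [e1]; exact h1),
      raagAct_pop (p := raagAct adj u d p) (by rw [e2]; exact h2), raagAct_push h1,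
      raagAct_pop h2, raag_pop_push_comm hsymm hirr hvu hp.inv h2]
  · rw [raagAct_push (p := raagAct adj v e p) (by rw [e1]; exact h1),
      raagAct_push (p := raagAct adj u d p) (by rw [e2]; exact h2), raagAct_push h1,
      raagAct_push h2, raag_push_push_comm hsymm hirr huv]

/-- the permutation of the good states given by a generator -/
noncomputable def raagPerm (hsymm : ∀ u v, adj u v → adj v u) (hirr : ∀ v, ¬ adj v v) (v : V) :
    Equiv.Perm {p : V → List (Option Bool) // RaagGood adj p} where
  toFun p := ⟨raagAct adj v true p.1, p.2.act hsymm hirr v true⟩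
  invFun p := ⟨raagAct adj v false p.1, p.2.act hsymm hirr v false⟩
  left_inv p := Subtype.ext (raagAct_inv hirr p.2 v true)
  right_inv p := Subtype.ext (raagAct_inv hirr p.2 v false)

/-- the action -/
noncomputable def raagHom (hsymm : ∀ u v, adj u v → adj v u) (hirr : ∀ v, ¬ adj v v) :
    Raag adj →* Equiv.Perm {p : V → List (Option Bool) // RaagGood adj p} :=
  PresentedGroup.toGroup (f := raagPerm hsymm hirr) (by
    rintro r ⟨u, v, huv, rfl⟩
    simp only [map_mul, map_inv, FreeGroup.lift_apply_of]
    rw [mul_inv_eq_one, mul_inv_eq_iff_eq_mul]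
    ext1 p
    apply Subtype.ext
    exact raagAct_comm hsymm hirr p.2 huv true true)

variable (adj) in
/-- letters -/
def raagLet (l : V × Bool) : Raag adj := cond l.2 (zz adj l.1) (zz adj l.1)⁻¹

variable (adj) in
/-- value of a word -/
def raagVal (w : List (V × Bool)) : Raag adj := (w.map (raagLet adj)).prod

theorem raagVal_append (w w' : List (V × Bool)) :
    raagVal adj (w ++ w') = raagVal adj w * raagVal adj w' := by
  simp [raagVal]

theorem raagVal_cons (l : V × Bool) (w : List (V × Bool)) :
    raagVal adj (l :: w) = raagLet adj l * raagVal adj w := by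
  simp [raagVal]

theorem raagLet_not (v : V) (e : Bool) : raagLet adj (v, !e) = (raagLet adj (v, e))⁻¹ := by
  cases e <;> simp [raagLet]

theorem raagLet_comm {u v : V} (h : adj u v) (d e : Bool) :
    Commute (raagLet adj (u, d)) (raagLet adj (v, e)) := by
  have := zz_comm adj h
  cases d <;> cases e <;> simp [raagLet, this]

theorem raagVal_inv (w : List (V × Bool)) :
    ∃ w', raagVal adj w' = (raagVal adj w)⁻¹ := by
  induction w with
  | nil => exact ⟨[], by simp [raagVal]⟩
  | cons l w ih =>
    obtain ⟨w', h⟩ := ih
    refine ⟨w' ++ [(l.1, !l.2)], ?_⟩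
    rw [raagVal_append, raagVal_cons, h, raagVal_cons, raagLet_not]
    simp [raagVal]

theorem raagVal_surj (g : Raag adj) : ∃ w, raagVal adj w = g := by
  have hg : g ∈ Subgroup.closure (Set.range (PresentedGroup.of (rels := raagRels adj))) := by
    rw [PresentedGroup.closure_range_of]; trivial
  induction hg using Subgroup.closure_induction with
  | mem x hx =>
    obtain ⟨v, rfl⟩ := hx
    exact ⟨[(v, true)], by simp [raagVal, raagLet, zz]⟩
  | one => exact ⟨[], by simp [raagVal]⟩
  | mul x y _ _ hx hy =>
    obtain ⟨w, rfl⟩ := hx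
    obtain ⟨w', rfl⟩ := hy
    exact ⟨w ++ w', raagVal_append _ _⟩
  | inv x _ hx =>
    obtain ⟨w, rfl⟩ := hx
    exact raagVal_inv w

theorem raagHom_let (hsymm : ∀ u v, adj u v → adj v u) (hirr : ∀ v, ¬ adj v v) (v : V) (e : Bool)
    (p : {p : V → List (Option Bool) // RaagGood adj p}) :
    (raagHom hsymm hirr (raagLet adj (v, e)) p).1 = raagAct adj v e p.1 := by
  have h : raagHom hsymm hirr (zz adj v) = raagPerm hsymm hirr v := by
    simp [raagHom, zz]
  cases e with
  | false =>
    show (raagHom hsymm hirr (zz adj v)⁻¹ p).1 = _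
    rw [map_inv, h]; rfl
  | true =>
    show (raagHom hsymm hirr (zz adj v) p).1 = _
    rw [h]; rfl

open Classical in
variable (adj) in
/-- stack of a word -/
noncomputable def raagStk (x : V) : List (V × Bool) → List (Option Bool)
  | [] => []
  | l :: w => if x = l.1 then some l.2 :: raagStk x w else if adj x l.1 then raagStk x w else
    none :: raagStk x w

variable (adj) in
/-- pushing a word -/
noncomputable def raagPw (w : List (V × Bool)) (q : V → List (Option Bool)) :
    V → List (Option Bool) :=
  w.foldr (fun l p => raagPush adj l.1 l.2 p) q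

theorem raagPw_cons (l : V × Bool) (w : List (V × Bool)) (q : V → List (Option Bool)) :
    raagPw adj (l :: w) q = raagPush adj l.1 l.2 (raagPw adj w q) := rfl

theorem raagPw_eq (w : List (V × Bool)) (q : V → List (Option Bool)) (x : V) :
    raagPw adj w q x = raagStk adj x w ++ q x := by
  induction w with
  | nil => rfl
  | cons l w ih =>
    rw [raagPw_cons]
    by_cases h1 : x = l.1
    · subst h1; rw [raagPush_self, ih]; simp [raagStk]
    · by_cases h2 : adj x l.1
      · rw [raagPush_adj h1 h2, ih]; simp [raagStk, h1, h2]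
      · rw [raagPush_nadj h1 h2, ih]; simp [raagStk, h1, h2]

variable (adj) in
/-- all letters push -/
def RaagAll : List (V × Bool) → (V → List (Option Bool)) → Prop
  | [], _ => True
  | l :: w, q => RaagAll w q ∧ (raagPw adj w q l.1).head? ≠ some (some (!l.2))

theorem raagHom_all (hsymm : ∀ u v, adj u v → adj v u) (hirr : ∀ v, ¬ adj v v)
    (w : List (V × Bool)) (p : {p : V → List (Option Bool) // RaagGood adj p})
    (h : RaagAll adj w p.1) :
    (raagHom hsymm hirr (raagVal adj w) p).1 = raagPw adj w p.1 := by
  induction w with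
  | nil => simp [raagVal, raagPw]
  | cons l w ih =>
    obtain ⟨v, e⟩ := l
    rw [raagVal_cons, map_mul, Equiv.Perm.mul_apply, raagHom_let, ih h.1, raagAct_push h.2]
    rfl

/-- moving a letter to the front -/
theorem raag_front (w : List (V × Bool)) (hsymm : ∀ u v, adj u v → adj v u) {v : V} {d : Bool}
    (hv : (raagStk adj v w).head? = some (some d)) :
    ∃ w' : List (V × Bool), w'.length + 1 = w.length ∧
      raagVal adj w = raagLet adj (v, d) * raagVal adj w' := by
  induction w with
  | nil => simp [raagStk] at hv
  | cons l w ih =>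
    obtain ⟨u, c⟩ := l
    by_cases h1 : v = u
    · subst h1
      simp only [raagStk, if_true, List.head?_cons, Option.some.injEq] at hv
      subst hv
      exact ⟨w, rfl, raagVal_cons _ _⟩
    · by_cases h2 : adj v u
      · simp only [raagStk, if_neg h1, if_pos h2] at hv
        obtain ⟨w', h3, h4⟩ := ih hv
        refine ⟨(u, c) :: w', by simp [← h3], ?_⟩
        rw [raagVal_cons, h4, raagVal_cons, ← mul_assoc, ← mul_assoc,
          (raagLet_comm (hsymm _ _ h2) c d).eq]
      · simp only [raagStk, if_neg h1, if_neg h2] at hv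
        simp at hv

/-- if the stack of `v` is empty then all letters commute with `v` -/
theorem raag_empty_stk {w : List (V × Bool)} {v : V} (h : raagStk adj v w = []) :
    ∀ l ∈ w, adj v l.1 := by
  induction w with
  | nil => simp
  | cons l w ih =>
    by_cases h1 : v = l.1
    · simp [raagStk, h1] at h
    · by_cases h2 : adj v l.1
      · simp only [raagStk, if_neg h1, if_pos h2] at h
        intro l' hl'
        rcases List.mem_cons.1 hl' with rfl | hl'
        · exact h2
        · exact ih h l' hl'
      · simp [raagStk, h1, h2] at h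

theorem raag_commute_word {w : List (V × Bool)} {v : V} (h : ∀ l ∈ w, adj v l.1) (e : Bool) :
    Commute (raagLet adj (v, e)) (raagVal adj w) := by
  induction w with
  | nil => simp [raagVal]
  | cons l w ih =>
    rw [raagVal_cons]
    exact (raagLet_comm (h l List.mem_cons_self) e l.2).mul_right
      (ih fun l' hl' => h l' (List.mem_cons_of_mem _ hl'))

theorem raag_mem_of_head {w : List (V × Bool)} {v : V} {d : Bool}
    (h : (raagStk adj v w).head? = some (some d)) : ∃ e, (v, e) ∈ w := by
  induction w with
  | nil => simp [raagStk] at h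
  | cons l w ih =>
    by_cases h1 : v = l.1
    · exact ⟨l.2, by rw [h1]; exact List.mem_cons_self⟩
    · by_cases h2 : adj v l.1
      · simp only [raagStk, if_neg h1, if_pos h2] at h
        obtain ⟨e, he⟩ := ih h
        exact ⟨e, List.mem_cons_of_mem _ he⟩
      · simp [raagStk, h1, h2] at h

theorem raagAll_of_append {w1 w2 : List (V × Bool)} {q : V → List (Option Bool)}
    (h : RaagAll adj (w1 ++ w2) q) : RaagAll adj w2 q := by
  induction w1 with
  | nil => exact h
  | cons l w ih => exact ih h.1

/-- failure of pushing -/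
theorem raag_not_all {w : List (V × Bool)} {q : V → List (Option Bool)}
    (h : ¬ RaagAll adj w q) : ∃ w1 v e w2, w = w1 ++ (v, e) :: w2 ∧ RaagAll adj w2 q ∧
      (raagPw adj w2 q v).head? = some (some (!e)) := by
  induction w with
  | nil => exact absurd trivial h
  | cons l w ih =>
    by_cases h1 : RaagAll adj w q
    · have h2 : (raagPw adj w q l.1).head? = some (some (!l.2)) := by
        by_contra h3; exact h ⟨h1, h3⟩
      exact ⟨[], l.1, l.2, w, rfl, h1, h2⟩
    · obtain ⟨w1, v, e, w2, h2, h3, h4⟩ := ih h1
      exact ⟨l :: w1, v, e, w2, by rw [h2]; rfl, h3, h4⟩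

/-- shortest words push on the empty state -/
theorem raag_min_all (hsymm : ∀ u v, adj u v → adj v u) {w : List (V × Bool)}
    (hw : ∀ w', raagVal adj w' = raagVal adj w → w.length ≤ w'.length) :
    RaagAll adj w (fun _ => []) := by
  by_contra h
  obtain ⟨w1, v, e, w2, rfl, h2, h3⟩ := raag_not_all h
  rw [raagPw_eq, List.append_nil] at h3
  obtain ⟨w', h4, h5⟩ := raag_front w2 hsymm h3
  have h6 := hw (w1 ++ w') (by
    rw [raagVal_append, raagVal_append, raagVal_cons, h5, raagLet_not]; group)
  simp only [List.length_append, List.length_cons] at h6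
  omega

variable (adj) in
theorem exists_firstLetters (hsymm : ∀ u v, adj u v → adj v u) (hirr : ∀ v, ¬ adj v v) :
    ∃ D : Raag adj → Set V, (∀ g, D g = ∅ → g = 1) ∧
      (∀ σ : Set V, IsClq adj σ → ∀ g g' : Raag adj, g⁻¹ * g' ∈ par adj σ →
        ∀ x ∈ D g, ∀ y ∈ D g', x = y ∨ adj x y) ∧
      (∀ σ : Set V, IsClq adj σ → ∀ g ∈ par adj σ, D g ⊆ σ) := by
  classical
  let o : {p : V → List (Option Bool) // RaagGood adj p} := ⟨fun _ => [], raagGood_empty⟩
  let D : Raag adj → Set V := fun g =>
    {v | ∃ e, ((raagHom hsymm hirr g o).1 v).head? = some (some e)}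
  have h3 : ∀ σ : Set V, ∀ g ∈ par adj σ, ∀ p : {p : V → List (Option Bool) // RaagGood adj p},
      (∀ v ∉ σ, ∀ x ∈ p.1 v, x = none) →
      ∀ v ∉ σ, ∀ x ∈ (raagHom hsymm hirr g p).1 v, x = none := by
    intro σ g hg
    have hlet : ∀ (u : V) (hu : u ∈ σ) (e : Bool)
        (p : {p : V → List (Option Bool) // RaagGood adj p}),
        (∀ v ∉ σ, ∀ x ∈ p.1 v, x = none) →
        ∀ v ∉ σ, ∀ x ∈ raagAct adj u e p.1 v, x = none := by
      intro u hu e p hp v hv x hx
      have hne : v ≠ u := by rintro rfl; exact hv hu
      by_cases ha : adj v u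
      · rw [raagAct_adj hirr ha] at hx
        exact hp v hv x hx
      · by_cases hh : (p.1 u).head? = some (some (!e))
        · rw [raagAct_pop hh, raagPop_nadj ha] at hx
          exact hp v hv x (List.mem_of_mem_tail hx)
        · rw [raagAct_push hh, raagPush_nadj hne ha] at hx
          rcases List.mem_cons.1 hx with rfl | hx
          · rfl
          · exact hp v hv x hx
    have hgen : ∀ x ∈ zz adj '' σ, ∀ p : {p : V → List (Option Bool) // RaagGood adj p},
        (∀ v ∉ σ, ∀ x ∈ p.1 v, x = none) →
        (∀ v ∉ σ, ∀ y ∈ (raagHom hsymm hirr x p).1 v, y = none) ∧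
        (∀ v ∉ σ, ∀ y ∈ (raagHom hsymm hirr x⁻¹ p).1 v, y = none) := by
      rintro x ⟨u, hu, rfl⟩ p hp
      have e1 := raagHom_let hsymm hirr u true p
      have e2 := raagHom_let hsymm hirr u false p
      have e1' : raagLet adj (u, true) = zz adj u := rfl
      have e2' : raagLet adj (u, false) = (zz adj u)⁻¹ := rfl
      rw [e1'] at e1
      rw [e2'] at e2
      rw [e1, e2]
      exact ⟨hlet u hu true p hp, hlet u hu false p hp⟩
    have hboth : ∀ p : {p : V → List (Option Bool) // RaagGood adj p},
        (∀ v ∉ σ, ∀ x ∈ p.1 v, x = none) →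
        (∀ v ∉ σ, ∀ y ∈ (raagHom hsymm hirr g p).1 v, y = none) ∧
        (∀ v ∉ σ, ∀ y ∈ (raagHom hsymm hirr g⁻¹ p).1 v, y = none) := by
      induction hg using Subgroup.closure_induction with
      | mem x hx => exact hgen x hx
      | one => intro p hp; simpa using hp
      | mul x y _ _ hx hy =>
        intro p hp
        refine ⟨?_, ?_⟩
        · rw [map_mul, Equiv.Perm.mul_apply]
          exact (hx _ (hy p hp).1).1
        · rw [mul_inv_rev, map_mul, Equiv.Perm.mul_apply]
          exact (hy _ (hx p hp).2).2
      | inv x _ hx =>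
        intro p hp
        rw [inv_inv]
        exact ⟨(hx p hp).2, (hx p hp).1⟩
    intro p hp
    exact (hboth p hp).1
  have hD3 : ∀ σ : Set V, ∀ g ∈ par adj σ, D g ⊆ σ := by
    intro σ g hg v hv
    obtain ⟨e, he⟩ := hv
    by_contra hvσ
    have := h3 σ g hg o (by simp [o]) v hvσ (some e) (List.mem_of_mem_head? he)
    simp at this
  refine ⟨D, ?_, ?_, fun σ _ g hg => hD3 σ g hg⟩
  · intro g hg
    -- shortest word
    obtain ⟨w, hwv, hwm⟩ : ∃ w, raagVal adj w = g ∧
        ∀ w', raagVal adj w' = g → w.length ≤ w'.length := by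
      have hne : {n | ∃ w : List (V × Bool), raagVal adj w = g ∧ w.length = n}.Nonempty := by
        obtain ⟨w, hw⟩ := raagVal_surj g
        exact ⟨w.length, w, hw, rfl⟩
      obtain ⟨w, hw1, hw2⟩ := Nat.sInf_mem hne
      refine ⟨w, hw1, fun w' hw' => ?_⟩
      rw [hw2]
      exact Nat.sInf_le ⟨w', hw', rfl⟩
    cases w with
    | nil => rw [← hwv]; simp [raagVal]
    | cons l w =>
      exfalso
      have hall := raag_min_all hsymm (w := l :: w) (by rw [hwv]; exact hwm)
      have h1 := raagHom_all hsymm hirr (l :: w) o hall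
      have h2 : l.1 ∈ D g := by
        refine ⟨l.2, ?_⟩
        rw [← hwv, h1, raagPw_cons, raagPush_self]; rfl
      rw [hg] at h2
      exact h2
  · intro σ hσ g g' hgg x hx y hy
    -- shortest word in the coset
    obtain ⟨w, a, ha, hwv, hwm⟩ : ∃ (w : List (V × Bool)) (a : Raag adj), a ∈ par adj σ ∧
        raagVal adj w * a = g ∧ ∀ (w' : List (V × Bool)) (a' : Raag adj), a' ∈ par adj σ →
          raagVal adj w' * a' = g → w.length ≤ w'.length := by
      have hne : {n | ∃ (w : List (V × Bool)) (a : Raag adj), a ∈ par adj σ ∧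
          raagVal adj w * a = g ∧ w.length = n}.Nonempty := by
        obtain ⟨w, hw⟩ := raagVal_surj g
        exact ⟨w.length, w, 1, one_mem _, by rw [hw, mul_one], rfl⟩
      obtain ⟨w, a, ha, hw1, hw2⟩ := Nat.sInf_mem hne
      refine ⟨w, a, ha, hw1, fun w' a' ha' hw' => ?_⟩
      rw [hw2]
      exact Nat.sInf_le ⟨w', a', ha', hw', rfl⟩
    -- w pushes on all a • o
    have hmin : ∀ w' : List (V × Bool), raagVal adj w' = raagVal adj w →
        w.length ≤ w'.length := fun w' hw' => hwm w' a ha (by rw [hw', hwv])
    have hall := raag_min_all hsymm hmin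
    have hpush : ∀ b ∈ par adj σ, RaagAll adj w (raagHom hsymm hirr b o).1 := by
      intro b hb
      by_contra hcon
      obtain ⟨w1, v, e, w2, hw12, h2, h4⟩ := raag_not_all hcon
      rw [raagPw_eq] at h4
      rw [hw12] at hall
      have hall2 := (raagAll_of_append hall).2
      rw [raagPw_eq, List.append_nil] at hall2
      by_cases hst : raagStk adj v w2 = []
      · rw [hst, List.nil_append] at h4
        have hvσ : v ∈ σ := hD3 σ b hb ⟨!e, h4⟩
        have hcom := raag_commute_word (raag_empty_stk hst) e
        have hval : raagVal adj w = raagVal adj (w1 ++ w2) * raagLet adj (v, e) := by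
          rw [hw12, raagVal_append, raagVal_cons, hcom.eq, raagVal_append, mul_assoc]
        have hlet : raagLet adj (v, e) ∈ par adj σ := by
          have hz : zz adj v ∈ par adj σ := Subgroup.subset_closure ⟨v, hvσ, rfl⟩
          cases e with
          | false => exact inv_mem hz
          | true => exact hz
        have := hwm (w1 ++ w2) (raagLet adj (v, e) * a) (mul_mem hlet ha) (by
          rw [← mul_assoc, ← hval, hwv])
        rw [hw12] at this
        simp only [List.length_append, List.length_cons] at this
        omega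
      · apply hall2
        rw [← h4]
        cases hs : raagStk adj v w2 with
        | nil => exact absurd hs hst
        | cons c t => rfl
    -- heads
    have hhead : ∀ b ∈ par adj σ, ∀ x ∈ D (raagVal adj w * b),
        (x ∈ D (raagVal adj w)) ∨ (raagStk adj x w = [] ∧ x ∈ σ) := by
      intro b hb x hx
      obtain ⟨e, he⟩ := hx
      rw [map_mul, Equiv.Perm.mul_apply, raagHom_all hsymm hirr w _ (hpush b hb), raagPw_eq] at he
      by_cases hst : raagStk adj x w = []
      · right
        rw [hst, List.nil_append] at he
        exact ⟨hst, hD3 σ b hb ⟨e, he⟩⟩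
      · left
        refine ⟨e, ?_⟩
        rw [raagHom_all hsymm hirr w o hall, raagPw_eq]
        rw [← he]
        cases hs : raagStk adj x w with
        | nil => exact absurd hs hst
        | cons c t => rfl
    have hDw : ∀ x ∈ D (raagVal adj w), ∃ e, (x, e) ∈ w := by
      intro x hx
      obtain ⟨e, he⟩ := hx
      rw [raagHom_all hsymm hirr w o hall, raagPw_eq] at he
      have he2 : (raagStk adj x w).head? = some (some e) := by
        rw [← he]; simp [o]
      exact raag_mem_of_head he2
    have hg' : g' = raagVal adj w * (a * (g⁻¹ * g')) := by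
      rw [← mul_assoc, hwv]; group
    have hx' := hhead a ha x (by rw [hwv]; exact hx)
    have hy' := hhead (a * (g⁻¹ * g')) (mul_mem ha hgg) y (by rw [← hg']; exact hy)
    rcases hx' with hx' | ⟨hx1, hx2⟩ <;> rcases hy' with hy' | ⟨hy1, hy2⟩
    · by_contra hcon
      push Not at hcon
      obtain ⟨e, he⟩ := hx'
      obtain ⟨d, hd⟩ := hy'
      have := ((raagHom hsymm hirr (raagVal adj w) o).2.inv x e he).2 y (Ne.symm hcon.1)
        (fun h => hcon.2 (hsymm _ _ h))
      rw [hd] at this
      simp at this
    · obtain ⟨e, he⟩ := hDw x hx'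
      exact Or.inr (hsymm _ _ (raag_empty_stk hy1 _ he))
    · obtain ⟨e, he⟩ := hDw y hy'
      exact Or.inr (raag_empty_stk hx1 _ he)
    · exact hσ x hx2 y hy2

end Pool.Agent.GCW
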