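import Mathlib

/-!
# Right-angled Artin groups
-/

set_option autoImplicit false

namespace Pool.Agent.GCW

variable {V : Type} (adj : V → V → Prop)

/-- The relators of the right-angled Artin group. -/
def raagRels : Set (FreeGroup V) :=
  {r | ∃ u v, adj u v ∧ r =
    FreeGroup.of u * FreeGroup.of v * (FreeGroup.of u)⁻¹ * (FreeGroup.of v)⁻¹}

/-- The right-angled Artin group of the graph `(V, adj)`. -/
abbrev Raag : Type := PresentedGroup (raagRels adj)

/-- The generators. -/
def zz (v : V) : Raag adj := PresentedGroup.of v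

theorem zz_comm {u v : V} (h : adj u v) : Commute (zz adj u) (zz adj v) := by
  have h1 : PresentedGroup.mk (raagRels adj)
      (FreeGroup.of u * FreeGroup.of v * (FreeGroup.of u)⁻¹ * (FreeGroup.of v)⁻¹) = 1 :=
    PresentedGroup.one_of_mem ⟨u, v, h, rfl⟩
  rw [map_mul, map_mul, map_mul, map_inv, map_inv] at h1
  show zz adj u * zz adj v = zz adj v * zz adj u
  rw [mul_inv_eq_one, mul_inv_eq_iff_eq_mul] at h1
  exact h1

/-- The parabolic subgroup generated by a set of vertices. -/
def par (σ : Set V) : Subgroup (Raag adj) := Subgroup.closure (zz adj '' σ)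

/-- Cliques. -/
def IsClq (σ : Set V) : Prop := ∀ u ∈ σ, ∀ v ∈ σ, u = v ∨ adj u v

/-- The height homomorphism to `ℤ`. -/
def hgt : Raag adj →* Multiplicative ℤ :=
  PresentedGroup.toGroup (f := fun _ => Multiplicative.ofAdd (1 : ℤ)) (by
    rintro r ⟨u, v, -, rfl⟩
    simp)

theorem hgt_zz (v : V) : hgt adj (zz adj v) = Multiplicative.ofAdd (1 : ℤ) := by
  simp [hgt, zz]

end Pool.Agent.GCW
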